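import Pool.Agent.H352R5.HL.Disc

/-!
# Inner and outer factors; strictly concave weights
-/

namespace Pool.Agent.H352R5.HL

open MeasureTheory Set Filter Topology
open scoped ENNReal NNReal Real

variable {Ψ : ℝ → ℝ}

/-- `f = I O` with `I` inner and `O` outer. -/
structure IsFact (f I O : ℝ → ℂ) : Prop where
  meas : Measurable I
  norm : ∀ t, ‖I t‖ = 1
  four : Four I
  outer : Outer O
  eq : ∀ᵐ t ∂μT, f t = I t * O t

theorem exists_fact {f : ℝ → ℂ} (hm : Measurable f) (hi : Integrable f μT) (hF : Four f)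
    (hne : ¬ ∀ᵐ t ∂μT, f t = 0) : ∃ I O : ℝ → ℂ, IsFact f I O := by
  classical
  have hne' : ∀ᵐ t ∂μT, f t ≠ 0 := by
    by_contra hno
    have h1 : μT {t | f t = 0} ≠ 0 := by
      intro h2
      exact hno (measure_eq_zero_iff_ae_notMem.1 h2)
    exact hne (fU6 f hm hi hF h1)
  set w : ℝ → ℝ := fun t => if f t = 0 then 1 else ‖f t‖ with hw
  have hms : MeasurableSet {t | f t = 0} := hm (measurableSet_singleton 0)
  have hwm : Measurable w := Measurable.ite hms measurable_const hm.norm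
  have hwpos : ∀ t, 0 < w t := by
    intro t
    simp only [hw]
    split_ifs with h1
    · exact one_pos
    · exact norm_pos_iff.2 h1
  have hwe : ∀ᵐ t ∂μT, ‖f t‖ = w t := by
    filter_upwards [hne'] with t ht
    simp only [hw, if_neg ht]
  have hwi : Integrable w μT := hi.norm.congr hwe
  have hwl : Integrable (fun t => Real.log (w t)) μT := by
    refine (fLOGI f hm hi hF hne).congr ?_
    filter_upwards [hwe] with t ht
    rw [ht]
  obtain ⟨O, hO, hOw⟩ := fOUTEX w hwm hwpos hwi hwl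
  set I : ℝ → ℂ := fun t => if ‖f t / O t‖ = 1 then f t / O t else 1 with hI
  have hIm : Measurable I := by
    have h1 : Measurable fun t => f t / O t := hm.div hO.meas
    refine Measurable.ite ?_ h1 measurable_const
    exact h1.norm (measurableSet_singleton (1 : ℝ))
  have hIn : ∀ t, ‖I t‖ = 1 := by
    intro t
    simp only [hI]
    split_ifs with h1
    · exact h1
    · exact norm_one
  have hIO : ∀ᵐ t ∂μT, f t = I t * O t := by
    filter_upwards [hne', hwe, hOw] with t h1 h2 h3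
    have h4 : ‖O t‖ = ‖f t‖ := by rw [h3, h2]
    have h5 : O t ≠ 0 := by
      rw [← norm_pos_iff, h4, norm_pos_iff]
      exact h1
    have h6 : ‖f t / O t‖ = 1 := by
      rw [norm_div, h4, div_self]
      exact norm_ne_zero_iff.2 h1
    simp only [hI, if_pos h6]
    rw [div_mul_cancel₀ _ h5]
  refine ⟨I, O, hIm, hIn, ?_, hO, hIO⟩
  refine fBEU O hO I hIm ⟨1, fun t => (hIn t).le⟩ ?_
  refine hF.congr ?_
  filter_upwards [hIO] with t ht
  exact ht.symm

theorem IsFact.four_iff {f I O : ℝ → ℂ} (h : IsFact f I O) {k : ℝ → ℝ} (hk : Measurable k)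
    (hB : ∃ B : ℝ, ∀ t, |k t| ≤ B) :
    Four (fun t => (k t : ℂ) * f t) ↔ Four (fun t => (k t : ℂ) * I t) := by
  have hgm : Measurable fun t => (k t : ℂ) * I t := (Complex.measurable_ofReal.comp hk).mul h.meas
  have hgb : ∃ B : ℝ, ∀ t, ‖(k t : ℂ) * I t‖ ≤ B := by
    obtain ⟨B, hB⟩ := hB
    refine ⟨B, fun t => ?_⟩
    rw [norm_mul, Complex.norm_real, Real.norm_eq_abs, h.norm t, mul_one]
    exact hB t
  constructor
  · intro h1
    refine fBEU O h.outer _ hgm hgb ?_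
    refine h1.congr ?_
    filter_upwards [h.eq] with t ht
    rw [ht]
    ring
  · intro h1
    refine (fPROD _ O hgm hgb h1 h.outer.int h.outer.four).congr ?_
    filter_upwards [h.eq] with t ht
    rw [ht]
    ring

/-! ### Strictly concave weights -/

theorem bend_of_strict (hc : StrictConcaveOn ℝ (Icc 0 (2 * π)) Ψ) {s : ℝ} (h0 : 0 < s)
    (h1 : s < 2 * π) : Bend Ψ s := by
  refine ⟨h0, h1, fun ε hε => ?_⟩
  rintro ⟨a, b, hab⟩
  set δ := min (ε / 2) (min (s / 2) ((2 * π - s) / 2)) with hδ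
  have hδ0 : 0 < δ := lt_min (by linarith) (lt_min (by linarith) (by linarith))
  have d1 : δ ≤ ε / 2 := min_le_left _ _
  have d2 : δ ≤ s / 2 := (min_le_right _ _).trans (min_le_left _ _)
  have d3 : δ ≤ (2 * π - s) / 2 := (min_le_right _ _).trans (min_le_right _ _)
  have m1 : s - δ ∈ Icc 0 (2 * π) := ⟨by linarith, by linarith⟩
  have m2 : s + δ ∈ Icc 0 (2 * π) := ⟨by linarith, by linarith⟩
  have e1 := hab _ m1 (by rw [abs_lt]; constructor <;> linarith)
  have e2 := hab _ m2 (by rw [abs_lt]; constructor <;> linarith)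
  have e3 := hab s ⟨h0.le, h1.le⟩ (by simpa using hε)
  have h2 := hc.2 m1 m2 (by linarith) (show (0 : ℝ) < 1 / 2 by norm_num)
    (show (0 : ℝ) < 1 / 2 by norm_num) (by norm_num)
  simp only [smul_eq_mul] at h2
  have h3 : 1 / 2 * (s - δ) + 1 / 2 * (s + δ) = s := by ring
  rw [h3, e1, e2, e3] at h2
  linarith

theorem IsWt.strictMono (h : IsWt Ψ) (hc : StrictConcaveOn ℝ (Icc 0 (2 * π)) Ψ) :
    StrictMonoOn Ψ (Icc 0 (2 * π)) := by
  intro a ha b hb hab
  by_contra hle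
  rw [not_lt] at hle
  have h1 := h.mono ha hb hab.le
  have h2 := hc.2 ha hb hab.ne (show (0 : ℝ) < 1 / 2 by norm_num)
    (show (0 : ℝ) < 1 / 2 by norm_num) (by norm_num)
  simp only [smul_eq_mul] at h2
  have h3 : 1 / 2 * a + 1 / 2 * b ∈ Icc 0 (2 * π) := ⟨by linarith [ha.1, hb.1], by linarith [ha.2, hb.2]⟩
  have h4 := h.mono h3 hb (by linarith)
  linarith

/-- **Characterisation of the extreme points** for strictly concave weights. -/
theorem extr_iff_phi (h : IsWt Ψ) (hc : StrictConcaveOn ℝ (Icc 0 (2 * π)) Ψ) (f : ℝ → ℂ) :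
    Extr Ψ f ↔ InH Ψ f ∧ lor Ψ (fun t => ‖f t‖) = 1 ∧
      ∀ k : ℝ → ℝ, Measurable k → (∃ B : ℝ, ∀ t, |k t| ≤ B) → Four (fun t => (k t : ℂ) * f t) →
        (∃ (φ : ℝ → ℝ) (C : ℝ), (∀ p q, |φ p - φ q| ≤ C * |p - q|) ∧
          ∀ᵐ t ∂μT, k t * ‖f t‖ = φ ‖f t‖) →
        ∃ c : ℝ, ∀ᵐ t ∂μT, k t = c := by
  have hs := h.strictMono hc
  have hpos := h.pos_of_strict hs
  rw [extr_iff h hs]
  constructor
  · rintro ⟨h1, h2, h3⟩
    refine ⟨h1, h2, ?_⟩
    rintro k hk hB hF ⟨φ, C, hφ, hv⟩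
    have hC : 0 ≤ C := by
      have := (abs_nonneg _).trans (hφ 1 0)
      simpa using this
    have hlip : ∀ p q, q ≤ p → |φ p - φ q| ≤ C * (p - q) := by
      intro p q hqp
      have := hφ p q
      rwa [abs_of_nonneg (sub_nonneg.2 hqp)] at this
    obtain ⟨c, hc'⟩ := h3 k hk hB hF ⟨C, by
      constructor
      · intro s hsB
        obtain ⟨E, hE, hT, hm⟩ := exists_top h1.meas.norm (fun t => norm_nonneg _) hsB.1.le
          hsB.2.1.le
        refine ⟨E, hE, hm, ?_⟩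
        filter_upwards [hT, hv] with t h4 h5 h6
        filter_upwards [h4 h6, hv] with t' h7 h8 h9
        have h10 := h7 h9
        refine ⟨h10, ?_⟩
        rw [h5, h8]
        exact hlip _ _ h10
      · intro hk'
        have hMx : Mx (fun t => ‖f t‖) ≠ ∞ := by
          intro h4
          have h5 := h.lor_eq (fun t => ‖f t‖)
          have hk2 : ENNReal.ofReal (kap Ψ) ≠ 0 := by
            rw [Ne, ENNReal.ofReal_eq_zero, not_le]
            exact hk'
          rw [h4, ENNReal.mul_top hk2, top_add] at h5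
          exact h1.fin h5
        have hMe : Mx (fun t => ‖f t‖) = ENNReal.ofReal (Mx (fun t => ‖f t‖)).toReal :=
          (ENNReal.ofReal_toReal hMx).symm
        have hM1 := (Mx_le_iff ENNReal.toReal_nonneg).1 hMe.le
        refine ⟨(Mx (fun t => ‖f t‖)).toReal, φ (Mx (fun t => ‖f t‖)).toReal, hM1, ?_, ?_⟩
        · intro M' hM'
          have := neBot_μT
          have hM0 : 0 ≤ M' := by
            obtain ⟨t, ht⟩ := hM'.exists
            exact (norm_nonneg _).trans ht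
          have h4 := (Mx_le_iff hM0).2 hM'
          rw [hMe] at h4
          exact (ENNReal.ofReal_le_ofReal_iff hM0).1 h4
        · filter_upwards [hM1, hv] with t h4 h5
          rw [h5, abs_sub_comm]
          exact hlip _ _ h4⟩
    refine ⟨c, ?_⟩
    filter_upwards [hc', h1.ne_zero fU6 h hpos h2] with t h4 h5
    have h6 := mul_right_cancel₀ h5 h4
    exact_mod_cast h6
  · rintro ⟨h1, h2, h3⟩
    refine ⟨h1, h2, ?_⟩
    rintro k hk hB hF ⟨C, hS1, -⟩
    obtain ⟨φ, hφ1, hφ2⟩ := tSCG (2 * π) |C| univ (fun t => ‖f t‖) (fun t => k t * ‖f t‖)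
      two_pi_pos.le (abs_nonneg C) MeasurableSet.univ μT_univ h1.meas.norm
      (hk.mul h1.meas.norm) (fun s hs0 hs1 => by
        obtain ⟨E, a1, a2, a3⟩ := hS1 s (bend_of_strict hc hs0 hs1)
        refine ⟨E, subset_univ _, a1, a2, ?_⟩
        filter_upwards [a3] with t a4 a5
        filter_upwards [a4 a5] with t' a6 a7
        obtain ⟨b1, b2⟩ := a6 a7.2
        refine ⟨b1, b2.trans ?_⟩
        exact mul_le_mul_of_nonneg_right (le_abs_self C) (by linarith))
    obtain ⟨c, hc'⟩ := h3 k hk hB hF ⟨φ, |C|, hφ1, by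
      filter_upwards [hφ2] with t ht
      exact ht (mem_univ t)⟩
    refine ⟨c, ?_⟩
    filter_upwards [hc'] with t ht
    rw [ht]

/-! ### The final form -/

/-- The characterisation for analytic functions on the disc. -/
theorem main (h : IsWt Ψ) (hpos : 0 < Ψ (2 * π)) {F : ℂ → ℂ} (hF : InHL h F) :
    (∃ f : ℝ → ℂ, Measurable f ∧ Bdry F f) ∧
    ∀ f : ℝ → ℂ, Measurable f → Bdry F f →
      (HN h F = 1 → ∃ I O : ℝ → ℂ, IsFact f I O) ∧
      (ExtrD h F ↔ HN h F = 1 ∧ ∀ (G : ℂ → ℂ) (g : ℝ → ℂ), InHL h G → Measurable g → Bdry G g →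
        Pert Ψ f g → ∃ c : ℝ, ∀ z ∈ Metric.ball (0 : ℂ) 1, G z = (c : ℂ) * F z) ∧
      (∀ I O : ℝ → ℂ, IsFact f I O →
        (StrictMonoOn Ψ (Icc 0 (2 * π)) →
          (ExtrD h F ↔ HN h F = 1 ∧ ∀ k : ℝ → ℝ, Measurable k → (∃ B : ℝ, ∀ t, |k t| ≤ B) →
            Four (fun t => (k t : ℂ) * I t) →
            (∃ C : ℝ, Lev Ψ C (fun t => ‖f t‖) (fun t => k t * ‖f t‖)) →
            ∃ c : ℝ, ∀ᵐ t ∂μT, k t = c)) ∧
        (StrictConcaveOn ℝ (Icc 0 (2 * π)) Ψ →
          (ExtrD h F ↔ HN h F = 1 ∧ ∀ k : ℝ → ℝ, Measurable k → (∃ B : ℝ, ∀ t, |k t| ≤ B) →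
            Four (fun t => (k t : ℂ) * I t) →
            (∃ (φ : ℝ → ℝ) (C : ℝ), (∀ p q, |φ p - φ q| ≤ C * |p - q|) ∧
              ∀ᵐ t ∂μT, k t * ‖f t‖ = φ ‖f t‖) →
            ∃ c : ℝ, ∀ᵐ t ∂μT, k t = c))) := by
  constructor
  · obtain ⟨f, hf, hB, -⟩ := exists_bdry h hpos hF
    exact ⟨f, hf.meas, hB⟩
  intro f hf hB
  obtain ⟨hfH, hN⟩ := HN_bdry h hpos hF hf hB
  have hfi := hfH.integrable h hpos
  refine ⟨?_, ?_, ?_⟩
  · intro h1
    refine exists_fact hf hfi hfH.four ?_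
    intro h2
    have h3 : lor Ψ (fun t => ‖f t‖) = lor Ψ (fun _ => 0) := by
      refine h.lor_congr ?_
      filter_upwards [h2] with t ht
      rw [ht, norm_zero]
    rw [← hN, h1, lor_zero h] at h3
    exact one_ne_zero h3
  · rw [extrD_iff h hpos hF hf hB, extr_iff_pert fU6 h hpos, hN]
    constructor
    · rintro ⟨-, h2, h3⟩
      refine ⟨h2, ?_⟩
      intro G g hG hg hBg hP
      obtain ⟨hgH, -⟩ := HN_bdry h hpos hG hg hBg
      obtain ⟨c, hc⟩ := h3 g hgH hP
      refine ⟨c, ?_⟩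
      exact eq_of_bdry hG.1 (hF.1.const_mul (c : ℂ)) (hgH.integrable h hpos) (hfi.const_mul (c : ℂ))
        hBg (Bdry.smul (c : ℂ) hB) hc
    · rintro ⟨h2, h3⟩
      refine ⟨hfH, h2, ?_⟩
      intro g hgH hP
      obtain ⟨G, hG, hBg, -⟩ := exists_ext h hpos hgH
      obtain ⟨c, hc⟩ := h3 G g hG hgH.meas hBg hP
      refine ⟨c, ?_⟩
      have h4 : Bdry G (fun t => (c : ℂ) * f t) := by
        refine Tendsto.congr' ?_ (Bdry.smul (c : ℂ) hB)
        filter_upwards [nhds_Ioo] with r hr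
        refine lintegral_congr fun t => ?_
        rw [hc _ (circ_mem hr.1.le hr.2 t)]
      exact Bdry.unique hG.1 hgH.meas (hf.const_mul _) hBg h4
  · intro I O hIO
    constructor
    · intro hs
      rw [extrD_iff h hpos hF hf hB, extr_iff_lev fU6 h hs, hN]
      constructor
      · rintro ⟨-, h2, h3⟩
        exact ⟨h2, fun k hk hkb h4 h5 => h3 k hk hkb ((hIO.four_iff hk hkb).2 h4) h5⟩
      · rintro ⟨h2, h3⟩
        exact ⟨hfH, h2, fun k hk hkb h4 h5 => h3 k hk hkb ((hIO.four_iff hk hkb).1 h4) h5⟩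
    · intro hc
      rw [extrD_iff h hpos hF hf hB, extr_iff_phi h hc, hN]
      constructor
      · rintro ⟨-, h2, h3⟩
        exact ⟨h2, fun k hk hkb h4 h5 => h3 k hk hkb ((hIO.four_iff hk hkb).2 h4) h5⟩
      · rintro ⟨h2, h3⟩
        exact ⟨hfH, h2, fun k hk hkb h4 h5 => h3 k hk hkb ((hIO.four_iff hk hkb).1 h4) h5⟩

end Pool.Agent.H352R5.HL
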