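import Pool.Agent.H352R5.HL.Facts

/-!
# The Hardy–Lorentz space of analytic functions on the disc
-/

namespace Pool.Agent.H352R5.HL

open MeasureTheory Set Filter Topology
open scoped ENNReal NNReal Real

variable {Ψ : ℝ → ℝ}

/-- The norm of the Hardy–Lorentz space: the supremum over `0 < r < 1` of the norm of
`e^{it} ↦ F (r e^{it})` in the Lorentz space. -/
noncomputable def HN (h : IsWt Ψ) (F : ℂ → ℂ) : ℝ≥0∞ :=
  ⨆ r ∈ Ioo (0 : ℝ) 1, h.norm (fun t => ‖F (circ r t)‖)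

/-- `F` belongs to the Hardy–Lorentz space. -/
def InHL (h : IsWt Ψ) (F : ℂ → ℂ) : Prop :=
  DifferentiableOn ℂ F (Metric.ball 0 1) ∧ HN h F < ∞

/-- `F` is an extreme point of the closed unit ball of the Hardy–Lorentz space. -/
def ExtrD (h : IsWt Ψ) (F : ℂ → ℂ) : Prop :=
  (InHL h F ∧ HN h F ≤ 1) ∧ ∀ G₁ G₂ : ℂ → ℂ, InHL h G₁ ∧ HN h G₁ ≤ 1 → InHL h G₂ ∧ HN h G₂ ≤ 1 →
    (∀ z ∈ Metric.ball (0 : ℂ) 1, F z = (G₁ z + G₂ z) / 2) →
    ∀ z ∈ Metric.ball (0 : ℂ) 1, G₁ z = G₂ z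

theorem circ_cont (r : ℝ) : Continuous (circ r) := by
  unfold circ
  fun_prop

theorem circ_norm {r : ℝ} (hr : 0 ≤ r) (t : ℝ) : ‖circ r t‖ = r := by
  unfold circ
  rw [norm_mul, Complex.norm_real, Real.norm_eq_abs, abs_of_nonneg hr, Complex.norm_exp]
  simp

theorem circ_mem {r : ℝ} (hr : 0 ≤ r) (hr1 : r < 1) (t : ℝ) : circ r t ∈ Metric.ball (0 : ℂ) 1 := by
  rw [mem_ball_zero_iff, circ_norm hr]
  exact hr1

/-- every point of the disc is a point of a circle -/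
theorem exists_circ {z : ℂ} (hz : z ∈ Metric.ball (0 : ℂ) 1) :
    ∃ r t : ℝ, 0 ≤ r ∧ r < 1 ∧ z = circ r t := by
  refine ⟨‖z‖, Complex.arg z, norm_nonneg _, by simpa using hz, ?_⟩
  unfold circ
  rw [mul_comm Complex.I]
  exact (Complex.norm_mul_exp_arg_mul_I z).symm

theorem cont_on_circ {F : ℂ → ℂ} (hF : DifferentiableOn ℂ F (Metric.ball 0 1)) {r : ℝ}
    (hr : 0 ≤ r) (hr1 : r < 1) : Continuous fun t => F (circ r t) :=
  hF.continuousOn.comp_continuous (circ_cont r) (circ_mem hr hr1)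

theorem HN_eq (h : IsWt Ψ) {F : ℂ → ℂ} (hF : DifferentiableOn ℂ F (Metric.ball 0 1)) :
    HN h F = ⨆ r ∈ Ioo (0 : ℝ) 1, lor Ψ (fun t => ‖F (circ r t)‖) := by
  unfold HN
  refine iSup_congr fun r => iSup_congr fun hr => ?_
  rw [tA1 Ψ h _ (cont_on_circ hF hr.1.le hr.2).norm.measurable]
  simp only [abs_norm]

theorem nhds_Ioo : ∀ᶠ r : ℝ in 𝓝[<] (1 : ℝ), r ∈ Ioo (0 : ℝ) 1 := Ioo_mem_nhdsLT one_pos

/-- Uniqueness of the boundary function. -/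
theorem Bdry.unique {F : ℂ → ℂ} {f g : ℝ → ℂ} (hF : DifferentiableOn ℂ F (Metric.ball 0 1))
    (hf : Measurable f) (hg : Measurable g) (h1 : Bdry F f) (h2 : Bdry F g) :
    ∀ᵐ t ∂μT, f t = g t := by
  have h3 : Tendsto (fun r : ℝ => ∫⁻ t, ‖F (circ r t) - f t‖ₑ ∂μT + ∫⁻ t, ‖F (circ r t) - g t‖ₑ ∂μT)
      (𝓝[<] 1) (𝓝 (0 + 0)) := h1.add h2
  have h4 : ∫⁻ t, ‖f t - g t‖ₑ ∂μT ≤ 0 + 0 := by
    refine ge_of_tendsto h3 ?_
    filter_upwards [nhds_Ioo] with r hr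
    rw [← lintegral_add_left]
    · refine lintegral_mono fun t => ?_
      have h5 : f t - g t = -(F (circ r t) - f t) + (F (circ r t) - g t) := by ring
      rw [h5]
      refine (enorm_add_le _ _).trans ?_
      rw [enorm_neg]
    · exact ((cont_on_circ hF hr.1.le hr.2).measurable.sub hf).enorm
  rw [add_zero] at h4
  have h5 : ∫⁻ t, ‖f t - g t‖ₑ ∂μT = 0 := le_antisymm h4 bot_le
  have h6 := (lintegral_eq_zero_iff (hf.sub hg).enorm).1 h5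
  filter_upwards [h6] with t ht
  exact sub_eq_zero.1 (enorm_eq_zero.1 ht)

theorem Bdry.congr {F : ℂ → ℂ} {f g : ℝ → ℂ} (h1 : Bdry F f) (h : ∀ᵐ t ∂μT, f t = g t) :
    Bdry F g := by
  refine Tendsto.congr (fun r => ?_) h1
  refine lintegral_congr_ae ?_
  filter_upwards [h] with t ht
  rw [ht]

theorem Bdry.avg {F G : ℂ → ℂ} {f g : ℝ → ℂ} (hF : DifferentiableOn ℂ F (Metric.ball 0 1))
    (hf : Measurable f) (h1 : Bdry F f) (h2 : Bdry G g) :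
    Bdry (fun z => (F z + G z) / 2) (fun t => (f t + g t) / 2) := by
  have h3 : Tendsto (fun r : ℝ => ∫⁻ t, ‖F (circ r t) - f t‖ₑ ∂μT + ∫⁻ t, ‖G (circ r t) - g t‖ₑ ∂μT)
      (𝓝[<] 1) (𝓝 (0 + 0)) := h1.add h2
  rw [add_zero] at h3
  refine tendsto_of_tendsto_of_tendsto_of_le_of_le' tendsto_const_nhds h3
    (Filter.Eventually.of_forall fun r => bot_le) ?_
  filter_upwards [nhds_Ioo] with r hr
  rw [← lintegral_add_left]
  · refine lintegral_mono fun t => ?_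
    have h5 : (F (circ r t) + G (circ r t)) / 2 - (f t + g t) / 2
        = (2⁻¹ : ℂ) * ((F (circ r t) - f t) + (G (circ r t) - g t)) := by ring
    show ‖(F (circ r t) + G (circ r t)) / 2 - (f t + g t) / 2‖ₑ ≤ _
    rw [h5, enorm_mul]
    refine le_trans ?_ (enorm_add_le _ _)
    refine mul_le_of_le_one_left bot_le ?_
    rw [← ofReal_norm_eq_enorm, norm_inv]
    rw [show ‖(2 : ℂ)‖ = 2 by simp]
    rw [ENNReal.ofReal_le_one]
    norm_num
  · exact ((cont_on_circ hF hr.1.le hr.2).measurable.sub hf).enorm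

theorem Bdry.smul {F : ℂ → ℂ} {f : ℝ → ℂ} (c : ℂ) (h1 : Bdry F f) :
    Bdry (fun z => c * F z) (fun t => c * f t) := by
  have h3 : Tendsto (fun r : ℝ => ‖c‖ₑ * ∫⁻ t, ‖F (circ r t) - f t‖ₑ ∂μT)
      (𝓝[<] 1) (𝓝 (‖c‖ₑ * 0)) := ENNReal.Tendsto.const_mul h1 (Or.inr enorm_ne_top)
  rw [mul_zero] at h3
  refine Tendsto.congr (fun r => ?_) h3
  rw [← lintegral_const_mul' _ _ enorm_ne_top]
  refine lintegral_congr fun t => ?_
  rw [← enorm_mul, mul_sub]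

/-- Functions with the same boundary function agree. -/
theorem eq_of_bdry {F G : ℂ → ℂ} {f g : ℝ → ℂ} (hF : DifferentiableOn ℂ F (Metric.ball 0 1))
    (hG : DifferentiableOn ℂ G (Metric.ball 0 1)) (hf : Integrable f μT) (hg : Integrable g μT)
    (h1 : Bdry F f) (h2 : Bdry G g) (h : ∀ᵐ t ∂μT, f t = g t) :
    ∀ z ∈ Metric.ball (0 : ℂ) 1, F z = G z := by
  intro z hz
  obtain ⟨r, t, hr, hr1, rfl⟩ := exists_circ hz
  rw [tP2 F f hF hf h1 r hr hr1 t, tP2 G g hG hg h2 r hr hr1 t]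
  unfold PI
  refine integral_congr_ae ?_
  filter_upwards [h] with θ hθ
  rw [hθ]

/-- The boundary function of a function of the Hardy–Lorentz space. -/
theorem exists_bdry (h : IsWt Ψ) (hpos : 0 < Ψ (2 * π)) {F : ℂ → ℂ} (hF : InHL h F) :
    ∃ f : ℝ → ℂ, InH Ψ f ∧ Bdry F f ∧ HN h F = lor Ψ (fun t => ‖f t‖) := by
  obtain ⟨hd, hfin⟩ := hF
  have hfin' := hfin
  rw [HN_eq h hd] at hfin'
  set S := ⨆ r ∈ Ioo (0 : ℝ) 1, lor Ψ (fun t => ‖F (circ r t)‖) with hS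
  have hbd : ∃ M : ℝ, ∀ r ∈ Ioo (0 : ℝ) 1, ∫⁻ t, ‖F (circ r t)‖ₑ ∂μT ≤ ENNReal.ofReal M := by
    refine ⟨(ENNReal.ofReal (2 * π / Ψ (2 * π)) * S).toReal, fun r hr => ?_⟩
    rw [ENNReal.ofReal_toReal (ENNReal.mul_ne_top ENNReal.ofReal_ne_top hfin'.ne)]
    have h1 := h.int_le_lor hpos (x := fun t => ‖F (circ r t)‖)
      (cont_on_circ hd hr.1.le hr.2).norm.measurable (fun t => norm_nonneg _)
    have h2 : ∫⁻ t, ‖F (circ r t)‖ₑ ∂μT = ∫⁻ t, ENNReal.ofReal ‖F (circ r t)‖ ∂μT :=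
      lintegral_congr fun t => (ofReal_norm_eq_enorm _).symm
    rw [h2]
    refine h1.trans (mul_le_mul_right ?_ _)
    exact le_iSup₂_of_le r hr le_rfl
  obtain ⟨f, hfm, hfi, hB⟩ := fR8 F hd hbd
  have hN := fN1 Ψ h hpos F f hd hfm hfi hB
  refine ⟨f, ⟨hfm, ?_, tB5 F f hd hfi hB⟩, hB, ?_⟩
  · rw [← hN]
    exact hfin'.ne
  · rw [HN_eq h hd, hN]

/-- Every boundary function comes from a function of the Hardy–Lorentz space. -/
theorem exists_ext (h : IsWt Ψ) (hpos : 0 < Ψ (2 * π)) {f : ℝ → ℂ} (hf : InH Ψ f) :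
    ∃ F : ℂ → ℂ, InHL h F ∧ Bdry F f ∧ HN h F = lor Ψ (fun t => ‖f t‖) := by
  have hfi := hf.integrable h hpos
  obtain ⟨F, hd, hF⟩ := tB2a f hfi hf.four
  have hB : Bdry F f := by
    refine Tendsto.congr' ?_ (fB2b f hfi)
    filter_upwards [nhds_Ioo] with r hr
    refine lintegral_congr fun t => ?_
    rw [hF r hr.1.le hr.2 t]
  have hN := fN1 Ψ h hpos F f hd hf.meas hfi hB
  have hN2 : HN h F = lor Ψ (fun t => ‖f t‖) := by rw [HN_eq h hd, hN]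
  refine ⟨F, ⟨hd, ?_⟩, hB, hN2⟩
  rw [hN2]
  exact hf.fin.lt_top

/-- The norm is the norm of the boundary function. -/
theorem HN_bdry (h : IsWt Ψ) (hpos : 0 < Ψ (2 * π)) {F : ℂ → ℂ} {f : ℝ → ℂ} (hF : InHL h F)
    (hf : Measurable f) (hB : Bdry F f) : InH Ψ f ∧ HN h F = lor Ψ (fun t => ‖f t‖) := by
  obtain ⟨g, hg, hBg, hN⟩ := exists_bdry h hpos hF
  have hae := Bdry.unique hF.1 hf hg.meas hB hBg
  have h1 : lor Ψ (fun t => ‖f t‖) = lor Ψ (fun t => ‖g t‖) := by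
    refine h.lor_congr ?_
    filter_upwards [hae] with t ht
    rw [ht]
  refine ⟨⟨hf, ?_, hg.four.congr hae⟩, by rw [h1, hN]⟩
  rw [h1]
  exact hg.fin

/-- Extreme points of the ball of analytic functions correspond to extreme points of the ball of
boundary functions. -/
theorem extrD_iff (h : IsWt Ψ) (hpos : 0 < Ψ (2 * π)) {F : ℂ → ℂ} {f : ℝ → ℂ} (hF : InHL h F)
    (hf : Measurable f) (hB : Bdry F f) : ExtrD h F ↔ Extr Ψ f := by
  obtain ⟨hfH, hN⟩ := HN_bdry h hpos hF hf hB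
  constructor
  · rintro ⟨⟨-, h1⟩, h2⟩
    refine ⟨⟨hfH, by rw [← hN]; exact h1⟩, ?_⟩
    intro g₁ g₂ hg₁ hg₂ hmid
    obtain ⟨G₁, a1, a2, a3⟩ := exists_ext h hpos hg₁.1
    obtain ⟨G₂, b1, b2, b3⟩ := exists_ext h hpos hg₂.1
    have h3 : Bdry (fun z => (G₁ z + G₂ z) / 2) (fun t => (g₁ t + g₂ t) / 2) :=
      Bdry.avg a1.1 hg₁.1.meas a2 b2
    have hd : DifferentiableOn ℂ (fun z => (G₁ z + G₂ z) / 2) (Metric.ball 0 1) :=
      (a1.1.add b1.1).div_const 2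
    have hi : Integrable (fun t => (g₁ t + g₂ t) / 2) μT :=
      ((hg₁.1.integrable h hpos).add (hg₂.1.integrable h hpos)).div_const 2
    have h4 := eq_of_bdry hF.1 hd (hfH.integrable h hpos) hi hB h3 hmid
    have h5 := h2 G₁ G₂ ⟨a1, by rw [a3]; exact hg₁.2⟩ ⟨b1, by rw [b3]; exact hg₂.2⟩ h4
    have h6 : Bdry G₁ g₂ := by
      refine Tendsto.congr' ?_ b2
      filter_upwards [nhds_Ioo] with r hr
      refine lintegral_congr fun t => ?_
      rw [h5 _ (circ_mem hr.1.le hr.2 t)]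
    exact Bdry.unique a1.1 hg₁.1.meas hg₂.1.meas a2 h6
  · rintro ⟨h1, h2⟩
    refine ⟨⟨hF, by rw [hN]; exact h1.2⟩, ?_⟩
    intro G₁ G₂ hG₁ hG₂ hmid
    obtain ⟨g₁, a1, a2, a3⟩ := exists_bdry h hpos hG₁.1
    obtain ⟨g₂, b1, b2, b3⟩ := exists_bdry h hpos hG₂.1
    have h3 : Bdry (fun z => (G₁ z + G₂ z) / 2) (fun t => (g₁ t + g₂ t) / 2) :=
      Bdry.avg hG₁.1.1 a1.meas a2 b2
    have h4 : Bdry F (fun t => (g₁ t + g₂ t) / 2) := by
      refine Tendsto.congr' ?_ h3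
      filter_upwards [nhds_Ioo] with r hr
      refine lintegral_congr fun t => ?_
      rw [hmid _ (circ_mem hr.1.le hr.2 t)]
    have h5 := Bdry.unique hF.1 hf ((a1.meas.add b1.meas).div_const 2) hB h4
    have h6 := h2 g₁ g₂ ⟨a1, by rw [← a3]; exact hG₁.2⟩ ⟨b1, by rw [← b3]; exact hG₂.2⟩ h5
    exact eq_of_bdry hG₁.1.1 hG₂.1.1 (a1.integrable h hpos) (b1.integrable h hpos) a2 b2 h6

end Pool.Agent.H352R5.HL
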