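import Pool.Agent.H352R5.HL.Stubs

namespace Pool.Agent.H352R5.HL

open MeasureTheory Set Filter Topology
open scoped ENNReal NNReal Real

theorem tR5x : S_R5 := by
  intro a b M ha hb z hz
  refine tendsto_tsum_of_dominated_convergence (bound := fun n => Real.sqrt M * ‖z‖ ^ n) ?_ ?_ ?_
  · exact (summable_geometric_of_lt_one (norm_nonneg _) hz).mul_left _
  · intro n
    exact (hb n).mul_const _
  · refine Filter.Eventually.of_forall fun k n => ?_
    rw [norm_mul, norm_pow]
    have h1 : ‖a k n‖ ^ 2 ≤ M := by
      refine le_trans ?_ (ha k (n + 1))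
      exact Finset.single_le_sum (f := fun n => ‖a k n‖ ^ 2) (fun i _ => by positivity)
        (Finset.mem_range.2 (Nat.lt_succ_self n))
    have h2 : ‖a k n‖ ≤ Real.sqrt M := Real.le_sqrt_of_sq_le h1
    exact mul_le_mul_of_nonneg_right h2 (by positivity)

end Pool.Agent.H352R5.HL
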