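import Pool.Agent.H352R5.HL.Stubs2

/-!
# More statements: factorisation, finite Blaschke products
-/

namespace Pool.Agent.H352R5.HL

open MeasureTheory Set Filter Topology
open scoped ENNReal NNReal Real

/-- LOGI (from U4, U5) -/
def S_LOGI : Prop := ∀ f : ℝ → ℂ, Measurable f → Integrable f μT → Four f →
  ¬ (∀ᵐ t ∂μT, f t = 0) → Integrable (fun t => Real.log ‖f t‖) μT

/-- OUTEX (from P1, P2, B2b, B5, R8) -/
def S_OUTEX : Prop := ∀ w : ℝ → ℝ, Measurable w → (∀ t, 0 < w t) → Integrable w μT →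
  Integrable (fun t => Real.log (w t)) μT → ∃ F : ℝ → ℂ, Outer F ∧ ∀ᵐ t ∂μT, ‖F t‖ = w t

/-- The finite Blaschke product with zeros `a j`, on the circle. -/
noncomputable def blaschke {n : ℕ} (a : Fin n → ℂ) (t : ℝ) : ℂ :=
  ∏ j, (Complex.exp (Complex.I * t) - a j) / (1 - (starRingEnd ℂ) (a j) * Complex.exp (Complex.I * t))

/-- FBP (from POLY, PROD) -/
def S_FBP : Prop := ∀ (n : ℕ) (a : Fin n → ℂ), (∀ j, ‖a j‖ < 1) → ∀ k : ℝ → ℝ, Measurable k →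
  (∃ B : ℝ, ∀ t, |k t| ≤ B) →
  (Four (fun t => (k t : ℂ) * blaschke a t) ↔ ∃ α β : ℕ → ℝ, ∀ᵐ t ∂μT,
    k t * ∏ j, ‖1 - (starRingEnd ℂ) (a j) * Complex.exp (Complex.I * t)‖ ^ 2
      = α 0 + ∑ m ∈ Finset.Icc 1 n, (α m * Real.cos (m * t) + β m * Real.sin (m * t)))

end Pool.Agent.H352R5.HL
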