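import Pool.Agent.H352R5.HL.Stubs

/-!
# Task A1 (helper702): the Lorentz norm is the Stieltjes integral of the rearrangement
-/

namespace Pool.Agent.H352R5.HL

open MeasureTheory Set Filter Topology
open scoped ENNReal NNReal Real

namespace A1

theorem vol_eq (a : ℝ≥0∞) : volume ({τ : ℝ | ENNReal.ofReal τ < a} ∩ Ioi 0) = a := by
  by_cases ha : a = ∞
  · subst ha
    have : {τ : ℝ | ENNReal.ofReal τ < ∞} ∩ Ioi 0 = Ioi 0 := by
      ext τ; simp
    rw [this, Real.volume_Ioi]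
  · have h1 : {τ : ℝ | ENNReal.ofReal τ < a} ∩ Ioi 0 = Ioo 0 a.toReal := by
      ext τ
      simp only [mem_inter_iff, mem_ofPred_eq, mem_Ioi, mem_Ioo]
      constructor
      · rintro ⟨h, h0⟩
        exact ⟨h0, (ENNReal.ofReal_lt_iff_lt_toReal h0.le ha).1 h⟩
      · rintro ⟨h0, h⟩
        exact ⟨(ENNReal.ofReal_lt_iff_lt_toReal h0.le ha).2 h, h0⟩
    rw [h1, Real.volume_Ioo, sub_zero, ENNReal.ofReal_toReal ha]

theorem dis_right (x : ℝ → ℝ) (τ : ℝ) (c : ℝ≥0∞) (h : c < dis x τ) :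
    ∃ τ' : ℝ, τ < τ' ∧ c < dis x τ' := by
  have h1 : {t | τ < x t} = ⋃ n : ℕ, {t | τ + 1 / ((n : ℝ) + 1) < x t} := by
    ext t
    simp only [mem_ofPred_eq, mem_iUnion]
    constructor
    · intro ht
      obtain ⟨n, hn⟩ := exists_nat_one_div_lt (sub_pos.2 ht)
      exact ⟨n, by linarith⟩
    · rintro ⟨n, hn⟩
      have : (0 : ℝ) < 1 / ((n : ℝ) + 1) := by positivity
      linarith
  have hm : Monotone (fun n : ℕ => {t | τ + 1 / ((n : ℝ) + 1) < x t}) := by
    intro n m hnm t ht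
    simp only [mem_ofPred_eq] at ht ⊢
    have : 1 / ((m : ℝ) + 1) ≤ 1 / ((n : ℝ) + 1) := by
      apply one_div_le_one_div_of_le (by positivity)
      have : (n : ℝ) ≤ m := by exact_mod_cast hnm
      linarith
    linarith
  unfold dis at h
  rw [h1, hm.measure_iUnion, lt_iSup_iff] at h
  obtain ⟨n, hn⟩ := h
  exact ⟨τ + 1 / ((n : ℝ) + 1), by
    have : (0 : ℝ) < 1 / ((n : ℝ) + 1) := by positivity
    linarith, hn⟩

theorem lt_rearr (x : ℝ → ℝ) (s τ : ℝ) (hτ : 0 < τ) :
    ENNReal.ofReal τ < rearr x s ↔ ENNReal.ofReal s < dis (fun t => |x t|) τ := by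
  constructor
  · intro h
    by_contra hcon
    rw [not_lt] at hcon
    apply lt_irrefl (ENNReal.ofReal τ)
    refine lt_of_lt_of_le h (sInf_le ?_)
    simp only [mem_ofPred_eq]
    refine le_trans (measure_mono ?_) hcon
    intro t ht
    simp only [mem_ofPred_eq] at ht ⊢
    by_contra hle
    rw [not_lt] at hle
    exact absurd (ENNReal.ofReal_le_ofReal hle) (not_le.2 ht)
  · intro h
    obtain ⟨τ', h1, h2⟩ := dis_right _ _ _ h
    refine lt_of_lt_of_le ((ENNReal.ofReal_lt_ofReal_iff (hτ.trans h1)).2 h1) (le_sInf ?_)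
    intro σ hσ
    simp only [mem_ofPred_eq] at hσ
    by_contra hcon
    rw [not_le] at hcon
    apply absurd hσ
    rw [not_le]
    refine lt_of_lt_of_le h2 (measure_mono ?_)
    intro t ht
    simp only [mem_ofPred_eq] at ht ⊢
    exact hcon.trans_le (ENNReal.ofReal_le_ofReal ht.le)

theorem st_neg {Ψ : ℝ → ℝ} (h : IsWt Ψ) : Function.leftLim h.psiExt_mono.stieltjesFunction 0 = 0 := by
  have h1 := h.psiExt_mono.stieltjesFunction.mono.tendsto_leftLim 0
  have h2 : Tendsto (h.psiExt_mono.stieltjesFunction) (𝓝[<] (0 : ℝ)) (𝓝 0) := by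
    refine tendsto_const_nhds.congr' ?_
    filter_upwards [self_mem_nhdsWithin] with y hy
    have hy' : y < 0 := hy
    rw [Monotone.stieltjesFunction_eq]
    apply le_antisymm
    · have := h.psiExt_mono.le_rightLim (le_refl y)
      refine le_trans ?_ this
      unfold psiExt
      rw [if_pos hy'.le]
    · have := h.psiExt_mono.rightLim_le (show y < y / 2 by linarith)
      refine le_trans this ?_
      unfold psiExt
      rw [if_pos (by linarith)]
  exact tendsto_nhds_unique h1 h2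

theorem st_pos {Ψ : ℝ → ℝ} (h : IsWt Ψ) {d : ℝ} (hd : 0 < d) (hd' : d ≤ 2 * π) :
    Function.leftLim h.psiExt_mono.stieltjesFunction d = Ψ d := by
  have h1 := h.psiExt_mono.stieltjesFunction.mono.tendsto_leftLim d
  have hlt : ∀ n : ℕ, d - d / ((n : ℝ) + 2) < d := by
    intro n
    have : 0 < d / ((n : ℝ) + 2) := by positivity
    linarith
  have hpos : ∀ n : ℕ, 0 < d - d / ((n : ℝ) + 2) := by
    intro n
    rw [sub_pos]
    apply div_lt_self hd
    have : (0 : ℝ) ≤ n := Nat.cast_nonneg n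
    linarith
  have hstep : ∀ n : ℕ, d - d / ((n : ℝ) + 2) < d - d / (((n + 1 : ℕ) : ℝ) + 2) := by
    intro n
    have : d / (((n + 1 : ℕ) : ℝ) + 2) < d / ((n : ℝ) + 2) := by
      apply div_lt_div_of_pos_left hd (by positivity)
      push_cast
      linarith
    linarith
  have hext : ∀ n : ℕ, psiExt Ψ (d - d / ((n : ℝ) + 2)) = Ψ (d - d / ((n : ℝ) + 2)) := by
    intro n
    unfold psiExt
    rw [if_neg (not_le.2 (hpos n)), min_eq_left ((hlt n).le.trans hd')]
  have hseq : Tendsto (fun n : ℕ => d - d / ((n : ℝ) + 2)) atTop (𝓝[<] d) := by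
    rw [tendsto_nhdsWithin_iff]
    refine ⟨?_, Filter.Eventually.of_forall hlt⟩
    have h2 := tendsto_one_div_add_atTop_nhds_zero_nat (𝕜 := ℝ)
    have h3 := h2.comp (tendsto_add_atTop_nat 1)
    have h4 : Tendsto (fun n : ℕ => d - d * (1 / (((n + 1 : ℕ) : ℝ) + 1))) atTop (𝓝 (d - d * 0)) :=
      tendsto_const_nhds.sub (tendsto_const_nhds.mul h3)
    rw [mul_zero, sub_zero] at h4
    refine h4.congr fun n => ?_
    push_cast
    rw [mul_one_div]
    congr 2
    ring
  have h2 := h1.comp hseq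
  have h3 := h.left_cont hd hd'
  have h4 : Tendsto (fun n : ℕ => Ψ (d - d / (((n + 1 : ℕ) : ℝ) + 2))) atTop (𝓝 (Ψ d)) :=
    h3.comp (tendsto_add_atTop_nat 1)
  have h5 : Tendsto (fun n : ℕ => h.psiExt_mono.stieltjesFunction (d - d / ((n : ℝ) + 2))) atTop
      (𝓝 (Ψ d)) := by
    refine tendsto_of_tendsto_of_tendsto_of_le_of_le h3 h4 ?_ ?_
    · intro n
      simp only
      rw [Monotone.stieltjesFunction_eq, ← hext n]
      exact h.psiExt_mono.le_rightLim (le_refl _)
    · intro n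
      simp only
      rw [Monotone.stieltjesFunction_eq, ← hext (n + 1)]
      exact h.psiExt_mono.rightLim_le (hstep n)
  exact tendsto_nhds_unique h2 h5

theorem dPsi_Ico {Ψ : ℝ → ℝ} (h : IsWt Ψ) {d : ℝ} (hd : 0 ≤ d) (hd' : d ≤ 2 * π) :
    h.dPsi (Ico 0 d) = ENNReal.ofReal (Ψ d) := by
  unfold IsWt.dPsi
  rw [StieltjesFunction.measure_Ico, st_neg h, sub_zero]
  rcases hd.eq_or_lt with h0 | h0
  · rw [← h0, st_neg h, h.zero]
  · rw [st_pos h h0 hd']

end A1

theorem tA1 : S_A1 := by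
  intro Ψ h x hx
  unfold IsWt.norm lor
  have hsf : SFinite (h.dPsi) := by
    unfold IsWt.dPsi
    infer_instance
  set y : ℝ → ℝ := fun t => |x t| with hy
  have hmeas : MeasurableSet {p : ℝ × ℝ | ENNReal.ofReal p.1 < dis y p.2} :=
    measurableSet_lt (ENNReal.measurable_ofReal.comp measurable_fst) ((dis_meas y).comp measurable_snd)
  have h1 : ∀ s : ℝ, rearr x s =
      ∫⁻ τ in Ioi (0 : ℝ), {p : ℝ × ℝ | ENNReal.ofReal p.1 < dis y p.2}.indicator 1 (s, τ) := by
    intro s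
    have hms : MeasurableSet {τ : ℝ | ENNReal.ofReal s < dis y τ} :=
      measurableSet_lt measurable_const (dis_meas y)
    have e1 : ∀ τ : ℝ, {p : ℝ × ℝ | ENNReal.ofReal p.1 < dis y p.2}.indicator (1 : ℝ × ℝ → ℝ≥0∞) (s, τ) =
        {τ : ℝ | ENNReal.ofReal s < dis y τ}.indicator 1 τ := fun τ => rfl
    simp_rw [e1]
    rw [lintegral_indicator_one hms, Measure.restrict_apply hms, ← A1.vol_eq (rearr x s)]
    congr 1
    ext τ
    simp only [mem_inter_iff, mem_ofPred_eq, mem_Ioi]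
    constructor
    · rintro ⟨a, b⟩
      exact ⟨(A1.lt_rearr x s τ b).1 a, b⟩
    · rintro ⟨a, b⟩
      exact ⟨(A1.lt_rearr x s τ b).2 a, b⟩
  simp_rw [h1]
  rw [lintegral_lintegral_swap]
  · refine setLIntegral_congr_fun measurableSet_Ioi fun τ _ => ?_
    have hms : MeasurableSet {s : ℝ | ENNReal.ofReal s < dis y τ} :=
      measurableSet_lt ENNReal.measurable_ofReal measurable_const
    have e1 : ∀ s : ℝ, {p : ℝ × ℝ | ENNReal.ofReal p.1 < dis y p.2}.indicator (1 : ℝ × ℝ → ℝ≥0∞) (s, τ) =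
        {s : ℝ | ENNReal.ofReal s < dis y τ}.indicator 1 s := fun s => rfl
    simp only [e1]
    rw [lintegral_indicator_one hms, Measure.restrict_apply hms]
    have hd := dis_toReal_mem y τ
    rw [← A1.dPsi_Ico h hd.1 hd.2]
    congr 1
    ext s
    simp only [mem_inter_iff, mem_ofPred_eq, mem_Icc, mem_Ico]
    have hne : dis y τ ≠ ∞ := μT_ne_top _
    constructor
    · rintro ⟨a, b, c⟩
      exact ⟨b, (ENNReal.ofReal_lt_iff_lt_toReal b hne).1 a⟩
    · rintro ⟨a, b⟩
      exact ⟨(ENNReal.ofReal_lt_iff_lt_toReal a hne).2 b, a, b.le.trans hd.2⟩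
  · exact (measurable_one.indicator hmeas).aemeasurable

end Pool.Agent.H352R5.HL
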