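import Pool.Agent.H352R5.HL.Stubs

/-! B2a: analytic extension of a boundary function -/

namespace Pool.Agent.H352R5.HL

open MeasureTheory Set Filter Topology
open scoped ENNReal NNReal Real

namespace B2a

theorem norm_exp_I (θ : ℝ) : ‖Complex.exp (Complex.I * (θ : ℂ))‖ = 1 := by
  rw [mul_comm]
  exact Complex.norm_exp_ofReal_mul_I θ

theorem norm_exp_neg_I (θ : ℝ) : ‖Complex.exp (-(Complex.I * (θ : ℂ)))‖ = 1 := by
  have := norm_exp_I (-θ)
  rwa [Complex.ofReal_neg, mul_neg] at this

theorem norm_w (r t θ : ℝ) (hr0 : 0 ≤ r) :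
    ‖circ r t * Complex.exp (-(Complex.I * (θ : ℂ)))‖ = r := by
  rw [circ, norm_mul, norm_mul, norm_exp_I, norm_exp_neg_I, Complex.norm_real, Real.norm_eq_abs,
    abs_of_nonneg hr0]
  ring

theorem norm_v (r t θ : ℝ) (hr0 : 0 ≤ r) :
    ‖(r : ℂ) * Complex.exp (-(Complex.I * (t : ℂ))) * Complex.exp (Complex.I * (θ : ℂ))‖ = r := by
  rw [norm_mul, norm_mul, norm_exp_I, norm_exp_neg_I, Complex.norm_real, Real.norm_eq_abs,
    abs_of_nonneg hr0]
  ring

/-- the Poisson kernel as a sum of two geometric series -/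
theorem kernel (r t θ : ℝ) (hr0 : 0 ≤ r) (hr1 : r < 1) :
    HasSum (fun n : ℕ => (circ r t * Complex.exp (-(Complex.I * (θ : ℂ)))) ^ n +
      ((r : ℂ) * Complex.exp (-(Complex.I * (t : ℂ))) * Complex.exp (Complex.I * (θ : ℂ))) ^ (n + 1))
      ((2 * π * pk r t θ : ℝ) : ℂ) := by
  have hwn := norm_w r t θ hr0
  have hvn := norm_v r t θ hr0
  set w : ℂ := circ r t * Complex.exp (-(Complex.I * (θ : ℂ))) with hw
  set v : ℂ := (r : ℂ) * Complex.exp (-(Complex.I * (t : ℂ))) * Complex.exp (Complex.I * (θ : ℂ))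
    with hv
  have h1 : HasSum (fun n : ℕ => w ^ n) (1 - w)⁻¹ :=
    hasSum_geometric_of_norm_lt_one (by rw [hwn]; exact hr1)
  have h2 : HasSum (fun n : ℕ => v ^ (n + 1)) (v * (1 - v)⁻¹) := by
    have h3 := (hasSum_geometric_of_norm_lt_one (ξ := v) (by rw [hvn]; exact hr1)).mul_left v
    have e : (fun n : ℕ => v ^ (n + 1)) = fun n : ℕ => v * v ^ n := by
      ext n; ring
    rw [e]
    exact h3
  have h3 := h1.add h2
  have hvw : v * w = (r : ℂ) ^ 2 := by
    rw [hv, hw, circ]
    have e1 : Complex.exp (-(Complex.I * (t : ℂ))) * Complex.exp (Complex.I * (t : ℂ)) = 1 := by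
      rw [← Complex.exp_add]; simp
    have e2 : Complex.exp (-(Complex.I * (θ : ℂ))) * Complex.exp (Complex.I * (θ : ℂ)) = 1 := by
      rw [← Complex.exp_add]; simp
    calc (r : ℂ) * Complex.exp (-(Complex.I * (t : ℂ))) * Complex.exp (Complex.I * (θ : ℂ)) *
          ((r : ℂ) * Complex.exp (Complex.I * (t : ℂ)) * Complex.exp (-(Complex.I * (θ : ℂ)))) =
          (r : ℂ) ^ 2 * (Complex.exp (-(Complex.I * (t : ℂ))) * Complex.exp (Complex.I * (t : ℂ))) *
          (Complex.exp (-(Complex.I * (θ : ℂ))) * Complex.exp (Complex.I * (θ : ℂ))) := by ring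
      _ = (r : ℂ) ^ 2 := by rw [e1, e2]; ring
  have hs : w + v = ((2 * r * Real.cos (t - θ) : ℝ) : ℂ) := by
    have e1 : w = (r : ℂ) * Complex.exp (((t - θ : ℝ) : ℂ) * Complex.I) := by
      rw [hw, circ, mul_assoc, ← Complex.exp_add]
      congr 2
      push_cast
      ring
    have e2 : v = (r : ℂ) * Complex.exp (-((t - θ : ℝ) : ℂ) * Complex.I) := by
      rw [hv, mul_assoc, ← Complex.exp_add]
      congr 2
      push_cast
      ring
    rw [e1, e2]
    push_cast
    rw [Complex.cos]
    ring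
  have hw1 : 1 - w ≠ 0 := by
    intro h
    have : w = 1 := (sub_eq_zero.1 h).symm
    rw [this, norm_one] at hwn
    linarith
  have hv1 : 1 - v ≠ 0 := by
    intro h
    have : v = 1 := (sub_eq_zero.1 h).symm
    rw [this, norm_one] at hvn
    linarith
  have hprod : (1 - w) * (1 - v) = ((1 - 2 * r * Real.cos (t - θ) + r ^ 2 : ℝ) : ℂ) := by
    have : (1 - w) * (1 - v) = 1 - (w + v) + v * w := by ring
    rw [this, hs, hvw]
    push_cast
    ring
  have hval : (1 - w)⁻¹ + v * (1 - v)⁻¹ = ((2 * π * pk r t θ : ℝ) : ℂ) := by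
    have e1 : (1 - w)⁻¹ + v * (1 - v)⁻¹ = (1 - v * w) / ((1 - w) * (1 - v)) := by
      field_simp
      ring
    rw [e1, hprod, hvw]
    have e2 : 2 * π * pk r t θ = (1 - r ^ 2) / (1 - 2 * r * Real.cos (t - θ) + r ^ 2) := by
      unfold pk
      field_simp
    rw [e2]
    push_cast
    ring
  rw [← hval]
  exact h3

theorem intg {f : ℝ → ℂ} (hf : Integrable f μT) {g : ℝ → ℂ} (hg : Continuous g) (C : ℝ)
    (hC : ∀ θ, ‖g θ‖ ≤ C) : Integrable (fun θ => f θ * g θ) μT :=
  hf.mul_bdd (c := C) hg.aestronglyMeasurable (Filter.Eventually.of_forall hC)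

end B2a

open B2a

theorem tB2a : S_B2a := by
  intro f hf hFour
  set c : ℕ → ℂ := fun n => ∫ θ, f θ * (Complex.exp (-(Complex.I * (θ : ℂ)))) ^ n ∂μT with hc
  set M : ℝ := ∫ θ, ‖f θ‖ ∂μT with hM
  have hM0 : 0 ≤ M := integral_nonneg fun _ => norm_nonneg _
  have hcM : ∀ n, ‖c n‖ ≤ M := by
    intro n
    refine (norm_integral_le_integral_norm _).trans (le_of_eq ?_)
    refine integral_congr_ae (Filter.Eventually.of_forall fun θ => ?_)
    simp only [norm_mul, norm_pow, norm_exp_neg_I, one_pow, mul_one]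
  refine ⟨fun z => (1 / (2 * π) : ℂ) * ∑' n, c n * z ^ n, ?_, ?_⟩
  · intro z hz
    rw [Metric.mem_ball, dist_zero_right] at hz
    obtain ⟨ρ, hρ1, hρ2⟩ := exists_between hz
    have hρ0 : 0 ≤ ρ := (norm_nonneg z).trans hρ1.le
    have h1 : DifferentiableOn ℂ (fun z : ℂ => ∑' n, c n * z ^ n) (Metric.ball 0 ρ) := by
      refine Complex.differentiableOn_tsum_of_summable_norm (u := fun n => M * ρ ^ n)
        ((summable_geometric_of_lt_one hρ0 hρ2).mul_left M) (fun n => ?_) Metric.isOpen_ball ?_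
      · fun_prop
      · intro n w hw
        rw [Metric.mem_ball, dist_zero_right] at hw
        rw [norm_mul, norm_pow]
        exact mul_le_mul (hcM n) (pow_le_pow_left₀ (norm_nonneg _) hw.le n) (by positivity) hM0
    have h2 : DifferentiableAt ℂ (fun z : ℂ => ∑' n, c n * z ^ n) z :=
      h1.differentiableAt (Metric.isOpen_ball.mem_nhds (by
        rw [Metric.mem_ball, dist_zero_right]; exact hρ1))
    exact (h2.const_mul _).differentiableWithinAt
  · intro r hr0 hr1 t
    set G : ℕ → ℝ → ℂ := fun n θ =>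
      f θ * ((circ r t * Complex.exp (-(Complex.I * (θ : ℂ)))) ^ n +
        ((r : ℂ) * Complex.exp (-(Complex.I * (t : ℂ))) * Complex.exp (Complex.I * (θ : ℂ))) ^ (n + 1))
      with hG
    have hGi : ∀ n, Integrable (G n) μT := by
      intro n
      refine intg hf (by fun_prop) (r ^ n + r ^ (n + 1)) fun θ => ?_
      refine (norm_add_le _ _).trans ?_
      rw [norm_pow, norm_pow, norm_w r t θ hr0, norm_v r t θ hr0]
    have hGn : ∀ n, ∫ θ, ‖G n θ‖ ∂μT ≤ (2 * M) * r ^ n := by
      intro n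
      have h1 : ∫ θ, ‖G n θ‖ ∂μT ≤ ∫ θ, ‖f θ‖ * (2 * r ^ n) ∂μT := by
        refine integral_mono (hGi n).norm (hf.norm.mul_const _) fun θ => ?_
        simp only [hG, norm_mul]
        refine mul_le_mul_of_nonneg_left ?_ (norm_nonneg _)
        refine (norm_add_le _ _).trans ?_
        rw [norm_pow, norm_pow, norm_w r t θ hr0, norm_v r t θ hr0]
        have : r ^ (n + 1) ≤ r ^ n := pow_le_pow_of_le_one hr0 hr1.le (Nat.le_succ n)
        linarith
      rw [integral_mul_const] at h1
      calc ∫ θ, ‖G n θ‖ ∂μT ≤ M * (2 * r ^ n) := h1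
        _ = (2 * M) * r ^ n := by ring
    have hsum := hasSum_integral_of_summable_integral_norm hGi
      (Summable.of_nonneg_of_le (fun n => integral_nonneg fun _ => norm_nonneg _) hGn
        ((summable_geometric_of_lt_one hr0 hr1).mul_left (2 * M)))
    have hlim : ∀ θ, ∑' n, G n θ = f θ * ((2 * π * pk r t θ : ℝ) : ℂ) := by
      intro θ
      exact ((kernel r t θ hr0 hr1).mul_left (f θ)).tsum_eq
    simp only [hlim] at hsum
    have hterm : ∀ n, ∫ θ, G n θ ∂μT = c n * circ r t ^ n := by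
      intro n
      have e1 : ∀ θ, G n θ = f θ * (Complex.exp (-(Complex.I * (θ : ℂ)))) ^ n * circ r t ^ n +
          f θ * Complex.exp (Complex.I * ((n : ℂ) + 1) * θ) *
            ((r : ℂ) * Complex.exp (-(Complex.I * (t : ℂ)))) ^ (n + 1) := by
        intro θ
        simp only [hG]
        have e2 : Complex.exp (Complex.I * ((n : ℂ) + 1) * θ) =
            Complex.exp (Complex.I * (θ : ℂ)) ^ (n + 1) := by
          rw [← Complex.exp_nat_mul]
          congr 1
          push_cast
          ring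
        rw [e2, mul_pow, mul_pow]
        ring
      simp only [e1]
      rw [integral_add, integral_mul_const, integral_mul_const, hFour n, zero_mul, add_zero]
      · refine (intg hf (g := fun θ => (Complex.exp (-(Complex.I * (θ : ℂ)))) ^ n) (by fun_prop) 1
          fun θ => ?_).mul_const _
        rw [norm_pow, norm_exp_neg_I, one_pow]
      · refine (intg hf (g := fun θ => Complex.exp (Complex.I * ((n : ℂ) + 1) * θ)) (by fun_prop) 1
          fun θ => ?_).mul_const _
        have e3 : Complex.I * ((n : ℂ) + 1) * (θ : ℂ) =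
            Complex.I * ((((n : ℝ) + 1) * θ : ℝ) : ℂ) := by
          push_cast; ring
        rw [e3, norm_exp_I]
    simp only [hterm] at hsum
    show (1 / (2 * π) : ℂ) * ∑' n, c n * circ r t ^ n = PI r f t
    rw [hsum.tsum_eq]
    unfold PI
    rw [← integral_const_mul]
    refine integral_congr_ae (Filter.Eventually.of_forall fun θ => ?_)
    have hpi : (π : ℂ) ≠ 0 := by exact_mod_cast Real.pi_ne_zero
    simp only
    push_cast
    field_simp

end Pool.Agent.H352R5.HL
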