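import Pool.Agent.H352R5.HL.Stubs

/-!
# Poisson integrals converge in `L¹`
-/

set_option autoImplicit false

namespace Pool.Agent.H352R5.HL

open MeasureTheory Set Filter Topology
open scoped ENNReal NNReal Real

namespace B2b

theorem key (f : ℝ → ℂ) (hf : Integrable f μT) (C : ℝ) : ∀ κ : ℝ → ℝ, Continuous κ →
    (∀ θ, 0 ≤ κ θ) → (∀ θ, κ θ ≤ C) → Integrable (fun θ => (κ θ : ℂ) * f θ) μT := by
  intro κ hκ hκ0 hκC
  have hc : Continuous (fun θ => (κ θ : ℂ)) := Complex.continuous_ofReal.comp hκ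
  refine hf.bdd_mul (c := C) hc.aestronglyMeasurable ?_
  filter_upwards with θ
  rw [Complex.norm_real, Real.norm_of_nonneg (hκ0 θ)]
  exact hκC θ

theorem p1a (hP : S_P1) (r : ℝ) (h0 : 0 ≤ r) (h1 : r < 1) : (∀ t θ, 0 ≤ pk r t θ) ∧
    Continuous (fun p : ℝ × ℝ => pk r p.1 p.2) ∧ ∃ C : ℝ, ∀ t θ, pk r t θ ≤ C := by
  have h := hP r h0 h1
  exact ⟨h.1, h.2.2.2.1, h.2.2.2.2⟩

theorem contK (hP : S_P1) (r : ℝ) (h0 : 0 ≤ r) (h1 : r < 1) (t : ℝ) :
    Continuous (pk r t) := by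
  have h := (p1a hP r h0 h1).2.1
  have h2 : Continuous (fun θ : ℝ => ((t, θ) : ℝ × ℝ)) := by fun_prop
  generalize pk r = κ at h
  exact h.comp h2

theorem intK (hP : S_P1) (f : ℝ → ℂ) (hf : Integrable f μT) (r : ℝ) (h0 : 0 ≤ r) (h1 : r < 1)
    (t : ℝ) : Integrable (fun θ => (pk r t θ : ℂ) * f θ) μT := by
  obtain ⟨p1, _, C, p5⟩ := p1a hP r h0 h1
  exact key f hf C (pk r t) (contK hP r h0 h1 t) (p1 t) (p5 t)

theorem PI_sub (hP : S_P1) (f g : ℝ → ℂ) (hf : Integrable f μT) (hg : Integrable g μT) (r : ℝ)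
    (h0 : 0 ≤ r) (h1 : r < 1) (t : ℝ) : PI r (fun θ => f θ - g θ) t = PI r f t - PI r g t := by
  unfold PI
  rw [← integral_sub (intK hP f hf r h0 h1 t) (intK hP g hg r h0 h1 t)]
  congr 1
  ext θ
  ring

/-- trigonometric polynomials -/
noncomputable def tp (s : Finset ℤ) (c : ℤ → ℂ) (t : ℝ) : ℂ :=
  ∑ n ∈ s, c n * Complex.exp (Complex.I * (n : ℂ) * t)

theorem norm_e (n : ℤ) (t : ℝ) : ‖Complex.exp (Complex.I * (n : ℂ) * t)‖ = 1 := by
  rw [Complex.norm_exp]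
  have : (Complex.I * (n : ℂ) * (t : ℂ)).re = 0 := by
    simp
  rw [this, Real.exp_zero]

theorem cont_e (n : ℤ) : Continuous (fun t : ℝ => Complex.exp (Complex.I * (n : ℂ) * t)) := by
  fun_prop

theorem int_e (n : ℤ) : Integrable (fun t : ℝ => Complex.exp (Complex.I * (n : ℂ) * t)) μT := by
  refine (integrable_const (1 : ℝ)).mono' (cont_e n).aestronglyMeasurable ?_
  filter_upwards with t
  rw [norm_e]

theorem int_tp (s : Finset ℤ) (c : ℤ → ℂ) : Integrable (tp s c) μT := by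
  unfold tp
  exact integrable_finsetSum _ fun n _ => (int_e n).const_mul _

theorem PI_tp (hP : S_P1) (hD : S_D2) (s : Finset ℤ) (c : ℤ → ℂ) (r : ℝ) (h0 : 0 ≤ r) (h1 : r < 1)
    (t : ℝ) : PI r (tp s c) t =
      ∑ n ∈ s, c n * ((r : ℂ) ^ n.natAbs * Complex.exp (Complex.I * (n : ℂ) * t)) := by
  have e1 : PI r (tp s c) t = ∫ θ, ∑ n ∈ s, c n * ((pk r t θ : ℂ) *
      Complex.exp (Complex.I * (n : ℂ) * θ)) ∂μT := by
    unfold PI tp
    congr 1
    ext θ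
    rw [Finset.mul_sum]
    refine Finset.sum_congr rfl fun n _ => ?_
    ring
  rw [e1, integral_finsetSum _ fun n _ => (intK hP _ (int_e n) r h0 h1 t).const_mul _]
  refine Finset.sum_congr rfl fun n _ => ?_
  rw [integral_const_mul]
  congr 1
  exact hD n r h0 h1 t

theorem norm_PI_tp (hP : S_P1) (hD : S_D2) (s : Finset ℤ) (c : ℤ → ℂ) (r : ℝ) (h0 : 0 ≤ r)
    (h1 : r < 1) (t : ℝ) :
    ‖PI r (tp s c) t - tp s c t‖ ≤ ∑ n ∈ s, ‖c n‖ * (1 - r ^ n.natAbs) := by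
  rw [PI_tp hP hD s c r h0 h1 t]
  unfold tp
  rw [← Finset.sum_sub_distrib]
  refine (norm_sum_le _ _).trans (Finset.sum_le_sum fun n _ => ?_)
  have h2 : c n * ((r : ℂ) ^ n.natAbs * Complex.exp (Complex.I * (n : ℂ) * t)) -
      c n * Complex.exp (Complex.I * (n : ℂ) * t) =
      c n * (((r ^ n.natAbs - 1 : ℝ) : ℂ) * Complex.exp (Complex.I * (n : ℂ) * t)) := by
    push_cast
    ring
  rw [h2, norm_mul, norm_mul, norm_e, mul_one, Complex.norm_real, Real.norm_eq_abs,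
    abs_of_nonpos (by linarith [pow_le_one₀ h0 h1.le (n := n.natAbs)])]
  apply le_of_eq
  ring

theorem tend_G (s : Finset ℤ) (c : ℤ → ℂ) :
    Tendsto (fun r : ℝ => ∑ n ∈ s, ‖c n‖ * (1 - r ^ n.natAbs)) (𝓝[<] 1) (𝓝 0) := by
  have hc : Continuous (fun r : ℝ => ∑ n ∈ s, ‖c n‖ * (1 - r ^ n.natAbs)) := by
    fun_prop
  have := (hc.tendsto 1).mono_left (nhdsWithin_le_nhds (s := Iio 1))
  simpa using this

end B2b

open B2b in
theorem tB2b : S_P1 → S_D1 → S_D2 → S_D3 → S_B2b := by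
  intro hP hD1 hD2 hD3 f hf
  rw [ENNReal.tendsto_nhds_zero]
  intro ε hε
  obtain ⟨δ', hδ0, hδ1⟩ := ENNReal.lt_iff_exists_nnreal_btwn.1 hε
  have hδ0' : (0 : ℝ) < δ' := by exact_mod_cast hδ0
  set δ : ℝ := (δ' : ℝ) / 3 with hδ
  have hδp : 0 < δ := by positivity
  obtain ⟨s, c, hs⟩ := hD1 f hf δ hδp
  have hs' : ∫⁻ t, ‖f t - tp s c t‖ₑ ∂μT ≤ ENNReal.ofReal δ := hs
  have hev1 : ∀ᶠ r : ℝ in 𝓝[<] 1, 0 < r ∧ r < 1 := Ioo_mem_nhdsLT one_pos
  have hpi : (0 : ℝ) < 2 * π := by positivity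
  have hev2 : ∀ᶠ r : ℝ in 𝓝[<] 1, ∑ n ∈ s, ‖c n‖ * (1 - r ^ n.natAbs) < δ / (2 * π) :=
    (tend_G s c).eventually (gt_mem_nhds (by positivity))
  filter_upwards [hev1, hev2] with r hr hr2
  have hfp : Integrable (fun t => f t - tp s c t) μT := hf.sub (int_tp s c)
  have hb : ∀ t, ‖PI r f t - f t‖ₑ ≤ ‖PI r (fun θ => f θ - tp s c θ) t‖ₑ +
      (‖f t - tp s c t‖ₑ + ENNReal.ofReal (δ / (2 * π))) := by
    intro t
    have e1 : PI r f t - f t = PI r (fun θ => f θ - tp s c θ) t +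
        (-(f t - tp s c t) + (PI r (tp s c) t - tp s c t)) := by
      rw [PI_sub hP f (tp s c) hf (int_tp s c) r hr.1.le hr.2 t]
      ring
    rw [e1]
    refine (enorm_add_le _ _).trans (add_le_add le_rfl ?_)
    refine (enorm_add_le _ _).trans (add_le_add (le_of_eq (enorm_neg _)) ?_)
    rw [← ofReal_norm]
    exact ENNReal.ofReal_le_ofReal ((norm_PI_tp hP hD2 s c r hr.1.le hr.2 t).trans hr2.le)
  have hm : AEMeasurable (fun t => ‖f t - tp s c t‖ₑ) μT := hfp.aestronglyMeasurable.enorm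
  calc ∫⁻ t, ‖PI r f t - f t‖ₑ ∂μT ≤ ∫⁻ t, (‖PI r (fun θ => f θ - tp s c θ) t‖ₑ +
      (‖f t - tp s c t‖ₑ + ENNReal.ofReal (δ / (2 * π)))) ∂μT := lintegral_mono hb
    _ = ∫⁻ t, ‖PI r (fun θ => f θ - tp s c θ) t‖ₑ ∂μT +
        (∫⁻ t, ‖f t - tp s c t‖ₑ ∂μT + ENNReal.ofReal (δ / (2 * π)) * μT univ) := by
      have hm2 : AEMeasurable (fun t => ‖f t - tp s c t‖ₑ + ENNReal.ofReal (δ / (2 * π))) μT :=
        hm.add aemeasurable_const
      rw [lintegral_add_right' _ hm2, lintegral_add_right' _ aemeasurable_const, lintegral_const]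
    _ ≤ ENNReal.ofReal δ + (ENNReal.ofReal δ + ENNReal.ofReal δ) := by
      refine add_le_add ((hD3 _ hfp r hr.1.le hr.2).trans hs') (add_le_add hs' ?_)
      have hu : μT univ = ENNReal.ofReal (2 * π) := by
        unfold μT
        rw [Measure.restrict_apply_univ, Real.volume_Ioc, sub_zero]
      rw [hu, ← ENNReal.ofReal_mul (by positivity)]
      apply le_of_eq
      congr 1
      field_simp
    _ = (δ' : ℝ≥0∞) := by
      rw [← ENNReal.ofReal_add hδp.le hδp.le, ← ENNReal.ofReal_add hδp.le (by positivity)]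
      rw [← ENNReal.ofReal_coe_nnreal]
      congr 1
      rw [hδ]
      ring
    _ ≤ ε := hδ1.le

end Pool.Agent.H352R5.HL
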