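import Pool.Agent.H352R5.HL.Stubs

/-!
# B5: boundary functions of analytic functions have no coefficients of negative index
-/

namespace Pool.Agent.H352R5.HL

open MeasureTheory Set Filter Topology
open scoped ENNReal NNReal Real

theorem B5_circ_eq (r t : ℝ) : circ r t = circleMap 0 r t := by
  unfold circ circleMap
  rw [zero_add, mul_comm Complex.I]

theorem B5_circ_mem {r : ℝ} (h0 : 0 < r) (h1 : r < 1) (t : ℝ) :
    circ r t ∈ Metric.ball (0 : ℂ) 1 := by
  rw [B5_circ_eq]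
  rw [mem_ball_zero_iff, norm_circleMap_zero, abs_of_pos h0]
  exact h1

theorem B5_circ_cont (r : ℝ) : Continuous (circ r) := by
  unfold circ
  fun_prop

theorem B5_cont {F : ℂ → ℂ} (hF : DifferentiableOn ℂ F (Metric.ball 0 1)) {r : ℝ} (h0 : 0 < r)
    (h1 : r < 1) : Continuous (fun t => F (circ r t)) := by
  rw [← continuousOn_univ]
  exact hF.continuousOn.comp (B5_circ_cont r).continuousOn (fun t _ => B5_circ_mem h0 h1 t)

theorem B5_zero {F : ℂ → ℂ} (hF : DifferentiableOn ℂ F (Metric.ball 0 1)) {r : ℝ} (h0 : 0 < r)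
    (h1 : r < 1) (n : ℕ) :
    ∫ t, F (circ r t) * Complex.exp (Complex.I * ((n : ℂ) + 1) * t) ∂μT = 0 := by
  have hsub : Metric.closedBall (0 : ℂ) r ⊆ Metric.ball 0 1 :=
    Metric.closedBall_subset_ball h1
  have hG : DifferentiableOn ℂ (fun z => z ^ n * F z) (Metric.ball 0 1) :=
    (differentiable_id.pow n).differentiableOn.mul hF
  have hC := Complex.circleIntegral_eq_zero_of_differentiable_on_off_countable (R := r) h0.le
    (f := fun z => z ^ n * F z) (c := 0) (s := ∅) countable_empty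
    (hG.continuousOn.mono hsub)
    (fun z hz => hG.differentiableAt (Metric.isOpen_ball.mem_nhds
      (hsub (Metric.ball_subset_closedBall hz.1))))
  rw [circleIntegral, intervalIntegral.integral_of_le two_pi_pos.le] at hC
  have h2 : ∀ t : ℝ, deriv (circleMap 0 r) t • ((fun z : ℂ => z ^ n * F z) (circleMap 0 r t)) =
      (Complex.I * (r : ℂ) ^ (n + 1)) *
        (F (circ r t) * Complex.exp (Complex.I * ((n : ℂ) + 1) * t)) := by
    intro t
    have h3 : Complex.exp (Complex.I * ((n : ℂ) + 1) * t) =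
        Complex.exp (Complex.I * t) ^ (n + 1) := by
      rw [← Complex.exp_nat_mul]
      congr 1
      push_cast
      ring
    rw [deriv_circleMap, ← B5_circ_eq, smul_eq_mul, h3]
    unfold circ
    beta_reduce
    rw [mul_pow, pow_succ (r : ℂ) n, pow_succ (Complex.exp _) n]
    ring
  simp_rw [h2] at hC
  rw [integral_const_mul] at hC
  have h4 : Complex.I * (r : ℂ) ^ (n + 1) ≠ 0 :=
    mul_ne_zero Complex.I_ne_zero (pow_ne_zero _ (by exact_mod_cast h0.ne'))
  exact (mul_eq_zero.1 hC).resolve_left h4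

theorem B5_bound {F : ℂ → ℂ} {f : ℝ → ℂ} (hF : DifferentiableOn ℂ F (Metric.ball 0 1))
    (hf : Integrable f μT) {r : ℝ} (h0 : 0 < r) (h1 : r < 1) (n : ℕ) :
    ‖∫ t, f t * Complex.exp (Complex.I * ((n : ℂ) + 1) * t) ∂μT‖ₑ ≤
      ∫⁻ t, ‖F (circ r t) - f t‖ₑ ∂μT := by
  have hE : Continuous (fun t : ℝ => Complex.exp (Complex.I * ((n : ℂ) + 1) * t)) := by fun_prop
  have hE1 : ∀ t : ℝ, ‖Complex.exp (Complex.I * ((n : ℂ) + 1) * t)‖ = 1 := by
    intro t
    rw [Complex.norm_exp]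
    simp
  have hEb : ∀ᵐ t : ℝ ∂μT, ‖Complex.exp (Complex.I * ((n : ℂ) + 1) * t)‖ ≤ 1 :=
    Filter.Eventually.of_forall fun t => (hE1 t).le
  have hFi : Integrable (fun t => F (circ r t)) μT := by
    unfold μT
    exact ((B5_cont hF h0 h1).integrableOn_Icc (a := 0) (b := 2 * π)).mono_set
      Ioc_subset_Icc_self
  have hi1 : Integrable (fun t => f t * Complex.exp (Complex.I * ((n : ℂ) + 1) * t)) μT :=
    hf.mul_bdd hE.aestronglyMeasurable hEb
  have hi2 : Integrable
      (fun t => F (circ r t) * Complex.exp (Complex.I * ((n : ℂ) + 1) * t)) μT :=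
    hFi.mul_bdd hE.aestronglyMeasurable hEb
  have h2 : ∫ t, f t * Complex.exp (Complex.I * ((n : ℂ) + 1) * t) ∂μT =
      ∫ t, (f t * Complex.exp (Complex.I * ((n : ℂ) + 1) * t) -
        F (circ r t) * Complex.exp (Complex.I * ((n : ℂ) + 1) * t)) ∂μT := by
    rw [integral_sub hi1 hi2, B5_zero hF h0 h1 n, sub_zero]
  rw [h2]
  refine (enorm_integral_le_lintegral_enorm _).trans (lintegral_mono fun t => ?_)
  rw [← sub_mul, enorm_mul, ← ofReal_norm (Complex.exp _), hE1 t, ENNReal.ofReal_one,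
    mul_one, ← enorm_neg, neg_sub]

theorem tB5 : S_B5 := by
  intro F f hF hf hB n
  have h1 : ∀ᶠ r : ℝ in 𝓝[<] (1 : ℝ),
      ‖∫ t, f t * Complex.exp (Complex.I * ((n : ℂ) + 1) * t) ∂μT‖ₑ ≤
        ∫⁻ t, ‖F (circ r t) - f t‖ₑ ∂μT := by
    have h2 : ∀ᶠ r : ℝ in 𝓝[<] (1 : ℝ), r ∈ Ioo (0 : ℝ) 1 :=
      Ioo_mem_nhdsLT (by norm_num)
    filter_upwards [h2] with r hr
    exact B5_bound hF hf hr.1 hr.2 n
  have h3 := ge_of_tendsto hB h1
  have h4 : ‖∫ t, f t * Complex.exp (Complex.I * ((n : ℂ) + 1) * t) ∂μT‖ₑ = 0 :=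
    le_antisymm h3 bot_le
  exact enorm_eq_zero.1 h4

end Pool.Agent.H352R5.HL
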