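import Pool.Agent.H352R5.HL.Stubs

set_option autoImplicit false

namespace Pool.Agent.H352R5.HL

open MeasureTheory Set Filter Topology
open scoped ENNReal NNReal Real

theorem OUT_jensen (hU4 : S_U4) (g : ℝ → ℂ) (hm : Measurable g) (hi : Integrable g μT)
    (h4 : Four g) (h0 : ∀ᵐ t ∂μT, g t ≠ 0) (hl : Integrable (fun t => Real.log ‖g t‖) μT) :
    ‖∫ t, g t ∂μT‖ ≤ 2 * π * Real.exp ((1 / (2 * π)) * ∫ t, Real.log ‖g t‖ ∂μT) := by
  have hlim : Tendsto (fun n : ℕ => ∫ t, Real.log (‖g t‖ + 1 / ((n : ℝ) + 1)) ∂μT) atTop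
      (𝓝 (∫ t, Real.log ‖g t‖ ∂μT)) := by
    refine tendsto_integral_of_dominated_convergence
      (fun t => |Real.log ‖g t‖| + ‖g t‖) ?_ ?_ ?_ ?_
    · intro n
      exact (Real.measurable_log.comp (by fun_prop)).aestronglyMeasurable
    · exact hl.abs.add hi.norm
    · intro n
      filter_upwards [h0] with t ht
      have hpos : 0 < ‖g t‖ := norm_pos_iff.2 ht
      have hn : 0 < 1 / ((n : ℝ) + 1) := by positivity
      have hn1 : 1 / ((n : ℝ) + 1) ≤ 1 := by
        rw [div_le_one (by positivity)]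
        linarith [Nat.cast_nonneg (α := ℝ) n]
      have h1 : Real.log ‖g t‖ ≤ Real.log (‖g t‖ + 1 / ((n : ℝ) + 1)) :=
        Real.log_le_log hpos (by linarith)
      have h2 : Real.log (‖g t‖ + 1 / ((n : ℝ) + 1)) ≤ ‖g t‖ := by
        have := Real.log_le_sub_one_of_pos (x := ‖g t‖ + 1 / ((n : ℝ) + 1)) (by positivity)
        linarith
      rw [Real.norm_eq_abs, abs_le]
      constructor
      · linarith [neg_abs_le (Real.log ‖g t‖)]
      · linarith [abs_nonneg (Real.log ‖g t‖)]
    · filter_upwards [h0] with t ht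
      have h1 : Tendsto (fun n : ℕ => ‖g t‖ + 1 / ((n : ℝ) + 1)) atTop (𝓝 (‖g t‖ + 0)) :=
        tendsto_const_nhds.add tendsto_one_div_add_atTop_nhds_zero_nat
      rw [add_zero] at h1
      exact (Real.continuousAt_log (norm_ne_zero_iff.2 ht)).tendsto.comp h1
  have h2 : Tendsto (fun n : ℕ => 2 * π * Real.exp ((1 / (2 * π)) *
      ∫ t, Real.log (‖g t‖ + 1 / ((n : ℝ) + 1)) ∂μT)) atTop
      (𝓝 (2 * π * Real.exp ((1 / (2 * π)) * ∫ t, Real.log ‖g t‖ ∂μT))) :=
    ((Real.continuous_exp.tendsto _).comp (hlim.const_mul _)).const_mul _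
  exact ge_of_tendsto' h2 (fun n => hU4 g hm hi h4 _ (by positivity))

theorem OUT_ne (hU4 : S_U4) (f : ℝ → ℂ) (hf : Outer f) : ∀ᵐ t ∂μT, f t ≠ 0 := by
  by_contra hcon
  set Z : Set ℝ := {t | f t = 0} with hZdef
  have hZm : MeasurableSet Z := hf.meas (measurableSet_singleton 0)
  have hZ : 0 < μT.real Z := by
    rw [measureReal_def, ENNReal.toReal_pos_iff]
    refine ⟨pos_iff_ne_zero.2 ?_, measure_lt_top _ _⟩
    intro h
    apply hcon
    rw [ae_iff]
    simpa [hZdef] using h
  set A : ℝ := ∫ t, ‖f t‖ ∂μT with hA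
  set l : ℝ := (1 / (2 * π)) * ∫ t, Real.log ‖f t‖ ∂μT with hl
  have hπ : 0 < 2 * π := by positivity
  obtain ⟨T, hT0, hT⟩ : ∃ T : ℝ, 0 ≤ T ∧ A - μT.real Z * T < 2 * π * l := by
    refine ⟨max 0 ((A - 2 * π * l) / μT.real Z + 1), le_max_left _ _, ?_⟩
    have h1 : (A - 2 * π * l) / μT.real Z + 1 ≤ max 0 ((A - 2 * π * l) / μT.real Z + 1) :=
      le_max_right _ _
    have h2 := mul_le_mul_of_nonneg_left h1 hZ.le
    have h3 : μT.real Z * ((A - 2 * π * l) / μT.real Z + 1) = (A - 2 * π * l) + μT.real Z := by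
      field_simp
    linarith
  set ε : ℝ := Real.exp (-T) with hε
  have hε0 : 0 < ε := Real.exp_pos _
  have hε1 : ε ≤ 1 := by
    rw [hε]
    exact Real.exp_le_one_iff.2 (by linarith)
  have hlogε : Real.log ε = -T := Real.log_exp _
  have hint : Integrable (fun t => Real.log (‖f t‖ + ε)) μT := by
    have hfm := hf.meas
    refine Integrable.mono' (hf.int.norm.add (integrable_const |Real.log ε|))
      (Real.measurable_log.comp (by fun_prop)).aestronglyMeasurable
      (Eventually.of_forall fun t => ?_)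
    have h1 : Real.log ε ≤ Real.log (‖f t‖ + ε) :=
      Real.log_le_log hε0 (by linarith [norm_nonneg (f t)])
    have h2 : Real.log (‖f t‖ + ε) ≤ ‖f t‖ := by
      have := Real.log_le_sub_one_of_pos (x := ‖f t‖ + ε) (by positivity)
      linarith
    rw [Real.norm_eq_abs, abs_le]
    simp only [Pi.add_apply]
    constructor
    · linarith [neg_abs_le (Real.log ε), norm_nonneg (f t)]
    · linarith [abs_nonneg (Real.log ε)]
  have hup : ∫ t, Real.log (‖f t‖ + ε) ∂μT ≤ A + μT.real Z * Real.log ε := by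
    have h1 : ∫ t, Real.log (‖f t‖ + ε) ∂μT ≤
        ∫ t, (‖f t‖ + Z.indicator (fun _ => Real.log ε) t) ∂μT := by
      refine integral_mono hint (hf.int.norm.add ((integrable_const _).indicator hZm)) ?_
      intro t
      simp only
      by_cases ht : t ∈ Z
      · rw [indicator_of_mem ht]
        have : f t = 0 := ht
        rw [this, norm_zero, zero_add, zero_add]
      · rw [indicator_of_notMem ht]
        have := Real.log_le_sub_one_of_pos (x := ‖f t‖ + ε) (by positivity)
        linarith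
    refine h1.trans (le_of_eq ?_)
    rw [integral_add hf.int.norm ((integrable_const _).indicator hZm),
      integral_indicator hZm, setIntegral_const, smul_eq_mul]
  have h4 := hU4 f hf.meas hf.int hf.four ε hε0
  rw [hf.eq] at h4
  have h5 := le_of_mul_le_mul_left h4 hπ
  rw [Real.exp_le_exp, ← hl] at h5
  have h6 : 2 * π * l ≤ ∫ t, Real.log (‖f t‖ + ε) ∂μT := by
    have := mul_le_mul_of_nonneg_left h5 hπ.le
    have e1 : 2 * π * ((1 / (2 * π)) * ∫ t, Real.log (‖f t‖ + ε) ∂μT) =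
        ∫ t, Real.log (‖f t‖ + ε) ∂μT := by
      field_simp
    rw [e1] at this
    exact this
  rw [hlogε] at hup
  linarith

theorem tOUT : S_U4 → S_OUT := by
  intro hU4 f hf k hk ⟨B, hB⟩ h4
  have hne := OUT_ne hU4 f hf
  have hπ : 0 < 2 * π := by positivity
  have hfm := hf.meas
  set I : ℂ := ∫ t, f t ∂μT with hI
  have hIn : 0 < ‖I‖ := by rw [hf.eq]; positivity
  have hI0 : I ≠ 0 := norm_pos_iff.1 hIn
  have hB0 : 0 ≤ B := (abs_nonneg _).trans (hB 0)
  have hbdd : ∀ g : ℝ → ℝ, Measurable g → (∃ C, ∀ t, |g t| ≤ C) → Integrable g μT := by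
    intro g hg ⟨C, hC⟩
    exact Integrable.mono' (integrable_const C) hg.aestronglyMeasurable
      (Eventually.of_forall fun t => by rw [Real.norm_eq_abs]; exact hC t)
  have hkf : Integrable (fun t => (k t : ℂ) * f t) μT := by
    refine Integrable.mono' (hf.int.norm.const_mul B)
      (by fun_prop : Measurable fun t => (k t : ℂ) * f t).aestronglyMeasurable
      (Eventually.of_forall fun t => ?_)
    rw [norm_mul, Complex.norm_real, Real.norm_eq_abs]
    exact mul_le_mul_of_nonneg_right (hB t) (norm_nonneg _)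
  have hki : Integrable k μT := hbdd k hk ⟨B, hB⟩
  have hk2i : Integrable (fun t => k t ^ 2) μT := by
    refine hbdd _ (by fun_prop) ⟨B ^ 2, fun t => ?_⟩
    rw [abs_pow]
    exact pow_le_pow_left₀ (abs_nonneg _) (hB t) 2
  set κ : ℂ := (∫ t, (k t : ℂ) * f t ∂μT) / I with hκ
  set m : ℝ := (1 / (2 * π)) * ∫ t, k t ∂μT with hm
  set M : ℝ := (1 / (2 * π)) * ∫ t, k t ^ 2 ∂μT with hM
  have hpos : ∀ s : ℝ, |s| * B ≤ 1 / 2 → ∀ t, 1 / 2 ≤ 1 + s * k t := by
    intro s hs t
    have h1 : |s * k t| ≤ 1 / 2 := by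
      rw [abs_mul]
      exact (mul_le_mul_of_nonneg_left (hB t) (abs_nonneg s)).trans hs
    linarith [(abs_le.1 h1).1]
  have hlogi : ∀ s : ℝ, |s| * B ≤ 1 / 2 → Integrable (fun t => Real.log (1 + s * k t)) μT := by
    intro s hs
    refine hbdd _ (Real.measurable_log.comp (by fun_prop)) ⟨Real.log 2 + 1, fun t => ?_⟩
    have h1 := hpos s hs t
    have h1' : |s * k t| ≤ 1 / 2 := by
      rw [abs_mul]
      exact (mul_le_mul_of_nonneg_left (hB t) (abs_nonneg s)).trans hs
    have h2 : Real.log (1 + s * k t) ≤ s * k t := by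
      have := Real.log_le_sub_one_of_pos (x := 1 + s * k t) (by linarith)
      linarith
    have h3 : -Real.log 2 ≤ Real.log (1 + s * k t) := by
      have := Real.log_le_log (by norm_num : (0 : ℝ) < 1 / 2) h1
      have e1 : Real.log (1 / 2) = -Real.log 2 := by
        rw [one_div, Real.log_inv]
      linarith
    have h5 : 0 < Real.log 2 := Real.log_pos (by norm_num)
    rw [abs_le]
    constructor
    · linarith
    · linarith [(abs_le.1 h1').2]
  have hK : ∀ s : ℝ, |s| * B ≤ 1 / 2 → ‖1 + (s : ℂ) * κ‖ ≤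
      Real.exp ((1 / (2 * π)) * ∫ t, Real.log (1 + s * k t) ∂μT) := by
    intro s hs
    have hp := hpos s hs
    have hgeq : ∀ t, (((1 + s * k t : ℝ)) : ℂ) * f t = f t + (s : ℂ) * ((k t : ℂ) * f t) := by
      intro t
      push_cast
      ring
    have hgi : Integrable (fun t => (((1 + s * k t : ℝ)) : ℂ) * f t) μT := by
      simp only [hgeq]
      exact hf.int.add (hkf.const_mul _)
    have hg4 : Four (fun t => (((1 + s * k t : ℝ)) : ℂ) * f t) := by
      intro n
      have e1 : ∀ t : ℝ, (((1 + s * k t : ℝ)) : ℂ) * f t *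
          Complex.exp (Complex.I * ((n : ℂ) + 1) * t) =
          f t * Complex.exp (Complex.I * ((n : ℂ) + 1) * t) +
          (s : ℂ) * ((k t : ℂ) * f t * Complex.exp (Complex.I * ((n : ℂ) + 1) * t)) := by
        intro t
        push_cast
        ring
      have hexp : ∀ t : ℝ, ‖Complex.exp (Complex.I * ((n : ℂ) + 1) * t)‖ ≤ 1 := by
        intro t
        rw [show Complex.I * ((n : ℂ) + 1) * t = (((n : ℝ) + 1) * t : ℝ) * Complex.I by
          push_cast; ring, Complex.norm_exp_ofReal_mul_I]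
      have hem : AEStronglyMeasurable (fun t : ℝ =>
          Complex.exp (Complex.I * ((n : ℂ) + 1) * t)) μT :=
        (by fun_prop : Continuous fun t : ℝ =>
          Complex.exp (Complex.I * ((n : ℂ) + 1) * t)).aestronglyMeasurable
      have i1 : Integrable (fun t => f t * Complex.exp (Complex.I * ((n : ℂ) + 1) * t)) μT :=
        hf.int.mul_bdd (c := 1) hem (Eventually.of_forall hexp)
      have i2 : Integrable (fun t => (k t : ℂ) * f t *
          Complex.exp (Complex.I * ((n : ℂ) + 1) * t)) μT :=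
        hkf.mul_bdd (c := 1) hem (Eventually.of_forall hexp)
      simp only [e1]
      rw [integral_add i1 (i2.const_mul _), integral_const_mul, hf.four n, h4 n]
      simp
    have hg0 : ∀ᵐ t ∂μT, (((1 + s * k t : ℝ)) : ℂ) * f t ≠ 0 := by
      filter_upwards [hne] with t ht
      refine mul_ne_zero ?_ ht
      have h1 := hp t
      have h2 : (1 + s * k t : ℝ) ≠ 0 := ne_of_gt (by linarith)
      exact Complex.ofReal_ne_zero.2 h2
    have hleq : ∀ᵐ t ∂μT, Real.log ‖(((1 + s * k t : ℝ)) : ℂ) * f t‖ =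
        Real.log (1 + s * k t) + Real.log ‖f t‖ := by
      filter_upwards [hne] with t ht
      have h1 := hp t
      rw [norm_mul, Complex.norm_real, Real.norm_of_nonneg (by linarith),
        Real.log_mul (by linarith) (norm_ne_zero_iff.2 ht)]
    have hgl : Integrable (fun t => Real.log ‖(((1 + s * k t : ℝ)) : ℂ) * f t‖) μT :=
      ((hlogi s hs).add hf.log).congr (hleq.mono fun t ht => ht.symm)
    have hJ := OUT_jensen hU4 (fun t => (((1 + s * k t : ℝ)) : ℂ) * f t)
      (by fun_prop) hgi hg4 hg0 hgl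
    have e2 : ∫ t, (((1 + s * k t : ℝ)) : ℂ) * f t ∂μT = I * (1 + (s : ℂ) * κ) := by
      simp only [hgeq]
      rw [integral_add hf.int (hkf.const_mul _), integral_const_mul, hκ, ← hI]
      field_simp
    have e3 : ∫ t, Real.log ‖(((1 + s * k t : ℝ)) : ℂ) * f t‖ ∂μT =
        ∫ t, Real.log (1 + s * k t) ∂μT + ∫ t, Real.log ‖f t‖ ∂μT := by
      rw [integral_congr_ae hleq, integral_add (hlogi s hs) hf.log]
    rw [e2, e3, mul_add (1 / (2 * π)), Real.exp_add, norm_mul, hf.eq] at hJ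
    set E := Real.exp ((1 / (2 * π)) * ∫ t, Real.log ‖f t‖ ∂μT) with hE
    have hE0 : 0 < 2 * π * E := by positivity
    have hJ' : 2 * π * E * ‖1 + (s : ℂ) * κ‖ ≤
        2 * π * E * Real.exp ((1 / (2 * π)) * ∫ t, Real.log (1 + s * k t) ∂μT) := by
      linarith
    exact le_of_mul_le_mul_left hJ' hE0
  -- s₀
  obtain ⟨s0, hs0, hs0B⟩ : ∃ s0 : ℝ, 0 < s0 ∧ s0 * B ≤ 1 / 2 := by
    refine ⟨1 / (2 * (B + 1)), by positivity, ?_⟩
    rw [div_mul_eq_mul_div, div_le_iff₀ (by positivity)]
    linarith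
  have hsB : ∀ s : ℝ, |s| ≤ s0 → |s| * B ≤ 1 / 2 := fun s hs =>
    (mul_le_mul_of_nonneg_right hs hB0).trans hs0B
  -- (a)
  have ha : ∀ s : ℝ, |s| ≤ s0 → 1 + s * κ.re ≤ Real.exp (s * m) := by
    intro s hs
    have h1 := hK s (hsB s hs)
    have h2 : 1 + s * κ.re ≤ ‖1 + (s : ℂ) * κ‖ := by
      have := Complex.re_le_norm (1 + (s : ℂ) * κ)
      simpa using this
    refine (h2.trans h1).trans (Real.exp_le_exp.2 ?_)
    have h3 : ∫ t, Real.log (1 + s * k t) ∂μT ≤ ∫ t, s * k t ∂μT := by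
      refine integral_mono (hlogi s (hsB s hs)) (hki.const_mul s) fun t => ?_
      simp only
      have := Real.log_le_sub_one_of_pos (x := 1 + s * k t) (by linarith [hpos s (hsB s hs) t])
      linarith
    rw [integral_const_mul] at h3
    calc (1 / (2 * π)) * ∫ t, Real.log (1 + s * k t) ∂μT
        ≤ (1 / (2 * π)) * (s * ∫ t, k t ∂μT) := mul_le_mul_of_nonneg_left h3 (by positivity)
      _ = s * m := by rw [hm]; ring
  have hre : κ.re = m := by
    have hder : HasDerivAt (fun s : ℝ => Real.exp (s * m) - (1 + s * κ.re)) (m - κ.re) 0 := by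
      have h1 : HasDerivAt (fun s : ℝ => Real.exp (s * m)) (Real.exp (0 * m) * (1 * m)) 0 :=
        ((hasDerivAt_id (0 : ℝ)).mul_const m).exp
      have h2 : HasDerivAt (fun s : ℝ => 1 + s * κ.re) (1 * κ.re) 0 :=
        ((hasDerivAt_id (0 : ℝ)).mul_const κ.re).const_add 1
      have h3 := h1.sub h2
      have e1 : Real.exp (0 * m) * (1 * m) - 1 * κ.re = m - κ.re := by simp
      rw [e1] at h3
      exact h3
    have hmin : IsLocalMin (fun s : ℝ => Real.exp (s * m) - (1 + s * κ.re)) 0 := by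
      have : ∀ᶠ s : ℝ in 𝓝 0, |s| ≤ s0 := by
        have h1 : Metric.closedBall (0 : ℝ) s0 ∈ 𝓝 (0 : ℝ) := Metric.closedBall_mem_nhds _ hs0
        filter_upwards [h1] with s hs
        simpa [Real.dist_eq] using hs
      filter_upwards [this] with s hs
      have := ha s hs
      simp only [zero_mul, Real.exp_zero, add_zero, sub_self]
      linarith
    have := hmin.hasDerivAt_eq_zero hder
    linarith
  -- (b)
  have hb : ∀ s : ℝ, |s| ≤ s0 → 1 - s ^ 2 * (κ ^ 2).re ≤ Real.exp (-(s ^ 2 * M)) := by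
    intro s hs
    have hs' : |-s| ≤ s0 := by rwa [abs_neg]
    have h1 := hK s (hsB s hs)
    have h1' := hK (-s) (hsB (-s) hs')
    have h2 : 1 - s ^ 2 * (κ ^ 2).re ≤ ‖1 + (s : ℂ) * κ‖ * ‖1 + ((-s : ℝ) : ℂ) * κ‖ := by
      rw [← norm_mul]
      have e1 : (1 + (s : ℂ) * κ) * (1 + ((-s : ℝ) : ℂ) * κ) = 1 - ((s ^ 2 : ℝ) : ℂ) * κ ^ 2 := by
        push_cast
        ring
      rw [e1]
      have h3 := Complex.re_le_norm (1 - ((s ^ 2 : ℝ) : ℂ) * κ ^ 2)
      rw [Complex.sub_re, Complex.one_re, Complex.re_ofReal_mul] at h3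
      exact h3
    have h3 : ‖1 + (s : ℂ) * κ‖ * ‖1 + ((-s : ℝ) : ℂ) * κ‖ ≤
        Real.exp ((1 / (2 * π)) * ∫ t, Real.log (1 + s * k t) ∂μT) *
        Real.exp ((1 / (2 * π)) * ∫ t, Real.log (1 + (-s) * k t) ∂μT) :=
      mul_le_mul h1 h1' (norm_nonneg _) (Real.exp_pos _).le
    refine (h2.trans h3).trans ?_
    rw [← Real.exp_add, ← mul_add, ← integral_add (hlogi s (hsB s hs)) (hlogi (-s) (hsB _ hs'))]
    refine Real.exp_le_exp.2 ?_
    have h4 : ∫ t, (Real.log (1 + s * k t) + Real.log (1 + (-s) * k t)) ∂μT ≤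
        ∫ t, -(s ^ 2) * k t ^ 2 ∂μT := by
      refine integral_mono ((hlogi s (hsB s hs)).add (hlogi (-s) (hsB _ hs')))
        (hk2i.const_mul _) fun t => ?_
      simp only
      have p1 := hpos s (hsB s hs) t
      have p2 := hpos (-s) (hsB _ hs') t
      rw [← Real.log_mul (by linarith) (by linarith)]
      have := Real.log_le_sub_one_of_pos (x := (1 + s * k t) * (1 + -s * k t))
        (mul_pos (by linarith) (by linarith))
      linarith
    rw [integral_const_mul] at h4
    calc (1 / (2 * π)) * ∫ t, (Real.log (1 + s * k t) + Real.log (1 + (-s) * k t)) ∂μT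
        ≤ (1 / (2 * π)) * (-(s ^ 2) * ∫ t, k t ^ 2 ∂μT) :=
          mul_le_mul_of_nonneg_left h4 (by positivity)
      _ = -(s ^ 2 * M) := by rw [hM]; ring
  have hM0 : 0 ≤ M := by
    rw [hM]
    exact mul_nonneg (by positivity) (integral_nonneg fun t => sq_nonneg _)
  have hMR : M ≤ (κ ^ 2).re := by
    by_contra hcon
    push Not at hcon
    set d := M - (κ ^ 2).re with hd
    have hd0 : 0 < d := by linarith
    -- choose s
    obtain ⟨s, hs1, hs2, hs3⟩ : ∃ s : ℝ, 0 < s ∧ s ≤ s0 ∧ s ^ 2 * M ^ 2 < d := by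
      refine ⟨min s0 (min 1 (d / (M ^ 2 + 1))), by positivity, min_le_left _ _, ?_⟩
      set s := min s0 (min 1 (d / (M ^ 2 + 1))) with hs
      have q0 : 0 < s := by positivity
      have q1 : s ≤ 1 := (min_le_right _ _).trans (min_le_left _ _)
      have q2 : s ≤ d / (M ^ 2 + 1) := (min_le_right _ _).trans (min_le_right _ _)
      have q3 : s * (M ^ 2 + 1) ≤ d := by
        rwa [le_div_iff₀ (by positivity)] at q2
      have q4 : s ^ 2 ≤ s := by nlinarith
      have q5 : s ^ 2 * M ^ 2 ≤ s * M ^ 2 := mul_le_mul_of_nonneg_right q4 (sq_nonneg _)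
      nlinarith
    have h1 := hb s (by rw [abs_of_pos hs1]; exact hs2)
    have h2 : Real.exp (-(s ^ 2 * M)) ≤ 1 - s ^ 2 * M + (s ^ 2 * M) ^ 2 := by
      have hx : 0 ≤ s ^ 2 * M := by positivity
      have h3 := Real.add_one_le_exp (s ^ 2 * M)
      rw [Real.exp_neg, inv_le_iff_one_le_mul₀ (Real.exp_pos _)]
      set x := s ^ 2 * M with hxd
      have h5 : 0 ≤ 1 - x + x ^ 2 := by nlinarith [sq_nonneg (x - 1)]
      calc (1 : ℝ) ≤ (1 - x + x ^ 2) * (x + 1) := by
            have : (1 - x + x ^ 2) * (x + 1) = 1 + x ^ 3 := by ring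
            rw [this]
            have := pow_nonneg hx 3
            linarith
        _ ≤ _ := mul_le_mul_of_nonneg_left h3 h5
    have hs2pos : 0 < s ^ 2 := by positivity
    have h4 : s ^ 2 * d ≤ s ^ 2 * (s ^ 2 * M ^ 2) := by
      rw [hd]
      nlinarith
    have h5 := le_of_mul_le_mul_left h4 hs2pos
    linarith
  have hR : (κ ^ 2).re ≤ m ^ 2 := by
    rw [pow_two, Complex.mul_re, ← hre]
    nlinarith [sq_nonneg κ.im]
  -- variance
  refine ⟨m, ?_⟩
  have hvar : ∫ t, (k t - m) ^ 2 ∂μT = 2 * π * (M - m ^ 2) := by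
    have e1 : ∀ t, (k t - m) ^ 2 = k t ^ 2 + ((-2 * m) * k t + m ^ 2) := fun t => by ring
    simp only [e1]
    have i1 : Integrable (fun t => (-2 * m) * k t) μT := hki.const_mul _
    have i2 : Integrable (fun t => (-2 * m) * k t + m ^ 2) μT := i1.add (integrable_const _)
    rw [integral_add hk2i i2, integral_add i1 (integrable_const _), integral_const_mul,
      integral_const, smul_eq_mul]
    have e2 : μT.real univ = 2 * π := by
      rw [measureReal_def, μT_univ, ENNReal.toReal_ofReal hπ.le]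
    have e3 : ∫ t, k t ∂μT = 2 * π * m := by rw [hm]; field_simp
    have e4 : ∫ t, k t ^ 2 ∂μT = 2 * π * M := by rw [hM]; field_simp
    rw [e2, e3, e4]
    ring
  have hvi : Integrable (fun t => (k t - m) ^ 2) μT := by
    refine hbdd _ (by fun_prop) ⟨(B + |m|) ^ 2, fun t => ?_⟩
    rw [abs_pow]
    refine pow_le_pow_left₀ (abs_nonneg _) ?_ 2
    exact (abs_sub _ _).trans (by linarith [hB t])
  have hz : ∫ t, (k t - m) ^ 2 ∂μT = 0 := by
    refine le_antisymm ?_ (integral_nonneg fun t => sq_nonneg _)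
    rw [hvar]
    have : M - m ^ 2 ≤ 0 := by linarith
    nlinarith
  have hae := (integral_eq_zero_iff_of_nonneg (fun t => sq_nonneg _) hvi).1 hz
  filter_upwards [hae] with t ht
  have h1 : (k t - m) ^ 2 = 0 := ht
  have h2 : k t - m = 0 := by simpa using h1
  linarith

end Pool.Agent.H352R5.HL
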