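import Pool.Agent.H352R5.HL.Stubs2
import Pool.Agent.H352R5.HL.TOUT

set_option autoImplicit false

namespace Pool.Agent.H352R5.HL

open MeasureTheory Set Filter Topology
open scoped ENNReal NNReal Real

namespace BEU

theorem norm_exp_eq (n : ℕ) (t : ℝ) :
    ‖Complex.exp (Complex.I * ((n : ℂ) + 1) * t)‖ = 1 := by
  rw [show Complex.I * ((n : ℂ) + 1) * t = (((n : ℝ) + 1) * t : ℝ) * Complex.I by
    push_cast; ring, Complex.norm_exp_ofReal_mul_I]

theorem log_norm_le (w : ℂ) (hw : ‖w‖ ≤ 1 / 2) :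
    Real.log ‖1 + w‖ ≤ w.re + ‖w‖ ^ 2 := by
  have h0 : 1 / 2 ≤ ‖1 + w‖ := by
    have h1 : ‖(1 : ℂ)‖ ≤ ‖1 + w‖ + ‖w‖ := by
      calc ‖(1 : ℂ)‖ = ‖(1 + w) - w‖ := by ring_nf
        _ ≤ _ := norm_sub_le _ _
    rw [norm_one] at h1
    linarith
  have h1 : Real.log (‖1 + w‖ ^ 2) ≤ ‖1 + w‖ ^ 2 - 1 :=
    Real.log_le_sub_one_of_pos (by positivity)
  rw [Real.log_pow] at h1
  have h2 : ‖1 + w‖ ^ 2 = 1 + 2 * w.re + ‖w‖ ^ 2 := by
    rw [Complex.sq_norm, Complex.sq_norm, Complex.normSq_apply, Complex.normSq_apply]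
    simp
    ring
  rw [h2] at h1
  push_cast at h1
  have h3 := sq_nonneg ‖w‖
  linarith

theorem mean_eq (hU4 : S_U4) (F : ℝ → ℂ) (hF : Outer F) (g : ℝ → ℂ) (hg : Measurable g)
    (B : ℝ) (hB : ∀ t, ‖g t‖ ≤ B) (h4 : Four (fun t => g t * F t)) :
    (∫ t, g t * F t ∂μT) = (((1 / (2 * π) : ℝ) : ℂ) * ∫ t, g t ∂μT) * ∫ t, F t ∂μT := by
  have hne := OUT_ne hU4 F hF
  have hπ : 0 < 2 * π := by positivity
  have hFm := hF.meas
  set I : ℂ := ∫ t, F t ∂μT with hI
  have hIn : 0 < ‖I‖ := by rw [hF.eq]; positivity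
  have hI0 : I ≠ 0 := norm_pos_iff.1 hIn
  have hB0 : 0 ≤ B := (norm_nonneg _).trans (hB 0)
  have hgF : Integrable (fun t => g t * F t) μT := by
    refine Integrable.mono' (hF.int.norm.const_mul B)
      (by fun_prop : Measurable fun t => g t * F t).aestronglyMeasurable
      (Eventually.of_forall fun t => ?_)
    rw [norm_mul]
    exact mul_le_mul_of_nonneg_right (hB t) (norm_nonneg _)
  have hgi : Integrable g μT :=
    Integrable.mono' (integrable_const B) hg.aestronglyMeasurable (Eventually.of_forall hB)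
  set κ : ℂ := (∫ t, g t * F t ∂μT) / I with hκ
  set m : ℂ := ((1 / (2 * π) : ℝ) : ℂ) * ∫ t, g t ∂μT with hm
  have hw : ∀ s : ℂ, ‖s‖ * B ≤ 1 / 2 → ∀ t, ‖s * g t‖ ≤ 1 / 2 := by
    intro s hs t
    rw [norm_mul]
    exact (mul_le_mul_of_nonneg_left (hB t) (norm_nonneg s)).trans hs
  have hpos : ∀ s : ℂ, ‖s‖ * B ≤ 1 / 2 → ∀ t, 1 / 2 ≤ ‖1 + s * g t‖ := by
    intro s hs t
    have h1 : ‖(1 : ℂ)‖ ≤ ‖1 + s * g t‖ + ‖s * g t‖ := by
      calc ‖(1 : ℂ)‖ = ‖(1 + s * g t) - s * g t‖ := by ring_nf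
        _ ≤ _ := norm_sub_le _ _
    rw [norm_one] at h1
    linarith [hw s hs t]
  have hlogi : ∀ s : ℂ, ‖s‖ * B ≤ 1 / 2 → Integrable (fun t => Real.log ‖1 + s * g t‖) μT := by
    intro s hs
    refine Integrable.mono' (integrable_const (Real.log 2 + 1))
      (Real.measurable_log.comp (by fun_prop)).aestronglyMeasurable
      (Eventually.of_forall fun t => ?_)
    have h1 := hpos s hs t
    have h2 : Real.log ‖1 + s * g t‖ ≤ 1 := by
      have h3 := Real.log_le_sub_one_of_pos (x := ‖1 + s * g t‖) (by linarith)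
      have h4 : ‖1 + s * g t‖ ≤ 1 + 1 / 2 := by
        refine (norm_add_le _ _).trans ?_
        rw [norm_one]
        linarith [hw s hs t]
      linarith
    have h3 : -Real.log 2 ≤ Real.log ‖1 + s * g t‖ := by
      have := Real.log_le_log (by norm_num : (0 : ℝ) < 1 / 2) h1
      have e1 : Real.log (1 / 2) = -Real.log 2 := by
        rw [one_div, Real.log_inv]
      linarith
    have h5 : 0 < Real.log 2 := Real.log_pos (by norm_num)
    rw [Real.norm_eq_abs, abs_le]
    constructor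
    · linarith
    · linarith
  have hK : ∀ s : ℂ, ‖s‖ * B ≤ 1 / 2 → ‖1 + s * κ‖ ≤
      Real.exp ((1 / (2 * π)) * ∫ t, Real.log ‖1 + s * g t‖ ∂μT) := by
    intro s hs
    have hp := hpos s hs
    have hgeq : ∀ t, (1 + s * g t) * F t = F t + s * (g t * F t) := by
      intro t
      ring
    have hgi' : Integrable (fun t => (1 + s * g t) * F t) μT := by
      simp only [hgeq]
      exact hF.int.add (hgF.const_mul _)
    have hg4 : Four (fun t => (1 + s * g t) * F t) := by
      intro n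
      have e1 : ∀ t : ℝ, (1 + s * g t) * F t *
          Complex.exp (Complex.I * ((n : ℂ) + 1) * t) =
          F t * Complex.exp (Complex.I * ((n : ℂ) + 1) * t) +
          s * (g t * F t * Complex.exp (Complex.I * ((n : ℂ) + 1) * t)) := by
        intro t
        ring
      have hem : AEStronglyMeasurable (fun t : ℝ =>
          Complex.exp (Complex.I * ((n : ℂ) + 1) * t)) μT :=
        (by fun_prop : Continuous fun t : ℝ =>
          Complex.exp (Complex.I * ((n : ℂ) + 1) * t)).aestronglyMeasurable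
      have i1 : Integrable (fun t => F t * Complex.exp (Complex.I * ((n : ℂ) + 1) * t)) μT :=
        hF.int.mul_bdd (c := 1) hem (Eventually.of_forall fun t => (norm_exp_eq n t).le)
      have i2 : Integrable (fun t => g t * F t *
          Complex.exp (Complex.I * ((n : ℂ) + 1) * t)) μT :=
        hgF.mul_bdd (c := 1) hem (Eventually.of_forall fun t => (norm_exp_eq n t).le)
      simp only [e1]
      rw [integral_add i1 (i2.const_mul _), integral_const_mul, hF.four n, h4 n]
      simp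
    have hne1 : ∀ t, 1 + s * g t ≠ 0 := by
      intro t h
      have h1 := hp t
      rw [h, norm_zero] at h1
      linarith
    have hg0 : ∀ᵐ t ∂μT, (1 + s * g t) * F t ≠ 0 := by
      filter_upwards [hne] with t ht
      exact mul_ne_zero (hne1 t) ht
    have hleq : ∀ᵐ t ∂μT, Real.log ‖(1 + s * g t) * F t‖ =
        Real.log ‖1 + s * g t‖ + Real.log ‖F t‖ := by
      filter_upwards [hne] with t ht
      rw [norm_mul, Real.log_mul (norm_ne_zero_iff.2 (hne1 t)) (norm_ne_zero_iff.2 ht)]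
    have hgl : Integrable (fun t => Real.log ‖(1 + s * g t) * F t‖) μT :=
      ((hlogi s hs).add hF.log).congr (hleq.mono fun t ht => ht.symm)
    have hJ := OUT_jensen hU4 (fun t => (1 + s * g t) * F t)
      (by fun_prop) hgi' hg4 hg0 hgl
    have e2 : ∫ t, (1 + s * g t) * F t ∂μT = I * (1 + s * κ) := by
      simp only [hgeq]
      rw [integral_add hF.int (hgF.const_mul _), integral_const_mul, hκ, ← hI]
      field_simp
    have e3 : ∫ t, Real.log ‖(1 + s * g t) * F t‖ ∂μT =
        ∫ t, Real.log ‖1 + s * g t‖ ∂μT + ∫ t, Real.log ‖F t‖ ∂μT := by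
      rw [integral_congr_ae hleq, integral_add (hlogi s hs) hF.log]
    rw [e2, e3, mul_add (1 / (2 * π)), Real.exp_add, norm_mul, hF.eq] at hJ
    set E := Real.exp ((1 / (2 * π)) * ∫ t, Real.log ‖F t‖ ∂μT) with hE
    have hE0 : 0 < 2 * π * E := by positivity
    have hJ' : 2 * π * E * ‖1 + s * κ‖ ≤
        2 * π * E * Real.exp ((1 / (2 * π)) * ∫ t, Real.log ‖1 + s * g t‖ ∂μT) := by
      linarith
    exact le_of_mul_le_mul_left hJ' hE0
  have hμ : μT.real univ = 2 * π := by
    rw [measureReal_def, μT_univ, ENNReal.toReal_ofReal hπ.le]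
  -- the bound of the mean
  have hL : ∀ s : ℂ, ‖s‖ * B ≤ 1 / 2 → 1 + (s * κ).re ≤
      Real.exp ((s * m).re + (‖s‖ * B) ^ 2) := by
    intro s hs
    have h1 := hK s hs
    have h2 : 1 + (s * κ).re ≤ ‖1 + s * κ‖ := by
      have := Complex.re_le_norm (1 + s * κ)
      simpa using this
    refine (h2.trans h1).trans (Real.exp_le_exp.2 ?_)
    have i1 : Integrable (fun t => (s * g t).re) μT := (hgi.const_mul s).re
    have h3 : ∫ t, Real.log ‖1 + s * g t‖ ∂μT ≤ ∫ t, ((s * g t).re + (‖s‖ * B) ^ 2) ∂μT := by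
      refine integral_mono (hlogi s hs) (i1.add (integrable_const _)) fun t => ?_
      simp only
      refine (log_norm_le _ (hw s hs t)).trans ?_
      have h5 : ‖s * g t‖ ≤ ‖s‖ * B := by
        rw [norm_mul]
        exact mul_le_mul_of_nonneg_left (hB t) (norm_nonneg s)
      have h6 := pow_le_pow_left₀ (norm_nonneg (s * g t)) h5 2
      linarith
    have h5 : ∫ t, (s * g t).re ∂μT = (s * ∫ t, g t ∂μT).re := by
      have e := integral_re (𝕜 := ℂ) (hgi.const_mul s)
      simp only [RCLike.re_to_complex] at e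
      rw [e, integral_const_mul]
    rw [integral_add i1 (integrable_const _), integral_const, hμ, smul_eq_mul, h5] at h3
    calc (1 / (2 * π)) * ∫ t, Real.log ‖1 + s * g t‖ ∂μT
        ≤ (1 / (2 * π)) * ((s * ∫ t, g t ∂μT).re + 2 * π * (‖s‖ * B) ^ 2) :=
          mul_le_mul_of_nonneg_left h3 (by positivity)
      _ = (s * m).re + (‖s‖ * B) ^ 2 := by
          have e : s * m = ((1 / (2 * π) : ℝ) : ℂ) * (s * ∫ t, g t ∂μT) := by rw [hm]; ring
          rw [e, Complex.re_ofReal_mul]
          field_simp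
  -- differentiate
  have hdir : ∀ u : ℂ, ‖u‖ = 1 → (u * κ).re = (u * m).re := by
    intro u hu
    obtain ⟨s0, hs0, hs0B⟩ : ∃ s0 : ℝ, 0 < s0 ∧ s0 * B ≤ 1 / 2 := by
      refine ⟨1 / (2 * (B + 1)), by positivity, ?_⟩
      rw [div_mul_eq_mul_div, div_le_iff₀ (by positivity)]
      linarith
    have ha : ∀ s : ℝ, |s| ≤ s0 → 1 + s * (u * κ).re ≤
        Real.exp (s * (u * m).re + s ^ 2 * B ^ 2) := by
      intro s hs
      have hn : ‖(s : ℂ) * u‖ = |s| := by
        rw [norm_mul, hu, mul_one, Complex.norm_real, Real.norm_eq_abs]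
      have h1 := hL ((s : ℂ) * u) (by
        rw [hn]
        exact (mul_le_mul_of_nonneg_right hs hB0).trans hs0B)
      rw [hn, mul_assoc, Complex.re_ofReal_mul, mul_assoc, Complex.re_ofReal_mul, mul_pow,
        sq_abs] at h1
      exact h1
    have hder : HasDerivAt (fun s : ℝ => Real.exp (s * (u * m).re + s ^ 2 * B ^ 2) -
        (1 + s * (u * κ).re)) ((u * m).re - (u * κ).re) 0 := by
      generalize (u * m).re = a
      generalize (u * κ).re = b
      have q1 : HasDerivAt (fun s : ℝ => s * a) (1 * a) 0 := (hasDerivAt_id (0 : ℝ)).mul_const a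
      have q2 : HasDerivAt (fun s : ℝ => s ^ 2) (((2 : ℕ) : ℝ) * (0 : ℝ) ^ (2 - 1)) 0 :=
        hasDerivAt_pow 2 (0 : ℝ)
      have q3 : HasDerivAt (fun s : ℝ => s ^ 2 * B ^ 2)
          (((2 : ℕ) : ℝ) * (0 : ℝ) ^ (2 - 1) * B ^ 2) 0 := q2.mul_const (B ^ 2)
      have h0 : HasDerivAt (fun s : ℝ => s * a + s ^ 2 * B ^ 2)
          (1 * a + ((2 : ℕ) : ℝ) * (0 : ℝ) ^ (2 - 1) * B ^ 2) 0 := q1.add q3
      have h1 : HasDerivAt (fun s : ℝ => Real.exp (s * a + s ^ 2 * B ^ 2))
          (Real.exp (0 * a + 0 ^ 2 * B ^ 2) *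
            (1 * a + ((2 : ℕ) : ℝ) * (0 : ℝ) ^ (2 - 1) * B ^ 2)) 0 := h0.exp
      have h2 : HasDerivAt (fun s : ℝ => 1 + s * b) (1 * b) 0 :=
        ((hasDerivAt_id (0 : ℝ)).mul_const b).const_add 1
      have h3 : HasDerivAt (fun s : ℝ => Real.exp (s * a + s ^ 2 * B ^ 2) - (1 + s * b))
          (Real.exp (0 * a + 0 ^ 2 * B ^ 2) *
            (1 * a + ((2 : ℕ) : ℝ) * (0 : ℝ) ^ (2 - 1) * B ^ 2) - 1 * b) 0 := h1.sub h2
      have e : Real.exp (0 * a + 0 ^ 2 * B ^ 2) *
            (1 * a + ((2 : ℕ) : ℝ) * (0 : ℝ) ^ (2 - 1) * B ^ 2) - 1 * b = a - b := by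
        simp
      rw [e] at h3
      exact h3
    have hmin : IsLocalMin (fun s : ℝ => Real.exp (s * (u * m).re + s ^ 2 * B ^ 2) -
        (1 + s * (u * κ).re)) 0 := by
      have : ∀ᶠ s : ℝ in 𝓝 0, |s| ≤ s0 := by
        have h1 : Metric.closedBall (0 : ℝ) s0 ∈ 𝓝 (0 : ℝ) := Metric.closedBall_mem_nhds _ hs0
        filter_upwards [h1] with s hs
        simpa [Real.dist_eq] using hs
      filter_upwards [this] with s hs
      have := ha s hs
      simp only [zero_mul, ne_eq, OfNat.ofNat_ne_zero, not_false_eq_true, zero_pow, add_zero,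
        Real.exp_zero, sub_self]
      linarith
    have := hmin.hasDerivAt_eq_zero hder
    linarith
  have hκm : κ = m := by
    apply Complex.ext
    · have := hdir 1 norm_one
      simpa using this
    · have := hdir Complex.I Complex.norm_I
      simp only [Complex.mul_re, Complex.I_re, Complex.I_im, zero_mul, one_mul, zero_sub] at this
      linarith
  rw [← hκm, hκ]
  field_simp

end BEU

theorem tBEU : S_U4 → S_BEU := by
  intro hU4 F hF g hg ⟨B, hB⟩ h4 n
  have hπ : 0 < 2 * π := by positivity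
  have hI0 : (∫ t, F t ∂μT) ≠ 0 := by
    have hIn : 0 < ‖∫ t, F t ∂μT‖ := by rw [hF.eq]; positivity
    exact norm_pos_iff.1 hIn
  have hgm : Measurable (fun t : ℝ => g t * Complex.exp (Complex.I * ((n : ℂ) + 1) * t)) := by
    refine hg.mul ?_
    exact (by fun_prop : Continuous fun t : ℝ =>
      Complex.exp (Complex.I * ((n : ℂ) + 1) * t)).measurable
  have h5 := BEU.mean_eq hU4 F hF
    (fun t => g t * Complex.exp (Complex.I * ((n : ℂ) + 1) * t)) hgm B (fun t => by
      rw [norm_mul, BEU.norm_exp_eq, mul_one]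
      exact hB t) (by
      intro k
      have := h4 (n + k + 1)
      rw [← this]
      congr 1
      ext t
      have e : Complex.exp (Complex.I * (((n + k + 1 : ℕ) : ℂ) + 1) * t) =
          Complex.exp (Complex.I * ((n : ℂ) + 1) * t) *
            Complex.exp (Complex.I * ((k : ℂ) + 1) * t) := by
        rw [← Complex.exp_add]
        congr 1
        push_cast
        ring
      rw [e]
      ring)
  have h6 : ∫ t, g t * Complex.exp (Complex.I * ((n : ℂ) + 1) * t) * F t ∂μT = 0 := by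
    have := h4 n
    rw [← this]
    congr 1
    ext t
    ring
  rw [h6] at h5
  have h7 := h5.symm
  rw [mul_eq_zero] at h7
  rcases h7 with h7 | h7
  · rw [mul_eq_zero] at h7
    rcases h7 with h7 | h7
    · exfalso
      have : (1 / (2 * π) : ℝ) = 0 := by exact_mod_cast h7
      have h8 : 0 < 1 / (2 * π) := by positivity
      linarith
    · exact h7
  · exact absurd h7 hI0

end Pool.Agent.H352R5.HL
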