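import Pool.Agent.H352R5.HL.Stubs

/-!
# Trigonometric polynomials are dense in `L¹(μT)`
-/

namespace Pool.Agent.H352R5.HL

open MeasureTheory Set Filter Topology
open scoped ENNReal NNReal Real

namespace D1

theorem of_measurable (f : ℝ → ℂ) (hfm : Measurable f) (hf : Integrable f μT) (ε : ℝ)
    (hε : 0 < ε) : ∃ (s : Finset ℤ) (c : ℤ → ℂ),
    ∫⁻ t, ‖f t - ∑ n ∈ s, c n * Complex.exp (Complex.I * (n : ℂ) * t)‖ₑ ∂μT ≤
      ENNReal.ofReal ε := by
  haveI hT : Fact (0 < 2 * π) := ⟨Real.two_pi_pos⟩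
  set F : AddCircle (2 * π) → ℂ := AddCircle.liftIoc (2 * π) 0 f with hF
  have hFm : Measurable F :=
    (hfm.comp measurable_subtype_coe).comp (AddCircle.measurableEquivIoc (2 * π) 0).measurable
  have hFf : ∀ t ∈ Ioc (0 : ℝ) (2 * π), F (t : AddCircle (2 * π)) = f t := by
    intro t ht
    exact AddCircle.liftIoc_coe_apply (by rwa [zero_add])
  have hpre : ∀ G : AddCircle (2 * π) → ℝ≥0∞,
      ∫⁻ t : ℝ, G (t : AddCircle (2 * π)) ∂μT = ∫⁻ b, G b := by
    intro G
    have h := AddCircle.lintegral_preimage (2 * π) 0 G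
    rw [zero_add] at h
    exact h
  have hcong : ∀ G : ℝ → AddCircle (2 * π) → ℂ,
      ∫⁻ t : ℝ, ‖f t - G t (t : AddCircle (2 * π))‖ₑ ∂μT =
        ∫⁻ t : ℝ, ‖F (t : AddCircle (2 * π)) - G t (t : AddCircle (2 * π))‖ₑ ∂μT := by
    intro G
    unfold μT
    exact setLIntegral_congr_fun measurableSet_Ioc (fun t ht => by
      simp only [hFf t ht])
  have hFint : MemLp F 1 volume := by
    rw [memLp_one_iff_integrable]
    refine ⟨hFm.aestronglyMeasurable, ?_⟩
    rw [hasFiniteIntegral_iff_enorm, ← hpre (fun b => ‖F b‖ₑ)]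
    have h := hcong (fun _ _ => 0)
    simp only [sub_zero] at h
    rw [← h]
    exact hasFiniteIntegral_iff_enorm.1 hf.2
  obtain ⟨g, hg, -⟩ := hFint.exists_boundedContinuous_eLpNorm_sub_le ENNReal.one_ne_top
    (ε := ENNReal.ofReal (ε / 2)) (by
      rw [Ne, ENNReal.ofReal_eq_zero, not_le]
      positivity)
  rw [eLpNorm_one_eq_lintegral_enorm] at hg
  have hden := span_fourier_closure_eq_top (T := 2 * π)
  have hgmem : g.toContinuousMap ∈
      (Submodule.span ℂ (range (fourier (T := 2 * π)))).topologicalClosure := by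
    rw [hden]
    trivial
  rw [← SetLike.mem_coe, Submodule.topologicalClosure_coe, Metric.mem_closure_iff] at hgmem
  obtain ⟨P, hP, hdist⟩ := hgmem (ε / (4 * π)) (by positivity)
  rw [SetLike.mem_coe, Finsupp.mem_span_range_iff_exists_finsupp] at hP
  obtain ⟨c, rfl⟩ := hP
  refine ⟨c.support, c, ?_⟩
  set P : C(AddCircle (2 * π), ℂ) := c.sum fun i a => a • fourier i with hPdef
  have hPv : ∀ t : ℝ, P (t : AddCircle (2 * π)) =
      ∑ n ∈ c.support, c n * Complex.exp (Complex.I * (n : ℂ) * t) := by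
    intro t
    rw [hPdef, Finsupp.sum, ContinuousMap.sum_apply]
    refine Finset.sum_congr rfl fun n _ => ?_
    rw [ContinuousMap.smul_apply, smul_eq_mul, fourier_coe_apply]
    congr 2
    have h2 : (π : ℂ) ≠ 0 := by exact_mod_cast Real.pi_ne_zero
    push_cast
    field_simp
  have e1 : ∫⁻ t, ‖f t - ∑ n ∈ c.support, c n * Complex.exp (Complex.I * (n : ℂ) * t)‖ₑ ∂μT =
      ∫⁻ b, ‖F b - P b‖ₑ := by
    rw [← hpre (fun b => ‖F b - P b‖ₑ), ← hcong (fun _ b => P b)]
    refine lintegral_congr fun t => ?_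
    rw [hPv]
  rw [e1]
  have e2 : ∫⁻ b, ‖F b - P b‖ₑ ≤ ∫⁻ b, (‖(F - ⇑g) b‖ₑ + ENNReal.ofReal (ε / (4 * π))) := by
    refine lintegral_mono fun b => ?_
    have h1 : F b - P b = (F - ⇑g) b + (g b - P b) := by
      rw [Pi.sub_apply]
      ring
    rw [h1]
    refine (enorm_add_le _ _).trans ?_
    gcongr
    rw [← ofReal_norm_eq_enorm]
    apply ENNReal.ofReal_le_ofReal
    have h2 := ContinuousMap.dist_apply_le_dist (f := g.toContinuousMap) (g := P) b
    rw [dist_eq_norm] at h2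
    exact h2.trans hdist.le
  refine e2.trans ?_
  rw [lintegral_add_right _ measurable_const, lintegral_const]
  have hvol : (volume : Measure (AddCircle (2 * π))) univ = ENNReal.ofReal (2 * π) :=
    AddCircle.measure_univ (2 * π)
  rw [hvol, ← ENNReal.ofReal_mul (by positivity)]
  refine (add_le_add hg le_rfl).trans ?_
  rw [← ENNReal.ofReal_add (by positivity) (by positivity)]
  apply ENNReal.ofReal_le_ofReal
  have hpi := Real.pi_ne_zero
  apply le_of_eq
  field_simp
  ring

end D1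

theorem tD1 : S_D1 := by
  intro f hf ε hε
  have hfm : AEStronglyMeasurable f μT := hf.1
  obtain ⟨s, c, h⟩ := D1.of_measurable (hfm.mk f) hfm.stronglyMeasurable_mk.measurable
    (hf.congr hfm.ae_eq_mk) ε hε
  refine ⟨s, c, le_trans (le_of_eq ?_) h⟩
  refine lintegral_congr_ae ?_
  filter_upwards [hfm.ae_eq_mk] with t ht
  rw [ht]

end Pool.Agent.H352R5.HL
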