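import Pool.Agent.H352R5.HL.Stubs

/-!
# D2: the Poisson integral of the exponentials
-/

namespace Pool.Agent.H352R5.HL

open MeasureTheory Set Filter Topology
open scoped ENNReal NNReal Real

namespace D2

theorem normSq_eq (r t θ : ℝ) :
    ‖circleMap 0 1 θ - circ r t‖ ^ 2 = 1 - 2 * r * Real.cos (t - θ) + r ^ 2 := by
  rw [← Complex.normSq_eq_norm_sq, Complex.normSq_apply]
  have h1 : circleMap 0 1 θ = ⟨Real.cos θ, Real.sin θ⟩ := by
    rw [circleMap_zero, Complex.ofReal_one, one_mul]
    apply Complex.ext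
    · simp [Complex.exp_ofReal_mul_I_re]
    · simp [Complex.exp_ofReal_mul_I_im]
  have h2 : circ r t = ⟨r * Real.cos t, r * Real.sin t⟩ := by
    unfold circ
    rw [mul_comm Complex.I]
    apply Complex.ext
    · rw [Complex.re_ofReal_mul, Complex.exp_ofReal_mul_I_re]
    · rw [Complex.im_ofReal_mul, Complex.exp_ofReal_mul_I_im]
  rw [h1, h2]
  simp only [Complex.sub_re, Complex.sub_im]
  rw [Real.cos_sub]
  have h3 := Real.sin_sq_add_cos_sq θ
  have h4 := Real.sin_sq_add_cos_sq t
  linear_combination h3 + r ^ 2 * h4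

theorem norm_circ (r t : ℝ) (h0 : 0 ≤ r) : ‖circ r t‖ = r := by
  unfold circ
  rw [norm_mul, mul_comm Complex.I, Complex.norm_exp_ofReal_mul_I, mul_one, Complex.norm_real,
    Real.norm_of_nonneg h0]

theorem kern (r t θ : ℝ) (h0 : 0 ≤ r) :
    poissonKernel 0 (circ r t) (circleMap 0 1 θ) = 2 * π * pk r t θ := by
  rw [poissonKernel_def, sub_zero, sub_zero, normSq_eq, norm_circ r t h0]
  unfold pk
  rw [norm_circleMap_zero, abs_one]
  field_simp

theorem nonneg (m : ℕ) (r : ℝ) (h0 : 0 ≤ r) (h1 : r < 1) (t : ℝ) :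
    PI r (fun θ => Complex.exp (Complex.I * (m : ℂ) * θ)) t
      = (r : ℂ) ^ m * Complex.exp (Complex.I * (m : ℂ) * t) := by
  have hd : DiffContOnCl ℂ (fun z : ℂ => z ^ m) (Metric.ball 0 1) :=
    (differentiable_pow m).diffContOnCl
  have hw : circ r t ∈ Metric.ball (0 : ℂ) 1 := by
    rw [Metric.mem_ball, dist_zero_right, norm_circ r t h0]
    exact h1
  have h := hd.circleAverage_poissonKernel_smul hw
  unfold Real.circleAverage at h
  have e1 : PI r (fun θ => Complex.exp (Complex.I * (m : ℂ) * θ)) t =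
      (2 * π)⁻¹ • ∫ θ in (0)..(2 * π),
        (poissonKernel 0 (circ r t) • fun z : ℂ => z ^ m) (circleMap 0 1 θ) := by
    unfold PI
    rw [intervalIntegral.integral_of_le Real.two_pi_pos.le, ← integral_smul]
    apply integral_congr_ae
    filter_upwards with θ
    show (pk r t θ : ℂ) * Complex.exp (Complex.I * (m : ℂ) * θ) =
      (2 * π)⁻¹ • (poissonKernel 0 (circ r t) (circleMap 0 1 θ) • (circleMap 0 1 θ) ^ m)
    rw [kern r t θ h0, smul_smul]
    have h2 : (2 * π)⁻¹ * (2 * π * pk r t θ) = pk r t θ := by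
      field_simp
    rw [h2, Complex.real_smul]
    congr 1
    rw [circleMap_zero, Complex.ofReal_one, one_mul, ← Complex.exp_nat_mul]
    congr 1
    ring
  rw [e1, h]
  show (circ r t) ^ m = _
  unfold circ
  rw [mul_pow, ← Complex.exp_nat_mul]
  congr 2
  ring

end D2

theorem tD2 : S_D2 := by
  intro n r h0 h1 t
  obtain ⟨m, rfl | rfl⟩ := Int.eq_nat_or_neg n
  · have h := D2.nonneg m r h0 h1 t
    rw [Int.natAbs_natCast, Int.cast_natCast]
    exact h
  · have h := congrArg (starRingEnd ℂ) (D2.nonneg m r h0 h1 t)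
    rw [Int.natAbs_neg, Int.natAbs_natCast, Int.cast_neg, Int.cast_natCast]
    have e : ∀ s : ℝ, Complex.exp (Complex.I * (-(m : ℂ)) * s) =
        (starRingEnd ℂ) (Complex.exp (Complex.I * (m : ℂ) * s)) := by
      intro s
      rw [← Complex.exp_conj]
      congr 1
      simp
    simp only [e]
    rw [map_mul, map_pow, Complex.conj_ofReal] at h
    rw [← h]
    unfold PI
    rw [← integral_conj]
    congr 1
    funext θ
    rw [map_mul, Complex.conj_ofReal]

end Pool.Agent.H352R5.HL
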