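import Pool.Agent.H352R5.HL.Stubs

/-!
# D3: the Poisson integral is a contraction of `L¹`
-/

namespace Pool.Agent.H352R5.HL

open MeasureTheory

theorem D3_meas {k : ℝ → ℝ → ℝ} (hk : Measurable (fun p : ℝ × ℝ => k p.1 p.2)) (θ : ℝ) :
    Measurable (fun t : ℝ => k t θ) := by
  have h : Measurable (fun t : ℝ => ((t, θ) : ℝ × ℝ)) := by fun_prop
  exact Measurable.comp hk h

theorem D3_gen (k : ℝ → ℝ → ℝ) (hk : Measurable (fun p : ℝ × ℝ => k p.1 p.2))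
    (hnn : ∀ t θ, 0 ≤ k t θ) (C : ℝ) (hC : ∀ t θ, k t θ ≤ C)
    (μ : Measure ℝ) [IsFiniteMeasure μ] (h1 : ∀ θ, ∫ t, k t θ ∂μ = 1)
    (f : ℝ → ℂ) (hf : Integrable f μ) :
    ∫⁻ t, ‖∫ θ, (k t θ : ℂ) * f θ ∂μ‖ₑ ∂μ ≤ ∫⁻ t, ‖f t‖ₑ ∂μ := by
  have hone : ∀ θ, ∫⁻ t, ENNReal.ofReal (k t θ) ∂μ = 1 := by
    intro θ
    have hm : Measurable (fun t : ℝ => k t θ) := D3_meas hk θ
    have hi : Integrable (fun t : ℝ => k t θ) μ := by
      refine Integrable.of_bound hm.aestronglyMeasurable C (Filter.Eventually.of_forall fun t => ?_)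
      rw [Real.norm_eq_abs, abs_of_nonneg (hnn t θ)]
      exact hC t θ
    rw [← ofReal_integral_eq_lintegral_ofReal hi (Filter.Eventually.of_forall fun t => hnn t θ),
      h1 θ, ENNReal.ofReal_one]
  calc ∫⁻ t, ‖∫ θ, (k t θ : ℂ) * f θ ∂μ‖ₑ ∂μ
      ≤ ∫⁻ t, ∫⁻ θ, ENNReal.ofReal (k t θ) * ‖f θ‖ₑ ∂μ ∂μ := by
        refine lintegral_mono fun t => ?_
        refine (enorm_integral_le_lintegral_enorm _).trans (lintegral_mono fun θ => ?_)
        rw [enorm_mul]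
        refine le_of_eq ?_
        congr 1
        rw [← ofReal_norm_eq_enorm, Complex.norm_real, Real.norm_eq_abs, abs_of_nonneg (hnn t θ)]
    _ = ∫⁻ θ, ∫⁻ t, ENNReal.ofReal (k t θ) * ‖f θ‖ₑ ∂μ ∂μ := by
        have hA : AEMeasurable (fun p : ℝ × ℝ => ENNReal.ofReal (k p.1 p.2)) (μ.prod μ) :=
          hk.ennreal_ofReal.aemeasurable
        have hB : AEMeasurable (fun p : ℝ × ℝ => ‖f p.2‖ₑ) (μ.prod μ) :=
          (hf.aestronglyMeasurable.comp_snd).enorm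
        exact lintegral_lintegral_swap (AEMeasurable.mul hA hB)
    _ = ∫⁻ θ, ‖f θ‖ₑ ∂μ := by
        refine lintegral_congr fun θ => ?_
        have hm : Measurable (fun t : ℝ => ENNReal.ofReal (k t θ)) :=
          (D3_meas hk θ).ennreal_ofReal
        rw [lintegral_mul_const _ hm, hone θ, one_mul]

theorem tD3 : S_P1 → S_D3 := by
  intro hP1 f hf r hr0 hr1
  obtain ⟨hnn, -, h1, hc, C, hC⟩ := hP1 r hr0 hr1
  exact D3_gen (pk r) hc.measurable hnn C hC μT h1 f hf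

end Pool.Agent.H352R5.HL
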