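import Pool.Agent.H352R5.HL.Stubs3

/-!
# Real multipliers of a finite Blaschke product
-/

namespace Pool.Agent.H352R5.HL

open MeasureTheory Set Filter Topology
open scoped ENNReal NNReal Real

namespace FBP

/-- the point of the circle -/
noncomputable def zz (t : ℝ) : ℂ := Complex.exp (Complex.I * t)

theorem zz_norm (t : ℝ) : ‖zz t‖ = 1 := by
  unfold zz
  rw [Complex.norm_exp]
  simp

theorem zz_ne (t : ℝ) : zz t ≠ 0 := Complex.exp_ne_zero _

theorem zz_cont : Continuous zz := by unfold zz; fun_prop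

theorem zz_pow (t : ℝ) (p : ℕ) : zz t ^ p = Complex.exp (Complex.I * (p : ℂ) * t) := by
  unfold zz
  rw [← Complex.exp_nat_mul]
  congr 1
  ring

theorem zz_conj (t : ℝ) : (starRingEnd ℂ) (zz t) = (zz t)⁻¹ := by
  have h := Complex.mul_conj (zz t)
  rw [Complex.normSq_eq_norm_sq, zz_norm] at h
  field_simp [zz_ne t]
  rw [mul_comm]
  simpa using h

/-- continuous, bounded, with vanishing negative Fourier coefficients -/
structure Good (f : ℝ → ℂ) : Prop where
  cont : Continuous f
  bdd : ∃ B : ℝ, ∀ t, ‖f t‖ ≤ B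
  four : Four f

theorem intg {f : ℝ → ℂ} (hf : Measurable f) (hb : ∃ B : ℝ, ∀ t, ‖f t‖ ≤ B) :
    Integrable f μT := by
  obtain ⟨B, hB⟩ := hb
  exact Integrable.of_bound hf.aestronglyMeasurable B (Filter.Eventually.of_forall hB)

theorem Good.intg {f : ℝ → ℂ} (h : Good f) : Integrable f μT :=
  FBP.intg h.cont.measurable h.bdd

theorem Good.add {f g : ℝ → ℂ} (hf : Good f) (hg : Good g) : Good (fun t => f t + g t) := by
  obtain ⟨B, hB⟩ := hf.bdd
  obtain ⟨B', hB'⟩ := hg.bdd
  refine ⟨hf.cont.add hg.cont, ⟨B + B', fun t => (norm_add_le _ _).trans (add_le_add (hB t) (hB' t))⟩,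
    ?_⟩
  have := hf.four.lin hg.four hf.intg hg.intg 1 1
  simpa using this

theorem Good.smul {f : ℝ → ℂ} (hf : Good f) (c : ℂ) : Good (fun t => c * f t) := by
  obtain ⟨B, hB⟩ := hf.bdd
  refine ⟨continuous_const.mul hf.cont, ⟨‖c‖ * B, fun t => ?_⟩, fun n => ?_⟩
  · rw [norm_mul]
    exact mul_le_mul_of_nonneg_left (hB t) (norm_nonneg c)
  · have h1 : ∀ t : ℝ, c * f t * Complex.exp (Complex.I * ((n : ℂ) + 1) * t) =
        c * (f t * Complex.exp (Complex.I * ((n : ℂ) + 1) * t)) := fun t => by ring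
    simp_rw [h1]
    rw [integral_const_mul, hf.four n, mul_zero]

theorem good_pow (p : ℕ) : Good (fun t => zz t ^ p) := by
  refine ⟨zz_cont.pow p, ⟨1, fun t => by rw [norm_pow, zz_norm, one_pow]⟩, fun n => ?_⟩
  have h1 := four_const 1 (n + p)
  rw [← h1]
  congr 1
  funext t
  rw [zz_pow, ← Complex.exp_add, one_mul]
  congr 1
  push_cast
  ring

theorem good_one : Good (fun _ => 1) := by
  have := good_pow 0
  simpa using this

theorem Good.mul (hP : S_PROD) {f g : ℝ → ℂ} (hf : Good f) (hg : Good g) :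
    Good (fun t => f t * g t) := by
  obtain ⟨B, hB⟩ := hf.bdd
  obtain ⟨B', hB'⟩ := hg.bdd
  refine ⟨hf.cont.mul hg.cont, ⟨B * B', fun t => ?_⟩,
    hP f g hf.cont.measurable hf.bdd hf.four hg.intg hg.four⟩
  rw [norm_mul]
  exact mul_le_mul (hB t) (hB' t) (norm_nonneg _) ((norm_nonneg _).trans (hB t))

theorem good_prod (hP : S_PROD) {ι : Type*} (s : Finset ι) (f : ι → ℝ → ℂ)
    (h : ∀ i, Good (f i)) : Good (fun t => ∏ i ∈ s, f i t) := by
  classical
  induction s using Finset.induction_on with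
  | empty => simpa using good_one
  | insert a s ha ih =>
    simp only [Finset.prod_insert ha]
    exact (h a).mul hP ih

/-- the denominators -/
noncomputable def DD (a : ℂ) (t : ℝ) : ℂ := 1 - (starRingEnd ℂ) a * zz t

theorem DD_norm {a : ℂ} (t : ℝ) : 1 - ‖a‖ ≤ ‖DD a t‖ := by
  unfold DD
  have := norm_sub_norm_le (1 : ℂ) ((starRingEnd ℂ) a * zz t)
  rw [norm_mul, zz_norm, norm_one, mul_one, RCLike.norm_conj] at this
  exact this

theorem DD_ne {a : ℂ} (ha : ‖a‖ < 1) (t : ℝ) : DD a t ≠ 0 := by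
  have := DD_norm (a := a) t
  intro h
  rw [h, norm_zero] at this
  linarith

theorem good_DD (a : ℂ) : Good (DD a) := by
  have h1 := good_one.add ((good_pow 1).smul (-(starRingEnd ℂ) a))
  have h2 : DD a = fun t => 1 + -(starRingEnd ℂ) a * zz t ^ 1 := by
    funext t; unfold DD; ring
  rw [h2]
  exact h1

theorem good_inv {a : ℂ} (ha : ‖a‖ < 1) : Good (fun t => (DD a t)⁻¹) := by
  have hpos : 0 < 1 - ‖a‖ := by linarith
  have hcont : Continuous (fun t => (DD a t)⁻¹) := (good_DD a).cont.inv₀ (DD_ne ha)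
  have hbd : ∀ t, ‖(DD a t)⁻¹‖ ≤ (1 - ‖a‖)⁻¹ := fun t => by
    rw [norm_inv]
    exact inv_anti₀ hpos (DD_norm t)
  refine ⟨hcont, ⟨(1 - ‖a‖)⁻¹, hbd⟩, fun n => ?_⟩
  -- `J p = ∫ z^(p+1) / (1 - conj a z)`
  set J : ℕ → ℂ := fun p => ∫ t, (DD a t)⁻¹ * zz t ^ (p + 1) ∂μT with hJ
  have hint : ∀ p : ℕ, Integrable (fun t => (DD a t)⁻¹ * zz t ^ (p + 1)) μT := fun p =>
    FBP.intg (hcont.mul (zz_cont.pow _)).measurable ⟨(1 - ‖a‖)⁻¹, fun t => by
      rw [norm_mul, norm_pow, zz_norm, one_pow, mul_one]; exact hbd t⟩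
  have hrec : ∀ p, J p = (starRingEnd ℂ) a * J (p + 1) := by
    intro p
    have h1 : ∀ t, (DD a t)⁻¹ * zz t ^ (p + 1) =
        zz t ^ (p + 1) + (starRingEnd ℂ) a * ((DD a t)⁻¹ * zz t ^ (p + 1 + 1)) := by
      intro t
      have h2 := DD_ne ha t
      field_simp
      unfold DD
      ring
    have h3 : ∫ t, zz t ^ (p + 1) ∂μT = 0 := by
      have := four_const 1 p
      rw [← this]
      congr 1
      funext t
      rw [zz_pow, one_mul]
      push_cast
      rfl
    simp only [hJ]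
    simp_rw [h1]
    rw [integral_add ((good_pow (p + 1)).intg) ((hint (p + 1)).const_mul _), integral_const_mul, h3,
      zero_add]
  have hbJ : ∀ p, ‖J p‖ ≤ (1 - ‖a‖)⁻¹ * (μT univ).toReal := by
    intro p
    have := norm_integral_le_of_norm_le_const (μ := μT) (f := fun t => (DD a t)⁻¹ * zz t ^ (p + 1))
      (C := (1 - ‖a‖)⁻¹) (Filter.Eventually.of_forall fun t => by
        rw [norm_mul, norm_pow, zz_norm, one_pow, mul_one]; exact hbd t)
    simpa [Measure.real] using this
  have hpow : ∀ m p, J p = (starRingEnd ℂ) a ^ m * J (p + m) := by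
    intro m
    induction m with
    | zero => intro p; simp
    | succ m ih =>
      intro p
      rw [ih p, hrec (p + m)]
      rw [pow_succ, ← add_assoc]
      ring
  have hJ0 : J n = 0 := by
    have h1 : Tendsto (fun m : ℕ => ‖a‖ ^ m * ((1 - ‖a‖)⁻¹ * (μT univ).toReal)) atTop (𝓝 0) := by
      have := (tendsto_pow_atTop_nhds_zero_of_lt_one (norm_nonneg a) ha).mul_const
        ((1 - ‖a‖)⁻¹ * (μT univ).toReal)
      simpa using this
    have h2 : ‖J n‖ ≤ 0 := by
      refine ge_of_tendsto' h1 fun m => ?_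
      rw [hpow m n, norm_mul, norm_pow, RCLike.norm_conj]
      exact mul_le_mul_of_nonneg_left (hbJ _) (pow_nonneg (norm_nonneg a) m)
    exact norm_le_zero_iff.1 h2
  rw [← hJ0]
  simp only [hJ]
  congr 1
  funext t
  rw [zz_pow]
  push_cast
  rfl

theorem good_trig (n m : ℕ) (hm : m ≤ n) :
    Good (fun t => (Real.cos (m * t) : ℂ) * zz t ^ n) ∧
    Good (fun t => (Real.sin (m * t) : ℂ) * zz t ^ n) := by
  have e1 : ∀ t : ℝ, Complex.exp ((m : ℂ) * t * Complex.I) * zz t ^ n = zz t ^ (n + m) := by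
    intro t
    rw [zz_pow, zz_pow, ← Complex.exp_add]
    congr 1
    push_cast
    ring
  have e2 : ∀ t : ℝ, Complex.exp (-((m : ℂ) * t) * Complex.I) * zz t ^ n = zz t ^ (n - m) := by
    intro t
    rw [zz_pow, zz_pow, ← Complex.exp_add]
    congr 1
    rw [Nat.cast_sub hm]
    ring
  have g1 := ((good_pow (n + m)).add (good_pow (n - m))).smul (1 / 2)
  have g2 := ((good_pow (n - m)).add ((good_pow (n + m)).smul (-1))).smul (Complex.I / 2)
  constructor
  · have h : (fun t : ℝ => (Real.cos (m * t) : ℂ) * zz t ^ n) =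
        fun t => 1 / 2 * (zz t ^ (n + m) + zz t ^ (n - m)) := by
      funext t
      rw [← e1, ← e2]
      push_cast
      rw [Complex.cos]
      ring
    rw [h]
    exact g1
  · have h : (fun t : ℝ => (Real.sin (m * t) : ℂ) * zz t ^ n) =
        fun t => Complex.I / 2 * (zz t ^ (n - m) + -1 * zz t ^ (n + m)) := by
      funext t
      rw [← e1, ← e2]
      push_cast
      rw [Complex.sin]
      ring
    rw [h]
    exact g2

theorem good_sum {ι : Type*} (s : Finset ι) (f : ι → ℝ → ℂ)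
    (h : ∀ i ∈ s, Good (f i)) : Good (fun t => ∑ i ∈ s, f i t) := by
  classical
  induction s using Finset.induction_on with
  | empty => simpa using good_one.smul 0
  | insert a s ha ih =>
    simp only [Finset.sum_insert ha]
    exact (h a (Finset.mem_insert_self _ _)).add (ih fun i hi => h i (Finset.mem_insert_of_mem hi))

/-- the key identity -/
theorem key {a : ℂ} (ha : ‖a‖ < 1) (t : ℝ) :
    (zz t - a) / DD a t * DD a t ^ 2 = ((‖DD a t‖ ^ 2 : ℝ) : ℂ) * zz t := by
  have h1 : ((‖DD a t‖ ^ 2 : ℝ) : ℂ) = DD a t * (starRingEnd ℂ) (DD a t) := by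
    rw [Complex.mul_conj, Complex.normSq_eq_norm_sq]
  have h2 : (starRingEnd ℂ) (DD a t) = 1 - a * (zz t)⁻¹ := by
    unfold DD
    rw [map_sub, map_one, map_mul, Complex.conj_conj, zz_conj]
  have h3 := DD_ne ha t
  have h4 := zz_ne t
  rw [h1, h2]
  field_simp

end FBP

open FBP in
theorem tFBP : S_POLY → S_PROD → S_FBP := by
  intro hPOLY hPROD n a ha k hk hkb
  obtain ⟨B, hB⟩ := hkb
  have hbl : ∀ t : ℝ, blaschke a t = ∏ j, (zz t - a j) / DD (a j) t := fun t => rfl
  have hW : ∀ t : ℝ, ∏ j, ‖1 - (starRingEnd ℂ) (a j) * Complex.exp (Complex.I * t)‖ ^ 2 =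
      ∏ j, ‖DD (a j) t‖ ^ 2 := fun t => rfl
  simp_rw [hW]
  set W : ℝ → ℝ := fun t => ∏ j, ‖DD (a j) t‖ ^ 2 with hWdef
  set G : ℝ → ℂ := fun t => ∏ j, DD (a j) t ^ 2 with hG
  -- `B G = W z^n`
  have hkey : ∀ t, blaschke a t * G t = (W t : ℂ) * zz t ^ n := by
    intro t
    rw [hbl, hG, hWdef]
    simp only
    rw [← Finset.prod_mul_distrib, Finset.prod_congr rfl fun j _ => key (ha j) t,
      Finset.prod_mul_distrib, Finset.prod_const, Finset.card_univ, Fintype.card_fin]
    push_cast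
    rfl
  have hGne : ∀ t, G t ≠ 0 := fun t => Finset.prod_ne_zero_iff.2 fun j _ => pow_ne_zero 2 (DD_ne (ha j) t)
  have gG : Good G := good_prod hPROD _ _ fun j => by
    have := (good_DD (a j)).mul hPROD (good_DD (a j))
    simpa [pow_two] using this
  have gGi : Good (fun t => (G t)⁻¹) := by
    have h1 := good_prod hPROD Finset.univ (fun (j : Fin n) t => (DD (a j) t)⁻¹ * (DD (a j) t)⁻¹)
      fun j => (good_inv (ha j)).mul hPROD (good_inv (ha j))
    have h2 : (fun t => (G t)⁻¹) = fun t => ∏ j : Fin n, (DD (a j) t)⁻¹ * (DD (a j) t)⁻¹ := by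
      funext t
      rw [hG]
      simp only
      rw [← Finset.prod_inv_distrib]
      refine Finset.prod_congr rfl fun j _ => ?_
      rw [pow_two, mul_inv]
    rw [h2]
    exact h1
  have hWc : Continuous W := by
    rw [hWdef]
    refine continuous_finsetProd _ fun j _ => ?_
    exact ((good_DD (a j)).cont.norm).pow 2
  have hWb : ∃ C : ℝ, ∀ t, |W t| ≤ C := by
    obtain ⟨C, hC⟩ := gG.bdd
    refine ⟨C, fun t => ?_⟩
    refine le_trans (le_of_eq ?_) (hC t)
    rw [hG, hWdef]
    simp only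
    rw [norm_prod, Finset.abs_prod]
    refine Finset.prod_congr rfl fun j _ => ?_
    rw [norm_pow, abs_of_nonneg (by positivity)]
  obtain ⟨C, hC⟩ := hWb
  have hblc : Continuous (blaschke a) := by
    have : blaschke a = fun t => ∏ j, (zz t - a j) / DD (a j) t := by funext t; exact hbl t
    rw [this]
    refine continuous_finsetProd _ fun j _ => ?_
    exact (zz_cont.sub continuous_const).div (good_DD (a j)).cont (DD_ne (ha j))
  have hbl2 : ∀ t, blaschke a t = (W t : ℂ) * zz t ^ n * (G t)⁻¹ := fun t => by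
    rw [← hkey t, mul_assoc, mul_inv_cancel₀ (hGne t), mul_one]
  obtain ⟨Ci, hCi⟩ := gGi.bdd
  constructor
  · intro h4
    have hg : Measurable (fun t => (k t : ℂ) * blaschke a t) :=
      (Complex.measurable_ofReal.comp hk).mul hblc.measurable
    have hgb : ∃ B' : ℝ, ∀ t, ‖(k t : ℂ) * blaschke a t‖ ≤ B' := by
      refine ⟨B * (C * Ci), fun t => ?_⟩
      rw [norm_mul, Complex.norm_real, Real.norm_eq_abs]
      refine mul_le_mul (hB t) ?_ (norm_nonneg _) ((abs_nonneg _).trans (hB t))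
      rw [hbl2, norm_mul, norm_mul, norm_pow, zz_norm, one_pow, mul_one, Complex.norm_real,
        Real.norm_eq_abs]
      exact mul_le_mul (hC t) (hCi t) (norm_nonneg _) ((abs_nonneg _).trans (hC t))
    have h5 := hPROD _ G hg hgb h4 gG.intg gG.four
    have h6 : Four (fun t => ((k t * W t : ℝ) : ℂ) * Complex.exp (Complex.I * (n : ℂ) * t)) := by
      refine h5.congr (Filter.Eventually.of_forall fun t => ?_)
      rw [mul_assoc (k t : ℂ), hkey t, zz_pow]
      push_cast
      ring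
    obtain ⟨α, β, h7⟩ := hPOLY (fun t => k t * W t) n (hk.mul hWc.measurable)
      ⟨B * C, fun t => by
        rw [abs_mul]
        exact mul_le_mul (hB t) (hC t) (abs_nonneg _) ((abs_nonneg _).trans (hB t))⟩ h6
    exact ⟨α, β, h7⟩
  · rintro ⟨α, β, h7⟩
    set T : ℝ → ℂ := fun t => ((α 0 + ∑ m ∈ Finset.Icc 1 n,
      (α m * Real.cos (m * t) + β m * Real.sin (m * t)) : ℝ) : ℂ) * zz t ^ n with hT
    have gT : Good T := by
      have h8 : Good (fun t => (α 0 : ℂ) * zz t ^ n + ∑ m ∈ Finset.Icc 1 n,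
          ((α m : ℂ) * ((Real.cos (m * t) : ℂ) * zz t ^ n) +
            (β m : ℂ) * ((Real.sin (m * t) : ℂ) * zz t ^ n))) := by
        refine ((good_pow n).smul (α 0)).add (good_sum _ _ fun m hm => ?_)
        have hmn : m ≤ n := (Finset.mem_Icc.1 hm).2
        exact ((good_trig n m hmn).1.smul _).add ((good_trig n m hmn).2.smul _)
      have h9 : T = fun t => (α 0 : ℂ) * zz t ^ n + ∑ m ∈ Finset.Icc 1 n,
          ((α m : ℂ) * ((Real.cos (m * t) : ℂ) * zz t ^ n) +
            (β m : ℂ) * ((Real.sin (m * t) : ℂ) * zz t ^ n)) := by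
        funext t
        rw [hT]
        simp only
        push_cast
        rw [add_mul, Finset.sum_mul]
        congr 1
        refine Finset.sum_congr rfl fun m _ => ?_
        ring
      rw [h9]
      exact h8
    have h10 := hPROD _ T gGi.cont.measurable gGi.bdd gGi.four gT.intg gT.four
    refine h10.congr ?_
    filter_upwards [h7] with t ht
    have ht' : k t * W t = α 0 + ∑ m ∈ Finset.Icc 1 n,
      (α m * Real.cos (m * t) + β m * Real.sin (m * t)) := ht
    rw [hbl2, hT]
    simp only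
    rw [← ht']
    push_cast
    ring

end Pool.Agent.H352R5.HL
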