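import Pool.Agent.H352R5.HL.Stubs

/-! U6: a function of `H¹` that vanishes on a set of positive measure is zero (helper228). -/

namespace Pool.Agent.H352R5.HL

open MeasureTheory Set Filter Topology
open scoped ENNReal NNReal Real

namespace U6

theorem log_int {f : ℝ → ℂ} (hm : Measurable f) (hf : Integrable f μT) {ε : ℝ} (hε : 0 < ε) :
    Integrable (fun t => Real.log (‖f t‖ + ε)) μT := by
  have hb : Integrable (fun t => ‖f t‖ + (|Real.log ε| + ε)) μT :=
    hf.norm.add (integrable_const _)
  refine hb.mono' (Real.measurable_log.comp (hm.norm.add_const ε)).aestronglyMeasurable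
    (Eventually.of_forall fun t => ?_)
  have h0 : 0 ≤ ‖f t‖ := norm_nonneg _
  have h1 : Real.log ε ≤ Real.log (‖f t‖ + ε) := Real.log_le_log hε (by linarith)
  have h2 : Real.log (‖f t‖ + ε) ≤ ‖f t‖ + ε - 1 := Real.log_le_sub_one_of_pos (by linarith)
  have h3 := neg_abs_le (Real.log ε)
  have h4 := abs_nonneg (Real.log ε)
  rw [Real.norm_eq_abs, abs_le]
  constructor <;> linarith

theorem log_le {f : ℝ → ℂ} (hm : Measurable f) (hf : Integrable f μT) {ε : ℝ} (hε : 0 < ε)
    (hε1 : ε < 1) : ∫ t, Real.log (‖f t‖ + ε) ∂μT ≤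
      Real.log ε * μT.real {t | f t = 0} + ∫ t, Real.log (‖f t‖ + 1) ∂μT := by
  have hS : MeasurableSet {t | f t = 0} := hm (measurableSet_singleton 0)
  have h1 : Real.log ε * μT.real {t | f t = 0} =
      ∫ t, indicator {t | f t = 0} (fun _ => Real.log ε) t ∂μT := by
    rw [integral_indicator_const _ hS, smul_eq_mul, mul_comm]
  have hi : Integrable (indicator {t | f t = 0} (fun _ => Real.log ε)) μT :=
    (integrable_const _).indicator hS
  rw [h1, ← integral_add hi (log_int hm hf one_pos)]
  refine integral_mono (log_int hm hf hε) (hi.add (log_int hm hf one_pos)) fun t => ?_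
  by_cases ht : f t = 0
  · rw [indicator_of_mem (show t ∈ {t | f t = 0} from ht)]
    simp [ht]
  · rw [indicator_of_notMem (show t ∉ {t | f t = 0} from ht), zero_add]
    exact Real.log_le_log (by positivity) (by linarith)

theorem int_zero (hU4 : S_U4) {f : ℝ → ℂ} (hm : Measurable f) (hf : Integrable f μT)
    (h4 : Four f) (h0 : μT {t | f t = 0} ≠ 0) : ∫ t, f t ∂μT = 0 := by
  set m : ℝ := μT.real {t | f t = 0} with hmdef
  have hm0 : 0 < m := by
    rw [hmdef, Measure.real]
    exact ENNReal.toReal_pos h0 (measure_ne_top _ _)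
  set I : ℝ := ∫ t, Real.log (‖f t‖ + 1) ∂μT with hI
  have hpi := Real.pi_pos
  have hb : ∀ ε : ℝ, 0 < ε → ε < 1 → ‖∫ t, f t ∂μT‖ ≤
      2 * π * Real.exp ((1 / (2 * π)) * (Real.log ε * m + I)) := by
    intro ε hε hε1
    refine (hU4 f hm hf h4 ε hε).trans ?_
    have h1 := log_le hm hf hε hε1
    gcongr
  have ht : Tendsto (fun ε : ℝ => 2 * π * Real.exp ((1 / (2 * π)) * (Real.log ε * m + I)))
      (𝓝[>] 0) (𝓝 (2 * π * 0)) := by
    apply Tendsto.const_mul
    apply Real.tendsto_exp_atBot.comp
    apply Tendsto.const_mul_atBot (by positivity)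
    apply tendsto_atBot_add_const_right
    exact Real.tendsto_log_nhdsGT_zero.atBot_mul_const hm0
  rw [mul_zero] at ht
  have hle : ‖∫ t, f t ∂μT‖ ≤ 0 := by
    refine ge_of_tendsto ht ?_
    have hmem : Ioo (0 : ℝ) 1 ∈ 𝓝[>] (0 : ℝ) := Ioo_mem_nhdsGT one_pos
    filter_upwards [hmem] with ε hε
    exact hb ε hε.1 hε.2
  exact norm_le_zero_iff.1 hle

theorem norm_e (x : ℝ) : ‖Complex.exp (Complex.I * x)‖ = 1 := by
  rw [mul_comm]; exact Complex.norm_exp_ofReal_mul_I x

end U6

open U6

theorem tU6 (hU4 : S_U4) (hU5 : S_U5) : S_U6 := by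
  intro f hm hf h4 h0
  have hexp : ∀ (n : ℤ), Measurable (fun t : ℝ => Complex.exp (Complex.I * (n : ℂ) * t)) :=
    fun n => by fun_prop
  have hnorm : ∀ (n : ℤ) (t : ℝ), ‖Complex.exp (Complex.I * (n : ℂ) * t)‖ = 1 := by
    intro n t
    have : Complex.I * (n : ℂ) * t = Complex.I * ((n * t : ℝ) : ℂ) := by push_cast; ring
    rw [this]
    exact norm_e _
  have hclaim : ∀ n : ℕ, ∫ t, f t * Complex.exp (Complex.I * ((-(n : ℤ) : ℤ) : ℂ) * t) ∂μT = 0 := by
    intro n
    induction n using Nat.strong_induction_on with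
    | _ n ih =>
      set g : ℝ → ℂ := fun t => f t * Complex.exp (Complex.I * ((-(n : ℤ) : ℤ) : ℂ) * t) with hg
      have hgm : Measurable g := hm.mul (hexp _)
      have hgn : ∀ t, ‖g t‖ = ‖f t‖ := by
        intro t
        simp only [hg]
        rw [norm_mul, hnorm, mul_one]
      have hgi : Integrable g μT :=
        hf.mono hgm.aestronglyMeasurable (Eventually.of_forall fun t => (hgn t).le)
      have hg4 : Four g := by
        intro m
        have e1 : ∀ t : ℝ, g t * Complex.exp (Complex.I * ((m : ℂ) + 1) * t) =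
            f t * Complex.exp (Complex.I * (((m + 1 : ℤ) - n : ℤ) : ℂ) * t) := by
          intro t
          simp only [hg]
          rw [mul_assoc, ← Complex.exp_add]
          congr 2
          push_cast
          ring
        simp only [e1]
        rcases lt_or_ge n (m + 1) with hn | hn
        · obtain ⟨j, hj⟩ : ∃ j : ℕ, m = n + j := ⟨m - n, by omega⟩
          have e2 : ∀ t : ℝ, f t * Complex.exp (Complex.I * (((m + 1 : ℤ) - n : ℤ) : ℂ) * t) =
              f t * Complex.exp (Complex.I * ((j : ℂ) + 1) * t) := by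
            intro t
            rw [hj]
            congr 2
            push_cast
            ring
          simp only [e2]
          exact h4 j
        · obtain ⟨j, hj⟩ : ∃ j : ℕ, n = m + 1 + j := ⟨n - (m + 1), by omega⟩
          have e2 : ∀ t : ℝ, f t * Complex.exp (Complex.I * (((m + 1 : ℤ) - n : ℤ) : ℂ) * t) =
              f t * Complex.exp (Complex.I * ((-(j : ℤ) : ℤ) : ℂ) * t) := by
            intro t
            rw [hj]
            congr 2
            push_cast
            ring
          simp only [e2]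
          exact ih j (by omega)
      have hset : {t | g t = 0} = {t | f t = 0} := by
        ext t
        simp only [mem_ofPred_eq]
        rw [← norm_eq_zero, hgn, norm_eq_zero]
      exact int_zero hU4 hgm hgi hg4 (by rw [hset]; exact h0)
  refine hU5 f hf fun n => ?_
  rcases lt_or_ge 0 n with hn | hn
  · obtain ⟨j, hj⟩ : ∃ j : ℕ, n = j + 1 := ⟨(n - 1).toNat, by omega⟩
    have := h4 j
    rw [hj]
    push_cast
    exact this
  · obtain ⟨j, hj⟩ : ∃ j : ℕ, n = -(j : ℤ) := ⟨(-n).toNat, by omega⟩
    rw [hj]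
    exact hclaim j

end Pool.Agent.H352R5.HL
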