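import Pool.Agent.H352R5.HL.Stubs3
import Pool.Agent.H352R5.HL.TU6

/-! LOGI: `log|f|` is integrable for a nonzero function of `H¹` (helper879). -/

namespace Pool.Agent.H352R5.HL

open MeasureTheory Set Filter Topology
open scoped ENNReal NNReal Real

namespace LOGI

theorem core (hU4 : S_U4) {g : ℝ → ℂ} (hm : Measurable g) (hg : Integrable g μT)
    (h4 : Four g) (h0 : ∫ t, g t ∂μT ≠ 0) : Integrable (fun t => Real.log ‖g t‖) μT := by
  have hpi := Real.pi_pos
  set I : ℝ := ‖∫ t, g t ∂μT‖ with hI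
  have hI0 : 0 < I := norm_pos_iff.2 h0
  set C : ℝ := ∫ t, Real.log (‖g t‖ + 1) ∂μT - 2 * π * Real.log (I / (2 * π)) with hC
  -- the functions `log (‖g‖ + 1) - log (‖g‖ + ε)`
  have hint : ∀ ε : ℝ, 0 < ε → Integrable (fun t => Real.log (‖g t‖ + ε)) μT :=
    fun ε hε => U6.log_int hm hg hε
  have hlow : ∀ ε : ℝ, 0 < ε → 2 * π * Real.log (I / (2 * π)) ≤
      ∫ t, Real.log (‖g t‖ + ε) ∂μT := by
    intro ε hε
    have h1 := hU4 g hm hg h4 ε hε
    have h2 : I / (2 * π) ≤ Real.exp ((1 / (2 * π)) * ∫ t, Real.log (‖g t‖ + ε) ∂μT) := by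
      rw [div_le_iff₀ (by positivity), mul_comm]
      exact h1
    have h3 := Real.log_le_log (by positivity) h2
    rw [Real.log_exp] at h3
    have h5 := mul_le_mul_of_nonneg_left h3 (by positivity : (0 : ℝ) ≤ 2 * π)
    have h6 : 2 * π * ((1 / (2 * π)) * ∫ t, Real.log (‖g t‖ + ε) ∂μT) =
        ∫ t, Real.log (‖g t‖ + ε) ∂μT := by
      field_simp
    rwa [h6] at h5
  set e : ℕ → ℝ := fun k => 1 / ((k : ℝ) + 1) with he
  have he0 : ∀ k, 0 < e k := fun k => by simp only [he]; positivity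
  have he1 : ∀ k, e k ≤ 1 := fun k => by
    simp only [he]
    rw [div_le_one (by positivity)]
    have : (0 : ℝ) ≤ k := Nat.cast_nonneg k
    linarith
  have het : Tendsto e atTop (𝓝 0) := tendsto_one_div_add_atTop_nhds_zero_nat
  set H : ℕ → ℝ → ℝ≥0∞ := fun k t =>
    ENNReal.ofReal (Real.log (‖g t‖ + 1) - Real.log (‖g t‖ + e k)) with hH
  have hHm : ∀ k, Measurable (H k) := fun k =>
    ((Real.measurable_log.comp (hm.norm.add_const 1)).sub
      (Real.measurable_log.comp (hm.norm.add_const (e k)))).ennreal_ofReal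
  have hHle : ∀ k, ∫⁻ t, H k t ∂μT ≤ ENNReal.ofReal C := by
    intro k
    have hnn : ∀ t, 0 ≤ Real.log (‖g t‖ + 1) - Real.log (‖g t‖ + e k) := by
      intro t
      have := Real.log_le_log (by have := he0 k; positivity : 0 < ‖g t‖ + e k)
        (by linarith [he1 k] : ‖g t‖ + e k ≤ ‖g t‖ + 1)
      linarith
    have hi : Integrable (fun t => Real.log (‖g t‖ + 1) - Real.log (‖g t‖ + e k)) μT :=
      (hint 1 one_pos).sub (hint (e k) (he0 k))
    have key := ofReal_integral_eq_lintegral_ofReal hi (Eventually.of_forall hnn)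
    change ∫⁻ t, ENNReal.ofReal (Real.log (‖g t‖ + 1) - Real.log (‖g t‖ + e k)) ∂μT ≤ _
    rw [← key]
    apply ENNReal.ofReal_le_ofReal
    have h1 : ∫ t, (Real.log (‖g t‖ + 1) - Real.log (‖g t‖ + e k)) ∂μT =
        ∫ t, Real.log (‖g t‖ + 1) ∂μT - ∫ t, Real.log (‖g t‖ + e k) ∂μT :=
      integral_sub (hint 1 one_pos) (hint (e k) (he0 k))
    rw [h1, hC]
    linarith [hlow (e k) (he0 k)]
  set D : ℝ → ℝ := fun t => Real.log (‖g t‖ + 1) - Real.log ‖g t‖ with hD
  have hD0 : ∀ t, 0 ≤ D t := by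
    intro t
    simp only [hD]
    rcases (norm_nonneg (g t)).eq_or_lt with h | h
    · rw [← h]; simp
    · have := Real.log_le_log h (by linarith : ‖g t‖ ≤ ‖g t‖ + 1)
      linarith
  have hDm : Measurable D := (Real.measurable_log.comp (hm.norm.add_const 1)).sub
      (Real.measurable_log.comp hm.norm)
  have hpt : ∀ t, ENNReal.ofReal (D t) ≤ liminf (fun k => H k t) atTop := by
    intro t
    rcases (norm_nonneg (g t)).eq_or_lt with h | h
    · have : D t = 0 := by simp only [hD]; rw [← h]; simp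
      rw [this]
      simp
    · have ht : Tendsto (fun k => H k t) atTop (𝓝 (ENNReal.ofReal (D t))) := by
        apply ENNReal.tendsto_ofReal
        apply Tendsto.sub tendsto_const_nhds
        have h1 : Tendsto (fun k => ‖g t‖ + e k) atTop (𝓝 (‖g t‖ + 0)) := het.const_add _
        rw [add_zero] at h1
        exact (Real.continuousAt_log h.ne').tendsto.comp h1
      rw [ht.liminf_eq]
  have hDint : Integrable D μT := by
    refine ⟨hDm.aestronglyMeasurable, ?_⟩
    rw [hasFiniteIntegral_iff_ofReal (Eventually.of_forall hD0)]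
    calc ∫⁻ t, ENNReal.ofReal (D t) ∂μT ≤ ∫⁻ t, liminf (fun k => H k t) atTop ∂μT :=
          lintegral_mono hpt
      _ ≤ liminf (fun k => ∫⁻ t, H k t ∂μT) atTop := lintegral_liminf_le hHm
      _ ≤ ENNReal.ofReal C := by
          refine liminf_le_of_le (by isBoundedDefault) fun b hb => ?_
          obtain ⟨k, hk⟩ := hb.exists
          exact hk.trans (hHle k)
      _ < ∞ := ENNReal.ofReal_lt_top
  have hfin := (hint 1 one_pos).sub hDint
  refine hfin.congr (Eventually.of_forall fun t => ?_)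
  simp only [Pi.sub_apply, hD]
  ring

end LOGI

theorem tLOGI (hU4 : S_U4) (hU5 : S_U5) : S_LOGI := by
  classical
  intro f hm hf h4 hne
  have hexp : ∀ (n : ℤ), Measurable (fun t : ℝ => Complex.exp (Complex.I * (n : ℂ) * t)) :=
    fun n => by fun_prop
  have hnorm : ∀ (n : ℤ) (t : ℝ), ‖Complex.exp (Complex.I * (n : ℂ) * t)‖ = 1 := by
    intro n t
    have : Complex.I * (n : ℂ) * t = Complex.I * ((n * t : ℝ) : ℂ) := by push_cast; ring
    rw [this]
    exact U6.norm_e _
  have hex : ∃ n : ℕ, ∫ t, f t * Complex.exp (Complex.I * ((-(n : ℤ) : ℤ) : ℂ) * t) ∂μT ≠ 0 := by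
    by_contra hcon
    push Not at hcon
    refine hne (hU5 f hf fun n => ?_)
    rcases lt_or_ge 0 n with hn | hn
    · obtain ⟨j, hj⟩ : ∃ j : ℕ, n = j + 1 := ⟨(n - 1).toNat, by omega⟩
      have := h4 j
      rw [hj]
      push_cast
      exact this
    · obtain ⟨j, hj⟩ : ∃ j : ℕ, n = -(j : ℤ) := ⟨(-n).toNat, by omega⟩
      rw [hj]
      exact hcon j
  set n := Nat.find hex with hn0
  have hn1 := Nat.find_spec hex
  rw [← hn0] at hn1
  have ih : ∀ j < n, ∫ t, f t * Complex.exp (Complex.I * ((-(j : ℤ) : ℤ) : ℂ) * t) ∂μT = 0 := by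
    intro j hj
    have := Nat.find_min hex hj
    push Not at this
    exact this
  set g : ℝ → ℂ := fun t => f t * Complex.exp (Complex.I * ((-(n : ℤ) : ℤ) : ℂ) * t) with hg
  have hgm : Measurable g := hm.mul (hexp _)
  have hgn : ∀ t, ‖g t‖ = ‖f t‖ := by
    intro t
    simp only [hg]
    rw [norm_mul, hnorm, mul_one]
  have hgi : Integrable g μT :=
    hf.mono hgm.aestronglyMeasurable (Eventually.of_forall fun t => (hgn t).le)
  have hg4 : Four g := by
    intro m
    have e1 : ∀ t : ℝ, g t * Complex.exp (Complex.I * ((m : ℂ) + 1) * t) =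
        f t * Complex.exp (Complex.I * (((m + 1 : ℤ) - n : ℤ) : ℂ) * t) := by
      intro t
      simp only [hg]
      rw [mul_assoc, ← Complex.exp_add]
      congr 2
      push_cast
      ring
    simp only [e1]
    rcases lt_or_ge n (m + 1) with hn | hn
    · obtain ⟨j, hj⟩ : ∃ j : ℕ, m = n + j := ⟨m - n, by omega⟩
      have e2 : ∀ t : ℝ, f t * Complex.exp (Complex.I * (((m + 1 : ℤ) - n : ℤ) : ℂ) * t) =
          f t * Complex.exp (Complex.I * ((j : ℂ) + 1) * t) := by
        intro t
        rw [hj]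
        congr 2
        push_cast
        ring
      simp only [e2]
      exact h4 j
    · obtain ⟨j, hj⟩ : ∃ j : ℕ, n = m + 1 + j := ⟨n - (m + 1), by omega⟩
      have e2 : ∀ t : ℝ, f t * Complex.exp (Complex.I * (((m + 1 : ℤ) - n : ℤ) : ℂ) * t) =
          f t * Complex.exp (Complex.I * ((-(j : ℤ) : ℤ) : ℂ) * t) := by
        intro t
        have hn' : (n : ℤ) = m + 1 + j := by rw [hj]; push_cast; ring
        rw [hn']
        congr 2
        push_cast
        ring
      simp only [e2]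
      exact ih j (by omega)
  have := LOGI.core hU4 hgm hgi hg4 hn1
  simpa only [hgn] using this

end Pool.Agent.H352R5.HL
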