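import Pool.Agent.H352R5.HL.Stubs

/-!
# Hardy–Lorentz spaces, task N1: the norm identity
-/

namespace Pool.Agent.H352R5.HL

open MeasureTheory Set Filter Topology
open scoped ENNReal NNReal Real

namespace N1

theorem continuous_circ (r : ℝ) : Continuous (fun t : ℝ => circ r t) := by
  unfold circ
  fun_prop

theorem norm_circ {r : ℝ} (hr : 0 ≤ r) (t : ℝ) : ‖circ r t‖ = r := by
  unfold circ
  rw [norm_mul, mul_comm Complex.I, Complex.norm_exp_ofReal_mul_I, mul_one, Complex.norm_real,
    Real.norm_of_nonneg hr]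

theorem continuous_F {F : ℂ → ℂ} (hF : DifferentiableOn ℂ F (Metric.ball 0 1)) {r : ℝ}
    (hr : 0 ≤ r) (hr1 : r < 1) : Continuous (fun t : ℝ => F (circ r t)) := by
  refine hF.continuousOn.comp_continuous (continuous_circ r) fun t => ?_
  rw [mem_ball_zero_iff, norm_circ hr]
  exact hr1

end N1

open N1 in
theorem tN1 : S_P1 → S_P2 → S_P3a → S_P3b → S_P4 → S_N1 := by
  intro hP1 hP2 hP3a hP3b hP4 Ψ hΨ _ F f hF hf hfi hB
  refine le_antisymm ?_ ?_
  · refine iSup₂_le fun r hr => ?_
    obtain ⟨hpos, hint1, hint2, hcont, -⟩ := hP1 r hr.1.le hr.2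
    have hFc := continuous_F hF hr.1.le hr.2
    have hfin : ∫⁻ t, ENNReal.ofReal ‖f t‖ ∂μT ≠ ∞ := by
      simp only [ofReal_norm]
      exact hfi.2.ne
    refine hP3b Ψ hΨ (fun t => ‖f t‖) (fun t => ‖F (circ r t)‖) hf.norm hFc.norm.measurable
      (fun t => norm_nonneg _) (fun t => norm_nonneg _) hfin ?_
    refine hP3a (pk r) hcont.measurable hpos ?_ ?_ (fun t => ‖f t‖) (fun t => ‖F (circ r t)‖)
      hf.norm hFc.norm.measurable (fun t => norm_nonneg _) ?_
    · intro t
      rw [← ofReal_integral_eq_lintegral_ofReal (integrable_of_integral_eq_one (hint1 t))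
        (Eventually.of_forall fun θ => hpos t θ), hint1 t, ENNReal.ofReal_one]
    · intro θ
      rw [← ofReal_integral_eq_lintegral_ofReal (integrable_of_integral_eq_one (hint2 θ))
        (Eventually.of_forall fun t => hpos t θ), hint2 θ, ENNReal.ofReal_one]
    · intro t
      simp only [ofReal_norm]
      rw [hP2 F f hF hfi hB r hr.1.le hr.2 t]
      unfold PI
      refine (enorm_integral_le_lintegral_enorm _).trans (le_of_eq ?_)
      refine lintegral_congr fun θ => ?_
      rw [enorm_mul]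
      congr 1
      rw [← ofReal_norm, Complex.norm_real, Real.norm_of_nonneg (hpos t θ)]
  · obtain ⟨u, -, hu1, hu2⟩ := exists_seq_strictMono_tendsto' (show (0 : ℝ) < 1 from one_pos)
    have hu3 : Tendsto u atTop (𝓝[<] 1) :=
      tendsto_nhdsWithin_iff.2 ⟨hu2, Eventually.of_forall fun n => (hu1 n).2⟩
    have hL : Tendsto (fun n : ℕ => eLpNorm ((fun t => F (circ (u n) t)) - f) 1 μT) atTop
        (𝓝 0) := by
      have h := hB.comp hu3
      simp only [eLpNorm_one_eq_lintegral_enorm]
      exact h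
    have hM : TendstoInMeasure μT (fun n t => F (circ (u n) t)) atTop f :=
      tendstoInMeasure_of_tendsto_eLpNorm one_ne_zero
        (fun n => (continuous_F hF (hu1 n).1.le (hu1 n).2).aestronglyMeasurable)
        hfi.1 hL
    obtain ⟨ns, -, hns⟩ := hM.exists_seq_tendsto_ae
    refine hP4 Ψ hΨ (fun n t => ‖F (circ (u (ns n)) t)‖) (fun t => ‖f t‖)
      (fun n => (continuous_F hF (hu1 _).1.le (hu1 _).2).norm.measurable) hf.norm
      (hns.mono fun t ht => ht.norm) _ fun n => ?_
    exact le_iSup₂ (f := fun (r : ℝ) (_ : r ∈ Ioo (0 : ℝ) 1) =>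
      lor Ψ (fun t => ‖F (circ r t)‖)) (u (ns n)) (hu1 (ns n))

end Pool.Agent.H352R5.HL
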