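import Pool.Agent.H352R5.HL.Stubs

/-!
# U2: the Herglotz integral of a bounded function
-/

namespace Pool.Agent.H352R5.HL

open MeasureTheory Set Filter Topology
open scoped ENNReal NNReal Real

namespace U2

/-- `e^{iθ}` -/
noncomputable def ee (θ : ℝ) : ℂ := Complex.exp (Complex.I * θ)

theorem ee_norm (θ : ℝ) : ‖ee θ‖ = 1 := by
  rw [ee, mul_comm, Complex.norm_exp_ofReal_mul_I]

theorem ee_cont : Continuous ee := by
  unfold ee
  fun_prop

/-- the kernel -/
noncomputable def kk (r : ℝ) (z : ℂ) (θ : ℝ) : ℂ := (ee θ + r * z) / (ee θ - r * z)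

/-- the derivative of the kernel -/
noncomputable def kk' (r : ℝ) (z : ℂ) (θ : ℝ) : ℂ := 2 * r * ee θ / (ee θ - r * z) ^ 2

theorem low {r : ℝ} (hr : 0 < r) {z : ℂ} {ρ : ℝ} (hz : r * ‖z‖ ≤ ρ) (θ : ℝ) :
    1 - ρ ≤ ‖ee θ - r * z‖ := by
  have h1 := norm_sub_norm_le (ee θ) ((r : ℂ) * z)
  rw [ee_norm, norm_mul, Complex.norm_real, Real.norm_of_nonneg hr.le] at h1
  linarith

theorem kk_meas (r : ℝ) (z : ℂ) : Measurable (kk r z) := by
  unfold kk
  exact (ee_cont.measurable.add measurable_const).div (ee_cont.measurable.sub measurable_const)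

theorem kk'_meas (r : ℝ) (z : ℂ) : Measurable (kk' r z) := by
  unfold kk'
  exact (measurable_const.mul ee_cont.measurable).div
    ((ee_cont.measurable.sub measurable_const).pow_const 2)

theorem kk_bd {r : ℝ} (hr : 0 < r) {z : ℂ} {ρ : ℝ} (hρ : ρ < 1) (hz : r * ‖z‖ ≤ ρ) (θ : ℝ) :
    ‖kk r z θ‖ ≤ 2 / (1 - ρ) := by
  have h1 := low hr hz θ
  have h2 : ‖ee θ + r * z‖ ≤ 2 := by
    refine (norm_add_le _ _).trans ?_
    rw [ee_norm, norm_mul, Complex.norm_real, Real.norm_of_nonneg hr.le]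
    linarith
  rw [kk, norm_div]
  exact div_le_div₀ (by norm_num) h2 (by linarith) h1

theorem kk'_bd {r : ℝ} (hr : 0 < r) (hr1 : r < 1) {z : ℂ} {ρ : ℝ} (hρ : ρ < 1) (hz : r * ‖z‖ ≤ ρ)
    (θ : ℝ) : ‖kk' r z θ‖ ≤ 2 / (1 - ρ) ^ 2 := by
  have h1 := low hr hz θ
  rw [kk', norm_div, norm_pow, norm_mul, norm_mul, ee_norm, Complex.norm_real,
    Real.norm_of_nonneg hr.le, Complex.norm_ofNat]
  refine div_le_div₀ (by norm_num) (by linarith) (pow_pos (by linarith) 2) ?_
  exact pow_le_pow_left₀ (by linarith) h1 2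

theorem kk_deriv {r : ℝ} (hr : 0 < r) {z : ℂ} {ρ : ℝ} (hρ : ρ < 1) (hz : r * ‖z‖ ≤ ρ) (θ : ℝ) :
    HasDerivAt (fun w => kk r w θ) (kk' r z θ) z := by
  have h1 := low hr hz θ
  have h2 : ee θ - r * z ≠ 0 := by
    intro h
    rw [h, norm_zero] at h1
    linarith
  have h3 : HasDerivAt (fun w : ℂ => ee θ + r * w) (r : ℂ) z := by
    simpa using ((hasDerivAt_id z).const_mul (r : ℂ)).const_add (ee θ)
  have h4 : HasDerivAt (fun w : ℂ => ee θ - r * w) (-(r : ℂ)) z := by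
    simpa using ((hasDerivAt_id z).const_mul (r : ℂ)).const_sub (ee θ)
  have h5 := h3.div h4 h2
  have e : ((r : ℂ) * (ee θ - r * z) - (ee θ + r * z) * -(r : ℂ)) / (ee θ - r * z) ^ 2 =
      kk' r z θ := by
    rw [kk']
    congr 1
    ring
  rw [e] at h5
  exact h5

theorem re_kk {r : ℝ} (hr : 0 < r) (hr1 : r < 1) (t θ : ℝ) :
    (kk r (circ 1 t) θ).re / (2 * π) = pk r t θ := by
  have e1 : ee θ = (Real.cos θ : ℂ) + Real.sin θ * Complex.I := by
    rw [ee, mul_comm, Complex.exp_mul_I, Complex.ofReal_cos, Complex.ofReal_sin]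
  have e2 : circ 1 t = (Real.cos t : ℂ) + Real.sin t * Complex.I := by
    rw [circ, Complex.ofReal_one, one_mul, mul_comm, Complex.exp_mul_I, Complex.ofReal_cos,
      Complex.ofReal_sin]
  have hcos : Real.cos (t - θ) = Real.cos t * Real.cos θ + Real.sin t * Real.sin θ :=
    Real.cos_sub t θ
  have hs1 := Real.sin_sq_add_cos_sq t
  have hs2 := Real.sin_sq_add_cos_sq θ
  set a := Real.cos θ
  set b := Real.sin θ
  set c := Real.cos t
  set d := Real.sin t
  have hD : Complex.normSq (ee θ - r * circ 1 t) = 1 - 2 * r * (c * a + d * b) + r ^ 2 := by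
    rw [e1, e2, Complex.normSq_apply]
    simp
    linear_combination hs2 + r ^ 2 * hs1
  have hpos : 0 < 1 - 2 * r * (c * a + d * b) + r ^ 2 := by
    have h1 : c * a + d * b ≤ 1 := by rw [← hcos]; exact Real.cos_le_one _
    nlinarith [mul_le_mul_of_nonneg_left h1 hr.le, sq_nonneg (1 - r), mul_pos hr hr]
  have hN : (kk r (circ 1 t) θ).re = (1 - r ^ 2) / (1 - 2 * r * (c * a + d * b) + r ^ 2) := by
    rw [kk, Complex.div_re, hD, e1, e2]
    simp
    rw [← add_div]
    congr 1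
    linear_combination hs2 - r ^ 2 * hs1
  rw [hN, pk, hcos]

end U2

open U2 in
theorem tU2 : S_U2 := by
  intro v hv hB h0 r hr hr1
  obtain ⟨B, hB⟩ := hB
  have hB0 : 0 ≤ B := (abs_nonneg _).trans (hB 0)
  have hvm : Measurable (fun θ => (v θ : ℂ)) := Complex.measurable_ofReal.comp hv
  have hvn : ∀ θ, ‖(v θ : ℂ)‖ ≤ B := fun θ => by rw [Complex.norm_real]; exact hB θ
  have hint : ∀ z : ℂ, r * ‖z‖ < 1 → Integrable (fun θ => kk r z θ * (v θ : ℂ)) μT := by
    intro z hz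
    refine Integrable.of_bound ((kk_meas r z).mul hvm).aestronglyMeasurable
      (2 / (1 - r * ‖z‖) * B) (Eventually.of_forall fun θ => ?_)
    rw [norm_mul]
    exact mul_le_mul (kk_bd hr hz le_rfl θ) (hvn θ) (norm_nonneg _)
      (div_nonneg (by norm_num) (by linarith))
  refine ⟨fun z => (1 / (2 * π) : ℂ) * ∫ θ, kk r z θ * (v θ : ℂ) ∂μT, 1 / r, ?_, ?_, ?_, ?_⟩
  · rw [lt_div_iff₀ hr]
    linarith
  · intro x₀ hx₀
    rw [mem_ball_zero_iff, lt_div_iff₀ hr] at hx₀
    have hx : r * ‖x₀‖ < 1 := by linarith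
    set ρ := (r * ‖x₀‖ + 1) / 2 with hρ
    have hρ1 : ρ < 1 := by rw [hρ]; linarith
    have hρ2 : r * ‖x₀‖ < ρ := by rw [hρ]; linarith
    have hopen : IsOpen {z : ℂ | r * ‖z‖ < ρ} :=
      isOpen_lt (by fun_prop) continuous_const
    have hs : {z : ℂ | r * ‖z‖ < ρ} ∈ 𝓝 x₀ := hopen.mem_nhds hρ2
    have key := hasDerivAt_integral_of_dominated_loc_of_deriv_le (μ := μT)
      (F := fun z θ => kk r z θ * (v θ : ℂ)) (F' := fun z θ => kk' r z θ * (v θ : ℂ))
      (bound := fun _ => 2 / (1 - ρ) ^ 2 * B) hs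
      (Eventually.of_forall fun z => ((kk_meas r z).mul hvm).aestronglyMeasurable)
      (hint x₀ hx) ((kk'_meas r x₀).mul hvm).aestronglyMeasurable
      (Eventually.of_forall fun θ z hz => ?_) (integrable_const _)
      (Eventually.of_forall fun θ z hz => ?_)
    · exact ((key.2.const_mul (1 / (2 * π) : ℂ)).differentiableAt).differentiableWithinAt
    · have hz' : r * ‖z‖ < ρ := hz
      rw [norm_mul]
      exact mul_le_mul (kk'_bd hr hr1 hρ1 hz'.le θ) (hvn θ) (norm_nonneg _) (by positivity)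
    · have hz' : r * ‖z‖ < ρ := hz
      exact (kk_deriv hr hρ1 hz'.le θ).mul_const _
  · have h1 : ∀ θ, kk r 0 θ * (v θ : ℂ) = (v θ : ℂ) := by
      intro θ
      have h2 : ee θ ≠ 0 := by
        intro h
        have := ee_norm θ
        rw [h, norm_zero] at this
        norm_num at this
      rw [kk, mul_zero, add_zero, sub_zero, div_self h2, one_mul]
    simp only [h1]
    rw [integral_complex_ofReal, h0]
    simp
  · intro t
    have hz : r * ‖circ 1 t‖ < 1 := by
      have : ‖circ 1 t‖ = 1 := by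
        rw [circ, Complex.ofReal_one, one_mul, mul_comm, Complex.norm_exp_ofReal_mul_I]
      rw [this]
      linarith
    have h2 := hint (circ 1 t) hz
    have h3 : (1 / (2 * π) : ℂ) = ((1 / (2 * π) : ℝ) : ℂ) := by push_cast; rfl
    show ((1 / (2 * π) : ℂ) * ∫ θ, kk r (circ 1 t) θ * (v θ : ℂ) ∂μT).re = _
    rw [h3, Complex.re_ofReal_mul]
    have h4 : (∫ θ, kk r (circ 1 t) θ * (v θ : ℂ) ∂μT).re =
        ∫ θ, (kk r (circ 1 t) θ * (v θ : ℂ)).re ∂μT :=
      (Complex.reCLM.integral_comp_comm h2).symm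
    rw [h4, ← integral_const_mul]
    refine integral_congr_ae (Eventually.of_forall fun θ => ?_)
    show 1 / (2 * π) * (kk r (circ 1 t) θ * (v θ : ℂ)).re = pk r t θ * v θ
    rw [Complex.re_mul_ofReal, ← re_kk hr hr1]
    ring

end Pool.Agent.H352R5.HL
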