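import Pool.Agent.H352R5.HL.Stubs

/-!
# U3: the weighted inequality
-/

namespace Pool.Agent.H352R5.HL

open MeasureTheory Set Filter Topology
open scoped ENNReal NNReal Real

namespace U3

theorem pk_meas (r : ℝ) : Measurable (fun p : ℝ × ℝ => pk r p.1 p.2) := by
  unfold pk
  fun_prop

theorem PI_meas (r : ℝ) {v : ℝ → ℝ} (hv : Measurable v) :
    StronglyMeasurable (fun t => PI r (fun θ => (v θ : ℂ)) t) := by
  unfold PI
  have h : Measurable (fun p : ℝ × ℝ => (pk r p.1 p.2 : ℂ) * (v p.2 : ℂ)) := by
    have h1 := pk_meas r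
    have h2 : Measurable (fun p : ℝ × ℝ => v p.2) := hv.comp measurable_snd
    fun_prop
  exact h.stronglyMeasurable.integral_prod_right'

end U3

open U3

theorem tU3 : S_P1 → S_B2b → S_U1 → S_U2 → S_U3 := by
  intro hP1 hB2b hU1 hU2 f hf hfour v hv hB hv0
  obtain ⟨B, hB⟩ := hB
  have hvint : Integrable v μT :=
    Integrable.of_bound hv.aestronglyMeasurable B (Eventually.of_forall fun t => by
      rw [Real.norm_eq_abs]; exact hB t)
  have hvC : Integrable (fun t => (v t : ℂ)) μT := hvint.ofReal
  have hconv := hB2b (fun t => (v t : ℂ)) hvC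
  set V : ℝ → ℝ → ℝ := fun r t => ∫ θ, pk r t θ * v θ ∂μT with hV
  have hVC : ∀ r t, PI r (fun θ => (v θ : ℂ)) t = ((V r t : ℝ) : ℂ) := by
    intro r t
    unfold PI
    rw [hV]
    simp only
    rw [← integral_complex_ofReal]
    apply integral_congr_ae
    refine Eventually.of_forall fun θ => ?_
    simp only
    push_cast
    rfl
  -- bound
  have hVB : ∀ r : ℝ, 0 ≤ r → r < 1 → ∀ t, |V r t| ≤ B := by
    intro r hr0 hr1 t
    obtain ⟨h1, h2, _, h4, C, h5⟩ := hP1 r hr0 hr1
    have hpkint : Integrable (fun θ => pk r t θ) μT := by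
      by_contra hcon
      have := h2 t
      rw [integral_undef hcon] at this
      exact zero_ne_one this
    calc |V r t| = ‖∫ θ, pk r t θ * v θ ∂μT‖ := (Real.norm_eq_abs _).symm
      _ ≤ ∫ θ, pk r t θ * B ∂μT := by
          apply norm_integral_le_of_norm_le (hpkint.mul_const B)
          refine Eventually.of_forall fun θ => ?_
          rw [norm_mul, Real.norm_eq_abs, Real.norm_eq_abs, abs_of_nonneg (h1 t θ)]
          exact mul_le_mul_of_nonneg_left (hB θ) (h1 t θ)
      _ = B := by rw [integral_mul_const, h2 t, one_mul]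
  -- convergence in measure
  have hmeas : TendstoInMeasure μT (fun r : ℝ => fun t => PI r (fun θ => (v θ : ℂ)) t)
      (𝓝[<] 1) (fun t => (v t : ℂ)) := by
    apply tendstoInMeasure_of_tendsto_eLpNorm (p := 1) one_ne_zero
    · intro r
      exact (PI_meas r hv).aestronglyMeasurable
    · exact hvC.aestronglyMeasurable
    · refine hconv.congr fun r => ?_
      rw [eLpNorm_one_eq_lintegral_enorm]
      rfl
  obtain ⟨ns, hns, hae⟩ := hmeas.exists_seq_tendsto_ae'
  have hev : ∀ᶠ j in atTop, 0 < ns j ∧ ns j < 1 := by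
    have h1 : ∀ᶠ r : ℝ in 𝓝[<] 1, 0 < r ∧ r < 1 := by
      have h2 : Ioo (0:ℝ) 1 ∈ 𝓝[<] (1:ℝ) := Ioo_mem_nhdsLT (by norm_num)
      exact h2
    exact hns.eventually h1
  -- the inequality for each radius
  have hineq : ∀ r : ℝ, 0 < r → r < 1 → ‖∫ t, f t ∂μT‖ ≤ ∫ t, ‖f t‖ * Real.exp (V r t) ∂μT := by
    intro r hr0 hr1
    obtain ⟨Q, R, hR, hQ, hQ0, hQre⟩ := hU2 v hv ⟨B, hB⟩ hv0 r hr0 hr1
    rw [← hU1 f hf hfour Q R hR hQ hQ0]
    refine (norm_integral_le_integral_norm _).trans (le_of_eq ?_)
    apply integral_congr_ae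
    refine Eventually.of_forall fun t => ?_
    simp only
    rw [norm_mul, Complex.norm_exp, hQre]
  have hlim : Tendsto (fun j => ∫ t, ‖f t‖ * Real.exp (V (ns j) t) ∂μT) atTop
      (𝓝 (∫ t, ‖f t‖ * Real.exp (v t) ∂μT)) := by
    apply tendsto_integral_filter_of_dominated_convergence (fun t => ‖f t‖ * Real.exp B)
    · refine Eventually.of_forall fun j => ?_
      have h1 : StronglyMeasurable (fun t => V (ns j) t) := by
        have h2 := (PI_meas (ns j) hv)
        have h3 : (fun t => V (ns j) t) = fun t => (PI (ns j) (fun θ => (v θ : ℂ)) t).re := by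
          ext t
          rw [hVC]
          simp
        rw [h3]
        exact (Complex.continuous_re.comp_stronglyMeasurable h2)
      exact hf.norm.aestronglyMeasurable.mul
        (Real.continuous_exp.comp_stronglyMeasurable h1).aestronglyMeasurable
    · filter_upwards [hev] with j hj
      refine Eventually.of_forall fun t => ?_
      rw [norm_mul, norm_norm, Real.norm_eq_abs, abs_of_pos (Real.exp_pos _)]
      apply mul_le_mul_of_nonneg_left _ (norm_nonneg _)
      exact Real.exp_le_exp.mpr ((le_abs_self _).trans (hVB _ hj.1.le hj.2 t))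
    · exact hf.norm.mul_const _
    · filter_upwards [hae] with t ht
      have h1 : Tendsto (fun j => V (ns j) t) atTop (𝓝 (v t)) := by
        have h2 := (Complex.continuous_re.tendsto _).comp ht
        simp only [Function.comp_def, hVC, Complex.ofReal_re] at h2
        exact h2
      exact ((Real.continuous_exp.tendsto _).comp h1).const_mul _
  refine ge_of_tendsto hlim ?_
  filter_upwards [hev] with j hj
  exact hineq _ hj.1 hj.2

end Pool.Agent.H352R5.HL
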