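import Pool.Agent.H352R5.HL.Stubs3
import Pool.Agent.H352R5.HL.TU2
import Pool.Agent.H352R5.HL.TU3
import Pool.Agent.H352R5.HL.TD3

/-!
# OUTEX: outer functions with given modulus
-/

namespace Pool.Agent.H352R5.HL

open MeasureTheory Set Filter Topology
open scoped ENNReal NNReal Real

namespace OUTEX

open U2

/-- the Herglotz integral -/
noncomputable def HQ (L : ℝ → ℝ) (z : ℂ) : ℂ :=
  (1 / (2 * π) : ℂ) * ∫ θ, kk 1 z θ * (L θ : ℂ) ∂μT

theorem kk1_bd' {z : ℂ} {ρ : ℝ} (hρ : ρ < 1) (hz : ‖z‖ ≤ ρ) (θ : ℝ) :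
    ‖kk' 1 z θ‖ ≤ 2 / (1 - ρ) ^ 2 := by
  have h1 := low (r := 1) one_pos (z := z) (ρ := ρ) (by rw [one_mul]; exact hz) θ
  rw [kk', norm_div, norm_pow, norm_mul, norm_mul, ee_norm, Complex.norm_real,
    Real.norm_of_nonneg zero_le_one, Complex.norm_ofNat]
  refine div_le_div₀ (by norm_num) (by linarith) (pow_pos (by linarith) 2) ?_
  exact pow_le_pow_left₀ (by linarith) h1 2

theorem kkL_int {L : ℝ → ℝ} (hL : Integrable L μT) {z : ℂ} (hz : ‖z‖ < 1) :
    Integrable (fun θ => kk 1 z θ * (L θ : ℂ)) μT := by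
  have h1 : Integrable (fun θ => (L θ : ℂ)) μT := hL.ofReal
  have h2 := h1.mul_bdd (g := fun θ => kk 1 z θ) (c := 2 / (1 - ‖z‖))
    (kk_meas 1 z).aestronglyMeasurable
    (Eventually.of_forall fun θ => kk_bd one_pos hz (by rw [one_mul]) θ)
  refine h2.congr (Eventually.of_forall fun θ => ?_)
  simp only
  ring

theorem HQ_diff {L : ℝ → ℝ} (hLm : Measurable L) (hL : Integrable L μT) :
    DifferentiableOn ℂ (HQ L) (Metric.ball 0 1) := by
  intro x₀ hx₀
  rw [mem_ball_zero_iff] at hx₀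
  set ρ := (‖x₀‖ + 1) / 2 with hρ
  have hρ1 : ρ < 1 := by rw [hρ]; linarith
  have hρ2 : ‖x₀‖ < ρ := by rw [hρ]; linarith
  have hopen : IsOpen {z : ℂ | ‖z‖ < ρ} := isOpen_lt continuous_norm continuous_const
  have hs : {z : ℂ | ‖z‖ < ρ} ∈ 𝓝 x₀ := hopen.mem_nhds hρ2
  have hLc : Measurable (fun θ => (L θ : ℂ)) := Complex.measurable_ofReal.comp hLm
  have key := hasDerivAt_integral_of_dominated_loc_of_deriv_le (μ := μT)
    (F := fun z θ => kk 1 z θ * (L θ : ℂ)) (F' := fun z θ => kk' 1 z θ * (L θ : ℂ))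
    (bound := fun θ => 2 / (1 - ρ) ^ 2 * |L θ|) hs
    (Eventually.of_forall fun z => ((kk_meas 1 z).mul hLc).aestronglyMeasurable)
    (kkL_int hL hx₀) ((kk'_meas 1 x₀).mul hLc).aestronglyMeasurable
    (Eventually.of_forall fun θ z hz => ?_) (hL.abs.const_mul _)
    (Eventually.of_forall fun θ z hz => ?_)
  · exact ((key.2.const_mul (1 / (2 * π) : ℂ)).differentiableAt).differentiableWithinAt
  · have hz' : ‖z‖ < ρ := hz
    rw [norm_mul, Complex.norm_real, Real.norm_eq_abs]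
    exact mul_le_mul_of_nonneg_right (kk1_bd' hρ1 hz'.le θ) (abs_nonneg _)
  · have hz' : ‖z‖ < ρ := hz
    exact (kk_deriv one_pos hρ1 (by rw [one_mul]; exact hz'.le) θ).mul_const _

theorem kk_circ (r t θ : ℝ) : kk 1 (circ r t) θ = kk r (circ 1 t) θ := by
  unfold kk circ
  simp only [Complex.ofReal_one, one_mul]

theorem circ_norm {r : ℝ} (hr : 0 ≤ r) (t : ℝ) : ‖circ r t‖ = r := by
  rw [circ, norm_mul, Complex.norm_real, Real.norm_of_nonneg hr, mul_comm Complex.I,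
    Complex.norm_exp_ofReal_mul_I, mul_one]

theorem HQ_re {L : ℝ → ℝ} (hL : Integrable L μT) {r : ℝ} (hr : 0 < r) (hr1 : r < 1) (t : ℝ) :
    (HQ L (circ r t)).re = ∫ θ, pk r t θ * L θ ∂μT := by
  have h2 := kkL_int hL (z := circ r t) (by rw [circ_norm hr.le]; exact hr1)
  have h3 : (1 / (2 * π) : ℂ) = ((1 / (2 * π) : ℝ) : ℂ) := by push_cast; rfl
  unfold HQ
  rw [h3, Complex.re_ofReal_mul]
  have h4 : (∫ θ, kk 1 (circ r t) θ * (L θ : ℂ) ∂μT).re =
      ∫ θ, (kk 1 (circ r t) θ * (L θ : ℂ)).re ∂μT :=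
    (Complex.reCLM.integral_comp_comm h2).symm
  rw [h4, ← integral_const_mul]
  refine integral_congr_ae (Eventually.of_forall fun θ => ?_)
  show 1 / (2 * π) * (kk 1 (circ r t) θ * (L θ : ℂ)).re = pk r t θ * L θ
  rw [Complex.re_mul_ofReal, kk_circ, ← re_kk hr hr1]
  ring

theorem HQ_zero (L : ℝ → ℝ) : HQ L 0 = ((1 / (2 * π) * ∫ θ, L θ ∂μT : ℝ) : ℂ) := by
  have h1 : ∀ θ, kk 1 0 θ * (L θ : ℂ) = (L θ : ℂ) := by
    intro θ
    have h2 : ee θ ≠ 0 := by
      intro h
      have := ee_norm θ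
      rw [h, norm_zero] at this
      norm_num at this
    rw [kk, mul_zero, add_zero, sub_zero, div_self h2, one_mul]
  unfold HQ
  simp only [h1]
  rw [integral_complex_ofReal]
  push_cast
  rfl

theorem HQ_meas {L : ℝ → ℝ} (hLm : Measurable L) (r : ℝ) :
    StronglyMeasurable (fun t => Complex.exp (HQ L (circ r t))) := by
  have h : Measurable (fun p : ℝ × ℝ => kk 1 (circ r p.1) p.2 * (L p.2 : ℂ)) := by
    have h2 : Measurable (fun p : ℝ × ℝ => L p.2) := hLm.comp measurable_snd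
    have h3 : Measurable (fun p : ℝ × ℝ => kk 1 (circ r p.1) p.2) := by
      unfold kk circ
      have h4 : Measurable (fun p : ℝ × ℝ => ee p.2) := ee_cont.measurable.comp measurable_snd
      have h5 : Measurable (fun p : ℝ × ℝ => (r : ℂ) * Complex.exp (Complex.I * (p.1 : ℂ))) := by
        fun_prop
      exact (h4.add (measurable_const.mul h5)).div (h4.sub (measurable_const.mul h5))
    exact h3.mul (Complex.measurable_ofReal.comp h2)
  have h6 : StronglyMeasurable (fun t => ∫ θ, kk 1 (circ r t) θ * (L θ : ℂ) ∂μT) :=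
    h.stronglyMeasurable.integral_prod_right'
  exact Complex.continuous_exp.comp_stronglyMeasurable (h6.const_mul _)

theorem pk_int (hP1 : S_P1) {r : ℝ} (hr : 0 ≤ r) (hr1 : r < 1) (t : ℝ) {v : ℝ → ℝ}
    (hv : Integrable v μT) : Integrable (fun θ => pk r t θ * v θ) μT := by
  obtain ⟨h1, -, -, h4, C, h5⟩ := hP1 r hr hr1
  have hm : Continuous (fun θ => pk r t θ) :=
    h4.comp (f := fun θ : ℝ => (t, θ)) (by fun_prop)
  have h2 := hv.mul_bdd (g := fun θ => pk r t θ) (c := C) hm.aestronglyMeasurable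
    (Eventually.of_forall fun θ => by
      rw [Real.norm_eq_abs, abs_of_nonneg (h1 t θ)]; exact h5 t θ)
  refine h2.congr (Eventually.of_forall fun θ => ?_)
  simp only
  ring

/-- Jensen -/
theorem jensen (hP1 : S_P1) {r : ℝ} (hr : 0 ≤ r) (hr1 : r < 1) (t : ℝ) {w : ℝ → ℝ}
    (hw0 : ∀ t, 0 < w t) (hw : Integrable w μT) (hL : Integrable (fun t => Real.log (w t)) μT) :
    Real.exp (∫ θ, pk r t θ * Real.log (w θ) ∂μT) ≤ ∫ θ, pk r t θ * w θ ∂μT := by
  obtain ⟨h1, h2, -, -, -⟩ := hP1 r hr hr1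
  set m := ∫ θ, pk r t θ * Real.log (w θ) ∂μT with hm
  have i1 := pk_int hP1 hr hr1 t hL
  have i2 := pk_int hP1 hr hr1 t hw
  have i3 : Integrable (fun θ => pk r t θ) μT := by
    have := pk_int hP1 hr hr1 t (v := fun _ => (1 : ℝ)) (integrable_const _)
    simpa using this
  have h3 : ∫ θ, (Real.exp m * ((1 - m) * pk r t θ + pk r t θ * Real.log (w θ))) ∂μT =
      Real.exp m := by
    rw [integral_const_mul, integral_add (i3.const_mul _) i1, integral_const_mul, h2 t, ← hm]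
    ring
  rw [← h3]
  refine integral_mono (((i3.const_mul _).add i1).const_mul _) i2 fun θ => ?_
  simp only
  have h4 : Real.exp m * (1 + (Real.log (w θ) - m)) ≤ w θ := by
    have h5 := Real.add_one_le_exp (Real.log (w θ) - m)
    calc Real.exp m * (1 + (Real.log (w θ) - m)) ≤
          Real.exp m * Real.exp (Real.log (w θ) - m) := by
          apply mul_le_mul_of_nonneg_left _ (Real.exp_pos _).le
          linarith
      _ = w θ := by
          rw [← Real.exp_add, add_sub_cancel, Real.exp_log (hw0 θ)]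
  have h6 := mul_le_mul_of_nonneg_left h4 (h1 t θ)
  calc Real.exp m * ((1 - m) * pk r t θ + pk r t θ * Real.log (w θ)) =
        pk r t θ * (Real.exp m * (1 + (Real.log (w θ) - m))) := by ring
    _ ≤ pk r t θ * w θ := h6

theorem PI_real (r : ℝ) (v : ℝ → ℝ) (t : ℝ) :
    PI r (fun θ => (v θ : ℂ)) t = ((∫ θ, pk r t θ * v θ ∂μT : ℝ) : ℂ) := by
  unfold PI
  rw [← integral_complex_ofReal]
  apply integral_congr_ae
  refine Eventually.of_forall fun θ => ?_
  simp only
  push_cast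
  rfl

end OUTEX

open OUTEX in
theorem tOUTEX : S_P1 → S_P2 → S_B2b → S_B5 → S_R8 → S_OUTEX := by
  intro hP1 hP2 hB2b hB5 hR8 w hwm hw0 hw hL
  set L : ℝ → ℝ := fun t => Real.log (w t) with hLdef
  have hLm : Measurable L := Real.measurable_log.comp hwm
  set G : ℂ → ℂ := fun z => Complex.exp (HQ L z) with hG
  have hGd : DifferentiableOn ℂ G (Metric.ball 0 1) := (HQ_diff hLm hL).cexp
  have hGn : ∀ r : ℝ, 0 < r → r < 1 → ∀ t, ‖G (circ r t)‖ =
      Real.exp (∫ θ, pk r t θ * L θ ∂μT) := by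
    intro r hr hr1 t
    rw [hG]
    simp only
    rw [Complex.norm_exp, HQ_re hL hr hr1]
  have hwC : Integrable (fun t => (w t : ℂ)) μT := hw.ofReal
  have hLC : Integrable (fun t => (L t : ℂ)) μT := hL.ofReal
  -- bounded means
  have hmeans : ∃ M : ℝ, ∀ r ∈ Ioo (0 : ℝ) 1, ∫⁻ t, ‖G (circ r t)‖ₑ ∂μT ≤ ENNReal.ofReal M := by
    refine ⟨(∫⁻ t, ‖(w t : ℂ)‖ₑ ∂μT).toReal, fun r hr => ?_⟩
    rw [ENNReal.ofReal_toReal hwC.2.ne]
    refine le_trans (lintegral_mono fun t => ?_) (tD3 hP1 (fun t => (w t : ℂ)) hwC r hr.1.le hr.2)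
    have h1 : ‖G (circ r t)‖ ≤ ∫ θ, pk r t θ * w θ ∂μT := by
      rw [hGn r hr.1 hr.2]
      exact jensen hP1 hr.1.le hr.2 t hw0 hw hL
    rw [PI_real, ← ofReal_norm, ← ofReal_norm, Complex.norm_real]
    exact ENNReal.ofReal_le_ofReal (h1.trans (le_abs_self _))
  obtain ⟨f, hfm, hfi, hfb⟩ := hR8 G hGd hmeans
  have hfour := hB5 G f hGd hfi hfb
  -- almost everywhere convergence
  have hm1 : TendstoInMeasure μT (fun r : ℝ => fun t => G (circ r t)) (𝓝[<] 1) f := by
    apply tendstoInMeasure_of_tendsto_eLpNorm (p := 1) one_ne_zero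
    · intro r
      exact (HQ_meas hLm r).aestronglyMeasurable
    · exact hfi.aestronglyMeasurable
    · refine hfb.congr fun r => ?_
      rw [eLpNorm_one_eq_lintegral_enorm]
      rfl
  obtain ⟨ns, hns, hae1⟩ := hm1.exists_seq_tendsto_ae'
  have hm2 : TendstoInMeasure μT (fun j : ℕ => fun t => PI (ns j) (fun θ => (L θ : ℂ)) t) atTop
      (fun t => (L t : ℂ)) := by
    apply tendstoInMeasure_of_tendsto_eLpNorm (p := 1) one_ne_zero
    · intro j
      exact (U3.PI_meas (ns j) hLm).aestronglyMeasurable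
    · exact hLC.aestronglyMeasurable
    · refine ((hB2b (fun t => (L t : ℂ)) hLC).comp hns).congr fun j => ?_
      rw [eLpNorm_one_eq_lintegral_enorm]
      rfl
  obtain ⟨ms, hms, hae2⟩ := hm2.exists_seq_tendsto_ae
  have hev : ∀ᶠ j in atTop, 0 < ns j ∧ ns j < 1 := by
    have h1 : ∀ᶠ r : ℝ in 𝓝[<] 1, 0 < r ∧ r < 1 := by
      have h2 : Ioo (0:ℝ) 1 ∈ 𝓝[<] (1:ℝ) := Ioo_mem_nhdsLT (by norm_num)
      exact h2
    exact hns.eventually h1
  have hmod : ∀ᵐ t ∂μT, ‖f t‖ = w t := by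
    filter_upwards [hae1, hae2] with t ht1 ht2
    have h1 : Tendsto (fun j => ‖G (circ (ns (ms j)) t)‖) atTop (𝓝 ‖f t‖) :=
      ((continuous_norm.tendsto _).comp ht1).comp hms.tendsto_atTop
    have h2 : Tendsto (fun j => ∫ θ, pk (ns (ms j)) t θ * L θ ∂μT) atTop (𝓝 (L t)) := by
      have h3 := (Complex.continuous_re.tendsto _).comp ht2
      simp only [Function.comp_def, PI_real, Complex.ofReal_re] at h3
      exact h3
    have h4 : Tendsto (fun j => ‖G (circ (ns (ms j)) t)‖) atTop (𝓝 (Real.exp (L t))) := by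
      refine ((Real.continuous_exp.tendsto _).comp h2).congr' ?_
      filter_upwards [hms.tendsto_atTop.eventually hev] with j hj
      exact (hGn _ hj.1 hj.2 t).symm
    have h5 := tendsto_nhds_unique h1 h4
    rw [h5, hLdef]
    exact Real.exp_log (hw0 t)
  have hlogae : (fun t => Real.log ‖f t‖) =ᵐ[μT] L := by
    filter_upwards [hmod] with t ht
    rw [ht]
  refine ⟨f, ⟨hfm, hfi, hfour, hL.congr hlogae.symm, ?_⟩, hmod⟩
  -- the value at the origin
  have h0 := hP2 G f hGd hfi hfb 0 le_rfl one_pos 0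
  have hc0 : circ 0 0 = 0 := by simp [circ]
  have hpk0 : ∀ θ, pk 0 0 θ = 1 / (2 * π) := by
    intro θ
    unfold pk
    simp
  have hPI0 : PI 0 f 0 = ((1 / (2 * π) : ℝ) : ℂ) * ∫ t, f t ∂μT := by
    unfold PI
    simp only [hpk0]
    rw [integral_const_mul]
  rw [hc0, hPI0] at h0
  have h6 : ‖G 0‖ = Real.exp (1 / (2 * π) * ∫ θ, L θ ∂μT) := by
    rw [hG]
    simp only
    rw [Complex.norm_exp, HQ_zero, Complex.ofReal_re]
  have hpi : (0 : ℝ) < 2 * π := by positivity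
  have h7 : ‖G 0‖ = 1 / (2 * π) * ‖∫ t, f t ∂μT‖ := by
    rw [h0, norm_mul, Complex.norm_real, Real.norm_of_nonneg (by positivity)]
  rw [integral_congr_ae hlogae, ← h6, h7]
  field_simp

end Pool.Agent.H352R5.HL
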