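import Pool.Agent.H352R5.HL.Stubs

namespace Pool.Agent.H352R5.HL

open MeasureTheory Set Filter Topology
open scoped ENNReal NNReal Real

theorem P1_den_pos {r : ℝ} (h0 : 0 ≤ r) (h1 : r < 1) (t θ : ℝ) :
    (1 - r) ^ 2 ≤ 1 - 2 * r * Real.cos (t - θ) + r ^ 2 := by
  have := Real.cos_le_one (t - θ)
  nlinarith

theorem P1_norm (r t θ : ℝ) :
    ‖Complex.exp (θ * Complex.I) - circ r t‖ ^ 2 = 1 - 2 * r * Real.cos (t - θ) + r ^ 2 := by
  rw [← Complex.normSq_eq_norm_sq, Complex.normSq_apply]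
  unfold circ
  rw [mul_comm Complex.I]
  have e1 : (Complex.exp (θ * Complex.I) - (r : ℂ) * Complex.exp (t * Complex.I)).re =
      Real.cos θ - r * Real.cos t := by
    rw [Complex.sub_re, Complex.exp_ofReal_mul_I_re, Complex.re_ofReal_mul,
      Complex.exp_ofReal_mul_I_re]
  have e2 : (Complex.exp (θ * Complex.I) - (r : ℂ) * Complex.exp (t * Complex.I)).im =
      Real.sin θ - r * Real.sin t := by
    rw [Complex.sub_im, Complex.exp_ofReal_mul_I_im, Complex.im_ofReal_mul,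
      Complex.exp_ofReal_mul_I_im]
  rw [e1, e2, Real.cos_sub]
  have h1 := Real.sin_sq_add_cos_sq θ
  have h2 := Real.sin_sq_add_cos_sq t
  nlinarith [h1, h2]

theorem P1_norm_circ {r : ℝ} (h0 : 0 ≤ r) (t : ℝ) : ‖circ r t‖ = r := by
  unfold circ
  rw [norm_mul, mul_comm Complex.I, Complex.norm_exp_ofReal_mul_I, mul_one, Complex.norm_real,
    Real.norm_eq_abs, abs_of_nonneg h0]

theorem P1_int {r : ℝ} (h0 : 0 ≤ r) (h1 : r < 1) (t : ℝ) : ∫ θ, pk r t θ ∂μT = 1 := by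
  have hw : circ r t ∈ Metric.ball (0 : ℂ) 1 := by
    rw [mem_ball_zero_iff, P1_norm_circ h0]; exact h1
  have hd : DiffContOnCl ℂ (fun _ : ℂ => (1 : ℂ)) (Metric.ball (0 : ℂ) 1) :=
    diffContOnCl_const
  have hp := hd.circleAverage_poissonKernel_smul' hw
  rw [Real.circleAverage_def] at hp
  have hfun : ∀ θ : ℝ, ((‖circleMap 0 1 θ - 0‖ ^ 2 - ‖circ r t - 0‖ ^ 2) /
      ‖(circleMap 0 1 θ - 0) - (circ r t - 0)‖ ^ 2) • (1 : ℂ) =
      (((1 - r ^ 2) / (1 - 2 * r * Real.cos (t - θ) + r ^ 2) : ℝ) : ℂ) := by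
    intro θ
    have hc : circleMap 0 1 θ = Complex.exp (θ * Complex.I) := by
      simp [circleMap]
    rw [hc, sub_zero, sub_zero, P1_norm, P1_norm_circ h0, Complex.norm_exp_ofReal_mul_I]
    simp
  simp only [hfun] at hp
  rw [intervalIntegral.integral_ofReal] at hp
  have hp2 : (2 * π)⁻¹ * ∫ θ in (0 : ℝ)..2 * π,
      (1 - r ^ 2) / (1 - 2 * r * Real.cos (t - θ) + r ^ 2) = 1 := by
    have := congrArg Complex.re hp
    simpa using this
  rw [← hp2, intervalIntegral.integral_of_le Real.two_pi_pos.le, ← integral_const_mul]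
  unfold μT pk
  congr 1
  ext θ
  rw [div_eq_inv_mul _ (2 * π)]

theorem tP1 : S_P1 := by
  intro r h0 h1
  have hden : ∀ t θ : ℝ, 0 < 1 - 2 * r * Real.cos (t - θ) + r ^ 2 := fun t θ =>
    lt_of_lt_of_le (by nlinarith) (P1_den_pos h0 h1 t θ)
  have hnum : 0 ≤ 1 - r ^ 2 := by nlinarith
  refine ⟨?_, ?_, ?_, ?_, ?_⟩
  · intro t θ
    unfold pk
    have := hden t θ
    positivity
  · exact P1_int h0 h1
  · intro θ
    have h := P1_int h0 h1 θ
    rw [← h]
    congr 1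
    ext t
    unfold pk
    rw [← Real.cos_neg (θ - t), neg_sub]
  · unfold pk
    refine Continuous.div_const (Continuous.div continuous_const ?_ ?_) _
    · fun_prop
    · intro p
      exact ne_of_gt (hden _ _)
  · refine ⟨(1 - r ^ 2) / (1 - r) ^ 2 / (2 * π), fun t θ => ?_⟩
    unfold pk
    have h2 : 0 < (1 - r) ^ 2 := by nlinarith
    apply div_le_div_of_nonneg_right _ Real.two_pi_pos.le
    exact div_le_div_of_nonneg_left hnum h2 (P1_den_pos h0 h1 t θ)

end Pool.Agent.H352R5.HL
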