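import Pool.Agent.H352R5.HL.Stubs

set_option autoImplicit false

namespace Pool.Agent.H352R5.HL

open MeasureTheory Set Filter Topology
open scoped ENNReal NNReal Real

namespace P2

theorem den_pos {r : ℝ} (hr : 0 ≤ r) (hr1 : r < 1) (t θ : ℝ) :
    0 < 1 - 2 * r * Real.cos (t - θ) + r ^ 2 := by
  have h1 := Real.cos_le_one (t - θ)
  have h2 := mul_le_mul_of_nonneg_left h1 hr
  nlinarith [mul_pos (sub_pos.2 hr1) (sub_pos.2 hr1)]

theorem pk_cont {r : ℝ} (hr : 0 ≤ r) (hr1 : r < 1) (t : ℝ) : Continuous fun θ => pk r t θ := by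
  unfold pk
  apply Continuous.div_const
  apply Continuous.div continuous_const (by fun_prop)
  intro θ
  exact (den_pos hr hr1 t θ).ne'

theorem pk_bdd {r : ℝ} (hr : 0 ≤ r) (hr1 : r < 1) (t : ℝ) : ∃ C : ℝ, ∀ θ, ‖pk r t θ‖ ≤ C := by
  refine ⟨(1 - r ^ 2) / (1 - r) ^ 2 / (2 * π), fun θ => ?_⟩
  have h0 : 0 ≤ 1 - r ^ 2 := by nlinarith
  have h1 := den_pos hr hr1 t θ
  have h2 : 0 < (1 - r) ^ 2 := by
    have := sub_pos.2 hr1
    positivity
  have h3 : 0 ≤ pk r t θ := by
    unfold pk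
    have := Real.pi_pos
    positivity
  rw [Real.norm_of_nonneg h3]
  unfold pk
  apply div_le_div_of_nonneg_right _ (by positivity)
  apply div_le_div_of_nonneg_left h0 h2
  have h4 := Real.cos_le_one (t - θ)
  have h5 := mul_le_mul_of_nonneg_left h4 hr
  nlinarith

theorem circ_norm {r : ℝ} (hr : 0 ≤ r) (t : ℝ) : ‖circ r t‖ = r := by
  unfold circ
  rw [norm_mul, Complex.norm_real, mul_comm Complex.I, Complex.norm_exp_ofReal_mul_I, mul_one,
    Real.norm_of_nonneg hr]

theorem circ_cont (r : ℝ) : Continuous (circ r) := by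
  unfold circ
  fun_prop

theorem circ_eq (r t : ℝ) : circ r t = (⟨r * Real.cos t, r * Real.sin t⟩ : ℂ) := by
  unfold circ
  rw [mul_comm Complex.I, Complex.exp_mul_I]
  apply Complex.ext <;> simp [← Complex.ofReal_cos, ← Complex.ofReal_sin]

theorem norm_sub_sq (r t θ : ℝ) :
    ‖circ 1 θ - circ r t‖ ^ 2 = 1 - 2 * r * Real.cos (t - θ) + r ^ 2 := by
  rw [circ_eq, circ_eq, ← Complex.normSq_eq_norm_sq, Complex.normSq_apply, Real.cos_sub]
  simp only [Complex.sub_re, Complex.sub_im, one_mul]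
  have h1 := Real.sin_sq_add_cos_sq t
  have h2 := Real.sin_sq_add_cos_sq θ
  nlinarith

theorem poisson (G : ℂ → ℂ) (hG : DiffContOnCl ℂ G (Metric.ball 0 1)) {r : ℝ} (hr : 0 ≤ r)
    (hr1 : r < 1) (t : ℝ) : G (circ r t) = ∫ θ, (pk r t θ : ℂ) * G (circ 1 θ) ∂μT := by
  have hw : circ r t ∈ Metric.ball (0:ℂ) 1 := by
    rw [mem_ball_zero_iff, circ_norm hr]
    exact hr1
  have h := hG.circleAverage_poissonKernel_smul' hw
  rw [← h, Real.circleAverage_def, intervalIntegral.integral_of_le (by positivity),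
    ← integral_smul]
  unfold μT
  apply integral_congr_ae
  refine Filter.Eventually.of_forall fun θ => ?_
  have h1 : circleMap 0 1 θ = circ 1 θ := by
    simp [circleMap, circ, mul_comm]
  simp only [h1, sub_zero]
  rw [norm_sub_sq, circ_norm hr, circ_norm zero_le_one]
  unfold pk
  rw [Complex.real_smul, Complex.real_smul]
  push_cast
  ring

end P2

open P2 in
theorem tP2 : S_P2 := by
  intro F f hF hf hb r hr hr1 t
  -- both sides as limits
  have hcirc : ∀ ρ s u : ℝ, circ (ρ * s) u = ρ * circ s u := by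
    intro ρ s u
    unfold circ
    push_cast
    ring
  have hmem : circ r t ∈ Metric.ball (0:ℂ) 1 := by
    rw [mem_ball_zero_iff, circ_norm hr]
    exact hr1
  have hL : Tendsto (fun ρ : ℝ => F (circ (ρ * r) t)) (𝓝[<] 1) (𝓝 (F (circ r t))) := by
    have h1 : ContinuousAt F (circ r t) :=
      (hF.differentiableAt (Metric.isOpen_ball.mem_nhds hmem)).continuousAt
    have h2 : Tendsto (fun ρ : ℝ => circ (ρ * r) t) (𝓝[<] 1) (𝓝 (circ r t)) := by
      apply Tendsto.mono_left _ nhdsWithin_le_nhds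
      have : Continuous fun ρ : ℝ => circ (ρ * r) t := by
        unfold circ
        fun_prop
      have h3 := this.tendsto 1
      rwa [one_mul] at h3
    exact h1.tendsto.comp h2
  obtain ⟨C, hC⟩ := pk_bdd hr hr1 t
  have hpkc := pk_cont hr hr1 t
  have hint : Integrable (fun θ => (pk r t θ : ℂ) * f θ) μT := by
    apply hf.bdd_mul (c := C)
    · exact (Complex.continuous_ofReal.comp hpkc).aestronglyMeasurable
    · refine Filter.Eventually.of_forall fun θ => ?_
      rw [Complex.norm_real]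
      exact hC θ
  have hev : ∀ᶠ ρ : ℝ in 𝓝[<] 1, 0 < ρ ∧ ρ < 1 := by
    have h1 : ∀ᶠ ρ : ℝ in 𝓝[<] 1, 0 < ρ :=
      (eventually_gt_nhds (zero_lt_one)).filter_mono nhdsWithin_le_nhds
    filter_upwards [h1, self_mem_nhdsWithin] with ρ h2 h3
    exact ⟨h2, h3⟩
  have hFc : ∀ ρ : ℝ, 0 < ρ → ρ < 1 → Continuous fun θ => F (circ ρ θ) := by
    intro ρ h0 h1
    apply hF.continuousOn.comp_continuous (circ_cont ρ)
    intro θ
    rw [mem_ball_zero_iff, circ_norm h0.le]
    exact h1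
  have hR : Tendsto (fun ρ : ℝ => ∫ θ, (pk r t θ : ℂ) * F (circ ρ θ) ∂μT) (𝓝[<] 1)
      (𝓝 (∫ θ, (pk r t θ : ℂ) * f θ ∂μT)) := by
    apply tendsto_integral_of_L1 _ hint.aestronglyMeasurable
    · filter_upwards [hev] with ρ hρ
      have h1 : Continuous fun θ => (pk r t θ : ℂ) * F (circ ρ θ) :=
        (Complex.continuous_ofReal.comp hpkc).mul (hFc ρ hρ.1 hρ.2)
      exact h1.integrableOn_Ioc
    · have h1 : Tendsto (fun ρ : ℝ => ENNReal.ofReal C * ∫⁻ θ, ‖F (circ ρ θ) - f θ‖ₑ ∂μT)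
          (𝓝[<] 1) (𝓝 (ENNReal.ofReal C * 0)) :=
        ENNReal.Tendsto.const_mul hb (Or.inr ENNReal.ofReal_ne_top)
      rw [mul_zero] at h1
      apply tendsto_of_tendsto_of_tendsto_of_le_of_le tendsto_const_nhds h1
      · intro ρ
        exact bot_le
      · intro ρ
        show ∫⁻ θ, ‖(pk r t θ : ℂ) * F (circ ρ θ) - (pk r t θ : ℂ) * f θ‖ₑ ∂μT ≤
          ENNReal.ofReal C * ∫⁻ θ, ‖F (circ ρ θ) - f θ‖ₑ ∂μT
        rw [← lintegral_const_mul' _ _ ENNReal.ofReal_ne_top]
        apply lintegral_mono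
        intro θ
        show ‖(pk r t θ : ℂ) * F (circ ρ θ) - (pk r t θ : ℂ) * f θ‖ₑ ≤
          ENNReal.ofReal C * ‖F (circ ρ θ) - f θ‖ₑ
        rw [← mul_sub, enorm_mul]
        gcongr
        rw [← ofReal_norm]
        apply ENNReal.ofReal_le_ofReal
        rw [Complex.norm_real]
        exact hC θ
  have hEq : ∀ᶠ ρ : ℝ in 𝓝[<] 1, F (circ (ρ * r) t) =
      ∫ θ, (pk r t θ : ℂ) * F (circ ρ θ) ∂μT := by
    filter_upwards [hev] with ρ hρ
    have hG : DiffContOnCl ℂ (fun z => F (ρ * z)) (Metric.ball 0 1) := by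
      apply DifferentiableOn.diffContOnCl
      rw [closure_ball _ one_ne_zero]
      apply hF.comp (by fun_prop)
      intro z hz
      rw [mem_closedBall_zero_iff] at hz
      rw [mem_ball_zero_iff, norm_mul, Complex.norm_real, Real.norm_of_nonneg hρ.1.le]
      nlinarith [hρ.1, hρ.2, norm_nonneg z]
    have h1 := poisson _ hG hr hr1 t
    simp only [← hcirc, mul_one] at h1
    exact h1
  exact tendsto_nhds_unique (hL.congr' hEq) hR

end Pool.Agent.H352R5.HL
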