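import Pool.Agent.H352R5.HL.Stubs

set_option autoImplicit false

/-! # P3b: `lor` is monotone for the order by the integrals of `(x - τ)₊` -/

namespace Pool.Agent.H352R5.HL

open MeasureTheory Set Filter Topology
open scoped ENNReal NNReal Real

theorem P3b_tail {z : ℝ → ℝ} (hz : Measurable z) (τ₀ : ℝ) :
    ∫⁻ t, ENNReal.ofReal (z t - τ₀) ∂μT = ∫⁻ τ in Ioi τ₀, dis z τ := by
  have h1 : ∀ t, ENNReal.ofReal (z t - τ₀) = ENNReal.ofReal (max (z t - τ₀) 0) := by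
    intro t
    rcases le_total (z t - τ₀) 0 with h | h
    · rw [max_eq_right h, ENNReal.ofReal_of_nonpos h, ENNReal.ofReal_zero]
    · rw [max_eq_left h]
  simp only [h1]
  have hm : Measurable (fun t => max (z t - τ₀) 0) := (hz.sub_const τ₀).max measurable_const
  rw [lintegral_eq_lintegral_meas_lt (f := fun t => max (z t - τ₀) 0) _
    (Filter.Eventually.of_forall fun t => le_max_right _ _) hm.aemeasurable]
  have h2 : ∀ t ∈ Ioi (0 : ℝ), μT {a | t < max (z a - τ₀) 0} = dis z (t + τ₀) := by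
    intro t ht
    have ht' : (0 : ℝ) < t := ht
    unfold dis
    congr 1
    ext a
    simp only [mem_setOf_eq, lt_max_iff]
    constructor
    · rintro (h | h)
      · linarith
      · linarith
    · intro h
      left
      linarith
  rw [setLIntegral_congr_fun measurableSet_Ioi h2, ← lintegral_indicator measurableSet_Ioi,
    ← lintegral_indicator measurableSet_Ioi]
  have h3 : (fun t => (Ioi (0 : ℝ)).indicator (fun t => dis z (t + τ₀)) t) =
      fun t => (fun u => (Ioi τ₀).indicator (fun τ => dis z τ) u) (t + τ₀) := by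
    funext t
    by_cases ht : 0 < t
    · rw [indicator_of_mem (show t ∈ Ioi (0 : ℝ) from ht)]
      show _ = (Ioi τ₀).indicator (fun τ => dis z τ) (t + τ₀)
      rw [indicator_of_mem (show t + τ₀ ∈ Ioi τ₀ from by
        show τ₀ < t + τ₀
        linarith)]
    · rw [indicator_of_notMem (show t ∉ Ioi (0 : ℝ) from ht)]
      show _ = (Ioi τ₀).indicator (fun τ => dis z τ) (t + τ₀)
      rw [indicator_of_notMem (show t + τ₀ ∉ Ioi τ₀ from by
        intro h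
        have h' : τ₀ < t + τ₀ := h
        linarith)]
  rw [h3, lintegral_add_right_eq_self (fun u => (Ioi τ₀).indicator (fun τ => dis z τ) u) τ₀]

theorem P3b_upper {y : ℝ → ℝ} (hy : Measurable y) (s τ₀ : ℝ) (hτ : 0 ≤ τ₀) :
    K s y ≤ ENNReal.ofReal s * ENNReal.ofReal τ₀ + ∫⁻ t, ENNReal.ofReal (y t - τ₀) ∂μT := by
  rw [P3b_tail hy]
  unfold K
  rw [← Ioc_union_Ioi_eq_Ioi hτ]
  refine (lintegral_union_le _ _ _).trans (add_le_add ?_ ?_)
  · calc ∫⁻ τ in Ioc 0 τ₀, min (dis y τ) (ENNReal.ofReal s)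
        ≤ ∫⁻ _ in Ioc 0 τ₀, ENNReal.ofReal s := lintegral_mono fun τ => min_le_right _ _
      _ = _ := by rw [setLIntegral_const, Real.volume_Ioc, sub_zero]
  · exact lintegral_mono fun τ => min_le_left _ _

theorem P3b_lower {x : ℝ → ℝ} (hx : Measurable x) (hx0 : ∀ t, 0 ≤ x t)
    (hfin : ∫⁻ t, ENNReal.ofReal (x t) ∂μT ≠ ∞) (s : ℝ) (hs : 0 < s) :
    ∃ τ₀ : ℝ, 0 ≤ τ₀ ∧
      ENNReal.ofReal s * ENNReal.ofReal τ₀ + ∫⁻ t, ENNReal.ofReal (x t - τ₀) ∂μT ≤ K s x := by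
  set A : Set ℝ := {τ | 0 ≤ τ ∧ dis x τ ≤ ENNReal.ofReal s} with hA
  have hne : A.Nonempty := by
    by_contra hno
    rw [not_nonempty_iff_eq_empty] at hno
    apply hfin
    rw [int_eq hx hx0]
    have h1 : ∫⁻ _ in Ioi (0 : ℝ), ENNReal.ofReal s ≤ ∫⁻ τ in Ioi (0 : ℝ), dis x τ := by
      refine setLIntegral_mono' measurableSet_Ioi fun τ hτ => ?_
      have hτ' : (0 : ℝ) < τ := hτ
      by_contra hlt
      have h2 : τ ∈ A := ⟨hτ'.le, (not_le.1 hlt).le⟩
      rw [hno] at h2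
      exact h2
    rw [setLIntegral_const, Real.volume_Ioi, ENNReal.mul_top (by
      rw [Ne, ENNReal.ofReal_eq_zero, not_le]
      exact hs)] at h1
    exact top_le_iff.1 h1
  have hbdd : BddBelow A := ⟨0, fun τ hτ => hτ.1⟩
  set τ₀ := sInf A with hτ₀
  have h0 : 0 ≤ τ₀ := le_csInf hne fun τ hτ => hτ.1
  have hhigh : ∀ τ, τ₀ < τ → dis x τ ≤ ENNReal.ofReal s := by
    intro τ hτ
    obtain ⟨a, ha, haτ⟩ := exists_lt_of_csInf_lt hne hτ
    exact (dis_anti x haτ.le).trans ha.2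
  have hlow : ∀ τ, 0 ≤ τ → τ < τ₀ → ENNReal.ofReal s ≤ dis x τ := by
    intro τ hτ0 hτ
    by_contra hlt
    have h2 : τ ∈ A := ⟨hτ0, (not_le.1 hlt).le⟩
    exact absurd (csInf_le hbdd h2) (not_le.2 hτ)
  refine ⟨τ₀, h0, ?_⟩
  rw [P3b_tail hx]
  have hsub : Ioo 0 τ₀ ∪ Ioi τ₀ ⊆ Ioi (0 : ℝ) := by
    rintro τ (h | h)
    · exact h.1
    · exact lt_of_le_of_lt h0 h
  have hdisj : Disjoint (Ioo 0 τ₀) (Ioi τ₀) := by
    rw [Set.disjoint_left]
    intro τ h1 h2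
    exact absurd h1.2 (not_lt.2 (le_of_lt h2))
  calc ENNReal.ofReal s * ENNReal.ofReal τ₀ + ∫⁻ τ in Ioi τ₀, dis x τ
      ≤ (∫⁻ τ in Ioo 0 τ₀, min (dis x τ) (ENNReal.ofReal s)) +
          ∫⁻ τ in Ioi τ₀, min (dis x τ) (ENNReal.ofReal s) := by
        refine add_le_add ?_ ?_
        · calc ENNReal.ofReal s * ENNReal.ofReal τ₀ = ∫⁻ _ in Ioo 0 τ₀, ENNReal.ofReal s := by
                rw [setLIntegral_const, Real.volume_Ioo, sub_zero]
            _ ≤ _ := setLIntegral_mono' measurableSet_Ioo fun τ hτ =>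
                le_min (hlow τ hτ.1.le hτ.2) le_rfl
        · exact setLIntegral_mono' measurableSet_Ioi fun τ hτ => le_min le_rfl (hhigh τ hτ)
    _ = ∫⁻ τ in Ioo 0 τ₀ ∪ Ioi τ₀, min (dis x τ) (ENNReal.ofReal s) :=
        (lintegral_union measurableSet_Ioi hdisj).symm
    _ ≤ K s x := lintegral_mono_set hsub

theorem P3b_K {x y : ℝ → ℝ} (hx : Measurable x) (hy : Measurable y) (hx0 : ∀ t, 0 ≤ x t)
    (hfin : ∫⁻ t, ENNReal.ofReal (x t) ∂μT ≠ ∞)
    (h : ∀ τ : ℝ, 0 ≤ τ →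
      ∫⁻ t, ENNReal.ofReal (y t - τ) ∂μT ≤ ∫⁻ t, ENNReal.ofReal (x t - τ) ∂μT)
    (s : ℝ) (hs : 0 ≤ s) : K s y ≤ K s x := by
  rcases hs.eq_or_lt with rfl | hs
  · have : K 0 y = 0 := by
      unfold K
      simp
    rw [this]
    exact zero_le
  · obtain ⟨τ₀, h0, h1⟩ := P3b_lower hx hx0 hfin s hs
    exact (P3b_upper hy s τ₀ h0).trans ((add_le_add le_rfl (h τ₀ h0)).trans h1)

theorem P3b_Mx {x y : ℝ → ℝ} (hy : Measurable y)
    (h : ∀ τ : ℝ, 0 ≤ τ →
      ∫⁻ t, ENNReal.ofReal (y t - τ) ∂μT ≤ ∫⁻ t, ENNReal.ofReal (x t - τ) ∂μT) : Mx y ≤ Mx x := by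
  by_cases hx : Mx x = ∞
  · rw [hx]
    exact le_top
  · have ha : 0 ≤ (Mx x).toReal := ENNReal.toReal_nonneg
    have h1 : Mx x = ENNReal.ofReal (Mx x).toReal := (ENNReal.ofReal_toReal hx).symm
    have h2 := (Mx_le_iff ha).1 h1.le
    have h3 : ∫⁻ t, ENNReal.ofReal (x t - (Mx x).toReal) ∂μT = 0 := by
      rw [← lintegral_zero (μ := μT)]
      refine lintegral_congr_ae ?_
      filter_upwards [h2] with t ht
      exact ENNReal.ofReal_of_nonpos (by linarith)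
    have h4 : ∫⁻ t, ENNReal.ofReal (y t - (Mx x).toReal) ∂μT = 0 :=
      le_antisymm ((h _ ha).trans h3.le) zero_le
    have hm : Measurable (fun t => ENNReal.ofReal (y t - (Mx x).toReal)) :=
      (hy.sub_const _).ennreal_ofReal
    rw [lintegral_eq_zero_iff hm] at h4
    rw [h1]
    refine (Mx_le_iff ha).2 ?_
    filter_upwards [h4] with t ht
    have h5 : ENNReal.ofReal (y t - (Mx x).toReal) = 0 := ht
    rw [ENNReal.ofReal_eq_zero] at h5
    linarith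

theorem tP3b : S_P3b := by
  intro Ψ hΨ x y hx hy hx0 hy0 hfin h
  rw [hΨ.lor_eq, hΨ.lor_eq x]
  refine add_le_add (mul_le_mul_right (P3b_Mx hy h) _) ?_
  refine lintegral_mono fun η => ?_
  exact P3b_K hx hy hx0 hfin h _ (S_nonneg η)

end Pool.Agent.H352R5.HL
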