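import Pool.Agent.H352R5.HL.Stubs

/-! P4 (helper617): Fatou property of the Lorentz norm. -/

namespace Pool.Agent.H352R5.HL

open MeasureTheory Set Filter Topology
open scoped ENNReal NNReal Real

/-- lower semicontinuity of the distribution function -/
theorem P4_dis {x : ℕ → ℝ → ℝ} {y : ℝ → ℝ} (hx : ∀ n, Measurable (x n)) (hy : Measurable y)
    (hxy : ∀ᵐ t ∂μT, Tendsto (fun n => x n t) atTop (𝓝 (y t))) (τ : ℝ) :
    dis y τ ≤ liminf (fun n => dis (x n) τ) atTop := by
  have e1 : ∀ z : ℝ → ℝ, Measurable z →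
      dis z τ = ∫⁻ t, ({t | τ < z t}).indicator (fun _ => (1 : ℝ≥0∞)) t ∂μT := by
    intro z hz
    rw [lintegral_indicator_const (measurableSet_lt measurable_const hz), one_mul]
    rfl
  have h1 : ∫⁻ t, ({t | τ < y t}).indicator (fun _ => (1 : ℝ≥0∞)) t ∂μT ≤
      ∫⁻ t, liminf (fun n => ({t | τ < x n t}).indicator (fun _ => (1 : ℝ≥0∞)) t) atTop ∂μT := by
    apply lintegral_mono_ae
    filter_upwards [hxy] with t ht
    by_cases h : τ < y t
    · apply le_liminf_of_le
      · isBoundedDefault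
      · have h2 := ht.eventually (lt_mem_nhds h)
        filter_upwards [h2] with n hn
        rw [indicator_of_mem (show t ∈ {t | τ < x n t} from hn),
          indicator_of_mem (show t ∈ {t | τ < y t} from h)]
    · rw [indicator_of_notMem (show t ∉ {t | τ < y t} from h)]
      exact zero_le
  rw [e1 y hy]
  refine h1.trans ?_
  have h3 := lintegral_liminf_le (μ := μT) (u := atTop)
    (f := fun (n : ℕ) t => ({t | τ < x n t}).indicator (fun _ => (1 : ℝ≥0∞)) t)
    (fun n => measurable_const.indicator (measurableSet_lt measurable_const (hx n)))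
  refine h3.trans (le_of_eq ?_)
  congr 1
  funext n
  exact (e1 (x n) (hx n)).symm

theorem P4_anti {Ψ : ℝ → ℝ} (h : IsWt Ψ) (z : ℝ → ℝ) :
    Antitone (fun τ => ENNReal.ofReal (Ψ (dis z τ).toReal)) := by
  intro a b hab
  apply ENNReal.ofReal_le_ofReal
  exact h.mono (dis_toReal_mem z b) (dis_toReal_mem z a)
    (ENNReal.toReal_mono (μT_ne_top _) (dis_anti z hab))

theorem P4_point {Ψ : ℝ → ℝ} (h : IsWt Ψ) {x : ℕ → ℝ → ℝ} {y : ℝ → ℝ} (hx : ∀ n, Measurable (x n))
    (hy : Measurable y) (hxy : ∀ᵐ t ∂μT, Tendsto (fun n => x n t) atTop (𝓝 (y t))) (τ : ℝ) :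
    ENNReal.ofReal (Ψ (dis y τ).toReal) ≤
      liminf (fun n => ENNReal.ofReal (Ψ (dis (x n) τ).toReal)) atTop := by
  have hd := P4_dis hx hy hxy τ
  have hm := dis_toReal_mem y τ
  rcases eq_or_lt_of_le hm.1 with h0 | h0
  · rw [← h0, h.zero, ENNReal.ofReal_zero]
    exact zero_le
  · have hlim := ENNReal.tendsto_ofReal (h.left_cont h0 hm.2)
    refine le_of_tendsto' hlim ?_
    intro k
    apply le_liminf_of_le
    · isBoundedDefault
    · have hk : (0 : ℝ) < (k : ℝ) + 2 := by positivity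
      have h1 : 0 < (dis y τ).toReal / ((k : ℝ) + 2) := div_pos h0 hk
      have h2 : (dis y τ).toReal / ((k : ℝ) + 2) ≤ (dis y τ).toReal := by
        apply div_le_self h0.le
        have : (0 : ℝ) ≤ k := Nat.cast_nonneg k
        linarith
      have h3 : ENNReal.ofReal ((dis y τ).toReal - (dis y τ).toReal / ((k : ℝ) + 2)) <
          liminf (fun n => dis (x n) τ) atTop := by
        refine lt_of_lt_of_le ?_ hd
        have hyt : dis y τ ≠ ∞ := μT_ne_top _
        rw [ENNReal.ofReal_lt_iff_lt_toReal (by linarith) hyt]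
        linarith
      have h4 := eventually_lt_of_lt_liminf h3
      filter_upwards [h4] with n hn
      apply ENNReal.ofReal_le_ofReal
      have hxt : dis (x n) τ ≠ ∞ := μT_ne_top _
      have h5 := (ENNReal.ofReal_lt_iff_lt_toReal (by linarith) hxt).1 hn
      exact h.mono ⟨by linarith, by linarith [hm.2]⟩ (dis_toReal_mem (x n) τ) h5.le

theorem tP4 : S_P4 := by
  intro Ψ h x y hx hy hxy C hC
  have h1 : lor Ψ y ≤ ∫⁻ τ in Ioi (0 : ℝ),
      liminf (fun n => ENNReal.ofReal (Ψ (dis (x n) τ).toReal)) atTop := by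
    unfold lor
    exact lintegral_mono fun τ => P4_point h hx hy hxy τ
  have h2 := lintegral_liminf_le (μ := volume.restrict (Ioi (0 : ℝ))) (u := atTop)
    (f := fun (n : ℕ) τ => ENNReal.ofReal (Ψ (dis (x n) τ).toReal))
    (fun n => (P4_anti h (x n)).measurable)
  refine h1.trans (h2.trans ?_)
  have h3 : liminf (fun n => lor Ψ (x n)) atTop ≤ liminf (fun _ : ℕ => C) atTop :=
    liminf_le_liminf (Filter.Eventually.of_forall hC)
  rw [liminf_const] at h3
  exact h3

end Pool.Agent.H352R5.HL
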