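import Pool.Agent.H352R5.HL.Stubs2

namespace Pool.Agent.H352R5.HL

open MeasureTheory Set Filter Topology
open scoped ENNReal NNReal Real

/-- The exponential. -/
noncomputable def POLY_E (j : ℤ) (t : ℝ) : ℂ := Complex.exp (Complex.I * (j : ℂ) * t)

theorem POLY_E_cont (j : ℤ) : Continuous (POLY_E j) := by
  unfold POLY_E
  fun_prop

theorem POLY_E_mul (j l : ℤ) (t : ℝ) : POLY_E j t * POLY_E l t = POLY_E (j + l) t := by
  unfold POLY_E
  rw [← Complex.exp_add]
  congr 1
  push_cast
  ring

theorem POLY_E_norm (j : ℤ) (t : ℝ) : ‖POLY_E j t‖ = 1 := by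
  unfold POLY_E
  rw [show Complex.I * (j : ℂ) * (t : ℂ) = (((j : ℝ) * t : ℝ) : ℂ) * Complex.I by push_cast; ring]
  exact Complex.norm_exp_ofReal_mul_I _

theorem POLY_int_cont (f : ℝ → ℂ) (hf : Continuous f) : Integrable f μT := by
  unfold μT
  have h : IntegrableOn f (Icc 0 (2 * π)) := hf.integrableOn_Icc
  exact h.mono_set Ioc_subset_Icc_self

theorem POLY_I (j : ℤ) : ∫ t, POLY_E j t ∂μT = if j = 0 then (2 * π : ℂ) else 0 := by
  unfold μT
  rw [← intervalIntegral.integral_of_le (by positivity)]
  unfold POLY_E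
  split_ifs with h
  · subst h
    simp
  · have hc : Complex.I * (j : ℂ) ≠ 0 := mul_ne_zero Complex.I_ne_zero (by exact_mod_cast h)
    rw [integral_exp_mul_complex hc]
    have h1 : Complex.exp (Complex.I * (j : ℂ) * ((2 * π : ℝ) : ℂ)) = 1 := by
      rw [Complex.exp_eq_one_iff]
      exact ⟨j, by push_cast; ring⟩
    rw [h1]
    simp

theorem tPOLY : S_U5 → S_POLY := by
  intro hU5 k n hk hB hF
  obtain ⟨B, hB⟩ := hB
  have hkE : ∀ j : ℤ, Integrable (fun t => (k t : ℂ) * POLY_E j t) μT := by
    intro j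
    refine Integrable.mono' (integrable_const B) ?_ (Eventually.of_forall fun t => ?_)
    · exact ((Complex.measurable_ofReal.comp hk).mul (POLY_E_cont j).measurable).aestronglyMeasurable
    · rw [norm_mul, POLY_E_norm, mul_one, Complex.norm_real]
      exact hB t
  set c : ℤ → ℂ := fun j => ∫ t, (k t : ℂ) * POLY_E j t ∂μT with hc
  have hc1 : ∀ j : ℕ, c (n + (j + 1)) = 0 := by
    intro j
    have h := hF j
    rw [hc]
    simp only
    rw [← h]
    refine integral_congr_ae (Eventually.of_forall fun t => ?_)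
    simp only
    unfold POLY_E
    have e : Complex.exp (Complex.I * (((n : ℤ) + ((j : ℤ) + 1) : ℤ) : ℂ) * t) =
        Complex.exp (Complex.I * (n : ℂ) * t) * Complex.exp (Complex.I * ((j : ℂ) + 1) * t) := by
      rw [← Complex.exp_add]
      congr 1
      push_cast
      ring
    rw [e]
    ring
  have hconj : ∀ j : ℤ, c (-j) = (starRingEnd ℂ) (c j) := by
    intro j
    rw [hc]
    simp only
    rw [← integral_conj]
    refine integral_congr_ae (Eventually.of_forall fun t => ?_)
    simp only
    rw [map_mul, Complex.conj_ofReal]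
    congr 1
    unfold POLY_E
    rw [← Complex.exp_conj]
    congr 1
    simp
  have hbig : ∀ p : ℕ, n < p → c p = 0 := by
    intro p hp
    obtain ⟨j, rfl⟩ : ∃ j, p = n + (j + 1) := ⟨p - n - 1, by omega⟩
    have := hc1 j
    push_cast
    exact this
  have hbig' : ∀ p : ℕ, n < p → c (-(p : ℤ)) = 0 := by
    intro p hp
    rw [hconj, hbig p hp, map_zero]
  -- the trigonometric polynomial
  set P : ℝ → ℂ := fun t => c 0 * POLY_E 0 t +
    ∑ m ∈ Finset.Icc 1 n, (c m * POLY_E (-(m : ℤ)) t + c (-(m : ℤ)) * POLY_E m t) with hP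
  have hPc : Continuous P := by
    rw [hP]
    refine Continuous.add (continuous_const.mul (POLY_E_cont _)) ?_
    refine continuous_finsetSum _ fun m _ => ?_
    exact (continuous_const.mul (POLY_E_cont _)).add (continuous_const.mul (POLY_E_cont _))
  have hPint : ∀ l : ℤ, ∫ t, P t * POLY_E l t ∂μT = 2 * π * c l := by
    intro l
    have e1 : ∀ t, P t * POLY_E l t = c 0 * POLY_E l t +
        ∑ m ∈ Finset.Icc 1 n, (c m * POLY_E (-(m : ℤ) + l) t + c (-(m : ℤ)) * POLY_E (m + l) t) := by
      intro t
      rw [hP]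
      simp only
      rw [add_mul, Finset.sum_mul, mul_assoc, POLY_E_mul, zero_add]
      congr 1
      refine Finset.sum_congr rfl fun m _ => ?_
      rw [add_mul, mul_assoc, mul_assoc, POLY_E_mul, POLY_E_mul]
    have e2 : ∫ t, P t * POLY_E l t ∂μT = c 0 * (∫ t, POLY_E l t ∂μT) +
        ∑ m ∈ Finset.Icc 1 n, (c m * (∫ t, POLY_E (-(m : ℤ) + l) t ∂μT) +
          c (-(m : ℤ)) * (∫ t, POLY_E (m + l) t ∂μT)) := by
      rw [integral_congr_ae (Eventually.of_forall e1), integral_add, integral_const_mul,
        integral_finsetSum]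
      · congr 1
        refine Finset.sum_congr rfl fun m _ => ?_
        rw [integral_add, integral_const_mul, integral_const_mul]
        · exact POLY_int_cont _ (continuous_const.mul (POLY_E_cont _))
        · exact POLY_int_cont _ (continuous_const.mul (POLY_E_cont _))
      · intro m _
        exact POLY_int_cont _ ((continuous_const.mul (POLY_E_cont _)).add
          (continuous_const.mul (POLY_E_cont _)))
      · exact POLY_int_cont _ (continuous_const.mul (POLY_E_cont _))
      · refine POLY_int_cont _ (continuous_finsetSum _ fun m _ => ?_)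
        exact (continuous_const.mul (POLY_E_cont _)).add (continuous_const.mul (POLY_E_cont _))
    rw [e2]
    simp only [POLY_I]
    rcases lt_trichotomy l 0 with hl | hl | hl
    · obtain ⟨p, rfl⟩ : ∃ p : ℕ, l = -(p : ℤ) := ⟨l.natAbs, by omega⟩
      have hp : 1 ≤ p := by omega
      rw [if_neg (by omega), mul_zero, zero_add]
      have e3 : ∀ m ∈ Finset.Icc 1 n, (c m * (if (-(m : ℤ) + -(p : ℤ)) = 0 then (2 * π : ℂ) else 0) +
          c (-(m : ℤ)) * (if ((m : ℤ) + -(p : ℤ)) = 0 then (2 * π : ℂ) else 0)) =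
          if m = p then c (-(p : ℤ)) * (2 * π) else 0 := by
        intro m hm
        rw [Finset.mem_Icc] at hm
        rw [if_neg (by omega), mul_zero, zero_add]
        by_cases h : m = p
        · subst h
          rw [if_pos (by omega), if_pos rfl]
        · rw [if_neg (by omega), if_neg h, mul_zero]
      rw [Finset.sum_congr rfl e3, Finset.sum_ite_eq']
      split_ifs with h
      · ring
      · have : n < p := by
          rw [Finset.mem_Icc] at h
          omega
        rw [hbig' p this, mul_zero]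
    · subst hl
      rw [if_pos rfl]
      have e3 : ∀ m ∈ Finset.Icc 1 n, (c m * (if (-(m : ℤ) + 0) = 0 then (2 * π : ℂ) else 0) +
          c (-(m : ℤ)) * (if ((m : ℤ) + 0) = 0 then (2 * π : ℂ) else 0)) = 0 := by
        intro m hm
        rw [Finset.mem_Icc] at hm
        rw [if_neg (by omega), if_neg (by omega), mul_zero, mul_zero, zero_add]
      rw [Finset.sum_congr rfl e3, Finset.sum_const_zero]
      ring
    · obtain ⟨p, rfl⟩ : ∃ p : ℕ, l = (p : ℤ) := ⟨l.natAbs, by omega⟩
      have hp : 1 ≤ p := by omega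
      rw [if_neg (by omega), mul_zero, zero_add]
      have e3 : ∀ m ∈ Finset.Icc 1 n, (c m * (if (-(m : ℤ) + (p : ℤ)) = 0 then (2 * π : ℂ) else 0) +
          c (-(m : ℤ)) * (if ((m : ℤ) + (p : ℤ)) = 0 then (2 * π : ℂ) else 0)) =
          if m = p then c (p : ℤ) * (2 * π) else 0 := by
        intro m hm
        rw [Finset.mem_Icc] at hm
        rw [if_neg (show ¬ ((m : ℤ) + (p : ℤ) = 0) by omega), mul_zero, add_zero]
        by_cases h : m = p
        · subst h
          rw [if_pos (by omega), if_pos rfl]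
        · rw [if_neg (by omega), if_neg h, mul_zero]
      rw [Finset.sum_congr rfl e3, Finset.sum_ite_eq']
      split_ifs with h
      · ring
      · have : n < p := by
          rw [Finset.mem_Icc] at h
          omega
        rw [hbig p this, mul_zero]
  have hpi : (2 * π : ℂ) ≠ 0 := by
    exact_mod_cast (show (2 * π : ℝ) ≠ 0 by positivity)
  have hki : Integrable (fun t => (k t : ℂ)) μT := by
    have h := hkE 0
    refine h.congr (Eventually.of_forall fun t => ?_)
    simp [POLY_E]
  have hfi : Integrable (fun t => (k t : ℂ) - (2 * π : ℂ)⁻¹ * P t) μT :=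
    hki.sub (POLY_int_cont _ (continuous_const.mul hPc))
  have hz : ∀ l : ℤ, ∫ t, ((k t : ℂ) - (2 * π : ℂ)⁻¹ * P t) *
      Complex.exp (Complex.I * (l : ℂ) * t) ∂μT = 0 := by
    intro l
    have e1 : ∀ t : ℝ, ((k t : ℂ) - (2 * π : ℂ)⁻¹ * P t) * Complex.exp (Complex.I * (l : ℂ) * t) =
        (k t : ℂ) * POLY_E l t - (2 * π : ℂ)⁻¹ * (P t * POLY_E l t) := by
      intro t
      unfold POLY_E
      ring
    rw [integral_congr_ae (Eventually.of_forall e1), integral_sub (hkE l), integral_const_mul,
      hPint]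
    · have : (2 * π : ℂ)⁻¹ * (2 * π * c l) = c l := by
        rw [← mul_assoc, inv_mul_cancel₀ hpi, one_mul]
      rw [this, hc, sub_self]
    · exact POLY_int_cont _ (continuous_const.mul (hPc.mul (POLY_E_cont l)))
  have hae := hU5 _ hfi hz
  refine ⟨fun m => if m = 0 then (2 * π)⁻¹ * (c 0).re else
      (2 * π)⁻¹ * ((c (m : ℤ)).re + (c (-(m : ℤ))).re),
    fun m => (2 * π)⁻¹ * ((c (m : ℤ)).im - (c (-(m : ℤ))).im), ?_⟩
  filter_upwards [hae] with t ht
  have hkt : (k t : ℂ) = (((2 * π)⁻¹ : ℝ) : ℂ) * P t := by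
    rw [sub_eq_zero] at ht
    rw [ht]
    push_cast
    ring
  have hre := congrArg Complex.re hkt
  rw [Complex.ofReal_re, Complex.re_ofReal_mul] at hre
  rw [hre, if_pos rfl]
  have hEre : ∀ j : ℤ, POLY_E j t = ⟨Real.cos (j * t), Real.sin (j * t)⟩ := by
    intro j
    unfold POLY_E
    rw [show Complex.I * (j : ℂ) * (t : ℂ) = (((j : ℝ) * t : ℝ) : ℂ) * Complex.I by push_cast; ring]
    apply Complex.ext
    · exact Complex.exp_ofReal_mul_I_re _
    · exact Complex.exp_ofReal_mul_I_im _
  rw [hP]
  simp only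
  rw [Complex.add_re, Complex.re_sum, mul_add, Finset.mul_sum]
  congr 1
  · rw [hEre]
    simp
  · refine Finset.sum_congr rfl fun m hm => ?_
    rw [Finset.mem_Icc] at hm
    rw [if_neg (by omega), hEre, hEre]
    simp only [Complex.add_re, Complex.mul_re]
    push_cast
    rw [show -(m : ℝ) * t = -((m : ℝ) * t) by ring, Real.cos_neg, Real.sin_neg]
    ring

end Pool.Agent.H352R5.HL

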