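import Pool.Agent.H352R5.HL.Stubs2

/-! PROD (helper311) -/

namespace Pool.Agent.H352R5.HL

open MeasureTheory Set Filter Topology
open scoped ENNReal NNReal Real

theorem PROD_norm_exp (x t : ℝ) : ‖Complex.exp (Complex.I * (x : ℂ) * t)‖ = 1 := by
  rw [show Complex.I * (x : ℂ) * (t : ℂ) = ((x * t : ℝ) : ℂ) * Complex.I by
      push_cast; ring, Complex.norm_exp_ofReal_mul_I]

theorem PROD_aux {f : ℝ → ℂ} (hf : Integrable f μT) (hfour : Four f) {E : ℂ → ℂ} {R : ℝ}
    (hR : 1 < R) (hE : DifferentiableOn ℂ E (Metric.ball 0 R)) (k : ℕ) :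
    ∫ t, f t * E (circ 1 t) * Complex.exp (Complex.I * ((k : ℂ) + 1) * t) ∂μT = 0 := by
  -- the power series
  set R' : ℝ≥0 := ⟨(1 + R) / 2, by positivity⟩ with hR'
  have hR'1 : (1:ℝ) < R' := by
    show (1:ℝ) < (1 + R) / 2
    linarith
  have hR'R : (R' : ℝ) < R := by
    show (1 + R) / 2 < R
    linarith
  have hEd : DifferentiableOn ℂ E (Metric.closedBall 0 R') :=
    (hE.mono (Metric.closedBall_subset_ball hR'R))
  have hps := hEd.hasFPowerSeriesOnBall (by
    have : (0:ℝ) < R' := by linarith
    exact_mod_cast this)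
  set p := cauchyPowerSeries E 0 R' with hp
  set c : ℕ → ℂ := fun n => p.coeff n with hc
  have hsum : Summable (fun n => ‖c n‖) := by
    have h1 : ((1 : ℝ≥0) : ℝ≥0∞) < p.radius := by
      refine lt_of_lt_of_le ?_ hps.r_le
      exact_mod_cast hR'1
    have h2 := p.summable_norm_mul_pow h1
    simpa [hc, FormalMultilinearSeries.norm_apply_eq_norm_coef] using h2
  have hval : ∀ t : ℝ, HasSum (fun n => c n * Complex.exp (Complex.I * (n : ℂ) * t))
      (E (circ 1 t)) := by
    intro t
    have hmem : circ 1 t ∈ Metric.eball (0:ℂ) R' := by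
      rw [Metric.mem_eball, edist_zero_right]
      have : ‖circ 1 t‖₊ = 1 := by
        apply NNReal.eq
        simp only [coe_nnnorm, NNReal.coe_one, circ]
        rw [norm_mul, mul_comm Complex.I, Complex.norm_exp_ofReal_mul_I]
        simp
      rw [enorm_eq_nnnorm, this]
      exact_mod_cast hR'1
    have h1 := hps.hasSum hmem
    rw [zero_add] at h1
    suffices e : (fun n => c n * Complex.exp (Complex.I * (n : ℂ) * t)) =
        fun n => (p n) fun _ => circ 1 t by
      rw [e]; exact h1
    funext n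
    rw [FormalMultilinearSeries.apply_eq_pow_smul_coeff, smul_eq_mul, mul_comm]
    congr 1
    simp only [circ, Complex.ofReal_one, one_mul]
    rw [← Complex.exp_nat_mul]
    congr 1
    ring
  -- integrate
  set G : ℕ → ℝ → ℂ := fun n t => f t * (c n * Complex.exp (Complex.I * (n : ℂ) * t)) *
    Complex.exp (Complex.I * ((k : ℂ) + 1) * t) with hG
  have hnorm : ∀ n t, ‖G n t‖ = ‖c n‖ * ‖f t‖ := by
    intro n t
    simp only [hG]
    have h1 := PROD_norm_exp n t
    have h2 := PROD_norm_exp (k + 1) t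
    push_cast at h1 h2
    rw [norm_mul, norm_mul, norm_mul, h1, h2]
    ring
  have hint : ∀ n, Integrable (G n) μT := by
    intro n
    refine (hf.norm.const_mul ‖c n‖).mono' ?_ (Eventually.of_forall (fun t => (hnorm n t).le))
    refine (hf.aestronglyMeasurable.mul ?_).mul ?_
    · exact (Continuous.aestronglyMeasurable (by fun_prop))
    · exact (Continuous.aestronglyMeasurable (by fun_prop))
  have hs := hasSum_integral_of_summable_integral_norm hint (by
    have : (fun n => ∫ t, ‖G n t‖ ∂μT) = fun n => ‖c n‖ * ∫ t, ‖f t‖ ∂μT := by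
      funext n
      rw [← integral_const_mul]
      exact integral_congr_ae (Eventually.of_forall (fun t => hnorm n t))
    rw [this]
    exact hsum.mul_right _)
  have htsum : ∀ t, ∑' n, G n t = f t * E (circ 1 t) *
      Complex.exp (Complex.I * ((k : ℂ) + 1) * t) := fun t =>
    (((hval t).mul_left (f t)).mul_right _).tsum_eq
  rw [integral_congr_ae (Eventually.of_forall htsum)] at hs
  have hzero : ∀ n, ∫ t, G n t ∂μT = 0 := by
    intro n
    have h1 := hfour (n + k)
    have h2 : (fun t => G n t) =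
        fun t => c n * (f t * Complex.exp (Complex.I * (((n + k : ℕ) : ℂ) + 1) * t)) := by
      funext t
      simp only [hG]
      rw [show Complex.I * (((n + k : ℕ) : ℂ) + 1) * (t : ℂ) = Complex.I * (n : ℂ) * t +
        Complex.I * ((k : ℂ) + 1) * t by push_cast; ring, Complex.exp_add]
      ring
    rw [h2, integral_const_mul, h1, mul_zero]
  have h3 : HasSum (fun n => ∫ t, G n t ∂μT) 0 := by
    simp only [hzero]
    exact hasSum_zero
  exact hs.unique h3

theorem tPROD : S_B2a → S_B2b → S_PROD := by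
  intro hB2a hB2b g F hg hgB hgF hF hFF k
  obtain ⟨B, hB⟩ := hgB
  have hB0 : 0 ≤ B := (norm_nonneg _).trans (hB 0)
  have hgi : Integrable g μT :=
    (integrable_const B).mono' hg.aestronglyMeasurable (Eventually.of_forall hB)
  obtain ⟨Ft, hFt, hFt2⟩ := hB2a F hF hFF
  -- the exponential
  set e : ℝ → ℂ := fun t => Complex.exp (Complex.I * ((k : ℂ) + 1) * t) with he
  have hen : ∀ t, ‖e t‖ = 1 := by
    intro t
    have := PROD_norm_exp (k + 1) t
    push_cast at this
    exact this
  have hec : Continuous e := by fun_prop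
  -- for `r < 1` the integral vanishes
  have hr0 : ∀ r : ℝ, 0 < r → r < 1 → ∫ t, g t * PI r F t * e t ∂μT = 0 := by
    intro r hr hr1
    have h1 := PROD_aux hgi hgF (E := fun z => Ft ((r : ℂ) * z)) (R := 1 / r)
      (by rw [lt_div_iff₀ hr]; linarith) (by
        apply hFt.comp (by fun_prop)
        intro z hz
        rw [Metric.mem_ball, dist_zero_right] at hz ⊢
        rw [norm_mul, Complex.norm_real, Real.norm_of_nonneg hr.le]
        rw [lt_div_iff₀ hr] at hz
        linarith) k
    rw [← h1]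
    apply integral_congr_ae
    apply Eventually.of_forall
    intro t
    simp only [he]
    rw [← hFt2 r hr.le hr1 t]
    congr 3
    simp [circ]
  have hcirc : ∀ r : ℝ, Continuous (fun t => circ r t) := by
    intro r
    unfold circ
    fun_prop
  have hPIc : ∀ r : ℝ, 0 < r → r < 1 → Continuous (fun t => PI r F t) := by
    intro r hr hr1
    have h1 : (fun t => PI r F t) = fun t => Ft (circ r t) := by
      funext t
      exact (hFt2 r hr.le hr1 t).symm
    rw [h1]
    apply hFt.continuousOn.comp_continuous (hcirc r)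
    intro t
    rw [Metric.mem_ball, dist_zero_right]
    unfold circ
    rw [norm_mul, mul_comm Complex.I, Complex.norm_exp_ofReal_mul_I, Complex.norm_real,
      Real.norm_of_nonneg hr.le]
    linarith
  have hPIi : ∀ r : ℝ, 0 < r → r < 1 → Integrable (fun t => PI r F t) μT := by
    intro r hr hr1
    exact (hPIc r hr hr1).integrableOn_Ioc
  have hint : ∀ h : ℝ → ℂ, Integrable h μT → Integrable (fun t => g t * h t * e t) μT := by
    intro h hh
    refine (hh.norm.const_mul B).mono' ?_ ?_
    · exact (hg.aestronglyMeasurable.mul hh.aestronglyMeasurable).mul hec.aestronglyMeasurable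
    · apply Eventually.of_forall
      intro t
      rw [norm_mul, norm_mul, hen, mul_one]
      exact mul_le_mul_of_nonneg_right (hB t) (norm_nonneg _)
  -- the bound
  have hbound : ∀ r : ℝ, 0 < r → r < 1 → ‖∫ t, g t * F t * e t ∂μT‖ₑ ≤
      ENNReal.ofReal B * ∫⁻ t, ‖PI r F t - F t‖ₑ ∂μT := by
    intro r hr hr1
    have h1 : ∫ t, g t * F t * e t ∂μT = ∫ t, g t * (F t - PI r F t) * e t ∂μT := by
      have h2 : ∫ t, g t * (F t - PI r F t) * e t ∂μT =
          ∫ t, (g t * F t * e t - g t * PI r F t * e t) ∂μT := by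
        apply integral_congr_ae
        apply Eventually.of_forall
        intro t
        simp only
        ring
      rw [h2, integral_sub (hint F hF) (hint _ (hPIi r hr hr1)), hr0 r hr hr1, sub_zero]
    rw [h1]
    refine (enorm_integral_le_lintegral_enorm _).trans ?_
    rw [← lintegral_const_mul' _ _ ENNReal.ofReal_ne_top]
    apply lintegral_mono
    intro t
    simp only
    rw [enorm_mul, enorm_mul]
    have h3 : ‖e t‖ₑ = 1 := by
      rw [← ofReal_norm_eq_enorm, hen]; simp
    rw [h3, mul_one]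
    have h4 : ‖F t - PI r F t‖ₑ = ‖PI r F t - F t‖ₑ := by
      rw [← ofReal_norm_eq_enorm, ← ofReal_norm_eq_enorm, norm_sub_rev]
    rw [h4]
    apply mul_le_mul_left
    rw [← ofReal_norm_eq_enorm]
    exact ENNReal.ofReal_le_ofReal (hB t)
  have hlim : Tendsto (fun r : ℝ => ENNReal.ofReal B * ∫⁻ t, ‖PI r F t - F t‖ₑ ∂μT)
      (𝓝[<] 1) (𝓝 0) := by
    have := ENNReal.Tendsto.const_mul (a := ENNReal.ofReal B) (hB2b F hF)
      (Or.inr ENNReal.ofReal_ne_top)
    rwa [mul_zero] at this
  have hev : ∀ᶠ r : ℝ in 𝓝[<] 1, ‖∫ t, g t * F t * e t ∂μT‖ₑ ≤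
      ENNReal.ofReal B * ∫⁻ t, ‖PI r F t - F t‖ₑ ∂μT := by
    have h1 : Ioo (0:ℝ) 1 ∈ 𝓝[<] (1:ℝ) := Ioo_mem_nhdsLT (by norm_num)
    filter_upwards [h1] with r hr
    exact hbound r hr.1 hr.2
  have h0 : ‖∫ t, g t * F t * e t ∂μT‖ₑ ≤ 0 := ge_of_tendsto hlim hev
  have h1 : ‖∫ t, g t * F t * e t ∂μT‖ₑ = 0 := le_antisymm h0 (zero_le)
  rw [enorm_eq_zero] at h1
  exact h1

end Pool.Agent.H352R5.HL
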