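import Pool.Agent.H352R5.HL.Main

/-!
# Statements used for the bridge between analytic functions on the disc and boundary functions

Every `S_XX` below is a plain proposition; it is proved in the file `TXX.lean`.
-/

namespace Pool.Agent.H352R5.HL

open MeasureTheory Set Filter Topology
open scoped ENNReal NNReal Real

/-- The point `r e^{it}`. -/
noncomputable def circ (r t : ℝ) : ℂ := (r : ℂ) * Complex.exp (Complex.I * t)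

/-- `f` is the boundary function of `F` (convergence in `L¹`). -/
def Bdry (F : ℂ → ℂ) (f : ℝ → ℂ) : Prop :=
  Tendsto (fun r : ℝ => ∫⁻ t, ‖F (circ r t) - f t‖ₑ ∂μT) (𝓝[<] 1) (𝓝 0)

/-- The Poisson kernel. -/
noncomputable def pk (r t θ : ℝ) : ℝ :=
  (1 - r ^ 2) / (1 - 2 * r * Real.cos (t - θ) + r ^ 2) / (2 * π)

/-- The Poisson integral. -/
noncomputable def PI (r : ℝ) (f : ℝ → ℂ) (t : ℝ) : ℂ := ∫ θ, (pk r t θ : ℂ) * f θ ∂μT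

/-! ### The Lorentz norm as a Stieltjes integral of the decreasing rearrangement -/

/-- The decreasing rearrangement of `|x|`. -/
noncomputable def rearr (x : ℝ → ℝ) (s : ℝ) : ℝ≥0∞ :=
  sInf {τ : ℝ≥0∞ | μT {t | τ < ENNReal.ofReal |x t|} ≤ ENNReal.ofReal s}

/-- The extension of `Ψ` by `0` to `(-∞, 0]` and by `Ψ (2π)` to `[2π, ∞)`. -/
noncomputable def psiExt (Ψ : ℝ → ℝ) (t : ℝ) : ℝ := if t ≤ 0 then 0 else Ψ (min t (2 * π))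

theorem IsWt.psiExt_mono {Ψ : ℝ → ℝ} (h : IsWt Ψ) : Monotone (psiExt Ψ) := by
  intro a b hab
  unfold psiExt
  by_cases hb : b ≤ 0
  · rw [if_pos hb, if_pos (hab.trans hb)]
  · rw [if_neg hb]
    rw [not_le] at hb
    have hb' : min b (2 * π) ∈ Icc 0 (2 * π) := ⟨le_min hb.le two_pi_pos.le, min_le_right _ _⟩
    by_cases ha : a ≤ 0
    · rw [if_pos ha]
      exact h.nonneg hb'
    · rw [if_neg ha]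
      rw [not_le] at ha
      have ha' : min a (2 * π) ∈ Icc 0 (2 * π) := ⟨le_min ha.le two_pi_pos.le, min_le_right _ _⟩
      exact h.mono ha' hb' (min_le_min_right _ hab)

/-- The Lebesgue–Stieltjes measure `dΨ`. -/
noncomputable def IsWt.dPsi {Ψ : ℝ → ℝ} (h : IsWt Ψ) : Measure ℝ :=
  h.psiExt_mono.stieltjesFunction.measure

/-- The norm of the Lorentz space `Λ(Ψ)`. -/
noncomputable def IsWt.norm {Ψ : ℝ → ℝ} (h : IsWt Ψ) (x : ℝ → ℝ) : ℝ≥0∞ :=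
  ∫⁻ s in Icc 0 (2 * π), rearr x s ∂h.dPsi

/-- A1 -/
def S_A1 : Prop := ∀ (Ψ : ℝ → ℝ) (h : IsWt Ψ) (x : ℝ → ℝ), Measurable x →
  h.norm x = lor Ψ (fun t => |x t|)

/-! ### The Poisson kernel -/

/-- P1 -/
def S_P1 : Prop := ∀ r : ℝ, 0 ≤ r → r < 1 → (∀ t θ, 0 ≤ pk r t θ) ∧
  (∀ t, ∫ θ, pk r t θ ∂μT = 1) ∧ (∀ θ, ∫ t, pk r t θ ∂μT = 1) ∧
  Continuous (fun p : ℝ × ℝ => pk r p.1 p.2) ∧ ∃ C : ℝ, ∀ t θ, pk r t θ ≤ C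

/-- P2 -/
def S_P2 : Prop := ∀ (F : ℂ → ℂ) (f : ℝ → ℂ), DifferentiableOn ℂ F (Metric.ball 0 1) →
  Integrable f μT → Bdry F f → ∀ r : ℝ, 0 ≤ r → r < 1 → ∀ t, F (circ r t) = PI r f t

/-- P3a -/
def S_P3a : Prop := ∀ k : ℝ → ℝ → ℝ, Measurable (Function.uncurry k) → (∀ t θ, 0 ≤ k t θ) →
  (∀ t, ∫⁻ θ, ENNReal.ofReal (k t θ) ∂μT = 1) → (∀ θ, ∫⁻ t, ENNReal.ofReal (k t θ) ∂μT = 1) →
  ∀ x y : ℝ → ℝ, Measurable x → Measurable y → (∀ t, 0 ≤ x t) →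
  (∀ t, ENNReal.ofReal (y t) ≤ ∫⁻ θ, ENNReal.ofReal (k t θ) * ENNReal.ofReal (x θ) ∂μT) →
  ∀ τ : ℝ, 0 ≤ τ → ∫⁻ t, ENNReal.ofReal (y t - τ) ∂μT ≤ ∫⁻ t, ENNReal.ofReal (x t - τ) ∂μT

/-- P3b -/
def S_P3b : Prop := ∀ (Ψ : ℝ → ℝ), IsWt Ψ → ∀ x y : ℝ → ℝ, Measurable x → Measurable y →
  (∀ t, 0 ≤ x t) → (∀ t, 0 ≤ y t) → ∫⁻ t, ENNReal.ofReal (x t) ∂μT ≠ ∞ →
  (∀ τ : ℝ, 0 ≤ τ → ∫⁻ t, ENNReal.ofReal (y t - τ) ∂μT ≤ ∫⁻ t, ENNReal.ofReal (x t - τ) ∂μT) →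
  lor Ψ y ≤ lor Ψ x

/-- P4 -/
def S_P4 : Prop := ∀ (Ψ : ℝ → ℝ), IsWt Ψ → ∀ (x : ℕ → ℝ → ℝ) (y : ℝ → ℝ), (∀ n, Measurable (x n)) →
  Measurable y → (∀ᵐ t ∂μT, Tendsto (fun n => x n t) atTop (𝓝 (y t))) →
  ∀ C : ℝ≥0∞, (∀ n, lor Ψ (x n) ≤ C) → lor Ψ y ≤ C

/-! ### From boundary functions to analytic functions -/

/-- B2a -/
def S_B2a : Prop := ∀ f : ℝ → ℂ, Integrable f μT → Four f →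
  ∃ F : ℂ → ℂ, DifferentiableOn ℂ F (Metric.ball 0 1) ∧
    ∀ r : ℝ, 0 ≤ r → r < 1 → ∀ t, F (circ r t) = PI r f t

/-- D1 -/
def S_D1 : Prop := ∀ f : ℝ → ℂ, Integrable f μT → ∀ ε : ℝ, 0 < ε →
  ∃ (s : Finset ℤ) (c : ℤ → ℂ),
    ∫⁻ t, ‖f t - ∑ n ∈ s, c n * Complex.exp (Complex.I * (n : ℂ) * t)‖ₑ ∂μT ≤ ENNReal.ofReal ε

/-- D2 -/
def S_D2 : Prop := ∀ (n : ℤ) (r : ℝ), 0 ≤ r → r < 1 → ∀ t : ℝ,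
  PI r (fun θ => Complex.exp (Complex.I * (n : ℂ) * θ)) t
    = (r : ℂ) ^ n.natAbs * Complex.exp (Complex.I * (n : ℂ) * t)

/-- D3 -/
def S_D3 : Prop := ∀ f : ℝ → ℂ, Integrable f μT → ∀ r : ℝ, 0 ≤ r → r < 1 →
  ∫⁻ t, ‖PI r f t‖ₑ ∂μT ≤ ∫⁻ t, ‖f t‖ₑ ∂μT

/-- B2b (from D1, D2, D3) -/
def S_B2b : Prop := ∀ f : ℝ → ℂ, Integrable f μT →
  Tendsto (fun r : ℝ => ∫⁻ t, ‖PI r f t - f t‖ₑ ∂μT) (𝓝[<] 1) (𝓝 0)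

/-- B5 -/
def S_B5 : Prop := ∀ (F : ℂ → ℂ) (f : ℝ → ℂ), DifferentiableOn ℂ F (Metric.ball 0 1) →
  Integrable f μT → Bdry F f → Four f

/-! ### Boundary functions of analytic functions with bounded means -/

/-- R1 -/
def S_R1 : Prop := ∀ (G : ℂ → ℂ) (R : ℝ), 1 < R → DifferentiableOn ℂ G (Metric.ball 0 R) →
  (∀ z : ℂ, ‖z‖ = 1 → G z ≠ 0) →
  ∃ P H : ℂ → ℂ, DiffContOnCl ℂ P (Metric.ball 0 1) ∧ DiffContOnCl ℂ H (Metric.ball 0 1) ∧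
    (∀ z : ℂ, ‖z‖ ≤ 1 → G z = P z * H z) ∧ ∀ z : ℂ, ‖z‖ = 1 → ‖P z‖ = ‖H z‖

/-- R2 -/
def S_R2 : Prop := ∀ F : ℂ → ℂ, DifferentiableOn ℂ F (Metric.ball 0 1) →
  (∃ z : ℂ, ‖z‖ < 1 ∧ F z ≠ 0) →
  ∃ r : ℕ → ℝ, (∀ n, r n ∈ Ioo 0 1) ∧ Tendsto r atTop (𝓝 1) ∧
    ∀ n, ∀ z : ℂ, ‖z‖ = r n → F z ≠ 0

/-- R3 -/
def S_R3 : Prop := ∀ P : ℂ → ℂ, DiffContOnCl ℂ P (Metric.ball 0 1) →
  ∃ p : ℕ → ℂ, (∀ z : ℂ, ‖z‖ < 1 → HasSum (fun n => p n * z ^ n) (P z)) ∧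
    ∀ N : ℕ, ∑ n ∈ Finset.range N, ‖p n‖ ^ 2 ≤ (1 / (2 * π)) * ∫ t, ‖P (circ 1 t)‖ ^ 2 ∂μT

/-- R4 -/
def S_R4 : Prop := ∀ (a : ℕ → ℕ → ℂ) (M : ℝ),
  (∀ k N : ℕ, ∑ n ∈ Finset.range N, ‖a k n‖ ^ 2 ≤ M) →
  ∃ (b : ℕ → ℂ) (φ : ℕ → ℕ), StrictMono φ ∧
    (∀ n, Tendsto (fun k => a (φ k) n) atTop (𝓝 (b n))) ∧
    ∀ N : ℕ, ∑ n ∈ Finset.range N, ‖b n‖ ^ 2 ≤ M

/-- R5 -/
def S_R5 : Prop := ∀ (a : ℕ → ℕ → ℂ) (b : ℕ → ℂ) (M : ℝ),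
  (∀ k N : ℕ, ∑ n ∈ Finset.range N, ‖a k n‖ ^ 2 ≤ M) →
  (∀ n, Tendsto (fun k => a k n) atTop (𝓝 (b n))) →
  ∀ z : ℂ, ‖z‖ < 1 → Tendsto (fun k => ∑' n, a k n * z ^ n) atTop (𝓝 (∑' n, b n * z ^ n))

/-- R6 -/
def S_R6 : Prop := ∀ (b : ℕ → ℂ) (M : ℝ), (∀ N : ℕ, ∑ n ∈ Finset.range N, ‖b n‖ ^ 2 ≤ M) →
  ∃ g : ℝ → ℂ, Measurable g ∧ ∫⁻ t, ‖g t‖ₑ ^ 2 ∂μT ≠ ∞ ∧
    Tendsto (fun r : ℝ => ∫⁻ t, ‖(∑' n, b n * circ r t ^ n) - g t‖ₑ ^ 2 ∂μT) (𝓝[<] 1) (𝓝 0)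

/-- R7 -/
def S_R7 : Prop := ∀ (P H : ℂ → ℂ) (g h : ℝ → ℂ), ContinuousOn P (Metric.ball 0 1) →
  ContinuousOn H (Metric.ball 0 1) → Measurable g → Measurable h →
  ∫⁻ t, ‖g t‖ₑ ^ 2 ∂μT ≠ ∞ → ∫⁻ t, ‖h t‖ₑ ^ 2 ∂μT ≠ ∞ →
  Tendsto (fun r : ℝ => ∫⁻ t, ‖P (circ r t) - g t‖ₑ ^ 2 ∂μT) (𝓝[<] 1) (𝓝 0) →
  Tendsto (fun r : ℝ => ∫⁻ t, ‖H (circ r t) - h t‖ₑ ^ 2 ∂μT) (𝓝[<] 1) (𝓝 0) →
  Integrable (fun t => g t * h t) μT ∧ Bdry (fun z => P z * H z) (fun t => g t * h t)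

/-- R8 (from R1, ..., R7) -/
def S_R8 : Prop := ∀ F : ℂ → ℂ, DifferentiableOn ℂ F (Metric.ball 0 1) →
  (∃ M : ℝ, ∀ r ∈ Ioo (0 : ℝ) 1, ∫⁻ t, ‖F (circ r t)‖ₑ ∂μT ≤ ENNReal.ofReal M) →
  ∃ f : ℝ → ℂ, Measurable f ∧ Integrable f μT ∧ Bdry F f

/-! ### Uniqueness -/

/-- U1 -/
def S_U1 : Prop := ∀ f : ℝ → ℂ, Integrable f μT → Four f → ∀ (Q : ℂ → ℂ) (R : ℝ), 1 < R →
  DifferentiableOn ℂ Q (Metric.ball 0 R) → Q 0 = 0 →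
  ∫ t, f t * Complex.exp (Q (circ 1 t)) ∂μT = ∫ t, f t ∂μT

/-- U2 -/
def S_U2 : Prop := ∀ v : ℝ → ℝ, Measurable v → (∃ B : ℝ, ∀ t, |v t| ≤ B) → ∫ t, v t ∂μT = 0 →
  ∀ r : ℝ, 0 < r → r < 1 → ∃ (Q : ℂ → ℂ) (R : ℝ), 1 < R ∧
    DifferentiableOn ℂ Q (Metric.ball 0 R) ∧ Q 0 = 0 ∧
    ∀ t, (Q (circ 1 t)).re = ∫ θ, pk r t θ * v θ ∂μT

/-- U3 (from P1, B2b, U1, U2) -/
def S_U3 : Prop := ∀ f : ℝ → ℂ, Integrable f μT → Four f → ∀ v : ℝ → ℝ, Measurable v →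
  (∃ B : ℝ, ∀ t, |v t| ≤ B) → ∫ t, v t ∂μT = 0 →
  ‖∫ t, f t ∂μT‖ ≤ ∫ t, ‖f t‖ * Real.exp (v t) ∂μT

/-- U4 (from U3) -/
def S_U4 : Prop := ∀ f : ℝ → ℂ, Measurable f → Integrable f μT → Four f → ∀ ε : ℝ, 0 < ε →
  ‖∫ t, f t ∂μT‖ ≤ 2 * π * Real.exp ((1 / (2 * π)) * ∫ t, Real.log (‖f t‖ + ε) ∂μT)

/-- U5 -/
def S_U5 : Prop := ∀ f : ℝ → ℂ, Integrable f μT →
  (∀ n : ℤ, ∫ t, f t * Complex.exp (Complex.I * (n : ℂ) * t) ∂μT = 0) → ∀ᵐ t ∂μT, f t = 0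

/-- U6 (from U4, U5) -/
def S_U6 : Prop := ∀ f : ℝ → ℂ, Measurable f → Integrable f μT → Four f →
  μT {t | f t = 0} ≠ 0 → ∀ᵐ t ∂μT, f t = 0

/-- `f` is the boundary function of an outer function (equality in Jensen's inequality). -/
structure Outer (f : ℝ → ℂ) : Prop where
  meas : Measurable f
  int : Integrable f μT
  four : Four f
  log : Integrable (fun t => Real.log ‖f t‖) μT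
  eq : ‖∫ t, f t ∂μT‖ = 2 * π * Real.exp ((1 / (2 * π)) * ∫ t, Real.log ‖f t‖ ∂μT)

/-- OUT (from U4) -/
def S_OUT : Prop := ∀ f : ℝ → ℂ, Outer f → ∀ k : ℝ → ℝ, Measurable k → (∃ B : ℝ, ∀ t, |k t| ≤ B) →
  Four (fun t => (k t : ℂ) * f t) → ∃ c : ℝ, ∀ᵐ t ∂μT, k t = c

/-! ### Norms -/

/-- N1 (from P1, P2, P3a, P3b, P4) -/
def S_N1 : Prop := ∀ (Ψ : ℝ → ℝ), IsWt Ψ → 0 < Ψ (2 * π) → ∀ (F : ℂ → ℂ) (f : ℝ → ℂ),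
  DifferentiableOn ℂ F (Metric.ball 0 1) → Measurable f → Integrable f μT → Bdry F f →
  ⨆ r ∈ Ioo (0 : ℝ) 1, lor Ψ (fun t => ‖F (circ r t)‖) = lor Ψ (fun t => ‖f t‖)

end Pool.Agent.H352R5.HL
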