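import Mathlib
import Pool.Agent.H352R5.HL.Stubs

namespace Pool.Agent.H352R5.HL

open MeasureTheory Set Filter Topology
open scoped ENNReal NNReal Real ComplexConjugate

namespace R1

/-- the Blaschke factor -/
noncomputable def bf (a z : ℂ) : ℂ := (z - a) / (1 - conj a * z)

theorem den_ne {a z : ℂ} (ha : ‖a‖ < 1) (hz : ‖z‖ ≤ 1) : 1 - conj a * z ≠ 0 := by
  intro h
  have h1 : conj a * z = 1 := (sub_eq_zero.mp h).symm
  have h2 : ‖conj a * z‖ = 1 := by rw [h1]; simp
  rw [norm_mul, RCLike.norm_conj] at h2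
  nlinarith [norm_nonneg a, norm_nonneg z]

theorem bf_norm {a z : ℂ} (ha : ‖a‖ < 1) (hz : ‖z‖ = 1) : ‖bf a z‖ = 1 := by
  unfold bf
  have hzz : z * conj z = 1 := by
    rw [Complex.mul_conj, Complex.normSq_eq_norm_sq, hz]; simp
  have key : ‖z - a‖ = ‖1 - conj a * z‖ := by
    have e1 : z - a = z * conj (1 - conj a * z) := by
      simp only [map_sub, map_mul, map_one, Complex.conj_conj]
      linear_combination a * hzz
    rw [e1, norm_mul, hz, one_mul, RCLike.norm_conj]
  rw [norm_div, key, div_self]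
  exact norm_ne_zero_iff.mpr (den_ne ha hz.le)

theorem bf_analytic {a z : ℂ} (ha : ‖a‖ < 1) (hz : ‖z‖ ≤ 1) : AnalyticAt ℂ (bf a) z := by
  unfold bf
  refine AnalyticAt.div (by fun_prop) (by fun_prop) (den_ne ha hz)

theorem fin_zeros {G : ℂ → ℂ} (hG : AnalyticOnNhd ℂ G (Metric.closedBall 0 1)) (h1 : G 1 ≠ 0) :
    {z | z ∈ Metric.closedBall (0 : ℂ) 1 ∧ G z = 0}.Finite := by
  by_contra hinf
  obtain ⟨z₀, hz₀, hacc⟩ := Set.Infinite.exists_accPt_of_subset_isCompact hinf
    (isCompact_closedBall (0 : ℂ) 1) (fun z hz => hz.1)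
  have hfreq : ∃ᶠ z in 𝓝[≠] z₀, G z = 0 := by
    rw [accPt_iff_frequently] at hacc
    rw [frequently_nhdsWithin_iff]
    exact hacc.mono fun y hy => ⟨hy.2.2, hy.1⟩
  have := hG.eqOn_zero_of_preconnected_of_frequently_eq_zero
    (convex_closedBall (0 : ℂ) 1).isPreconnected hz₀ hfreq
  exact h1 (this (by simp))

theorem main (n : ℕ) : ∀ G : ℂ → ℂ, AnalyticOnNhd ℂ G (Metric.closedBall 0 1) →
    (∀ z : ℂ, ‖z‖ = 1 → G z ≠ 0) →
    {z | z ∈ Metric.closedBall (0 : ℂ) 1 ∧ G z = 0}.ncard = n →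
    ∃ B q : ℂ → ℂ, AnalyticOnNhd ℂ B (Metric.closedBall 0 1) ∧
      AnalyticOnNhd ℂ q (Metric.closedBall 0 1) ∧
      (∀ z : ℂ, ‖z‖ ≤ 1 → q z ≠ 0) ∧ (∀ z : ℂ, ‖z‖ = 1 → ‖B z‖ = 1) ∧
      ∀ z : ℂ, ‖z‖ ≤ 1 → G z = B z * q z := by
  induction n with
  | zero =>
    intro G hG hz hc
    have hfin := fin_zeros hG (hz 1 (by simp))
    rw [Set.ncard_eq_zero hfin] at hc
    refine ⟨fun _ => 1, G, fun _ _ => analyticAt_const, hG, ?_, ?_, ?_⟩
    · intro z hz1 h0
      have : z ∈ {z | z ∈ Metric.closedBall (0 : ℂ) 1 ∧ G z = 0} := ⟨by simpa using hz1, h0⟩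
      rw [hc] at this
      exact this
    · intro z _; simp
    · intro z _; simp
  | succ n ih =>
    intro G hG hz hc
    have hfin := fin_zeros hG (hz 1 (by simp))
    have hne : {z | z ∈ Metric.closedBall (0 : ℂ) 1 ∧ G z = 0}.Nonempty := by
      rw [Set.nonempty_iff_ne_empty]
      intro h
      rw [h] at hc
      simp at hc
    obtain ⟨a, ha1, ha0⟩ := hne
    have ha1' : ‖a‖ ≤ 1 := by simpa using ha1
    have ha : ‖a‖ < 1 := lt_of_le_of_ne ha1' (fun h => hz a h ha0)
    have hnot : ¬ ∀ᶠ z in 𝓝 a, G z = 0 := by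
      intro h
      have := hG.eqOn_zero_of_preconnected_of_eventuallyEq_zero
        (convex_closedBall (0 : ℂ) 1).isPreconnected ha1 h
      exact hz 1 (by simp) (this (by simp))
    obtain ⟨m, g, hg, hga, hgeq⟩ := (hG a ha1).exists_eventuallyEq_pow_smul_nonzero_iff.mpr hnot
    set G1 : ℂ → ℂ := Function.update (fun z => G z / (z - a) ^ m) a (g a) with hG1
    have hG1a : G1 a = g a := by simp [hG1]
    have hG1b : ∀ z, z ≠ a → G1 z = G z / (z - a) ^ m := fun z hza => by simp [hG1, hza]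
    have hfac : ∀ z, G z = (z - a) ^ m * G1 z := by
      intro z
      by_cases hza : z = a
      · rw [hza, hG1a]
        have := hgeq.self_of_nhds
        simpa using this
      · rw [hG1b z hza, mul_div_cancel₀]
        exact pow_ne_zero _ (sub_ne_zero.mpr hza)
    have han : AnalyticOnNhd ℂ G1 (Metric.closedBall 0 1) := by
      intro b hb
      by_cases hba : b = a
      · rw [hba]
        refine hg.congr ?_
        filter_upwards [hgeq] with z hzz
        by_cases hza : z = a
        · rw [hza, hG1a]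
        · rw [hG1b z hza, hzz, smul_eq_mul, mul_div_assoc, mul_comm, div_mul_cancel₀]
          exact pow_ne_zero _ (sub_ne_zero.mpr hza)
      · have h1 : AnalyticAt ℂ (fun z => G z / (z - a) ^ m) b := by
          refine AnalyticAt.div (hG b hb) (by fun_prop) ?_
          exact pow_ne_zero _ (sub_ne_zero.mpr hba)
        refine h1.congr ?_
        filter_upwards [isOpen_ne.mem_nhds hba] with z hza
        rw [hG1b z hza]
    have hz1 : ∀ z : ℂ, ‖z‖ = 1 → G1 z ≠ 0 := by
      intro z hzn h0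
      apply hz z hzn
      rw [hfac z, h0, mul_zero]
    have hset : {z | z ∈ Metric.closedBall (0 : ℂ) 1 ∧ G1 z = 0} =
        {z | z ∈ Metric.closedBall (0 : ℂ) 1 ∧ G z = 0} \ {a} := by
      ext z
      simp only [Set.mem_ofPred_eq, Set.mem_sdiff, mem_singleton_iff]
      constructor
      · rintro ⟨h1, h2⟩
        refine ⟨⟨h1, by rw [hfac z, h2, mul_zero]⟩, ?_⟩
        intro hza
        rw [hza, hG1a] at h2
        exact hga h2
      · rintro ⟨⟨h1, h2⟩, h3⟩
        refine ⟨h1, ?_⟩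
        rw [hfac z] at h2
        rcases mul_eq_zero.mp h2 with h4 | h4
        · exact absurd h4 (pow_ne_zero _ (sub_ne_zero.mpr h3))
        · exact h4
    have hcard : {z | z ∈ Metric.closedBall (0 : ℂ) 1 ∧ G1 z = 0}.ncard = n := by
      rw [hset, Set.ncard_sdiff_singleton_of_mem (show a ∈ {z | z ∈ Metric.closedBall (0 : ℂ) 1 ∧ G z = 0} from ⟨ha1, ha0⟩), hc]
      simp
    obtain ⟨B1, q1, hB1, hq1, hq10, hB1n, hBq⟩ := ih G1 han hz1 hcard
    refine ⟨fun z => bf a z ^ m * B1 z, fun z => (1 - conj a * z) ^ m * q1 z, ?_, ?_, ?_, ?_, ?_⟩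
    · intro z hzb
      have hzn : ‖z‖ ≤ 1 := by simpa using hzb
      exact ((bf_analytic ha hzn).pow m).mul (hB1 z hzb)
    · intro z hzb
      exact AnalyticAt.mul (by fun_prop) (hq1 z hzb)
    · intro z hzn
      exact mul_ne_zero (pow_ne_zero _ (den_ne ha hzn)) (hq10 z hzn)
    · intro z hzn
      rw [norm_mul, norm_pow, bf_norm ha hzn, hB1n z hzn]; simp
    · intro z hzn
      rw [hfac z, hBq z hzn]
      have hd := den_ne ha hzn
      have : (z - a) = bf a z * (1 - conj a * z) := by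
        unfold bf
        rw [div_mul_cancel₀ _ hd]
      calc (z - a) ^ m * (B1 z * q1 z) = (bf a z * (1 - conj a * z)) ^ m * (B1 z * q1 z) := by
            rw [← this]
        _ = bf a z ^ m * B1 z * ((1 - conj a * z) ^ m * q1 z) := by rw [mul_pow]; ring

theorem sqrt_ex {q : ℂ → ℂ} (hq : AnalyticOnNhd ℂ q (Metric.closedBall 0 1))
    (h0 : ∀ z : ℂ, ‖z‖ ≤ 1 → q z ≠ 0) :
    ∃ h : ℂ → ℂ, AnalyticOnNhd ℂ h (Metric.closedBall 0 1) ∧
      ∀ z : ℂ, ‖z‖ ≤ 1 → q z = h z * h z := by
  set U : Set ℂ := {z | AnalyticAt ℂ q z ∧ q z ≠ 0} with hU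
  have hUo : IsOpen U := by
    rw [isOpen_iff_mem_nhds]
    rintro z ⟨hz1, hz2⟩
    exact (hz1.eventually_analyticAt.and (hz1.continuousAt.eventually_ne hz2))
  have hsub : Metric.closedBall (0 : ℂ) 1 ⊆ U := fun z hz => ⟨hq z hz, h0 z (by simpa using hz)⟩
  obtain ⟨δ, hδ, hth⟩ := (isCompact_closedBall (0 : ℂ) 1).exists_thickening_subset_open hUo hsub
  rw [thickening_closedBall hδ zero_le_one] at hth
  set V := Metric.ball (0 : ℂ) (δ + 1) with hV
  have hq' : DifferentiableOn ℂ q V := fun z hz => (hth hz).1.differentiableAt.differentiableWithinAt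
  have hdq : DifferentiableOn ℂ (fun z => deriv q z / q z) V := by
    intro z hz
    have h1 := (hth hz).1.deriv.differentiableAt
    have h2 := (hth hz).1.differentiableAt
    exact (h1.div h2 (hth hz).2).differentiableWithinAt
  obtain ⟨L, hL0, hL⟩ := (DifferentiableOn.isExactOn_ball hdq).with_val_at 0 (Complex.log (q 0))
  have h0V : (0 : ℂ) ∈ V := by simp [hV]; linarith
  have hconst : ∀ z ∈ V, q z * Complex.exp (-L z) = 1 := by
    intro z hz
    have hder : ∀ w ∈ V, HasDerivAt (fun z => q z * Complex.exp (-L z)) 0 w := by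
      intro w hw
      have e1 := (hth hw).1.differentiableAt.hasDerivAt
      have e2 : HasDerivAt (fun x => Complex.exp (-L x))
          (Complex.exp (-L w) * -(deriv q w / q w)) w := (hL w hw).neg.cexp
      have hx : q w * (deriv q w / q w) = deriv q w := by
        have := (hth hw).2
        field_simp
      refine (e1.mul e2).congr_deriv ?_
      linear_combination (-Complex.exp (-L w)) * hx
    have hc := Metric.isOpen_ball.is_const_of_deriv_eq_zero (convex_ball (0 : ℂ) (δ + 1)).isPreconnected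
      (fun w hw => (hder w hw).differentiableAt.differentiableWithinAt)
      (fun w hw => (hder w hw).deriv) hz h0V
    rw [hc, hL0, Complex.exp_neg, Complex.exp_log (h0 0 (by simp))]
    exact mul_inv_cancel₀ (h0 0 (by simp))
  refine ⟨fun z => Complex.exp (L z / 2), ?_, ?_⟩
  · intro z hz
    have hzV : z ∈ V := by
      have : ‖z‖ ≤ 1 := by simpa using hz
      simp [hV]; linarith
    have hLd : DifferentiableOn ℂ (fun z => Complex.exp (L z / 2)) V := fun w hw =>
      ((hL w hw).differentiableAt.div_const 2).cexp.differentiableWithinAt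
    exact hLd.analyticAt (Metric.isOpen_ball.mem_nhds hzV)
  · intro z hz
    have hzV : z ∈ V := by
      simp [hV]; linarith
    have h1 := hconst z hzV
    rw [← Complex.exp_add, add_halves]
    rw [Complex.exp_neg] at h1
    have := Complex.exp_ne_zero (L z)
    field_simp at h1
    exact h1

theorem dcc {f : ℂ → ℂ} (hf : AnalyticOnNhd ℂ f (Metric.closedBall 0 1)) :
    DiffContOnCl ℂ f (Metric.ball 0 1) := by
  refine ⟨fun z hz => (hf z (Metric.ball_subset_closedBall hz)).differentiableAt.differentiableWithinAt, ?_⟩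
  rw [closure_ball (0 : ℂ) one_ne_zero]
  exact hf.continuousOn

end R1

open R1 in
theorem tR1 : S_R1 := by
  intro G R hR hG hz
  have hGa : AnalyticOnNhd ℂ G (Metric.closedBall 0 1) := by
    intro z hzb
    refine hG.analyticAt (Metric.isOpen_ball.mem_nhds ?_)
    have : ‖z‖ ≤ 1 := by simpa using hzb
    simp; linarith
  obtain ⟨B, q, hB, hq, hq0, hBn, hBq⟩ := R1.main _ G hGa hz rfl
  obtain ⟨h, hh, hhq⟩ := sqrt_ex hq hq0
  have hP : AnalyticOnNhd ℂ (fun z => B z * h z) (Metric.closedBall 0 1) :=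
    fun z hzb => (hB z hzb).mul (hh z hzb)
  refine ⟨fun z => B z * h z, h, dcc hP, dcc hh, ?_, ?_⟩
  · intro z hzn
    rw [hBq z hzn, hhq z hzn]; ring
  · intro z hzn
    rw [norm_mul, hBn z hzn, one_mul]

end Pool.Agent.H352R5.HL
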