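import Pool.Agent.H352R5.HL.Stubs

namespace Pool.Agent.H352R5.HL

open MeasureTheory Set Filter Topology
open scoped ENNReal NNReal Real

theorem tR2 : S_R2 := by
  intro F hF hne
  have hA : AnalyticOnNhd ℂ F (Metric.ball 0 1) := hF.analyticOnNhd Metric.isOpen_ball
  have hpre : IsPreconnected (Metric.ball (0:ℂ) 1) := (convex_ball 0 1).isPreconnected
  -- the zeros are countable
  have hZ : ({z | F z = 0} ∩ Metric.ball (0:ℂ) 1).Countable := by
    have hev : ∀ᶠ x in codiscreteWithin (Metric.ball (0:ℂ) 1), F x ≠ 0 := by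
      rcases hA.eqOn_zero_or_eventually_ne_zero_of_preconnected hpre with h | h
      · obtain ⟨z, hz, hFz⟩ := hne
        exact absurd (h (by simpa using hz)) hFz
      · exact h
    apply (HereditarilyLindelofSpace.isLindelof _).countable_of_isDiscrete
    apply isDiscrete_of_codiscreteWithin
    have : {z | F z = 0}ᶜ = {x | F x ≠ 0} := by
      ext; simp
    rw [this]
    exact hev
  have hN : ((fun z : ℂ => ‖z‖) '' ({z | F z = 0} ∩ Metric.ball (0:ℂ) 1)).Countable :=
    hZ.image _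
  have key : ∀ n : ℕ, ∃ ρ : ℝ, ρ ∈ Ioo (1 - 1 / ((n : ℝ) + 2)) 1 ∧
      ρ ∉ ((fun z : ℂ => ‖z‖) '' ({z | F z = 0} ∩ Metric.ball (0:ℂ) 1)) := by
    intro n
    by_contra hc
    push Not at hc
    have h1 : (Ioo (1 - 1 / ((n : ℝ) + 2)) 1).Countable := hN.mono hc
    rw [Cardinal.Real.Ioo_countable_iff] at h1
    have : 0 < 1 / ((n : ℝ) + 2) := by positivity
    linarith
  choose ρ hρ hρ' using key
  refine ⟨ρ, ?_, ?_, ?_⟩
  · intro n
    refine ⟨?_, (hρ n).2⟩
    have h1 := (hρ n).1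
    have h2 : 1 / ((n : ℝ) + 2) ≤ 1 / 2 :=
      one_div_le_one_div_of_le (by norm_num) (by linarith [Nat.cast_nonneg (α := ℝ) n])
    linarith
  · have hlim : Tendsto (fun n : ℕ => 1 - 1 / ((n : ℝ) + 2)) atTop (𝓝 1) := by
      have h1 : Tendsto (fun n : ℕ => 1 / ((n : ℝ) + 2)) atTop (𝓝 0) := by
        have h2 : Tendsto (fun n : ℕ => (n : ℝ) + 2) atTop atTop :=
          tendsto_atTop_add_const_right _ _ tendsto_natCast_atTop_atTop
        have h3 := h2.inv_tendsto_atTop
        refine h3.congr (fun n => ?_)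
        simp
      simpa using h1.const_sub 1
    exact tendsto_of_tendsto_of_tendsto_of_le_of_le hlim tendsto_const_nhds
      (fun n => (hρ n).1.le) (fun n => (hρ n).2.le)
  · intro n z hz hFz
    apply hρ' n
    refine ⟨z, ⟨hFz, ?_⟩, hz⟩
    rw [mem_ball_zero_iff, hz]
    exact (hρ n).2

end Pool.Agent.H352R5.HL
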