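import Pool.Agent.H352R5.HL.Stubs

/-!
# R3: Taylor coefficients and the L² mean
-/

namespace Pool.Agent.H352R5.HL

open MeasureTheory Set Filter Topology
open scoped ENNReal NNReal Real

namespace R3

/-- exponentials -/
noncomputable def ee (n : ℕ) (t : ℝ) : ℂ := Complex.exp (Complex.I * n * t)

theorem ee_cont (n : ℕ) : Continuous (ee n) := by
  unfold ee
  fun_prop

theorem norm_ee (n : ℕ) (t : ℝ) : ‖ee n t‖ = 1 := by
  unfold ee
  rw [Complex.norm_exp]
  simp

theorem orth {n N : ℕ} (h : n ≠ N) :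
    ∫ t in (0 : ℝ)..(2 * π), (starRingEnd ℂ) (ee N t) * ee n t = 0 := by
  have hc : Complex.I * ((n : ℂ) - N) ≠ 0 := by
    refine mul_ne_zero Complex.I_ne_zero ?_
    rw [sub_ne_zero]
    exact_mod_cast h
  have h1 : ∀ t : ℝ, (starRingEnd ℂ) (ee N t) * ee n t =
      Complex.exp (Complex.I * ((n : ℂ) - N) * t) := by
    intro t
    unfold ee
    rw [← Complex.exp_conj, ← Complex.exp_add]
    congr 1
    simp only [map_mul, Complex.conj_I, Complex.conj_natCast, Complex.conj_ofReal]
    ring
  simp_rw [h1]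
  rw [integral_exp_mul_complex hc]
  have h2 : Complex.exp (Complex.I * ((n : ℂ) - N) * ((2 * π : ℝ) : ℂ)) = 1 := by
    have h3 : Complex.I * ((n : ℂ) - N) * ((2 * π : ℝ) : ℂ) =
        (((n : ℤ) - (N : ℤ) : ℤ) : ℂ) * (2 * π * Complex.I) := by
      push_cast
      ring
    rw [h3]
    exact Complex.exp_int_mul_two_pi_mul_I _
  rw [h2]
  simp

/-- the Fourier sums -/
noncomputable def SS (p : ℕ → ℂ) (N : ℕ) (t : ℝ) : ℂ := ∑ n ∈ Finset.range N, p n * ee n t

theorem SS_cont (p : ℕ → ℂ) (N : ℕ) : Continuous (SS p N) := by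
  unfold SS
  exact continuous_finsetSum _ fun n _ => continuous_const.mul (ee_cont n)

theorem inner_SS (p : ℕ → ℂ) (N : ℕ) :
    ∫ t in (0 : ℝ)..(2 * π), (starRingEnd ℂ) (ee N t) * SS p N t = 0 := by
  unfold SS
  simp_rw [Finset.mul_sum]
  rw [intervalIntegral.integral_finsetSum]
  · apply Finset.sum_eq_zero
    intro n hn
    have h1 : ∀ t : ℝ, (starRingEnd ℂ) (ee N t) * (p n * ee n t) =
        p n * ((starRingEnd ℂ) (ee N t) * ee n t) := by
      intro t
      ring
    simp_rw [h1]
    rw [intervalIntegral.integral_const_mul, orth (by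
      have := Finset.mem_range.1 hn
      omega), mul_zero]
  · intro n _
    apply Continuous.intervalIntegrable
    have h1 := ee_cont n
    have h2 := ee_cont N
    exact (Complex.continuous_conj.comp h2).mul (continuous_const.mul h1)

theorem sq_sub (w z : ℂ) : ‖w - z‖ ^ 2 = ‖w‖ ^ 2 - 2 * ((starRingEnd ℂ) z * w).re + ‖z‖ ^ 2 := by
  rw [Complex.sq_norm, Complex.sq_norm, Complex.sq_norm, Complex.normSq_apply,
    Complex.normSq_apply, Complex.normSq_apply]
  simp only [Complex.sub_re, Complex.sub_im, Complex.mul_re, Complex.conj_re, Complex.conj_im]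
  ring

theorem bessel (g : ℝ → ℂ) (hg : Continuous g) (p : ℕ → ℂ)
    (hp : ∀ n, ∫ t in (0 : ℝ)..(2 * π), (starRingEnd ℂ) (ee n t) * g t = 2 * π * p n) (N : ℕ) :
    ∫ t in (0 : ℝ)..(2 * π), ‖g t - SS p N t‖ ^ 2 =
      (∫ t in (0 : ℝ)..(2 * π), ‖g t‖ ^ 2) - 2 * π * ∑ n ∈ Finset.range N, ‖p n‖ ^ 2 := by
  induction N with
  | zero => simp [SS]
  | succ N ih =>
    have c1 := ee_cont N
    have c2 := SS_cont p N
    have h1 : ∀ t : ℝ, ‖g t - SS p (N + 1) t‖ ^ 2 = ‖g t - SS p N t‖ ^ 2 -
        2 * ((starRingEnd ℂ) (p N) * ((starRingEnd ℂ) (ee N t) * g t -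
          (starRingEnd ℂ) (ee N t) * SS p N t)).re + ‖p N‖ ^ 2 := by
      intro t
      have h2 : g t - SS p (N + 1) t = (g t - SS p N t) - p N * ee N t := by
        unfold SS
        rw [Finset.sum_range_succ]
        ring
      rw [h2, sq_sub, norm_mul, norm_ee, mul_one]
      congr 3
      rw [map_mul]
      congr 1
      ring
    have hint1 : IntervalIntegrable (fun t => ‖g t - SS p N t‖ ^ 2) volume 0 (2 * π) := by
      apply Continuous.intervalIntegrable
      exact ((hg.sub c2).norm).pow 2
    have cc : Continuous (fun t => (starRingEnd ℂ) (p N) * ((starRingEnd ℂ) (ee N t) * g t -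
          (starRingEnd ℂ) (ee N t) * SS p N t)) := by
      have c3 : Continuous (fun t => (starRingEnd ℂ) (ee N t)) := Complex.continuous_conj.comp c1
      exact continuous_const.mul ((c3.mul hg).sub (c3.mul c2))
    have hint2 : IntervalIntegrable (fun t => 2 * ((starRingEnd ℂ) (p N) *
        ((starRingEnd ℂ) (ee N t) * g t - (starRingEnd ℂ) (ee N t) * SS p N t)).re)
          volume 0 (2 * π) := by
      apply Continuous.intervalIntegrable
      exact continuous_const.mul (Complex.continuous_re.comp cc)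
    simp_rw [h1]
    rw [intervalIntegral.integral_add (hint1.sub hint2) (by simp),
      intervalIntegral.integral_sub hint1 hint2, ih]
    have h3 : ∫ t in (0 : ℝ)..(2 * π), 2 * ((starRingEnd ℂ) (p N) *
        ((starRingEnd ℂ) (ee N t) * g t - (starRingEnd ℂ) (ee N t) * SS p N t)).re =
        2 * (2 * π * ‖p N‖ ^ 2) := by
      rw [intervalIntegral.integral_const_mul]
      congr 1
      have h4 : ∫ t in (0 : ℝ)..(2 * π), ((starRingEnd ℂ) (p N) *
          ((starRingEnd ℂ) (ee N t) * g t - (starRingEnd ℂ) (ee N t) * SS p N t)).re =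
          (∫ t in (0 : ℝ)..(2 * π), (starRingEnd ℂ) (p N) *
          ((starRingEnd ℂ) (ee N t) * g t - (starRingEnd ℂ) (ee N t) * SS p N t)).re := by
        exact Complex.reCLM.intervalIntegral_comp_comm (cc.intervalIntegrable _ _)
      rw [h4, intervalIntegral.integral_const_mul]
      have c3 : Continuous (fun t => (starRingEnd ℂ) (ee N t)) := Complex.continuous_conj.comp c1
      have i1 : IntervalIntegrable (fun t => (starRingEnd ℂ) (ee N t) * g t) volume 0 (2 * π) :=
        (c3.mul hg).intervalIntegrable _ _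
      have i2 : IntervalIntegrable (fun t => (starRingEnd ℂ) (ee N t) * SS p N t) volume 0
        (2 * π) := (c3.mul c2).intervalIntegrable _ _
      rw [intervalIntegral.integral_sub i1 i2, hp N, inner_SS, sub_zero]
      have h5 : (starRingEnd ℂ) (p N) * (2 * (π : ℂ) * p N) = ((2 * π * ‖p N‖ ^ 2 : ℝ) : ℂ) := by
        have h6 : (starRingEnd ℂ) (p N) * p N = ((‖p N‖ ^ 2 : ℝ) : ℂ) := by
          rw [mul_comm, Complex.mul_conj, Complex.sq_norm]
        calc (starRingEnd ℂ) (p N) * (2 * (π : ℂ) * p N) =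
            2 * (π : ℂ) * ((starRingEnd ℂ) (p N) * p N) := by ring
          _ = _ := by rw [h6]; push_cast; ring
      rw [h5, Complex.ofReal_re]
    rw [h3, Finset.sum_range_succ, intervalIntegral.integral_const]
    simp only [sub_zero, smul_eq_mul]
    ring

end R3

open R3 in
theorem tR3 : S_R3 := by
  intro P hP
  have hP1 : DiffContOnCl ℂ P (Metric.ball 0 ((1 : ℝ≥0) : ℝ)) := by simpa using hP
  have hs := hP1.hasFPowerSeriesOnBall (by norm_num : (0 : ℝ≥0) < 1)
  set q := cauchyPowerSeries P 0 ((1 : ℝ≥0) : ℝ) with hq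
  refine ⟨fun n => q.coeff n, ?_, ?_⟩
  · intro z hz
    have h1 := hs.hasSum (y := z) (by
      rw [Metric.mem_eball, edist_zero_right]
      rw [← enorm_norm, enorm_eq_nnnorm]
      have : ‖(‖z‖ : ℝ)‖₊ < 1 := by
        rw [← NNReal.coe_lt_coe]
        simpa using hz
      exact_mod_cast this)
    rw [zero_add] at h1
    have h2 : (fun n => (q n) fun _ => z) = fun n => q.coeff n * z ^ n := by
      funext n
      rw [FormalMultilinearSeries.apply_eq_pow_smul_coeff, smul_eq_mul, mul_comm]
    rw [h2] at h1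
    exact h1
  · intro N
    have hcirc : Continuous (circ 1) := by
      unfold circ
      fun_prop
    have hg : Continuous (fun t => P (circ 1 t)) := by
      refine hP.continuousOn.comp_continuous hcirc ?_
      intro t
      rw [closure_ball (0 : ℂ) one_ne_zero, Metric.mem_closedBall, dist_zero_right]
      unfold circ
      rw [norm_mul, Complex.norm_exp]
      simp
    have hp : ∀ n, ∫ t in (0 : ℝ)..(2 * π), (starRingEnd ℂ) (ee n t) * P (circ 1 t) =
        2 * π * q.coeff n := by
      intro n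
      have h1 : q.coeff n = (2 * (π : ℂ) * Complex.I)⁻¹ •
          ∮ z in C(0, ((1 : ℝ≥0) : ℝ)), (1 / (z - 0)) ^ n • (z - 0)⁻¹ • P z := by
        rw [← cauchyPowerSeries_apply]
        rfl
      rw [h1, circleIntegral]
      have h2 : ∀ t : ℝ, deriv (circleMap 0 ((1 : ℝ≥0) : ℝ)) t •
          ((1 / (circleMap 0 ((1 : ℝ≥0) : ℝ) t - 0)) ^ n •
            (circleMap 0 ((1 : ℝ≥0) : ℝ) t - 0)⁻¹ • P (circleMap 0 ((1 : ℝ≥0) : ℝ) t)) =
          Complex.I * ((starRingEnd ℂ) (ee n t) * P (circ 1 t)) := by
        intro t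
        have e1 : circleMap 0 ((1 : ℝ≥0) : ℝ) t = circ 1 t := by
          unfold circleMap circ
          simp [mul_comm]
        have e2 : circ 1 t ≠ 0 := by
          unfold circ
          simp [Complex.exp_ne_zero]
        have e3 : (starRingEnd ℂ) (ee n t) = (1 / circ 1 t) ^ n := by
          unfold ee circ
          rw [← Complex.exp_conj]
          simp only [map_mul, Complex.conj_I, Complex.conj_natCast, Complex.conj_ofReal,
            Complex.ofReal_one, one_mul, one_div, ← Complex.exp_neg, ← Complex.exp_nat_mul]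
          congr 1
          ring
        rw [deriv_circleMap, e1, sub_zero, e3]
        simp only [smul_eq_mul]
        field_simp
      simp_rw [h2]
      rw [intervalIntegral.integral_const_mul, smul_eq_mul]
      have hpi : (π : ℂ) ≠ 0 := by exact_mod_cast Real.pi_ne_zero
      have hI : Complex.I ≠ 0 := Complex.I_ne_zero
      field_simp
    have hb := bessel _ hg (fun n => q.coeff n) hp N
    have hnn : 0 ≤ ∫ t in (0 : ℝ)..(2 * π), ‖P (circ 1 t) - SS (fun n => q.coeff n) N t‖ ^ 2 := by
      apply intervalIntegral.integral_nonneg (by positivity)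
      intro t _
      positivity
    rw [hb] at hnn
    have h3 : ∫ t, ‖P (circ 1 t)‖ ^ 2 ∂μT = ∫ t in (0 : ℝ)..(2 * π), ‖P (circ 1 t)‖ ^ 2 := by
      unfold μT
      rw [intervalIntegral.integral_of_le (by positivity)]
    rw [h3]
    have hpi : 0 < 2 * π := by positivity
    rw [one_div, inv_mul_eq_div, le_div_iff₀ hpi]
    linarith

end Pool.Agent.H352R5.HL
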