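import Pool.Agent.H352R5.HL.Stubs

/-! R4: diagonal extraction in `ℓ²` (helper368). -/

namespace Pool.Agent.H352R5.HL

open MeasureTheory Set Filter Topology
open scoped ENNReal NNReal Real

theorem tR4 : S_R4 := by
  intro a M ha
  have hb : ∀ k n, ‖a k n‖ ^ 2 ≤ M := by
    intro k n
    refine le_trans ?_ (ha k (n + 1))
    exact Finset.single_le_sum (f := fun n => ‖a k n‖ ^ 2) (fun i _ => by positivity)
      (Finset.mem_range.2 (Nat.lt_succ_self n))
  have hK : IsCompact (Set.pi Set.univ (fun _ : ℕ => Metric.closedBall (0 : ℂ) (Real.sqrt M))) :=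
    isCompact_univ_pi fun _ => isCompact_closedBall _ _
  have hmem : ∀ k, a k ∈ Set.pi Set.univ (fun _ : ℕ => Metric.closedBall (0 : ℂ) (Real.sqrt M)) := by
    intro k n _
    rw [mem_closedBall_zero_iff]
    exact Real.le_sqrt_of_sq_le (hb k n)
  obtain ⟨b, -, φ, hφ, hlim⟩ := hK.tendsto_subseq hmem
  have hpt : ∀ n, Tendsto (fun k => a (φ k) n) atTop (𝓝 (b n)) := by
    intro n
    exact (tendsto_pi_nhds.1 hlim) n
  refine ⟨b, φ, hφ, hpt, ?_⟩
  intro N
  have h1 : Tendsto (fun k => ∑ n ∈ Finset.range N, ‖a (φ k) n‖ ^ 2) atTop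
      (𝓝 (∑ n ∈ Finset.range N, ‖b n‖ ^ 2)) :=
    tendsto_finsetSum _ fun n _ => ((hpt n).norm.pow 2)
  exact le_of_tendsto h1 (Eventually.of_forall fun k => ha (φ k) N)

end Pool.Agent.H352R5.HL
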