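import Pool.Agent.H352R5.HL.Stubs

/-!
# Square summable coefficients: the boundary function
-/

namespace Pool.Agent.H352R5.HL

open MeasureTheory Set Filter Topology
open scoped ENNReal NNReal Real

namespace R6

/-- `e^{int}` -/
noncomputable def ef (n : ℕ) (t : ℝ) : ℂ := Complex.exp (Complex.I * t) ^ n

theorem ef_cont (n : ℕ) : Continuous (ef n) := by
  unfold ef
  fun_prop

theorem ef_norm (n : ℕ) (t : ℝ) : ‖ef n t‖ = 1 := by
  unfold ef
  rw [norm_pow, mul_comm, Complex.norm_exp_ofReal_mul_I, one_pow]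

theorem ef_memLp (n : ℕ) : MemLp (ef n) 2 μT :=
  MemLp.of_bound (ef_cont n).aestronglyMeasurable 1
    (Eventually.of_forall fun t => (ef_norm n t).le)

noncomputable def EL (n : ℕ) : Lp ℂ 2 μT := (ef_memLp n).toLp (ef n)

theorem inner_EL (m n : ℕ) : inner ℂ (EL m) (EL n) = if m = n then ((2 * π : ℝ) : ℂ) else 0 := by
  rw [L2.inner_def]
  have h1 : ∀ᵐ t ∂μT, inner ℂ (EL m t) (EL n t) = ef n t * starRingEnd ℂ (ef m t) := by
    filter_upwards [(ef_memLp m).coeFn_toLp, (ef_memLp n).coeFn_toLp] with t h1 h2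
    unfold EL
    rw [h1, h2]
    rfl
  rw [integral_congr_ae h1]
  split_ifs with h
  · subst h
    have h2 : ∀ t, ef m t * starRingEnd ℂ (ef m t) = 1 := by
      intro t
      rw [Complex.mul_conj, Complex.normSq_eq_norm_sq, ef_norm]
      norm_num
    simp only [h2]
    rw [integral_const, measureReal_def, μT_univ, ENNReal.toReal_ofReal (by positivity)]
    simp
  · have h2 : ∀ t : ℝ, ef n t * starRingEnd ℂ (ef m t) =
        Complex.exp (((((n : ℤ) - (m : ℤ) : ℤ) : ℂ) * Complex.I) * (t : ℂ)) := by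
      intro t
      unfold ef
      rw [map_pow, ← Complex.exp_conj, ← Complex.exp_nat_mul, ← Complex.exp_nat_mul,
        ← Complex.exp_add]
      congr 1
      rw [map_mul, Complex.conj_I, Complex.conj_ofReal]
      push_cast
      ring
    simp only [h2]
    unfold μT
    rw [← intervalIntegral.integral_of_le (by positivity)]
    have hc : ((((n : ℤ) - (m : ℤ) : ℤ) : ℂ) * Complex.I) ≠ 0 := by
      apply mul_ne_zero _ Complex.I_ne_zero
      exact Int.cast_ne_zero.2 (by omega)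
    rw [integral_exp_mul_complex hc]
    have e1 : ((((n : ℤ) - (m : ℤ) : ℤ) : ℂ) * Complex.I) * ((2 * π : ℝ) : ℂ) =
        (((n : ℤ) - (m : ℤ) : ℤ) : ℂ) * (2 * π * Complex.I) := by
      push_cast; ring
    rw [e1, Complex.exp_int_mul_two_pi_mul_I]
    simp

noncomputable def sq2 : ℝ := √(2 * π)

theorem sq2_pos : 0 < sq2 := Real.sqrt_pos.2 (by positivity)

theorem sq2_sq : sq2 * sq2 = 2 * π := Real.mul_self_sqrt (by positivity)

noncomputable def vv (n : ℕ) : Lp ℂ 2 μT := ((sq2⁻¹ : ℝ) : ℂ) • EL n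

theorem vv_orth : Orthonormal ℂ vv := by
  rw [orthonormal_iff_ite]
  intro m n
  unfold vv
  rw [inner_smul_left, inner_smul_right, inner_EL, Complex.conj_ofReal]
  split_ifs with h
  · rw [← Complex.ofReal_mul, ← Complex.ofReal_mul, ← sq2_sq]
    have := sq2_pos.ne'
    have e : sq2⁻¹ * (sq2⁻¹ * (sq2 * sq2)) = 1 := by field_simp
    rw [e, Complex.ofReal_one]
  · simp

theorem summ {b : ℕ → ℂ} {M : ℝ} (hb : ∀ N : ℕ, ∑ n ∈ Finset.range N, ‖b n‖ ^ 2 ≤ M) :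
    Summable fun n => ‖b n‖ ^ 2 :=
  summable_of_sum_range_le (fun n => by positivity) hb

theorem xr_mem {b : ℕ → ℂ} (hs : Summable fun n => ‖b n‖ ^ 2) {r : ℝ} (h0 : 0 ≤ r)
    (h1 : r ≤ 1) : Memℓp (fun n : ℕ => (sq2 : ℂ) * b n * (r : ℂ) ^ n) 2 := by
  apply memℓp_gen
  have e : (2 : ℝ≥0∞).toReal = ((2 : ℕ) : ℝ) := by simp
  simp only [e, Real.rpow_natCast]
  apply Summable.of_nonneg_of_le (fun n => by positivity) (fun n => ?_) (hs.mul_left (sq2 ^ 2))
  rw [norm_mul, norm_mul, Complex.norm_real, Real.norm_eq_abs, abs_of_pos sq2_pos, norm_pow,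
    Complex.norm_real, Real.norm_eq_abs, abs_of_nonneg h0, mul_pow, mul_pow]
  have : (r ^ n) ^ 2 ≤ 1 := pow_le_one₀ (by positivity) (pow_le_one₀ h0 h1)
  have h2 : 0 ≤ sq2 ^ 2 * ‖b n‖ ^ 2 := by positivity
  nlinarith

theorem lint (f : ℝ → ℂ) : ∫⁻ t, ‖f t‖ₑ ^ 2 ∂μT = (eLpNorm f 2 μT) ^ 2 := by
  have h := eLpNorm_nnreal_pow_eq_lintegral (μ := μT) (f := f) (p := 2) (by norm_num)
  have e : ((2 : ℝ≥0) : ℝ) = ((2 : ℕ) : ℝ) := by norm_num
  simp only [e, ENNReal.rpow_natCast] at h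
  rw [← h]
  rfl

theorem main {b : ℕ → ℂ} (hs : Summable fun n => ‖b n‖ ^ 2) :
    ∃ g : ℝ → ℂ, Measurable g ∧ ∫⁻ t, ‖g t‖ₑ ^ 2 ∂μT ≠ ∞ ∧ ∀ r : ℝ, 0 ≤ r → r < 1 →
      ∫⁻ t, ‖(∑' n, b n * circ r t ^ n) - g t‖ₑ ^ 2 ∂μT ≤
        ENNReal.ofReal (∑' n, ‖(sq2 : ℂ) * b n * (r : ℂ) ^ n - (sq2 : ℂ) * b n‖ ^ 2) := by
  set T := vv_orth.orthogonalFamily.linearIsometry with hT
  let x1 : lp (fun _ : ℕ => ℂ) 2 := ⟨_, xr_mem hs zero_le_one le_rfl⟩
  refine ⟨⇑(T x1), (Lp.stronglyMeasurable _).measurable, ?_, fun r h0 h1 => ?_⟩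
  · rw [lint]
    exact ENNReal.pow_ne_top (Lp.eLpNorm_ne_top _)
  · let x : lp (fun _ : ℕ => ℂ) 2 := ⟨_, xr_mem hs h0 h1.le⟩
    have hsum : HasSum (fun i => (LinearIsometry.toSpanSingleton ℂ (Lp ℂ 2 μT) (vv_orth.1 i)) (x i))
        (T x) := vv_orth.orthogonalFamily.hasSum_linearIsometry x
    have hterm : ∀ i, (LinearIsometry.toSpanSingleton ℂ (Lp ℂ 2 μT) (vv_orth.1 i)) (x i) =
        (b i * (r : ℂ) ^ i) • EL i := by
      intro i
      rw [LinearIsometry.toSpanSingleton_apply]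
      show ((sq2 : ℂ) * b i * (r : ℂ) ^ i) • (((sq2⁻¹ : ℝ) : ℂ) • EL i) = _
      rw [smul_smul]
      congr 1
      have h2 : (sq2 : ℂ) ≠ 0 := by exact_mod_cast sq2_pos.ne'
      push_cast
      field_simp
    simp only [hterm] at hsum
    have hten := hsum.tendsto_sum_nat
    set S : ℕ → Lp ℂ 2 μT := fun N => ∑ i ∈ Finset.range N, (b i * (r : ℂ) ^ i) • EL i with hS
    -- the functions
    have hSfun : ∀ N, (S N : ℝ → ℂ) =ᵐ[μT] fun t => ∑ i ∈ Finset.range N, b i * circ r t ^ i := by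
      intro N
      have h2 : (S N : ℝ → ℂ) =ᵐ[μT] ∑ i ∈ Finset.range N, ⇑((b i * (r : ℂ) ^ i) • EL i) :=
        Lp.coeFn_finsetSum _ _
      have h3 : ∀ i, (⇑((b i * (r : ℂ) ^ i) • EL i) : ℝ → ℂ) =ᵐ[μT] fun t => b i * circ r t ^ i := by
        intro i
        filter_upwards [Lp.coeFn_smul (b i * (r : ℂ) ^ i) (EL i), (ef_memLp i).coeFn_toLp] with t h4 h5
        rw [h4, Pi.smul_apply]
        unfold EL
        rw [h5, smul_eq_mul]
        unfold circ ef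
        rw [mul_pow]
        ring
      filter_upwards [h2, ae_all_iff.2 h3] with t h4 h5
      rw [h4, Finset.sum_apply]
      exact Finset.sum_congr rfl fun i _ => h5 i
    have hpt : ∀ᵐ t ∂μT, Tendsto (fun N => (S N : ℝ → ℂ) t - (T x1 : ℝ → ℂ) t) atTop
        (𝓝 ((∑' n, b n * circ r t ^ n) - (T x1 : ℝ → ℂ) t)) := by
      filter_upwards [ae_all_iff.2 hSfun] with t ht
      apply Tendsto.sub_const
      simp only [ht]
      have hsm : Summable fun n => b n * circ r t ^ n := by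
        obtain ⟨C, hC⟩ : ∃ C : ℝ, ∀ n, ‖b n‖ ≤ C := by
          have h4 := hs.tendsto_atTop_zero
          obtain ⟨C, hC⟩ := h4.bddAbove_range
          refine ⟨1 + C, fun n => ?_⟩
          have h5 : ‖b n‖ ^ 2 ≤ C := hC ⟨n, rfl⟩
          nlinarith [norm_nonneg (b n), sq_nonneg (‖b n‖ - 1)]
        apply Summable.of_norm_bounded ((summable_geometric_of_lt_one h0 h1).mul_left C)
        intro n
        rw [norm_mul, norm_pow]
        have h6 : ‖circ r t‖ = r := by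
          unfold circ
          rw [norm_mul, mul_comm Complex.I, Complex.norm_exp_ofReal_mul_I, mul_one,
            Complex.norm_real, Real.norm_eq_abs, abs_of_nonneg h0]
        rw [h6]
        exact mul_le_mul_of_nonneg_right (hC n) (by positivity)
      exact hsm.hasSum.tendsto_sum_nat
    have hfatou := Lp.eLpNorm_lim_le_liminf_eLpNorm (p := 2) (μ := μT)
      (f := fun N t => (S N : ℝ → ℂ) t - (T x1 : ℝ → ℂ) t)
      (fun N => ((Lp.aestronglyMeasurable (S N)).sub (Lp.aestronglyMeasurable (T x1))))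
      _ hpt
    have hnorm : ∀ N, eLpNorm (fun t => (S N : ℝ → ℂ) t - (T x1 : ℝ → ℂ) t) 2 μT =
        ‖S N - T x1‖ₑ := by
      intro N
      rw [Lp.enorm_def]
      exact (eLpNorm_congr_ae (Lp.coeFn_sub (S N) (T x1))).symm
    simp only [hnorm] at hfatou
    have hlim : Tendsto (fun N => ‖S N - T x1‖ₑ) atTop (𝓝 ‖T x - T x1‖ₑ) :=
      (hten.sub_const (T x1)).enorm
    rw [hlim.liminf_eq, ← map_sub, T.enorm_map] at hfatou
    rw [lint]
    refine (pow_le_pow_left₀ zero_le hfatou 2).trans (le_of_eq ?_)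
    have hnsq : ‖x - x1‖ ^ 2 = ∑' n, ‖(x - x1) n‖ ^ 2 := by
      have h2 := lp.norm_rpow_eq_tsum (p := 2) (by norm_num) (x - x1)
      have e : (2 : ℝ≥0∞).toReal = ((2 : ℕ) : ℝ) := by simp
      simp only [e, Real.rpow_natCast] at h2
      exact h2
    rw [← ofReal_norm_eq_enorm, ← ENNReal.ofReal_pow (norm_nonneg _), hnsq]
    congr 1
    apply tsum_congr
    intro n
    show ‖(sq2 : ℂ) * b n * (r : ℂ) ^ n - (sq2 : ℂ) * b n * ((1 : ℝ) : ℂ) ^ n‖ ^ 2 = _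
    simp

end R6

open R6 in
theorem tR6 : S_R6 := by
  intro b M hb
  have hs := summ hb
  obtain ⟨g, hg, hgf, hgr⟩ := main hs
  refine ⟨g, hg, hgf, ?_⟩
  have hlim : Tendsto (fun r : ℝ => ∑' n, ‖(sq2 : ℂ) * b n * (r : ℂ) ^ n - (sq2 : ℂ) * b n‖ ^ 2)
      (𝓝[<] 1) (𝓝 (∑' _n : ℕ, (0 : ℝ))) := by
    apply tendsto_tsum_of_dominated_convergence (bound := fun n => sq2 ^ 2 * ‖b n‖ ^ 2)
      (hs.mul_left _)
    · intro n
      have h1 : Tendsto (fun r : ℝ => ‖(sq2 : ℂ) * b n * (r : ℂ) ^ n - (sq2 : ℂ) * b n‖ ^ 2)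
          (𝓝 1) (𝓝 (‖(sq2 : ℂ) * b n * ((1 : ℝ) : ℂ) ^ n - (sq2 : ℂ) * b n‖ ^ 2)) := by
        apply Continuous.tendsto
        fun_prop
      have e : ‖(sq2 : ℂ) * b n * ((1 : ℝ) : ℂ) ^ n - (sq2 : ℂ) * b n‖ ^ 2 = 0 := by simp
      rw [e] at h1
      exact h1.mono_left nhdsWithin_le_nhds
    · have h1 : ∀ᶠ r : ℝ in 𝓝[<] 1, 0 < r ∧ r < 1 := by
        have h2 : ∀ᶠ r : ℝ in 𝓝[<] 1, 0 < r :=
          mem_nhdsWithin_of_mem_nhds (Ioi_mem_nhds zero_lt_one)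
        have h3 : ∀ᶠ r : ℝ in 𝓝[<] 1, r < 1 := self_mem_nhdsWithin
        exact h2.and h3
      filter_upwards [h1] with r hr n
      rw [Real.norm_eq_abs, abs_of_nonneg (by positivity)]
      have e : (sq2 : ℂ) * b n * (r : ℂ) ^ n - (sq2 : ℂ) * b n =
          ((sq2 : ℝ) : ℂ) * b n * ((r ^ n - 1 : ℝ) : ℂ) := by push_cast; ring
      rw [e, norm_mul, norm_mul, Complex.norm_real, Complex.norm_real, Real.norm_eq_abs,
        abs_of_pos sq2_pos, Real.norm_eq_abs, mul_pow, mul_pow, sq_abs]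
      have h4 : 0 ≤ r ^ n := by have := hr.1; positivity
      have h5 : r ^ n ≤ 1 := pow_le_one₀ hr.1.le hr.2.le
      have h6 : (r ^ n - 1) ^ 2 ≤ 1 := by nlinarith
      have h7 : 0 ≤ sq2 ^ 2 * ‖b n‖ ^ 2 := by positivity
      nlinarith
  rw [tsum_zero] at hlim
  have hlim2 := (ENNReal.continuous_ofReal.tendsto 0).comp hlim
  rw [ENNReal.ofReal_zero] at hlim2
  apply tendsto_of_tendsto_of_tendsto_of_le_of_le' tendsto_const_nhds hlim2
  · exact Eventually.of_forall fun r => zero_le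
  · have h2 : ∀ᶠ r : ℝ in 𝓝[<] 1, 0 < r :=
      mem_nhdsWithin_of_mem_nhds (Ioi_mem_nhds zero_lt_one)
    have h3 : ∀ᶠ r : ℝ in 𝓝[<] 1, r < 1 := self_mem_nhdsWithin
    filter_upwards [h2, h3] with r hr0 hr1
    exact hgr r hr0.le hr1

end Pool.Agent.H352R5.HL
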