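import Pool.Agent.H352R5.HL.Stubs

namespace Pool.Agent.H352R5.HL

open MeasureTheory Set Filter Topology
open scoped ENNReal NNReal Real

theorem R7_norm_circ (r t : ℝ) : ‖circ r t‖ = |r| := by
  unfold circ
  rw [norm_mul, mul_comm Complex.I (t : ℂ), Complex.norm_exp_ofReal_mul_I, mul_one,
    Complex.norm_real, Real.norm_eq_abs]

theorem R7_meas {P : ℂ → ℂ} (hP : ContinuousOn P (Metric.ball 0 1)) {r : ℝ} (h0 : 0 < r)
    (h1 : r < 1) : Measurable (fun t => P (circ r t)) := by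
  apply Continuous.measurable
  apply hP.comp_continuous
  · unfold circ
    fun_prop
  · intro t
    rw [mem_ball_zero_iff, R7_norm_circ, abs_of_pos h0]
    exact h1

theorem R7_cs (f g : ℝ → ℂ) (hf : Measurable f) (hg : Measurable g) :
    ∫⁻ t, ‖f t‖ₑ * ‖g t‖ₑ ∂μT ≤
      (∫⁻ t, ‖f t‖ₑ ^ 2 ∂μT) ^ (1 / 2 : ℝ) * (∫⁻ t, ‖g t‖ₑ ^ 2 ∂μT) ^ (1 / 2 : ℝ) := by
  have h := ENNReal.lintegral_mul_le_Lp_mul_Lq μT (p := 2) (q := 2)
    (by constructor <;> norm_num) (f := fun t => ‖f t‖ₑ) (g := fun t => ‖g t‖ₑ)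
    hf.enorm.aemeasurable hg.enorm.aemeasurable
  simpa using h

theorem tR7 : S_R7 := by
  intro P H g h hP hH hg hh hg2 hh2 hPg hHh
  refine ⟨?_, ?_⟩
  · refine ⟨(hg.mul hh).aestronglyMeasurable, ?_⟩
    rw [hasFiniteIntegral_iff_enorm]
    refine lt_of_le_of_lt ?_ (ENNReal.mul_lt_top
      (ENNReal.rpow_lt_top_of_nonneg (by norm_num : (0 : ℝ) ≤ 1 / 2) hg2)
      (ENNReal.rpow_lt_top_of_nonneg (by norm_num : (0 : ℝ) ≤ 1 / 2) hh2))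
    refine le_trans (le_of_eq ?_) (R7_cs g h hg hh)
    apply lintegral_congr
    intro t
    rw [enorm_mul]
  · unfold Bdry
    have hlim : ∀ {A : ℝ → ℝ≥0∞}, Tendsto A (𝓝[<] 1) (𝓝 0) →
        Tendsto (fun r => A r ^ (1 / 2 : ℝ)) (𝓝[<] 1) (𝓝 0) := by
      intro A hA
      have := (ENNReal.continuous_rpow_const (y := (1 / 2 : ℝ))).tendsto 0 |>.comp hA
      simpa [Function.comp_def] using this
    have hA := hlim hPg
    have hB := hlim hHh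
    have hg3 : (∫⁻ t, ‖g t‖ₑ ^ 2 ∂μT) ^ (1 / 2 : ℝ) ≠ ∞ :=
      (ENNReal.rpow_lt_top_of_nonneg (by norm_num : (0 : ℝ) ≤ 1 / 2) hg2).ne
    have hh3 : (∫⁻ t, ‖h t‖ₑ ^ 2 ∂μT) ^ (1 / 2 : ℝ) ≠ ∞ :=
      (ENNReal.rpow_lt_top_of_nonneg (by norm_num : (0 : ℝ) ≤ 1 / 2) hh2).ne
    have hT : Tendsto (fun r : ℝ =>
        (∫⁻ t, ‖P (circ r t) - g t‖ₑ ^ 2 ∂μT) ^ (1 / 2 : ℝ) *
          (∫⁻ t, ‖H (circ r t) - h t‖ₑ ^ 2 ∂μT) ^ (1 / 2 : ℝ) +
        (∫⁻ t, ‖P (circ r t) - g t‖ₑ ^ 2 ∂μT) ^ (1 / 2 : ℝ) *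
          (∫⁻ t, ‖h t‖ₑ ^ 2 ∂μT) ^ (1 / 2 : ℝ) +
        (∫⁻ t, ‖g t‖ₑ ^ 2 ∂μT) ^ (1 / 2 : ℝ) *
          (∫⁻ t, ‖H (circ r t) - h t‖ₑ ^ 2 ∂μT) ^ (1 / 2 : ℝ)) (𝓝[<] 1) (𝓝 0) := by
      have t1 := ENNReal.Tendsto.mul hA (Or.inr ENNReal.zero_ne_top) hB
        (Or.inr ENNReal.zero_ne_top)
      have t2 := ENNReal.Tendsto.mul_const hA (b := (∫⁻ t, ‖h t‖ₑ ^ 2 ∂μT) ^ (1 / 2 : ℝ))
        (Or.inr hh3)
      have t3 := ENNReal.Tendsto.const_mul hB (a := (∫⁻ t, ‖g t‖ₑ ^ 2 ∂μT) ^ (1 / 2 : ℝ))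
        (Or.inr hg3)
      have := (t1.add t2).add t3
      simpa using this
    refine tendsto_of_tendsto_of_tendsto_of_le_of_le' tendsto_const_nhds hT
      (Eventually.of_forall fun r => zero_le) ?_
    have hev : ∀ᶠ r : ℝ in 𝓝[<] 1, r ∈ Ioo (0 : ℝ) 1 := Ioo_mem_nhdsLT (by norm_num)
    filter_upwards [hev] with r hr
    have m1 : Measurable (fun t => P (circ r t) - g t) := (R7_meas hP hr.1 hr.2).sub hg
    have m2 : Measurable (fun t => H (circ r t) - h t) := (R7_meas hH hr.1 hr.2).sub hh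
    calc ∫⁻ t, ‖P (circ r t) * H (circ r t) - g t * h t‖ₑ ∂μT
        ≤ ∫⁻ t, (‖P (circ r t) - g t‖ₑ * ‖H (circ r t) - h t‖ₑ +
            ‖P (circ r t) - g t‖ₑ * ‖h t‖ₑ + ‖g t‖ₑ * ‖H (circ r t) - h t‖ₑ) ∂μT := by
          apply lintegral_mono
          intro t
          have e : P (circ r t) * H (circ r t) - g t * h t =
              (P (circ r t) - g t) * (H (circ r t) - h t) + (P (circ r t) - g t) * h t +
                g t * (H (circ r t) - h t) := by ring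
          show ‖P (circ r t) * H (circ r t) - g t * h t‖ₑ ≤ _
          rw [e]
          refine (enorm_add_le _ _).trans ?_
          refine add_le_add ((enorm_add_le _ _).trans ?_) ?_
          · rw [enorm_mul, enorm_mul]
          · rw [enorm_mul]
      _ = ∫⁻ t, ‖P (circ r t) - g t‖ₑ * ‖H (circ r t) - h t‖ₑ ∂μT +
            ∫⁻ t, ‖P (circ r t) - g t‖ₑ * ‖h t‖ₑ ∂μT +
            ∫⁻ t, ‖g t‖ₑ * ‖H (circ r t) - h t‖ₑ ∂μT := by
          rw [lintegral_add_left, lintegral_add_left]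
          · exact m1.enorm.mul m2.enorm
          · exact (m1.enorm.mul m2.enorm).add (m1.enorm.mul hh.enorm)
      _ ≤ _ := add_le_add (add_le_add (R7_cs _ _ m1 m2) (R7_cs _ _ m1 hh)) (R7_cs _ _ hg m2)

end Pool.Agent.H352R5.HL
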