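import Pool.Agent.H352R5.HL.Stubs

/-! R8: boundary functions of analytic functions with bounded means (helper228). -/

namespace Pool.Agent.H352R5.HL

open MeasureTheory Set Filter Topology
open scoped ENNReal NNReal Real

namespace R8

theorem norm_circ {r : ℝ} (hr : 0 ≤ r) (t : ℝ) : ‖circ r t‖ = r := by
  unfold circ
  rw [norm_mul, mul_comm Complex.I, Complex.norm_exp_ofReal_mul_I, mul_one, Complex.norm_real,
    Real.norm_eq_abs, abs_of_nonneg hr]

theorem circ_mul (r t : ℝ) : (r : ℂ) * circ 1 t = circ r t := by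
  unfold circ
  push_cast
  ring

/-- continuity of a power series with bounded coefficients -/
theorem cont_ps {b : ℕ → ℂ} {B : ℝ} (hb : ∀ n, ‖b n‖ ≤ B) :
    ContinuousOn (fun z : ℂ => ∑' n, b n * z ^ n) (Metric.ball 0 1) := by
  have hB : 0 ≤ B := (norm_nonneg _).trans (hb 0)
  intro z hz
  rw [mem_ball_zero_iff] at hz
  obtain ⟨ρ, h1, h2⟩ := exists_between hz
  have hρ0 : 0 ≤ ρ := (norm_nonneg z).trans h1.le
  have hc : ContinuousOn (fun z : ℂ => ∑' n, b n * z ^ n) (Metric.ball 0 ρ) := by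
    apply continuousOn_tsum (u := fun n => B * ρ ^ n)
    · intro n
      fun_prop
    · exact (summable_geometric_of_lt_one hρ0 h2).mul_left B
    · intro n x hx
      rw [mem_ball_zero_iff] at hx
      rw [norm_mul, norm_pow]
      exact mul_le_mul (hb n) (pow_le_pow_left₀ (norm_nonneg _) hx.le n) (by positivity) hB
  exact (hc.continuousAt (Metric.isOpen_ball.mem_nhds (mem_ball_zero_iff.2 h1))).continuousWithinAt

theorem coef_le {b : ℕ → ℂ} {M : ℝ} (hM : ∀ N : ℕ, ∑ n ∈ Finset.range N, ‖b n‖ ^ 2 ≤ M) (n : ℕ) :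
    ‖b n‖ ≤ Real.sqrt M := by
  apply Real.le_sqrt_of_sq_le
  refine le_trans ?_ (hM (n + 1))
  exact Finset.single_le_sum (f := fun n => ‖b n‖ ^ 2) (fun i _ => sq_nonneg _)
    (Finset.mem_range.2 (Nat.lt_succ_self n))

end R8

open R8

theorem tR8 (h1 : S_R1) (h2 : S_R2) (h3 : S_R3) (h4 : S_R4) (h5 : S_R5) (h6 : S_R6) (h7 : S_R7) :
    S_R8 := by
  rintro F hF ⟨M, hM⟩
  by_cases hne : ∃ z : ℂ, ‖z‖ < 1 ∧ F z ≠ 0
  swap
  · push Not at hne
    refine ⟨fun _ => 0, measurable_const, integrable_zero _ _ _, ?_⟩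
    unfold Bdry
    refine tendsto_const_nhds.congr' ?_
    have hmem : Ioo (0 : ℝ) 1 ∈ 𝓝[<] (1 : ℝ) := Ioo_mem_nhdsLT one_pos
    filter_upwards [hmem] with r hr
    have : ∀ t, F (circ r t) = 0 := fun t => hne _ (by rw [norm_circ hr.1.le]; exact hr.2)
    simp [this]
  · obtain ⟨r, hr, hrt, hr0⟩ := h2 F hF hne
    -- the factorisations
    have hfac : ∀ n, ∃ P H : ℂ → ℂ, DiffContOnCl ℂ P (Metric.ball 0 1) ∧
        DiffContOnCl ℂ H (Metric.ball 0 1) ∧ (∀ z : ℂ, ‖z‖ ≤ 1 → F (r n * z) = P z * H z) ∧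
        ∀ z : ℂ, ‖z‖ = 1 → ‖P z‖ = ‖H z‖ := by
      intro n
      have hrn := hr n
      refine h1 (fun z => F (r n * z)) (1 / r n) ?_ ?_ ?_
      · rw [lt_div_iff₀ hrn.1]
        linarith [hrn.2]
      · refine hF.comp (by fun_prop) fun z hz => ?_
        rw [mem_ball_zero_iff] at hz ⊢
        rw [lt_div_iff₀ hrn.1] at hz
        rw [norm_mul, Complex.norm_real, Real.norm_eq_abs, abs_of_pos hrn.1, mul_comm]
        exact hz
      · intro z hz
        apply hr0 n
        rw [norm_mul, Complex.norm_real, Real.norm_eq_abs, abs_of_pos hrn.1, hz, mul_one]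
    choose P H hP hH hPH hnorm using hfac
    set M' : ℝ := (1 / (2 * π)) * max M 0 with hM'
    have hpi := Real.pi_pos
    -- the L² means
    have hmean : ∀ (Q : ℂ → ℂ), DiffContOnCl ℂ Q (Metric.ball 0 1) → ∀ n,
        (∀ z : ℂ, ‖z‖ = 1 → ‖Q z‖ ^ 2 = ‖F (r n * z)‖) →
        (1 / (2 * π)) * ∫ t, ‖Q (circ 1 t)‖ ^ 2 ∂μT ≤ M' := by
      intro Q _ n hQ
      have hrn := hr n
      have e1 : ∀ t, ‖Q (circ 1 t)‖ ^ 2 = ‖F (circ (r n) t)‖ := by
        intro t
        rw [hQ _ (norm_circ zero_le_one t), circ_mul]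
      simp only [e1]
      apply mul_le_mul_of_nonneg_left _ (by positivity)
      have hle := hM (r n) hrn
      have hcont : Continuous fun t => F (circ (r n) t) := by
        have hcirc : Continuous fun t => circ (r n) t := by
          unfold circ
          fun_prop
        exact (hF.continuousOn.comp_continuous hcirc fun t => by
          rw [mem_ball_zero_iff, norm_circ hrn.1.le]; exact hrn.2)
      rw [integral_norm_eq_lintegral_enorm hcont.aestronglyMeasurable]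
      calc (∫⁻ t, ‖F (circ (r n) t)‖ₑ ∂μT).toReal ≤ (ENNReal.ofReal M).toReal :=
            ENNReal.toReal_mono ENNReal.ofReal_ne_top hle
        _ = max M 0 := ENNReal.toReal_ofReal'
    have hPm : ∀ n, (1 / (2 * π)) * ∫ t, ‖P n (circ 1 t)‖ ^ 2 ∂μT ≤ M' := fun n =>
      hmean (P n) (hP n) n fun z hz => by
        rw [hPH n z hz.le, norm_mul, ← hnorm n z hz, sq]
    have hHm : ∀ n, (1 / (2 * π)) * ∫ t, ‖H n (circ 1 t)‖ ^ 2 ∂μT ≤ M' := fun n =>
      hmean (H n) (hH n) n fun z hz => by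
        rw [hPH n z hz.le, norm_mul, hnorm n z hz, sq]
    choose p hps hpb using fun n => h3 (P n) (hP n)
    choose q hqs hqb using fun n => h3 (H n) (hH n)
    have hpM : ∀ k N : ℕ, ∑ n ∈ Finset.range N, ‖p k n‖ ^ 2 ≤ M' := fun k N =>
      (hpb k N).trans (hPm k)
    have hqM : ∀ k N : ℕ, ∑ n ∈ Finset.range N, ‖q k n‖ ^ 2 ≤ M' := fun k N =>
      (hqb k N).trans (hHm k)
    obtain ⟨b, φ, hφ, hb, hbM⟩ := h4 p M' hpM
    obtain ⟨c, ψ, hψ, hc, hcM⟩ := h4 (fun k => q (φ k)) M' (fun k N => hqM (φ k) N)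
    have hlimP : ∀ z : ℂ, ‖z‖ < 1 → Tendsto (fun k => P (φ (ψ k)) z) atTop
        (𝓝 (∑' n, b n * z ^ n)) := by
      intro z hz
      have := h5 (fun k => p (φ (ψ k))) b M' (fun k N => hpM _ N)
        (fun n => (hb n).comp hψ.tendsto_atTop) z hz
      refine this.congr fun k => ?_
      exact (hps (φ (ψ k)) z hz).tsum_eq
    have hlimH : ∀ z : ℂ, ‖z‖ < 1 → Tendsto (fun k => H (φ (ψ k)) z) atTop
        (𝓝 (∑' n, c n * z ^ n)) := by
      intro z hz
      have := h5 (fun k => q (φ (ψ k))) c M' (fun k N => hqM _ N) hc z hz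
      refine this.congr fun k => ?_
      exact (hqs (φ (ψ k)) z hz).tsum_eq
    have hFPH : ∀ z : ℂ, ‖z‖ < 1 → F z = (∑' n, b n * z ^ n) * ∑' n, c n * z ^ n := by
      intro z hz
      have ht1 : Tendsto (fun k => F (r (φ (ψ k)) * z)) atTop (𝓝 (F z)) := by
        have hrt2 : Tendsto (fun k => ((r (φ (ψ k)) : ℝ) : ℂ) * z) atTop (𝓝 z) := by
          have h8 : Tendsto (fun k => ((r (φ (ψ k)) : ℝ) : ℂ)) atTop (𝓝 ((1 : ℝ) : ℂ)) :=
            (Complex.continuous_ofReal.tendsto 1).comp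
              (hrt.comp (hφ.tendsto_atTop.comp hψ.tendsto_atTop))
          have h9 := h8.mul_const z
          rwa [Complex.ofReal_one, one_mul] at h9
        have hcF : ContinuousAt F z := (hF.continuousOn).continuousAt
          (Metric.isOpen_ball.mem_nhds (mem_ball_zero_iff.2 hz))
        exact hcF.tendsto.comp hrt2
      have ht2 : Tendsto (fun k => F (r (φ (ψ k)) * z)) atTop
          (𝓝 ((∑' n, b n * z ^ n) * ∑' n, c n * z ^ n)) := by
        refine ((hlimP z hz).mul (hlimH z hz)).congr fun k => ?_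
        exact (hPH (φ (ψ k)) z hz.le).symm
      exact tendsto_nhds_unique ht1 ht2
    obtain ⟨g, hgm, hg2, hgt⟩ := h6 b M' hbM
    obtain ⟨h, hhm, hh2, hht⟩ := h6 c M' hcM
    obtain ⟨hint, hbd⟩ := h7 (fun z => ∑' n, b n * z ^ n) (fun z => ∑' n, c n * z ^ n) g h
      (cont_ps (coef_le hbM)) (cont_ps (coef_le hcM)) hgm hhm hg2 hh2 hgt hht
    refine ⟨fun t => g t * h t, hgm.mul hhm, hint, ?_⟩
    unfold Bdry at hbd ⊢
    refine hbd.congr' ?_
    have hmem : Ioo (0 : ℝ) 1 ∈ 𝓝[<] (1 : ℝ) := Ioo_mem_nhdsLT one_pos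
    filter_upwards [hmem] with ρ hρ
    refine lintegral_congr fun t => ?_
    rw [hFPH _ (by rw [norm_circ hρ.1.le]; exact hρ.2)]

end Pool.Agent.H352R5.HL
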