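import Pool.Agent.H352R5.HL.Stubs2

/-!
# SCG: `v` is a Lipschitz function of `u`
-/

namespace Pool.Agent.H352R5.HL

open MeasureTheory Set Filter Topology
open scoped ENNReal NNReal Real

namespace SCG

theorem pair {μ : Measure ℝ} {A B A' B' : Set ℝ} {P : ℝ → ℝ → Prop}
    (h : ∀ᵐ t ∂μ, t ∈ A → ∀ᵐ t' ∂μ, t' ∈ B → P t t') (hA : A' ⊆ A) (hB : B' ⊆ B)
    (h1 : μ A' ≠ 0) (h2 : μ B' ≠ 0) : ∃ t ∈ A', ∃ t' ∈ B', P t t' := by
  obtain ⟨t, ht1, ht2⟩ := ((frequently_ae_mem_iff.mpr h1).and_eventually h).exists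
  obtain ⟨t', ht1', ht2'⟩ := ((frequently_ae_mem_iff.mpr h2).and_eventually (ht2 (hA ht1))).exists
  exact ⟨t, ht1, t', ht1', ht2' (hB ht1')⟩

/-- swapping the quantifiers -/
theorem swap {μ : Measure ℝ} [SFinite μ] {F G : Set ℝ} (hF : MeasurableSet F)
    (hG : MeasurableSet G) {u v : ℝ → ℝ} (hu : Measurable u) (hv : Measurable v) (C : ℝ)
    (h : ∀ᵐ t ∂μ, t ∈ F → ∀ᵐ t' ∂μ, t' ∈ G → u t' ≤ u t ∧ |v t - v t'| ≤ C * (u t - u t')) :
    ∀ᵐ t' ∂μ, t' ∈ G → ∀ᵐ t ∂μ, t ∈ F → u t' ≤ u t ∧ |v t - v t'| ≤ C * (u t - u t') := by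
  have hm : MeasurableSet {x : ℝ × ℝ | x.1 ∈ F → x.2 ∈ G →
      u x.2 ≤ u x.1 ∧ |v x.1 - v x.2| ≤ C * (u x.1 - u x.2)} := by
    have h1 : MeasurableSet {x : ℝ × ℝ | x.1 ∈ F} := measurable_fst hF
    have h2 : MeasurableSet {x : ℝ × ℝ | x.2 ∈ G} := measurable_snd hG
    have h3 : MeasurableSet {x : ℝ × ℝ | u x.2 ≤ u x.1} :=
      measurableSet_le (hu.comp measurable_snd) (hu.comp measurable_fst)
    have h4 : MeasurableSet {x : ℝ × ℝ | |v x.1 - v x.2| ≤ C * (u x.1 - u x.2)} := by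
      apply measurableSet_le
      · exact ((hv.comp measurable_fst).sub (hv.comp measurable_snd)).abs
      · exact ((hu.comp measurable_fst).sub (hu.comp measurable_snd)).const_mul C
    have e : {x : ℝ × ℝ | x.1 ∈ F → x.2 ∈ G →
        u x.2 ≤ u x.1 ∧ |v x.1 - v x.2| ≤ C * (u x.1 - u x.2)} =
        {x : ℝ × ℝ | x.1 ∈ F}ᶜ ∪ ({x : ℝ × ℝ | x.2 ∈ G}ᶜ ∪ ({x : ℝ × ℝ | u x.2 ≤ u x.1} ∩
          {x : ℝ × ℝ | |v x.1 - v x.2| ≤ C * (u x.1 - u x.2)})) := by
      ext x
      simp only [mem_ofPred_eq, mem_union, mem_compl_iff, mem_inter_iff]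
      tauto
    rw [e]
    exact h1.compl.union (h2.compl.union (h3.inter h4))
  have h1 : ∀ᵐ t ∂μ, ∀ᵐ t' ∂μ, t ∈ F → t' ∈ G →
      u t' ≤ u t ∧ |v t - v t'| ≤ C * (u t - u t') := by
    filter_upwards [h] with t ht
    by_cases htF : t ∈ F
    · filter_upwards [ht htF] with t' ht' _ h3
      exact ht' h3
    · exact Eventually.of_forall fun t' h3 => absurd h3 htF
  have h2 := (Measure.ae_ae_comm (μ := μ) (ν := μ) (p := fun t t' => t ∈ F → t' ∈ G →
      u t' ≤ u t ∧ |v t - v t'| ≤ C * (u t - u t')) hm).mp h1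
  filter_upwards [h2] with t' ht' hG'
  filter_upwards [ht'] with t ht htF
  exact ht htF hG'

theorem main {μ : Measure ℝ} [IsFiniteMeasure μ] {a C : ℝ} {E : Set ℝ} {u v : ℝ → ℝ} (ha : 0 ≤ a)
    (hE : MeasurableSet E) (hμE : μ E = ENNReal.ofReal a) (hu : Measurable u)
    (hv : Measurable v)
    (hyp : ∀ s, 0 < s → s < a → ∃ E' ⊆ E, MeasurableSet E' ∧ μ E' = ENNReal.ofReal s ∧
      ∀ᵐ t ∂μ, t ∈ E' → ∀ᵐ t' ∂μ, t' ∈ E \ E' → u t' ≤ u t ∧ |v t - v t'| ≤ C * (u t - u t'))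
    {S S' : Set ℝ} (hSE : S ⊆ E) (hSE' : S' ⊆ E) (hS : MeasurableSet S) (hS' : MeasurableSet S')
    (h0 : μ S ≠ 0) (h0' : μ S' ≠ 0)
    (hc : ∀ t ∈ S, ∀ t' ∈ S', C * |u t - u t'| < |v t - v t'|) : False := by
  have hEr : μ.real E = a := by
    rw [measureReal_def, hμE, ENNReal.toReal_ofReal ha]
  set m : ℝ := μ.real S with hm
  have hm0 : 0 < m := ENNReal.toReal_pos h0 (measure_ne_top μ _)
  have hma : m ≤ a := by
    rw [← hEr]
    exact measureReal_mono hSE
  have ha0 : 0 < a := lt_of_lt_of_le hm0 hma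
  obtain ⟨N, hN⟩ := exists_nat_gt (a / m)
  have hNa : a < N * m := by
    rwa [div_lt_iff₀ hm0] at hN
  have hN0 : (0 : ℝ) < N := by
    by_contra h
    have h1 : (N : ℝ) ≤ 0 := not_lt.mp h
    nlinarith
  have hN1 : (1 : ℝ) < N := by
    by_contra h
    have h1 : (N : ℝ) ≤ 1 := not_lt.mp h
    nlinarith
  have hNm : a / N < m := by
    rw [div_lt_iff₀ hN0]
    linarith
  have H : ∀ k : ℕ, 0 < k → k < N → ∃ E' ⊆ E, MeasurableSet E' ∧ μ.real E' = k * (a / N) ∧
      ∀ᵐ t ∂μ, t ∈ E' → ∀ᵐ t' ∂μ, t' ∈ E \ E' → u t' ≤ u t ∧ |v t - v t'| ≤ C * (u t - u t') := by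
    intro k hk hkN
    have hk' : (0 : ℝ) < k := by exact_mod_cast hk
    have hkN' : (k : ℝ) < N := by exact_mod_cast hkN
    have h1 : 0 < (k : ℝ) * (a / N) := by positivity
    have h2 : (k : ℝ) * (a / N) < a := by
      have h3 : (k : ℝ) * (a / N) < N * (a / N) := by
        have : 0 < a / N := by positivity
        nlinarith
      have h4 : (N : ℝ) * (a / N) = a := by field_simp
      linarith
    obtain ⟨E', hE1, hE2, hE3, hE4⟩ := hyp _ h1 h2
    refine ⟨E', hE1, hE2, ?_, hE4⟩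
    rw [measureReal_def, hE3, ENNReal.toReal_ofReal h1.le]
  choose! F hFE hFm hFμ hF using H
  -- dichotomies
  have d1 : ∀ k, 0 < k → k < N → μ (F k ∩ S) = 0 ∨ μ (S' \ F k) = 0 := by
    intro k hk hkN
    by_contra hcon
    rw [not_or] at hcon
    obtain ⟨t, ht, t', ht', h1, h2⟩ := pair (hF k hk hkN) (A' := F k ∩ S) (B' := S' \ F k)
      inter_subset_left (sdiff_subset_sdiff_left hSE') hcon.1 hcon.2
    have h3 := hc t ht.2 t' ht'.1
    rw [abs_of_nonneg (sub_nonneg.mpr h1)] at h3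
    linarith
  have d2 : ∀ k, 0 < k → k < N → μ (F k ∩ S') = 0 ∨ μ (S \ F k) = 0 := by
    intro k hk hkN
    by_contra hcon
    rw [not_or] at hcon
    obtain ⟨t, ht, t', ht', h1, h2⟩ := pair (hF k hk hkN) (A' := F k ∩ S') (B' := S \ F k)
      inter_subset_left (sdiff_subset_sdiff_left hSE) hcon.1 hcon.2
    have h3 := hc t' ht'.1 t ht.2
    rw [abs_sub_comm (u t'), abs_sub_comm (v t'), abs_of_nonneg (sub_nonneg.mpr h1)] at h3
    linarith
  have split : ∀ X Y : Set ℝ, MeasurableSet Y → μ (X \ Y) = 0 → μ (Y ∩ X) = 0 → μ X = 0 := by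
    intro X Y _ h1 h2
    have h3 : X ⊆ (X \ Y) ∪ (Y ∩ X) := by
      intro x hx
      by_cases hxY : x ∈ Y
      · exact Or.inr ⟨hxY, hx⟩
      · exact Or.inl ⟨hx, hxY⟩
    exact measure_mono_null h3 (measure_union_null h1 h2)
  have e1 : ∀ k, 0 < k → k < N → μ (F k ∩ S) = 0 → μ (F k ∩ S') = 0 := by
    intro k hk hkN h1
    rcases d2 k hk hkN with h2 | h2
    · exact h2
    · exact absurd (split S (F k) (hFm k hk hkN) h2 h1) h0
  have e2 : ∀ k, 0 < k → k < N → μ (F k ∩ S) ≠ 0 → μ (S' \ F k) = 0 ∧ μ (S \ F k) = 0 := by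
    intro k hk hkN h1
    have h2 := (d1 k hk hkN).resolve_left h1
    refine ⟨h2, ?_⟩
    rcases d2 k hk hkN with h3 | h3
    · exact absurd (split S' (F k) (hFm k hk hkN) h2 h3) h0'
    · exact h3
  -- induction
  have ind : ∀ k : ℕ, k + 1 < N → μ (F (k + 1) ∩ S) = 0 := by
    intro k
    induction k with
    | zero =>
      intro hk
      by_contra hcon
      have h1 := (e2 1 one_pos (by omega) hcon).2
      have h2 : m ≤ μ.real (F 1) := by
        have h3 : μ.real (S \ F 1) = 0 := by rw [measureReal_def, h1, ENNReal.toReal_zero]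
        have h4 : S ⊆ F 1 ∪ (S \ F 1) := by
          intro x hx
          by_cases hxY : x ∈ F 1
          · exact Or.inl hxY
          · exact Or.inr ⟨hx, hxY⟩
        calc m ≤ μ.real (F 1 ∪ (S \ F 1)) := measureReal_mono h4
          _ ≤ μ.real (F 1) + μ.real (S \ F 1) := measureReal_union_le _ _
          _ = μ.real (F 1) := by rw [h3, add_zero]
      rw [hFμ 1 one_pos (by omega)] at h2
      push_cast at h2
      linarith
    | succ k ih =>
      intro hk
      have hk1 : 0 < k + 1 := by omega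
      have hk2 : k + 1 < N := by omega
      have hk3 : 0 < k + 1 + 1 := by omega
      have hM := ih hk2
      by_contra hcon
      obtain ⟨c1, c2⟩ := e2 (k + 1 + 1) hk3 hk hcon
      have hM' := e1 (k + 1) hk1 hk2 hM
      set P := F (k + 1) with hP
      set Q := F (k + 1 + 1) with hQ
      have hPm : MeasurableSet P := hFm _ hk1 hk2
      have hQm : MeasurableSet Q := hFm _ hk3 hk
      have hPE : P ⊆ E := hFE _ hk1 hk2
      have hQE : Q ⊆ E := hFE _ hk3 hk
      have hSB : μ (S \ (Q \ P)) = 0 := by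
        have : S \ (Q \ P) ⊆ (S \ Q) ∪ (P ∩ S) := by
          rintro x ⟨hx1, hx2⟩
          by_cases hxQ : x ∈ Q
          · right
            by_contra h
            exact hx2 ⟨hxQ, fun h' => h ⟨h', hx1⟩⟩
          · exact Or.inl ⟨hx1, hxQ⟩
        exact measure_mono_null this (measure_union_null c2 hM)
      have hSB' : μ (S' \ (Q \ P)) = 0 := by
        have : S' \ (Q \ P) ⊆ (S' \ Q) ∪ (P ∩ S') := by
          rintro x ⟨hx1, hx2⟩
          by_cases hxQ : x ∈ Q
          · right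
            by_contra h
            exact hx2 ⟨hxQ, fun h' => h ⟨h', hx1⟩⟩
          · exact Or.inl ⟨hx1, hxQ⟩
        exact measure_mono_null this (measure_union_null c1 hM')
      have hBm : MeasurableSet (Q \ P) := hQm.diff hPm
      have hS1 : μ ((Q \ P) ∩ S) ≠ 0 := fun h => h0 (split S _ hBm hSB h)
      have hS1' : μ ((Q \ P) ∩ S') ≠ 0 := fun h => h0' (split S' _ hBm hSB' h)
      -- measure of `B` and `A`
      have hB : m ≤ μ.real (Q \ P) := by
        have h3 : μ.real (S \ (Q \ P)) = 0 := by rw [measureReal_def, hSB, ENNReal.toReal_zero]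
        have h4 : S ⊆ (Q \ P) ∪ (S \ (Q \ P)) := by
          intro x hx
          by_cases hxY : x ∈ Q \ P
          · exact Or.inl hxY
          · exact Or.inr ⟨hx, hxY⟩
        calc m ≤ μ.real ((Q \ P) ∪ (S \ (Q \ P))) := measureReal_mono h4
          _ ≤ μ.real (Q \ P) + μ.real (S \ (Q \ P)) := measureReal_union_le _ _
          _ = μ.real (Q \ P) := by rw [h3, add_zero]
      have hA : 0 < μ.real (P \ Q) := by
        have h3 := measureReal_sdiff_add_inter (μ := μ) (s := P) (t := Q) hQm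
        have h4 := measureReal_sdiff_add_inter (μ := μ) (s := Q) (t := P) hPm
        rw [inter_comm] at h4
        rw [hFμ _ hk1 hk2] at h3
        rw [hFμ _ hk3 hk] at h4
        push_cast at h3 h4
        linarith
      have hA0 : μ (P \ Q) ≠ 0 := by
        intro h
        rw [measureReal_def, h, ENNReal.toReal_zero] at hA
        exact lt_irrefl _ hA
      -- a generic point of `A`
      have g1 := hF _ hk1 hk2
      have g2 := swap hQm (hE.diff hQm) hu hv C (hF _ hk3 hk)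
      obtain ⟨t, ht, ht1, ht2⟩ :=
        ((frequently_ae_mem_iff.mpr hA0).and_eventually (g1.and g2)).exists
      have ht1' := ht1 ht.1
      have ht2' := ht2 ⟨hPE ht.1, ht.2⟩
      have key : ∀ᵐ t' ∂μ, t' ∈ Q \ P → u t' = u t ∧ v t' = v t := by
        filter_upwards [ht1', ht2'] with t' h1 h2 h3
        obtain ⟨h4, h5⟩ := h1 ⟨hQE h3.1, h3.2⟩
        obtain ⟨h6, h7⟩ := h2 h3.1
        have h8 : u t' = u t := le_antisymm h4 h6
        refine ⟨h8, ?_⟩
        rw [h8, sub_self, mul_zero] at h7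
        have h9 := abs_nonpos_iff.mp h7
        linarith
      obtain ⟨t₁, ht₁, hh₁⟩ := ((frequently_ae_mem_iff.mpr hS1).and_eventually key).exists
      obtain ⟨t₂, ht₂, hh₂⟩ := ((frequently_ae_mem_iff.mpr hS1').and_eventually key).exists
      have h3 := hc t₁ ht₁.2 t₂ ht₂.2
      rw [(hh₁ ht₁.1).1, (hh₁ ht₁.1).2, (hh₂ ht₂.1).1, (hh₂ ht₂.1).2] at h3
      simp at h3
  -- the end
  have hN2 : 2 ≤ N := by
    have : 1 < N := by exact_mod_cast hN1
    omega
  have hlast := ind (N - 2) (by omega)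
  have hidx : N - 2 + 1 = N - 1 := by omega
  rw [hidx] at hlast
  have hk1 : 0 < N - 1 := by omega
  have hk2 : N - 1 < N := by omega
  have h1 : m ≤ μ.real (E \ F (N - 1)) := by
    have h3 : μ.real (F (N - 1) ∩ S) = 0 := by rw [measureReal_def, hlast, ENNReal.toReal_zero]
    have h4 : S ⊆ (E \ F (N - 1)) ∪ (F (N - 1) ∩ S) := by
      intro x hx
      by_cases hxY : x ∈ F (N - 1)
      · exact Or.inr ⟨hxY, hx⟩
      · exact Or.inl ⟨hSE hx, hxY⟩
    calc m ≤ μ.real ((E \ F (N - 1)) ∪ (F (N - 1) ∩ S)) := measureReal_mono h4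
      _ ≤ μ.real (E \ F (N - 1)) + μ.real (F (N - 1) ∩ S) := measureReal_union_le _ _
      _ = μ.real (E \ F (N - 1)) := by rw [h3, add_zero]
  have h2 := measureReal_sdiff_add_inter (μ := μ) (s := E) (t := F (N - 1)) (hFm _ hk1 hk2)
  rw [inter_eq_self_of_subset_right (hFE _ hk1 hk2), hEr, hFμ _ hk1 hk2] at h2
  have h3 : ((N - 1 : ℕ) : ℝ) = N - 1 := by
    rw [Nat.cast_sub (by omega)]
    simp
  rw [h3] at h2
  have h4 : ((N : ℝ) - 1) * (a / N) = a - a / N := by
    field_simp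
  linarith

end SCG

theorem tSCG : S_SCG := by
  intro a C E u v ha hC hE hμE hu hv hyp
  set ν : Measure (ℝ × ℝ) := (μT.restrict E).map (fun t => (u t, v t)) with hν
  have huv : Measurable (fun t => (u t, v t)) := hu.prodMk hv
  -- two points of the support
  have key : ∀ x ∈ ν.support, ∀ y ∈ ν.support, |x.2 - y.2| ≤ C * |x.1 - y.1| := by
    intro x hx y hy
    by_contra hcon
    rw [not_le] at hcon
    have hopen : IsOpen {z : (ℝ × ℝ) × (ℝ × ℝ) | C * |z.1.1 - z.2.1| < |z.1.2 - z.2.2|} := by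
      apply isOpen_lt <;> fun_prop
    have hmem : {z : (ℝ × ℝ) × (ℝ × ℝ) | C * |z.1.1 - z.2.1| < |z.1.2 - z.2.2|} ∈ 𝓝 (x, y) :=
      hopen.mem_nhds hcon
    rw [nhds_prod_eq, Filter.mem_prod_iff] at hmem
    obtain ⟨B, hB, B', hB', hsub⟩ := hmem
    obtain ⟨W, hWB, hW, hxW⟩ := mem_nhds_iff.mp hB
    obtain ⟨W', hWB', hW', hyW'⟩ := mem_nhds_iff.mp hB'
    have h1 : 0 < ν W := (Measure.mem_support_iff_forall x).mp hx W (hW.mem_nhds hxW)
    have h2 : 0 < ν W' := (Measure.mem_support_iff_forall y).mp hy W' (hW'.mem_nhds hyW')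
    rw [hν, Measure.map_apply huv hW.measurableSet,
      Measure.restrict_apply (huv hW.measurableSet)] at h1
    rw [hν, Measure.map_apply huv hW'.measurableSet,
      Measure.restrict_apply (huv hW'.measurableSet)] at h2
    refine SCG.main (μ := μT) ha hE hμE hu hv hyp inter_subset_right inter_subset_right
      ((huv hW.measurableSet).inter hE) ((huv hW'.measurableSet).inter hE) h1.ne' h2.ne' ?_
    intro t ht t' ht'
    exact hsub (show ((u t, v t), (u t', v t')) ∈ B ×ˢ B' from ⟨hWB ht.1, hWB' ht'.1⟩)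
  -- the function
  classical
  set D : Set ℝ := Prod.fst '' ν.support with hD
  have hex : ∀ p ∈ D, ∃ q, (p, q) ∈ ν.support := by
    rintro p ⟨⟨p', q⟩, h, rfl⟩
    exact ⟨q, h⟩
  choose! f hf using hex
  have hlip : LipschitzOnWith (Real.toNNReal C) f D := by
    refine LipschitzOnWith.of_dist_le_mul fun p hp q hq => ?_
    rw [Real.dist_eq, Real.dist_eq, Real.coe_toNNReal C hC]
    exact key _ (hf p hp) _ (hf q hq)
  obtain ⟨φ, hφ, heq⟩ := hlip.extend_real
  refine ⟨φ, fun p q => ?_, ?_⟩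
  · have := hφ.dist_le_mul p q
    rwa [Real.dist_eq, Real.dist_eq, Real.coe_toNNReal C hC] at this
  · have h1 : ∀ᵐ x ∂ν, x ∈ ν.support := Measure.support_mem_ae
    have h2 : ∀ᵐ t ∂(μT.restrict E), (u t, v t) ∈ ν.support :=
      ae_of_ae_map huv.aemeasurable h1
    rw [ae_restrict_iff' hE] at h2
    filter_upwards [h2] with t ht htE
    have hx := ht htE
    have hp : u t ∈ D := ⟨_, hx, rfl⟩
    rw [← heq hp]
    have h3 := key _ hx _ (hf _ hp)
    simp only [sub_self, abs_zero, mul_zero] at h3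
    have h4 := abs_nonpos_iff.mp h3
    linarith

end Pool.Agent.H352R5.HL
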