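import Pool.Agent.H352R5.HL.Stubs

namespace Pool.Agent.H352R5.HL

open MeasureTheory Set Filter Topology
open scoped ENNReal NNReal Real

theorem tU1 : S_U1 := by
  intro f hf hfour Q R hR hQ hQ0
  set E : ℂ → ℂ := fun z => Complex.exp (Q z) with hE
  -- the power series
  set R' : ℝ≥0 := ⟨(1 + R) / 2, by positivity⟩ with hR'
  have hR'1 : (1:ℝ) < R' := by
    show (1:ℝ) < (1 + R) / 2
    linarith
  have hR'R : (R' : ℝ) < R := by
    show (1 + R) / 2 < R
    linarith
  have hEd : DifferentiableOn ℂ E (Metric.closedBall 0 R') :=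
    (hQ.mono (Metric.closedBall_subset_ball hR'R)).cexp
  have hps := hEd.hasFPowerSeriesOnBall (by
    have : (0:ℝ) < R' := by linarith
    exact_mod_cast this)
  set p := cauchyPowerSeries E 0 R' with hp
  set c : ℕ → ℂ := fun n => p.coeff n with hc
  have hc0 : c 0 = 1 := by
    have h1 := hps.coeff_zero (fun _ => 1)
    have h2 : E 0 = 1 := by simp [hE, hQ0]
    rw [h2] at h1
    simp only [hc, FormalMultilinearSeries.coeff]
    exact h1
  have hsum : Summable (fun n => ‖c n‖) := by
    have h1 : ((1 : ℝ≥0) : ℝ≥0∞) < p.radius := by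
      refine lt_of_lt_of_le ?_ hps.r_le
      exact_mod_cast hR'1
    have h2 := p.summable_norm_mul_pow h1
    simpa [hc, FormalMultilinearSeries.norm_apply_eq_norm_coef] using h2
  have hval : ∀ t : ℝ, HasSum (fun n => c n * Complex.exp (Complex.I * (n : ℂ) * t))
      (E (circ 1 t)) := by
    intro t
    have hmem : circ 1 t ∈ Metric.eball (0:ℂ) R' := by
      rw [Metric.mem_eball, edist_zero_right]
      have : ‖circ 1 t‖₊ = 1 := by
        apply NNReal.eq
        simp only [coe_nnnorm, NNReal.coe_one, circ]
        rw [norm_mul, mul_comm Complex.I, Complex.norm_exp_ofReal_mul_I]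
        simp
      rw [enorm_eq_nnnorm, this]
      exact_mod_cast hR'1
    have h1 := hps.hasSum hmem
    rw [zero_add] at h1
    suffices e : (fun n => c n * Complex.exp (Complex.I * (n : ℂ) * t)) =
        fun n => (p n) fun _ => circ 1 t by
      rw [e]; exact h1
    funext n
    rw [FormalMultilinearSeries.apply_eq_pow_smul_coeff, smul_eq_mul, mul_comm]
    congr 1
    simp only [circ, Complex.ofReal_one, one_mul]
    rw [← Complex.exp_nat_mul]
    congr 1
    ring
  -- integrate
  set G : ℕ → ℝ → ℂ := fun n t => f t * (c n * Complex.exp (Complex.I * (n : ℂ) * t)) with hG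
  have hnorm : ∀ n t, ‖G n t‖ = ‖c n‖ * ‖f t‖ := by
    intro n t
    simp only [hG]
    rw [norm_mul, norm_mul, show Complex.I * (n : ℂ) * (t : ℂ) = ((n * t : ℝ) : ℂ) * Complex.I by
      push_cast; ring, Complex.norm_exp_ofReal_mul_I]
    ring
  have hint : ∀ n, Integrable (G n) μT := by
    intro n
    refine (hf.norm.const_mul ‖c n‖).mono' ?_ (Eventually.of_forall (fun t => (hnorm n t).le))
    refine hf.aestronglyMeasurable.mul ?_
    exact (Continuous.aestronglyMeasurable (by fun_prop))
  have hs := hasSum_integral_of_summable_integral_norm hint (by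
    have : (fun n => ∫ t, ‖G n t‖ ∂μT) = fun n => ‖c n‖ * ∫ t, ‖f t‖ ∂μT := by
      funext n
      rw [← integral_const_mul]
      exact integral_congr_ae (Eventually.of_forall (fun t => hnorm n t))
    rw [this]
    exact hsum.mul_right _)
  have htsum : ∀ t, ∑' n, G n t = f t * Complex.exp (Q (circ 1 t)) := fun t =>
    ((hval t).mul_left (f t)).tsum_eq
  rw [integral_congr_ae (Eventually.of_forall htsum)] at hs
  have hzero : ∀ n, n ≠ 0 → ∫ t, G n t ∂μT = 0 := by
    intro n hn
    obtain ⟨m, rfl⟩ := Nat.exists_eq_succ_of_ne_zero hn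
    have h1 := hfour m
    have h2 : (fun t => G (m.succ) t) =
        fun t => c (m.succ) * (f t * Complex.exp (Complex.I * ((m : ℂ) + 1) * t)) := by
      funext t
      simp only [hG, Nat.succ_eq_add_one, Nat.cast_add, Nat.cast_one]
      ring
    rw [h2, integral_const_mul, h1, mul_zero]
  have h3 := hasSum_single (f := fun n => ∫ t, G n t ∂μT) 0 hzero
  have h4 := hs.unique h3
  rw [h4]
  refine integral_congr_ae (Eventually.of_forall (fun t => ?_))
  simp only [hG, hc0]
  simp

end Pool.Agent.H352R5.HL
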