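import Pool.Agent.H352R5.HL.Stubs

/-!
# Task U5: uniqueness of the Fourier coefficients in `L¹`
-/

namespace Pool.Agent.H352R5.HL

open MeasureTheory Set Filter Topology
open scoped ENNReal NNReal Real ContDiff

namespace U5

instance fact_two_pi : Fact (0 < 2 * π) := ⟨two_pi_pos⟩

theorem integrable_mul {f : ℝ → ℂ} (hf : Integrable f μT) (g : C(AddCircle (2 * π), ℂ)) :
    Integrable (fun t : ℝ => f t * g (t : AddCircle (2 * π))) μT := by
  refine (hf.norm.mul_const ‖g‖).mono' ?_ (ae_of_all _ fun t => ?_)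
  · exact hf.aestronglyMeasurable.mul
      (g.continuous.comp (AddCircle.continuous_mk' _)).aestronglyMeasurable
  · rw [norm_mul]
    exact mul_le_mul_of_nonneg_left (g.norm_coe_le_norm _) (norm_nonneg _)

/-- The functional `g ↦ ∫ f g`. -/
noncomputable def L {f : ℝ → ℂ} (hf : Integrable f μT) : C(AddCircle (2 * π), ℂ) →L[ℂ] ℂ :=
  LinearMap.mkContinuous
    { toFun := fun g => ∫ t : ℝ, f t * g (t : AddCircle (2 * π)) ∂μT
      map_add' := by
        intro g h
        rw [← integral_add (integrable_mul hf g) (integrable_mul hf h)]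
        refine integral_congr_ae (ae_of_all _ fun t => ?_)
        simp only [ContinuousMap.add_apply]
        ring
      map_smul' := by
        intro c g
        simp only [RingHom.id_apply, smul_eq_mul]
        rw [← integral_const_mul]
        refine integral_congr_ae (ae_of_all _ fun t => ?_)
        simp only [ContinuousMap.smul_apply, smul_eq_mul]
        ring }
    (∫ t, ‖f t‖ ∂μT)
    (by
      intro g
      simp only [LinearMap.coe_mk, AddHom.coe_mk]
      rw [← integral_mul_const]
      refine (norm_integral_le_integral_norm _).trans ?_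
      refine integral_mono_of_nonneg (ae_of_all _ fun t => norm_nonneg _)
        (hf.norm.mul_const ‖g‖) (ae_of_all _ fun t => ?_)
      simp only [norm_mul]
      exact mul_le_mul_of_nonneg_left (g.norm_coe_le_norm _) (norm_nonneg _))

theorem L_apply {f : ℝ → ℂ} (hf : Integrable f μT) (g : C(AddCircle (2 * π), ℂ)) :
    L hf g = ∫ t : ℝ, f t * g (t : AddCircle (2 * π)) ∂μT := rfl

theorem L_eq_zero {f : ℝ → ℂ} (hf : Integrable f μT)
    (h : ∀ n : ℤ, ∫ t, f t * Complex.exp (Complex.I * (n : ℂ) * t) ∂μT = 0) : L hf = 0 := by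
  have hd : Dense (Submodule.span ℂ (range (@fourier (2 * π))) : Set C(AddCircle (2 * π), ℂ)) :=
    Submodule.dense_iff_topologicalClosure_eq_top.mpr span_fourier_closure_eq_top
  refine ContinuousLinearMap.ext_on hd ?_
  rintro _ ⟨n, rfl⟩
  rw [L_apply, ContinuousLinearMap.zero_apply, ← h n]
  refine integral_congr_ae (ae_of_all _ fun t => ?_)
  simp only
  rw [fourier_coe_apply]
  congr 2
  have : (π : ℂ) ≠ 0 := by exact_mod_cast Real.pi_ne_zero
  push_cast
  field_simp

end U5

/-- U5 -/
theorem tU5 : S_U5 := by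
  intro f hf h
  have hL := U5.L_eq_zero hf h
  have h1 : ∀ᵐ x ∂μT, x ∈ Ioo (0 : ℝ) (2 * π) → f x = 0 := by
    refine IsOpen.ae_eq_zero_of_integral_contDiff_smul_eq_zero isOpen_Ioo
      (hf.locallyIntegrable.locallyIntegrableOn _) ?_
    intro g hg _ hgs
    have hz : ∀ t, t ∉ Ioo (0 : ℝ) (2 * π) → g t = 0 := fun t ht =>
      image_eq_zero_of_notMem_tsupport (fun hm => ht (hgs hm))
    have h0 : g 0 = 0 := hz 0 (by simp)
    have h2 : g (2 * π) = 0 := hz _ (by simp)
    let G : C(AddCircle (2 * π), ℂ) := ⟨AddCircle.liftIco (2 * π) 0 (fun t => (g t : ℂ)), by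
      refine AddCircle.liftIco_continuous ?_ ?_
      · simp [h0, h2]
      · exact (Complex.continuous_ofReal.comp hg.continuous).continuousOn⟩
    have hG : ∀ t ∈ Ioc (0 : ℝ) (2 * π), G (t : AddCircle (2 * π)) = (g t : ℂ) := by
      intro t ht
      rcases eq_or_lt_of_le ht.2 with he | hlt
      · have e : ((t : ℝ) : AddCircle (2 * π)) = ((0 : ℝ) : AddCircle (2 * π)) := by
          rw [he]
          simp
        rw [e, he, h2]
        change AddCircle.liftIco (2 * π) 0 (fun t => (g t : ℂ)) ((0 : ℝ) : AddCircle (2 * π)) = _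
        rw [AddCircle.liftIco_coe_apply (by simp [Real.pi_pos]), h0]
      · change AddCircle.liftIco (2 * π) 0 (fun t => (g t : ℂ)) (t : AddCircle (2 * π)) = _
        rw [AddCircle.liftIco_coe_apply ⟨ht.1.le, by simpa using hlt⟩]
    have h4 : ∫ x, g x • f x ∂μT = ∫ t : ℝ, f t * G (t : AddCircle (2 * π)) ∂μT := by
      unfold μT
      refine setIntegral_congr_fun measurableSet_Ioc (fun t ht => ?_)
      change g t • f t = f t * G (t : AddCircle (2 * π))
      rw [hG t ht, mul_comm, Complex.real_smul]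
    rw [h4, ← U5.L_apply hf, hL]
    rfl
  have h5 : ∀ᵐ x ∂μT, x ∈ Ioo (0 : ℝ) (2 * π) := by
    unfold μT
    rw [← restrict_Ioo_eq_restrict_Ioc]
    exact ae_restrict_mem measurableSet_Ioo
  filter_upwards [h1, h5] with x hx hx'
  exact hx hx'

end Pool.Agent.H352R5.HL
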