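import Pool.Agent.H352R5.HL.Lev
import Pool.Agent.H352R5.HL.Stubs3
import Pool.Agent.H352R5.HL.TA1
import Pool.Agent.H352R5.HL.TB2a
import Pool.Agent.H352R5.HL.TB2b
import Pool.Agent.H352R5.HL.TB5
import Pool.Agent.H352R5.HL.TD1
import Pool.Agent.H352R5.HL.TD2
import Pool.Agent.H352R5.HL.TD3
import Pool.Agent.H352R5.HL.TN1
import Pool.Agent.H352R5.HL.TOUT
import Pool.Agent.H352R5.HL.TP1
import Pool.Agent.H352R5.HL.TP2
import Pool.Agent.H352R5.HL.TP3a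
import Pool.Agent.H352R5.HL.TP3b
import Pool.Agent.H352R5.HL.TP4
import Pool.Agent.H352R5.HL.TR1
import Pool.Agent.H352R5.HL.TR2
import Pool.Agent.H352R5.HL.TR3
import Pool.Agent.H352R5.HL.TR4
import Pool.Agent.H352R5.HL.R5x
import Pool.Agent.H352R5.HL.TR6
import Pool.Agent.H352R5.HL.TR7
import Pool.Agent.H352R5.HL.TR8
import Pool.Agent.H352R5.HL.TU1
import Pool.Agent.H352R5.HL.TU2
import Pool.Agent.H352R5.HL.TU3
import Pool.Agent.H352R5.HL.TU4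
import Pool.Agent.H352R5.HL.TU5
import Pool.Agent.H352R5.HL.TU6
import Pool.Agent.H352R5.HL.TSCG
import Pool.Agent.H352R5.HL.TBEU
import Pool.Agent.H352R5.HL.TPROD
import Pool.Agent.H352R5.HL.TPOLY
import Pool.Agent.H352R5.HL.TLOGI
import Pool.Agent.H352R5.HL.TOUTEX
import Pool.Agent.H352R5.HL.TFBP

/-!
# The classical facts, assembled
-/

namespace Pool.Agent.H352R5.HL

theorem fB2b : S_B2b := tB2b tP1 tD1 tD2 (tD3 tP1)
theorem fU4 : S_U4 := tU4 (tU3 tP1 fB2b tU1 tU2)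
theorem fU6 : S_U6 := tU6 fU4 tU5
theorem fOUT : S_OUT := tOUT fU4
theorem fR8 : S_R8 := tR8 tR1 tR2 tR3 tR4 tR5x tR6 tR7
theorem fN1 : S_N1 := tN1 tP1 tP2 tP3a tP3b tP4
theorem fBEU : S_BEU := tBEU fU4
theorem fPROD : S_PROD := tPROD tB2a fB2b
theorem fPOLY : S_POLY := tPOLY tU5
theorem fLOGI : S_LOGI := tLOGI fU4 tU5
theorem fOUTEX : S_OUTEX := tOUTEX tP1 tP2 fB2b tB5 fR8
theorem fFBP : S_FBP := tFBP fPOLY fPROD

end Pool.Agent.H352R5.HL
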