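import Pool.Agent.H352R5.HL.Main

/-!
# General weights: the flat part of the weight, and top sets
-/

namespace Pool.Agent.H352R5.HL

open MeasureTheory Set Filter Topology
open scoped ENNReal NNReal Real

variable {Ψ : ℝ → ℝ}

/-- The least `s` with `Ψ s = Ψ (2π)`. -/
noncomputable def flat (Ψ : ℝ → ℝ) : ℝ := sInf {s | s ∈ Icc 0 (2 * π) ∧ Ψ s = Ψ (2 * π)}

theorem flat_mem (Ψ : ℝ → ℝ) : flat Ψ ∈ Icc 0 (2 * π) := by
  have hmem : (2 * π) ∈ {s | s ∈ Icc 0 (2 * π) ∧ Ψ s = Ψ (2 * π)} :=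
    ⟨right_mem_Icc.2 two_pi_pos.le, rfl⟩
  exact ⟨le_csInf ⟨_, hmem⟩ fun s hs => hs.1.1, csInf_le ⟨0, fun s hs => hs.1.1⟩ hmem⟩

theorem flat_le {s : ℝ} (hs : s ∈ Icc 0 (2 * π)) (h : Ψ s = Ψ (2 * π)) : flat Ψ ≤ s :=
  csInf_le ⟨0, fun _ hs => hs.1.1⟩ ⟨hs, h⟩

theorem IsWt.le_top (h : IsWt Ψ) {s : ℝ} (hs : s ∈ Icc 0 (2 * π)) : Ψ s ≤ Ψ (2 * π) :=
  h.mono hs (right_mem_Icc.2 two_pi_pos.le) hs.2

theorem IsWt.flat_eq (h : IsWt Ψ) {s : ℝ} (hs : s ∈ Icc 0 (2 * π)) (hs0 : 0 < s)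
    (hf : flat Ψ ≤ s) : Ψ s = Ψ (2 * π) := by
  have hlt : ∀ s ∈ Icc 0 (2 * π), flat Ψ < s → Ψ s = Ψ (2 * π) := by
    intro s hs hf
    have hmem : (2 * π) ∈ {s | s ∈ Icc 0 (2 * π) ∧ Ψ s = Ψ (2 * π)} :=
      ⟨right_mem_Icc.2 two_pi_pos.le, rfl⟩
    obtain ⟨s', hs', hlt⟩ := exists_lt_of_csInf_lt ⟨_, hmem⟩ hf
    have h1 := h.mono hs'.1 hs hlt.le
    rw [hs'.2] at h1
    exact le_antisymm (h.le_top hs) h1
  rcases hf.eq_or_lt with he | hl
  · rcases hs.2.eq_or_lt with h2 | h2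
    · rw [h2]
    refine le_antisymm (h.le_top hs) ?_
    have hnn := h.nonneg hs
    have key : ∀ δ > 0, s * Ψ (2 * π) ≤ s * Ψ s + δ := by
      intro δ hδ
      set e := min (2 * π - s) (δ / (Ψ s + 1)) with he'
      have he0 : 0 < e := lt_min (by linarith) (by positivity)
      have he1 : e ≤ 2 * π - s := min_le_left _ _
      have he2 : e ≤ δ / (Ψ s + 1) := min_le_right _ _
      have hse : s + e ∈ Icc 0 (2 * π) := ⟨by linarith, by linarith⟩
      have h3 := hlt (s + e) hse (by linarith)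
      have h4 := h.conc.2 (left_mem_Icc.2 two_pi_pos.le) hse
        (show 0 ≤ 1 - s / (s + e) by
          rw [sub_nonneg, div_le_one (by linarith)]
          linarith)
        (show 0 ≤ s / (s + e) by positivity) (by ring)
      simp only [smul_eq_mul, h.zero, mul_zero, zero_add] at h4
      rw [div_mul_cancel₀ _ (by linarith : s + e ≠ 0), h3] at h4
      have h5 : s * Ψ (2 * π) ≤ (s + e) * Ψ s := by
        have h6 := mul_le_mul_of_nonneg_left h4 (show 0 ≤ s + e by linarith)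
        have h7 : (s + e) * (s / (s + e) * Ψ (2 * π)) = s * Ψ (2 * π) := by
          field_simp
        linarith
      have h6 : e * Ψ s ≤ δ := by
        have h7 : e * (Ψ s + 1) ≤ δ := by
          rwa [le_div_iff₀ (by linarith)] at he2
        nlinarith
      nlinarith
    have h3 : s * Ψ (2 * π) ≤ s * Ψ s := le_of_forall_pos_le_add key
    exact le_of_mul_le_mul_left h3 hs0
  · exact hlt s hs hl

theorem IsWt.min_eq (h : IsWt Ψ) {m m' s : ℝ} (hm : m ∈ Icc 0 (2 * π)) (hm' : m' ∈ Icc 0 (2 * π))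
    (hle : m ≤ m') (he : Ψ m = Ψ m') (hs : s ≤ flat Ψ) : min m s = min m' s := by
  rcases hle.eq_or_lt with h1 | h1
  · rw [h1]
  have h2 : Ψ m = Ψ (2 * π) := by
    rcases hm'.2.eq_or_lt with h3 | h3
    · rw [he, h3]
    · have h4 := h.conc.slope_anti_adjacent hm (right_mem_Icc.2 two_pi_pos.le) h1 h3
      rw [he, sub_self, zero_div, div_le_iff₀ (by linarith), zero_mul, sub_nonpos] at h4
      rw [he]
      exact le_antisymm (h.le_top hm') h4
  have h3 := flat_le hm h2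
  rw [min_eq_right (hs.trans h3), min_eq_right (hs.trans (h3.trans hle))]

theorem IsWt.bend_le (h : IsWt Ψ) {s : ℝ} (hs : Bend Ψ s) : s ≤ flat Ψ := by
  by_contra hlt
  rw [not_le] at hlt
  refine hs.2.2 (s - flat Ψ) (by linarith) ⟨0, Ψ (2 * π), fun t ht hts => ?_⟩
  rw [zero_mul, zero_add]
  have h1 := (abs_lt.1 hts).1
  have h2 := (flat_mem Ψ).1
  exact h.flat_eq ht (by linarith) (by linarith)

theorem IsWt.bend_flat (h : IsWt Ψ) (h0 : 0 < flat Ψ) (h1 : flat Ψ < 2 * π) :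
    Bend Ψ (flat Ψ) := by
  refine ⟨h0, h1, fun ε hε => ?_⟩
  rintro ⟨a, b, hab⟩
  set δ := min (ε / 2) (min (flat Ψ / 2) ((2 * π - flat Ψ) / 2)) with hδ
  have hδ0 : 0 < δ := lt_min (by linarith) (lt_min (by linarith) (by linarith))
  have d1 : δ ≤ ε / 2 := min_le_left _ _
  have d2 : δ ≤ flat Ψ / 2 := (min_le_right _ _).trans (min_le_left _ _)
  have d3 : δ ≤ (2 * π - flat Ψ) / 2 := (min_le_right _ _).trans (min_le_right _ _)
  have m1 : flat Ψ - δ ∈ Icc 0 (2 * π) := ⟨by linarith, by linarith⟩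
  have m2 : flat Ψ + δ ∈ Icc 0 (2 * π) := ⟨by linarith, by linarith⟩
  have e1 := hab _ m1 (by rw [abs_lt]; constructor <;> linarith)
  have e2 := hab _ m2 (by rw [abs_lt]; constructor <;> linarith)
  have e3 := hab _ (flat_mem Ψ) (by simpa using hε)
  rw [h.flat_eq m2 (by linarith) (by linarith)] at e2
  rw [h.flat_eq (flat_mem Ψ) h0 le_rfl] at e3
  have ha : a = 0 := by
    have h4 : a * δ = 0 := by linarith
    rcases mul_eq_zero.1 h4 with h5 | h5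
    · exact h5
    · exact absurd h5 hδ0.ne'
  have h4 : Ψ (flat Ψ - δ) = Ψ (2 * π) := by
    rw [e1, e3, ha]
    ring
  have h5 := flat_le m1 h4
  linarith

theorem IsWt.flat_of_strict (_ : IsWt Ψ) (hs : StrictMonoOn Ψ (Icc 0 (2 * π))) :
    flat Ψ = 2 * π := by
  refine le_antisymm (flat_mem Ψ).2 (le_csInf ⟨2 * π, right_mem_Icc.2 two_pi_pos.le, rfl⟩ ?_)
  rintro s ⟨hs1, hs2⟩
  exact (hs.injOn hs1 (right_mem_Icc.2 two_pi_pos.le) hs2).symm.le

theorem IsWt.kap_pos_of_flat (h : IsWt Ψ) (hpos : 0 < Ψ (2 * π)) (h0 : flat Ψ = 0) :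
    0 < kap Ψ := by
  refine lt_of_lt_of_le hpos ?_
  unfold kap
  refine le_csInf ⟨Ψ (2 * π), ⟨2 * π, ⟨two_pi_pos, le_rfl⟩, rfl⟩⟩ ?_
  rintro _ ⟨s, hs, rfl⟩
  exact (h.flat_eq ⟨hs.1.le, hs.2⟩ hs.1 (by rw [h0]; exact hs.1.le)).symm.le

/-! ### Consequences of equal norms -/

theorem IsWt.psi_dis_ae (h : IsWt Ψ) {x y : ℝ → ℝ} (hxy : ∀ᵐ t ∂μT, x t ≤ y t)
    (hfin : lor Ψ x ≠ ∞) (hle : lor Ψ y ≤ lor Ψ x) :
    ∀ᵐ τ ∂(volume.restrict (Ioi (0 : ℝ))), Ψ (dis x τ).toReal = Ψ (dis y τ).toReal := by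
  have hm : ∀ x : ℝ → ℝ, Measurable fun τ => ENNReal.ofReal (Ψ (dis x τ).toReal) := by
    intro x
    refine Antitone.measurable fun a b hab => ENNReal.ofReal_le_ofReal ?_
    exact h.mono (dis_toReal_mem x b) (dis_toReal_mem x a)
      (ENNReal.toReal_mono (μT_ne_top _) (dis_anti x hab))
  have h1 : (fun τ => ENNReal.ofReal (Ψ (dis x τ).toReal)) =ᵐ[volume.restrict (Ioi (0 : ℝ))]
      fun τ => ENNReal.ofReal (Ψ (dis y τ).toReal) := by
    refine ae_eq_of_ae_le_of_lintegral_le (Filter.Eventually.of_forall fun τ => ?_) hfin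
      (hm y).aemeasurable hle
    refine ENNReal.ofReal_le_ofReal ?_
    exact h.mono (dis_toReal_mem x τ) (dis_toReal_mem y τ)
      (ENNReal.toReal_mono (μT_ne_top _) (dis_mono hxy τ))
  filter_upwards [h1] with τ hτ
  have h4 := congrArg ENNReal.toReal hτ
  rwa [ENNReal.toReal_ofReal (h.nonneg (dis_toReal_mem x τ)),
    ENNReal.toReal_ofReal (h.nonneg (dis_toReal_mem y τ))] at h4

theorem ofReal_min' (a b : ℝ) : ENNReal.ofReal (min a b) = min (ENNReal.ofReal a) (ENNReal.ofReal b) :=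
  ENNReal.ofReal_mono.map_min

theorem IsWt.K_eq_of (h : IsWt Ψ) {x y : ℝ → ℝ} (hxy : ∀ᵐ t ∂μT, x t ≤ y t)
    (hpsi : ∀ᵐ τ ∂(volume.restrict (Ioi (0 : ℝ))), Ψ (dis x τ).toReal = Ψ (dis y τ).toReal)
    {s : ℝ} (hs : s ≤ flat Ψ) : K s x = K s y := by
  unfold K
  refine lintegral_congr_ae ?_
  filter_upwards [hpsi] with τ hτ
  have h1 := h.min_eq (dis_toReal_mem x τ) (dis_toReal_mem y τ)
    (ENNReal.toReal_mono (μT_ne_top _) (dis_mono hxy τ)) hτ hs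
  have h2 := congrArg ENNReal.ofReal h1
  rwa [ofReal_min', ofReal_min', ENNReal.ofReal_toReal (show dis x τ ≠ ∞ from μT_ne_top _),
    ENNReal.ofReal_toReal (show dis y τ ≠ ∞ from μT_ne_top _)] at h2

theorem IsWt.Mx_eq_of (h : IsWt Ψ) (hk : 0 < kap Ψ) {x y : ℝ → ℝ} (hxy : ∀ᵐ t ∂μT, x t ≤ y t)
    (hpsi : ∀ᵐ τ ∂(volume.restrict (Ioi (0 : ℝ))), Ψ (dis x τ).toReal = Ψ (dis y τ).toReal) :
    Mx y ≤ Mx x := by
  unfold Mx
  have hiff : ∀ᵐ τ ∂(volume.restrict (Ioi (0 : ℝ))), dis y τ ≠ 0 → dis x τ ≠ 0 := by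
    filter_upwards [hpsi] with τ hτ hy hx
    have h1 : 0 < (dis y τ).toReal := ENNReal.toReal_pos hy (μT_ne_top _)
    have h2 := h.kap_le h1 (dis_toReal_mem y τ).2
    rw [← hτ, hx, ENNReal.toReal_zero, h.zero] at h2
    linarith
  have h1 : ∀ z : ℝ → ℝ, volume ({τ | dis z τ ≠ 0} ∩ Ioi 0)
      = (volume.restrict (Ioi (0 : ℝ))) {τ | dis z τ ≠ 0} := by
    intro z
    have hms : MeasurableSet {τ | dis z τ ≠ 0} := (dis_meas z) (measurableSet_singleton 0).compl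
    exact (Measure.restrict_apply hms).symm
  rw [h1, h1]
  exact measure_mono_ae hiff

/-- A top set of `2u` on which the integrals agree. -/
theorem eq_on_top {u x y : ℝ → ℝ} (hu : Measurable u) (hx : Measurable x) (hy : Measurable y)
    (hu0 : ∀ t, 0 ≤ u t) (hx0 : ∀ t, 0 ≤ x t) (hy0 : ∀ t, 0 ≤ y t)
    (hle : ∀ᵐ t ∂μT, 2 * u t ≤ x t + y t)
    (hfin : ∫⁻ t, ENNReal.ofReal (2 * u t) ∂μT ≠ ∞) {s : ℝ}
    (hK : K s (fun t => 2 * u t) = K s (fun t => x t + y t))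
    {E : Set ℝ} (hE : MeasurableSet E) (hm : μT E = ENNReal.ofReal s) (hT : Top E u) :
    (∀ᵐ t ∂μT, t ∈ E → 2 * u t = x t + y t) ∧
    K s (fun t => x t + y t) = ∫⁻ t in E, ENNReal.ofReal (x t + y t) ∂μT := by
  have hT2 : Top E (fun t => 2 * u t) := by
    filter_upwards [hT] with t ht htE
    filter_upwards [ht htE] with t' ht' htE'
    have := ht' htE'
    linarith
  have h1 := hT2.setInt_eq (hu.const_mul 2) (fun t => by have := hu0 t; positivity) hE hm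
  have h2 : ∫⁻ t in E, ENNReal.ofReal (x t + y t) ∂μT ≤ K s (fun t => x t + y t) :=
    setInt_le_K (hx.add hy) (fun t => add_nonneg (hx0 t) (hy0 t)) hE hm.le
  have hleE : ∀ᵐ t ∂(μT.restrict E), ENNReal.ofReal (2 * u t) ≤ ENNReal.ofReal (x t + y t) := by
    filter_upwards [ae_restrict_of_ae hle] with t ht
    exact ENNReal.ofReal_le_ofReal ht
  have hfE : ∫⁻ t in E, ENNReal.ofReal (2 * u t) ∂μT ≠ ∞ :=
    ne_top_of_le_ne_top hfin (setLIntegral_le_lintegral _ _)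
  constructor
  · have h3 := ae_eq_of_ae_le_of_lintegral_le hleE hfE
      ((hx.add hy).ennreal_ofReal.aemeasurable) (by rw [h1, hK]; exact h2)
    have h4 := (ae_restrict_iff' hE).1 h3
    filter_upwards [h4] with t ht htE
    exact (ENNReal.ofReal_eq_ofReal_iff (by have := hu0 t; positivity)
      (add_nonneg (hx0 t) (hy0 t))).1 (ht htE)
  · refine le_antisymm ?_ h2
    rw [← hK, ← h1]
    exact lintegral_mono_ae hleE

theorem top_of_top {x y : ℝ → ℝ} (hx : Measurable x) (hy : Measurable y) (hx0 : ∀ t, 0 ≤ x t)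
    (hy0 : ∀ t, 0 ≤ y t) (hxf : ∫⁻ t, ENNReal.ofReal (x t) ∂μT ≠ ∞)
    (hyf : ∫⁻ t, ENNReal.ofReal (y t) ∂μT ≠ ∞) {s : ℝ}
    (h : K s x + K s y ≤ K s (fun t => x t + y t)) {E : Set ℝ} (hE : MeasurableSet E)
    (hm : μT E = ENNReal.ofReal s)
    (hint : K s (fun t => x t + y t) = ∫⁻ t in E, ENNReal.ofReal (x t + y t) ∂μT) :
    Top E x ∧ Top E y := by
  have h3 : ∫⁻ t in E, ENNReal.ofReal (x t + y t) ∂μT
      = ∫⁻ t in E, ENNReal.ofReal (x t) ∂μT + ∫⁻ t in E, ENNReal.ofReal (y t) ∂μT := by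
    rw [← lintegral_add_left (by fun_prop)]
    refine lintegral_congr fun t => ENNReal.ofReal_add (hx0 t) (hy0 t)
  have h4 : K s x + K s y ≤ ∫⁻ t in E, ENNReal.ofReal (x t) ∂μT
      + ∫⁻ t in E, ENNReal.ofReal (y t) ∂μT := by
    rw [← h3, ← hint]
    exact h
  have hKx : K s x ≠ ∞ := ne_top_of_le_ne_top hxf (K_le_int hx hx0 s)
  have hKy : K s y ≠ ∞ := ne_top_of_le_ne_top hyf (K_le_int hy hy0 s)
  have ha := setInt_le_K hx hx0 hE hm.le
  have hb := setInt_le_K hy hy0 hE hm.le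
  refine ⟨?_, ?_⟩
  · refine top_of_setInt hx hx0 hxf hE hm ?_
    have h5 : K s x + K s y ≤ ∫⁻ t in E, ENNReal.ofReal (x t) ∂μT + K s y :=
      h4.trans (add_le_add le_rfl hb)
    exact (ENNReal.add_le_add_iff_right hKy).1 h5
  · refine top_of_setInt hy hy0 hyf hE hm ?_
    have h5 : K s x + K s y ≤ K s x + ∫⁻ t in E, ENNReal.ofReal (y t) ∂μT :=
      h4.trans (add_le_add ha le_rfl)
    exact (ENNReal.add_le_add_iff_left hKx).1 h5

/-- The values of `x` on a top set and outside of it are separated by a threshold. -/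
theorem Top.threshold {E : Set ℝ} {x : ℝ → ℝ} (hx : Measurable x) (hx0 : ∀ t, 0 ≤ x t)
    (hE : MeasurableSet E) (h : Top E x) (h1 : μT E ≠ 0) :
    ∃ p : ℝ, 0 ≤ p ∧ (∀ᵐ t ∂μT, t ∈ E → p ≤ x t) ∧ ∀ᵐ t ∂μT, t ∉ E → x t ≤ p := by
  -- a positive part of `E` on which `x` is bounded
  have hbd : ∃ N : ℕ, μT (E ∩ {t | x t < N}) ≠ 0 := by
    by_contra hno
    push Not at hno
    apply h1
    have h2 : E ⊆ ⋃ N : ℕ, E ∩ {t | x t < N} := by
      intro t ht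
      obtain ⟨N, hN⟩ := exists_nat_gt (x t)
      exact mem_iUnion.2 ⟨N, ht, hN⟩
    exact measure_mono_null h2 (measure_iUnion_null hno)
  obtain ⟨N, hN⟩ := hbd
  have hpick : ∀ {A : Set ℝ} {P : ℝ → Prop}, μT A ≠ 0 → (∀ᵐ t ∂μT, P t) → ∃ t, t ∈ A ∧ P t := by
    intro A P hA hP
    by_contra hno
    push Not at hno
    exact hA (measure_mono_null (fun t ht => hno t ht) hP)
  set A : Set ℝ := {τ | ∀ᵐ t ∂μT, t ∈ E → τ ≤ x t} with hA
  have hA0 : (0 : ℝ) ∈ A := by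
    show ∀ᵐ t ∂μT, t ∈ E → 0 ≤ x t
    exact Filter.Eventually.of_forall fun t _ => hx0 t
  have hAb : BddAbove A := by
    refine ⟨N, fun τ hτ => ?_⟩
    obtain ⟨t, ht, ht'⟩ := hpick hN hτ
    have ht2 : x t < N := ht.2
    exact (ht' ht.1).trans ht2.le
  refine ⟨sSup A, le_csSup hAb hA0, ?_, ?_⟩
  · have h2 : ∀ n : ℕ, ∀ᵐ t ∂μT, t ∈ E → sSup A - 1 / ((n : ℝ) + 1) ≤ x t := by
      intro n
      obtain ⟨τ, hτ, hτ'⟩ := exists_lt_of_lt_csSup ⟨0, hA0⟩
        (show sSup A - 1 / ((n : ℝ) + 1) < sSup A by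
          have : (0 : ℝ) < 1 / ((n : ℝ) + 1) := by positivity
          linarith)
      have hτ2 : ∀ᵐ t ∂μT, t ∈ E → τ ≤ x t := hτ
      filter_upwards [hτ2] with t ht htE
      exact hτ'.le.trans (ht htE)
    filter_upwards [ae_all_iff.2 h2] with t ht htE
    by_contra hlt
    rw [not_le] at hlt
    obtain ⟨n, hn⟩ := exists_nat_one_div_lt (sub_pos.2 hlt)
    have := ht n htE
    linarith
  · have h2 : ∀ n : ℕ, ∀ᵐ t ∂μT, t ∉ E → x t ≤ sSup A + 1 / ((n : ℝ) + 1) := by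
      intro n
      have hpos : (0 : ℝ) < 1 / ((n : ℝ) + 1) := by positivity
      have h3 : μT (E ∩ {t | x t < sSup A + 1 / ((n : ℝ) + 1)}) ≠ 0 := by
        intro h4
        have h5 : sSup A + 1 / ((n : ℝ) + 1) ∈ A := by
          have h6 : ∀ᵐ t ∂μT, ¬ (t ∈ E ∩ {t | x t < sSup A + 1 / ((n : ℝ) + 1)}) :=
            measure_eq_zero_iff_ae_notMem.1 h4
          filter_upwards [h6] with t ht htE
          by_contra hlt
          rw [not_le] at hlt
          exact ht ⟨htE, hlt⟩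
        have h6 := le_csSup hAb h5
        linarith
      obtain ⟨t, ht, ht'⟩ := hpick h3 h
      have ht2 : x t < sSup A + 1 / ((n : ℝ) + 1) := ht.2
      filter_upwards [ht' ht.1] with t' ht3 ht4
      exact (ht3 ht4).trans ht2.le
    filter_upwards [ae_all_iff.2 h2] with t ht htE
    by_contra hlt
    rw [not_le] at hlt
    obtain ⟨n, hn⟩ := exists_nat_one_div_lt (sub_pos.2 hlt)
    have := ht n htE
    linarith

/-- Nested top sets. -/
theorem Top.nested {E : Set ℝ} {x : ℝ → ℝ} (hx : Measurable x) (hx0 : ∀ t, 0 ≤ x t)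
    (hE : MeasurableSet E) (h : Top E x) {a s : ℝ} (hm : μT E = ENNReal.ofReal a)
    (ha : a ≤ 2 * π) (hs : 0 ≤ s) (hsa : s < a) :
    ∃ E' ⊆ E, MeasurableSet E' ∧ μT E' = ENNReal.ofReal s ∧ Top E' x := by
  classical
  set z : ℝ → ℝ := fun t => if t ∈ E then x t + 1 else 0 with hz
  have hzm : Measurable z := Measurable.ite hE (hx.add_const 1) measurable_const
  have hz0 : ∀ t, 0 ≤ z t := by
    intro t
    simp only [hz]
    split_ifs
    · have := hx0 t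
      linarith
    · exact le_rfl
  obtain ⟨E₁, hE₁, hT₁, hm₁⟩ := exists_top hzm hz0 hs (hsa.le.trans ha)
  -- `E₁` lies in `E`
  have hnull : μT (E₁ \ E) = 0 := by
    by_contra hne
    have hpick : ∃ t, t ∈ E₁ \ E ∧ (t ∈ E₁ → ∀ᵐ t' ∂μT, t' ∉ E₁ → z t' ≤ z t) := by
      by_contra hno
      exact hne (measure_mono_null (fun t ht => fun hc => hno ⟨t, ht, hc⟩) hT₁)
    obtain ⟨t, ht, ht'⟩ := hpick
    have h1 : ∀ᵐ t' ∂μT, t' ∈ E → t' ∈ E₁ := by
      filter_upwards [ht' ht.1] with t' h2 h3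
      by_contra h4
      have h5 := h2 h4
      simp only [hz, if_pos h3, if_neg ht.2] at h5
      have := hx0 t'
      linarith
    have h2 : μT E ≤ μT E₁ := measure_mono_ae h1
    rw [hm, hm₁, ENNReal.ofReal_le_ofReal_iff hs] at h2
    linarith
  have hmeas : μT (E₁ ∩ E) = ENNReal.ofReal s := by
    have h1 : μT (E₁ ∩ E) + μT (E₁ \ E) = μT E₁ := measure_inter_add_sdiff _ hE
    rw [hnull, add_zero, hm₁] at h1
    exact h1
  refine ⟨E₁ ∩ E, inter_subset_right, hE₁.inter hE, hmeas, ?_⟩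
  have hnull' : ∀ᵐ t ∂μT, ¬ (t ∈ E₁ \ E) := measure_eq_zero_iff_ae_notMem.1 hnull
  filter_upwards [hT₁, h] with t h1 h2 ht
  filter_upwards [h1 ht.1, h2 ht.2, hnull'] with t' h3 h4 h5 h6
  by_cases h7 : t' ∈ E
  · have h8 : t' ∉ E₁ := fun h9 => h6 ⟨h9, h7⟩
    have h9 := h3 h8
    simp only [hz, if_pos h7, if_pos ht.2] at h9
    linarith
  · exact h4 h7

end Pool.Agent.H352R5.HL
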