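import Pool.Agent.H352R5.HL.Gen0

/-!
# Characterisation of the extreme points for general weights
-/

namespace Pool.Agent.H352R5.HL

open MeasureTheory Set Filter Topology
open scoped ENNReal NNReal Real

variable {Ψ : ℝ → ℝ}

/-- Admissible perturbations `g` of `f`. -/
def Adm (Ψ : ℝ → ℝ) (f g : ℝ → ℂ) : Prop :=
  ∃ (E : Set ℝ) (k : ℝ → ℝ) (l C : ℝ), MeasurableSet E ∧ Measurable k ∧
    μT E = ENNReal.ofReal (flat Ψ) ∧ 0 ≤ l ∧ 0 ≤ C ∧
    (∀ M, (∀ᵐ t ∂μT, ‖f t‖ ≤ M) → l ≤ M) ∧
    (∀ᵐ t ∂μT, t ∈ E → g t = (k t : ℂ) * f t ∧ l ≤ ‖f t‖ ∧ |k t * ‖f t‖| ≤ C * (‖f t‖ - l)) ∧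
    (∀ᵐ t ∂μT, t ∉ E → ‖f t + g t‖ ≤ l ∧ ‖f t - g t‖ ≤ l) ∧
    (∀ s, Bend Ψ s → s < flat Ψ → ∃ E' ⊆ E, MeasurableSet E' ∧ μT E' = ENNReal.ofReal s ∧
      ∀ᵐ t ∂μT, t ∈ E' → ∀ᵐ t' ∂μT, t' ∈ E \ E' →
        ‖f t'‖ ≤ ‖f t‖ ∧ |k t * ‖f t‖ - k t' * ‖f t'‖| ≤ C * (‖f t‖ - ‖f t'‖)) ∧
    (0 < kap Ψ → ∃ M c : ℝ, (∀ᵐ t ∂μT, ‖f t‖ ≤ M) ∧ (∀ M', (∀ᵐ t ∂μT, ‖f t‖ ≤ M') → M ≤ M') ∧
      ∀ᵐ t ∂μT, t ∈ E → |k t * ‖f t‖ - c| ≤ C * (M - ‖f t‖))

theorem neBot_μT : (ae μT).NeBot := by
  rw [ae_neBot]
  intro h3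
  have h4 := μT_univ
  rw [h3] at h4
  simp only [Measure.coe_zero, Pi.zero_apply] at h4
  have h5 := ENNReal.ofReal_pos.2 two_pi_pos
  rw [← h4] at h5
  exact lt_irrefl _ h5

/-- If `f ± g` have norms whose sum is at most two, then `g` is a real multiple of the extreme
point `f`. -/
theorem Extr.mult (h : IsWt Ψ) (hpos : 0 < Ψ (2 * π)) {f g : ℝ → ℂ} (hf : Extr Ψ f)
    (hg : InH Ψ g) (hle : lor Ψ (fun t => ‖f t + g t‖) + lor Ψ (fun t => ‖f t - g t‖) ≤ 2) :
    ∃ c : ℝ, ∀ᵐ t ∂μT, g t = (c : ℂ) * f t := by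
  have hnorm := hf.norm_eq h hpos
  set f₁ : ℝ → ℂ := fun t => ((1 : ℝ) : ℂ) * f t + ((1 : ℝ) : ℂ) * g t with hf₁
  set f₂ : ℝ → ℂ := fun t => ((1 : ℝ) : ℂ) * f t + ((-1 : ℝ) : ℂ) * g t with hf₂
  have hf₁H : InH Ψ f₁ := hf.1.1.lin h hpos hg 1 1
  have hf₂H : InH Ψ f₂ := hf.1.1.lin h hpos hg 1 (-1)
  have e₁ : (fun t => ‖f₁ t‖) = fun t => ‖f t + g t‖ := by
    ext t
    simp only [hf₁]
    norm_num
  have e₂ : (fun t => ‖f₂ t‖) = fun t => ‖f t - g t‖ := by
    ext t
    have h1 : f₂ t = f t - g t := by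
      simp only [hf₂]
      push_cast
      ring
    rw [h1]
  rw [← e₁, ← e₂] at hle
  have hxfin : lor Ψ (fun t => ‖f₁ t‖) ≠ ∞ := hf₁H.fin
  have hyfin : lor Ψ (fun t => ‖f₂ t‖) ≠ ∞ := hf₂H.fin
  set a := (lor Ψ (fun t => ‖f₁ t‖)).toReal with ha
  set b := (lor Ψ (fun t => ‖f₂ t‖)).toReal with hb
  have haeq : lor Ψ (fun t => ‖f₁ t‖) = ENNReal.ofReal a := (ENNReal.ofReal_toReal hxfin).symm
  have hbeq : lor Ψ (fun t => ‖f₂ t‖) = ENNReal.ofReal b := (ENNReal.ofReal_toReal hyfin).symm
  have ha0 : 0 ≤ a := ENNReal.toReal_nonneg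
  have hb0 : 0 ≤ b := ENNReal.toReal_nonneg
  have hge : (2 : ℝ≥0∞) ≤ lor Ψ (fun t => ‖f₁ t‖) + lor Ψ (fun t => ‖f₂ t‖) := by
    have h1 : lor Ψ (fun t => 2 * ‖f t‖) = 2 := by
      rw [lor_smul (by norm_num), hnorm]
      norm_num
    rw [← h1]
    refine (h.lor_mono (Filter.Eventually.of_forall fun t => ?_)).trans
      (h.lor_add_le hf₁H.meas.norm hf₂H.meas.norm (fun t => norm_nonneg _) (fun t => norm_nonneg _))
    have h2 : f₁ t + f₂ t = 2 * f t := by
      simp only [hf₁, hf₂]
      push_cast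
      ring
    have h3 := norm_add_le (f₁ t) (f₂ t)
    rw [h2, norm_mul] at h3
    simpa using h3
  have hab : a + b = 2 := by
    have h1 : ENNReal.ofReal (a + b) = ENNReal.ofReal 2 := by
      rw [ENNReal.ofReal_add ha0 hb0, ← haeq, ← hbeq]
      have h2 : ENNReal.ofReal 2 = 2 := by norm_num
      rw [h2]
      exact le_antisymm hle hge
    have h2 := congrArg ENNReal.toReal h1
    rwa [ENNReal.toReal_ofReal (by linarith), ENNReal.toReal_ofReal (by norm_num)] at h2
  -- the general step: a norm at least one on the second half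
  have step : ∀ (p q : ℝ → ℂ) (a b : ℝ), InH Ψ p → InH Ψ q → 0 ≤ a → 1 ≤ b → a + b = 2 →
      lor Ψ (fun t => ‖p t‖) = ENNReal.ofReal a → lor Ψ (fun t => ‖q t‖) = ENNReal.ofReal b →
      (∀ t, f t = (p t + q t) / 2) → ∀ᵐ t ∂μT, q t = (b : ℂ) * f t := by
    intro p q a b hp hq ha0 hb1 hab hpn hqn hpq
    have hb0 : 0 < b := by linarith
    set g₂ : ℝ → ℂ := fun t => ((0 : ℝ) : ℂ) * p t + ((b⁻¹ : ℝ) : ℂ) * q t with hg₂
    set g₃ : ℝ → ℂ := fun t => ((1 : ℝ) : ℂ) * p t + (((b - 1) * b⁻¹ : ℝ) : ℂ) * q t with hg₃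
    have hB2 : Ball Ψ g₂ := by
      refine ⟨hp.lin h hpos hq 0 b⁻¹, ?_⟩
      have h1 : (fun t => ‖g₂ t‖) = fun t => b⁻¹ * ‖q t‖ := by
        ext t
        simp only [hg₂]
        rw [Complex.ofReal_zero, zero_mul, zero_add, norm_mul, Complex.norm_real,
          Real.norm_eq_abs, abs_of_pos (inv_pos.2 hb0)]
      rw [h1, lor_smul (inv_pos.2 hb0), hqn, ← ENNReal.ofReal_mul (inv_pos.2 hb0).le,
        inv_mul_cancel₀ hb0.ne', ENNReal.ofReal_one]
    have hB3 : Ball Ψ g₃ := by
      refine ⟨hp.lin h hpos hq 1 ((b - 1) * b⁻¹), ?_⟩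
      have hcoef : 0 ≤ (b - 1) * b⁻¹ := mul_nonneg (by linarith) (inv_pos.2 hb0).le
      have h1 : lor Ψ (fun t => ‖g₃ t‖) ≤ lor Ψ (fun t => ‖p t‖ + ((b - 1) * b⁻¹) * ‖q t‖) := by
        refine h.lor_mono (Filter.Eventually.of_forall fun t => ?_)
        refine (norm_add_le _ _).trans ?_
        rw [norm_mul, norm_mul, Complex.norm_real, Complex.norm_real, Real.norm_eq_abs,
          Real.norm_eq_abs, abs_one, one_mul, abs_of_nonneg hcoef]
      have h2 := h.lor_add_le (x := fun t => ‖p t‖) (y := fun t => ((b - 1) * b⁻¹) * ‖q t‖)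
        hp.meas.norm (hq.meas.norm.const_mul _) (fun t => norm_nonneg _)
        (fun t => mul_nonneg hcoef (norm_nonneg _))
      have h3 : lor Ψ (fun t => ((b - 1) * b⁻¹) * ‖q t‖) = ENNReal.ofReal (b - 1) := by
        rcases hcoef.eq_or_lt with h4 | h4
        · have h5 : b - 1 = 0 := by
            rcases mul_eq_zero.1 h4.symm with h6 | h6
            · exact h6
            · exact absurd h6 (inv_pos.2 hb0).ne'
          simp only [← h4, zero_mul]
          rw [lor_zero h, h5, ENNReal.ofReal_zero]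
        · rw [lor_smul h4, hqn, ← ENNReal.ofReal_mul h4.le]
          congr 1
          field_simp
      rw [h3, hpn, ← ENNReal.ofReal_add ha0 (by linarith)] at h2
      refine h1.trans (h2.trans ?_)
      rw [← ENNReal.ofReal_one]
      refine ENNReal.ofReal_le_ofReal (by linarith)
    have h1 := hf.2 g₂ g₃ hB2 hB3 (Filter.Eventually.of_forall fun t => by
      rw [hpq t]
      simp only [hg₂, hg₃]
      have hb2 : (b : ℂ) ≠ 0 := by exact_mod_cast hb0.ne'
      push_cast
      field_simp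
      ring)
    filter_upwards [h1] with t ht
    have h2 : f t = (g₂ t + g₃ t) / 2 := by
      rw [hpq t]
      simp only [hg₂, hg₃]
      have hb2 : (b : ℂ) ≠ 0 := by exact_mod_cast hb0.ne'
      push_cast
      field_simp
      ring
    have h3 : f t = g₂ t := by
      rw [h2, ← ht]
      ring
    rw [h3]
    simp only [hg₂]
    have hb2 : (b : ℂ) ≠ 0 := by exact_mod_cast hb0.ne'
    push_cast
    field_simp
    ring
  rcases le_total 1 b with hb2 | hb2
  · have h1 := step f₁ f₂ a b hf₁H hf₂H ha0 hb2 hab haeq hbeq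
      (fun t => by simp only [hf₁, hf₂]; push_cast; ring)
    refine ⟨1 - b, ?_⟩
    filter_upwards [h1] with t ht
    simp only [hf₂] at ht
    push_cast at ht ⊢
    linear_combination -ht
  · have h1 := step f₂ f₁ b a hf₂H hf₁H hb0 (by linarith) (by linarith) hbeq haeq
      (fun t => by simp only [hf₁, hf₂]; push_cast; ring)
    refine ⟨a - 1, ?_⟩
    filter_upwards [h1] with t ht
    simp only [hf₁] at ht
    push_cast at ht ⊢
    linear_combination ht

/-- An extreme point has no admissible perturbations except its real multiples. -/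
theorem Extr.adm (h : IsWt Ψ) (hpos : 0 < Ψ (2 * π)) {f g : ℝ → ℂ} (hf : Extr Ψ f)
    (hg : InH Ψ g) (hA : Adm Ψ f g) : ∃ c : ℝ, ∀ᵐ t ∂μT, g t = (c : ℂ) * f t := by
  obtain ⟨E, k, l, C, hE, -, hEm, hl0, hC0, hlM, hon, hoff, hbend, hkap⟩ := hA
  have hnorm := hf.norm_eq h hpos
  set ε : ℝ := 1 / (C + 1) with hε
  have hε0 : 0 < ε := by positivity
  have hεC : ε * C ≤ 1 := by
    rw [hε, div_mul_eq_mul_div, one_mul, div_le_one (by positivity)]
    linarith
  have hε1 : ε ≤ 1 := by
    rw [hε, div_le_one (by positivity)]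
    linarith
  set u : ℝ → ℝ := fun t => ‖f t‖ with hu
  have hum : Measurable u := hf.1.1.meas.norm
  have hu0 : ∀ t, 0 ≤ u t := fun t => norm_nonneg _
  set G : ℝ → ℂ := fun t => ((0 : ℝ) : ℂ) * f t + (ε : ℂ) * g t with hG
  have hGH : InH Ψ G := hf.1.1.lin h hpos hg 0 ε
  have hGe : ∀ t, G t = (ε : ℂ) * g t := fun t => by simp [hG]
  set x : ℝ → ℝ := fun t => ‖f t + G t‖ with hx
  set y : ℝ → ℝ := fun t => ‖f t - G t‖ with hy
  have hxm : Measurable x := (hf.1.1.meas.add hGH.meas).norm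
  have hym : Measurable y := (hf.1.1.meas.sub hGH.meas).norm
  have hx0 : ∀ t, 0 ≤ x t := fun t => norm_nonneg _
  have hy0 : ∀ t, 0 ≤ y t := fun t => norm_nonneg _
  -- on `E`
  have hon' : ∀ᵐ t ∂μT, t ∈ E → x t = u t + ε * (k t * u t) ∧ y t = u t - ε * (k t * u t) ∧
      l ≤ x t ∧ l ≤ y t ∧ l ≤ u t := by
    filter_upwards [hon] with t ht htE
    obtain ⟨h1, h2, h3⟩ := ht htE
    have h4 : |ε * (k t * u t)| ≤ u t - l := by
      rw [abs_mul, abs_of_pos hε0]
      calc ε * |k t * u t| ≤ ε * (C * (u t - l)) := mul_le_mul_of_nonneg_left h3 hε0.le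
        _ = ε * C * (u t - l) := by ring
        _ ≤ 1 * (u t - l) := mul_le_mul_of_nonneg_right hεC (by simp only [hu]; linarith)
        _ = u t - l := one_mul _
    obtain ⟨h5, h6⟩ := abs_le.1 h4
    have hx' : x t = u t + ε * (k t * u t) := by
      have h7 : f t + G t = ((1 + ε * k t : ℝ) : ℂ) * f t := by
        rw [hGe, h1]
        push_cast
        ring
      simp only [hx]
      rw [h7, norm_mul, Complex.norm_real, Real.norm_eq_abs]
      have h8 : |1 + ε * k t| * ‖f t‖ = |(1 + ε * k t) * ‖f t‖| := by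
        rw [abs_mul, abs_of_nonneg (norm_nonneg (f t))]
      rw [h8]
      have h9 : (1 + ε * k t) * ‖f t‖ = u t + ε * (k t * u t) := by
        simp only [hu]
        ring
      rw [h9, abs_of_nonneg (by linarith)]
    have hy' : y t = u t - ε * (k t * u t) := by
      have h7 : f t - G t = ((1 - ε * k t : ℝ) : ℂ) * f t := by
        rw [hGe, h1]
        push_cast
        ring
      simp only [hy]
      rw [h7, norm_mul, Complex.norm_real, Real.norm_eq_abs]
      have h8 : |1 - ε * k t| * ‖f t‖ = |(1 - ε * k t) * ‖f t‖| := by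
        rw [abs_mul, abs_of_nonneg (norm_nonneg (f t))]
      rw [h8]
      have h9 : (1 - ε * k t) * ‖f t‖ = u t - ε * (k t * u t) := by
        simp only [hu]
        ring
      rw [h9, abs_of_nonneg (by linarith)]
    refine ⟨hx', hy', ?_, ?_, h2⟩
    · rw [hx']
      linarith
    · rw [hy']
      linarith
  -- off `E`
  have hoff' : ∀ᵐ t ∂μT, t ∉ E → x t ≤ l ∧ y t ≤ l ∧ u t ≤ l := by
    filter_upwards [hoff] with t ht htE
    obtain ⟨h1, h2⟩ := ht htE
    have e1 : f t + G t = (((1 + ε) / 2 : ℝ) : ℂ) * (f t + g t)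
        + (((1 - ε) / 2 : ℝ) : ℂ) * (f t - g t) := by
      rw [hGe]
      push_cast
      ring
    have e2 : f t - G t = (((1 - ε) / 2 : ℝ) : ℂ) * (f t + g t)
        + (((1 + ε) / 2 : ℝ) : ℂ) * (f t - g t) := by
      rw [hGe]
      push_cast
      ring
    have e3 : f t = (((1 / 2 : ℝ)) : ℂ) * (f t + g t) + (((1 / 2 : ℝ)) : ℂ) * (f t - g t) := by
      push_cast
      ring
    have key : ∀ a b : ℝ, 0 ≤ a → 0 ≤ b → a + b = 1 →
        ‖(a : ℂ) * (f t + g t) + (b : ℂ) * (f t - g t)‖ ≤ l := by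
      intro a b ha hb hab
      refine (norm_add_le _ _).trans ?_
      rw [norm_mul, norm_mul, Complex.norm_real, Complex.norm_real, Real.norm_eq_abs,
        Real.norm_eq_abs, abs_of_nonneg ha, abs_of_nonneg hb]
      calc a * ‖f t + g t‖ + b * ‖f t - g t‖ ≤ a * l + b * l :=
            add_le_add (mul_le_mul_of_nonneg_left h1 ha) (mul_le_mul_of_nonneg_left h2 hb)
        _ = (a + b) * l := by ring
        _ = l := by rw [hab, one_mul]
    refine ⟨?_, ?_, ?_⟩
    · simp only [hx]
      rw [e1]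
      exact key _ _ (by linarith) (by linarith) (by ring)
    · simp only [hy]
      rw [e2]
      exact key _ _ (by linarith) (by linarith) (by ring)
    · simp only [hu]
      rw [e3]
      exact key _ _ (by norm_num) (by norm_num) (by norm_num)
  have htri : ∀ t, 2 * u t ≤ x t + y t := by
    intro t
    have h1 : (f t + G t) + (f t - G t) = 2 * f t := by ring
    have h2 := norm_add_le (f t + G t) (f t - G t)
    rw [h1, norm_mul] at h2
    simpa [hx, hy, hu] using h2
  -- equality in the triangle inequality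
  have hcommon : lor Ψ x + lor Ψ y ≤ lor Ψ (fun t => x t + y t) := by
    refine h.eq_of_common hxm hym hx0 hy0 ?_ ?_
    · intro s hsB
      rcases (h.bend_le hsB).eq_or_lt with hs | hs
      · refine ⟨E, hE, by rw [hs]; exact hEm, ?_, ?_⟩
        · filter_upwards [hon'] with t h1 htE
          filter_upwards [hoff'] with t' h2 htE'
          exact (h2 htE').1.trans (h1 htE).2.2.1
        · filter_upwards [hon'] with t h1 htE
          filter_upwards [hoff'] with t' h2 htE'
          exact (h2 htE').2.1.trans (h1 htE).2.2.2.1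
      · obtain ⟨E', hE'E, hE'm, hE's, hsep⟩ := hbend s hsB hs
        have hmain : ∀ᵐ t ∂μT, t ∈ E' → ∀ᵐ t' ∂μT, t' ∉ E' → x t' ≤ x t ∧ y t' ≤ y t := by
          filter_upwards [hsep, hon'] with t h1 h2 htE
          filter_upwards [h1 htE, hon', hoff'] with t' h3 h4 h5 htE'
          by_cases h6 : t' ∈ E
          · obtain ⟨h7, h8⟩ := h3 ⟨h6, htE'⟩
            obtain ⟨a1, a2, -⟩ := h2 (hE'E htE)
            obtain ⟨b1, b2, -⟩ := h4 h6
            have h9 : |ε * (k t * u t - k t' * u t')| ≤ u t - u t' := by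
              rw [abs_mul, abs_of_pos hε0]
              calc ε * |k t * u t - k t' * u t'| ≤ ε * (C * (u t - u t')) :=
                    mul_le_mul_of_nonneg_left h8 hε0.le
                _ = ε * C * (u t - u t') := by ring
                _ ≤ 1 * (u t - u t') :=
                    mul_le_mul_of_nonneg_right hεC (by simp only [hu]; linarith)
                _ = u t - u t' := one_mul _
            obtain ⟨c1, c2⟩ := abs_le.1 h9
            rw [a1, a2, b1, b2]
            constructor <;> nlinarith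
          · obtain ⟨b1, b2, -⟩ := h5 h6
            obtain ⟨-, -, a1, a2, -⟩ := h2 (hE'E htE)
            exact ⟨b1.trans a1, b2.trans a2⟩
        refine ⟨E', hE'm, hE's, ?_, ?_⟩
        · filter_upwards [hmain] with t h1 htE
          filter_upwards [h1 htE] with t' h2 htE'
          exact (h2 htE').1
        · filter_upwards [hmain] with t h1 htE
          filter_upwards [h1 htE] with t' h2 htE'
          exact (h2 htE').2
    · intro hk
      obtain ⟨M, c, hM1, hM2, hM3⟩ := hkap hk
      have := neBot_μT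
      have hM0 : 0 ≤ M := by
        obtain ⟨t, ht⟩ := hM1.exists
        exact (hu0 t).trans ht
      -- the sum of the bounds is at most `2M`
      have hsum : Mx x + Mx y ≤ ENNReal.ofReal (2 * M) := by
        rcases (flat_mem Ψ).1.eq_or_lt with h0 | h0
        · have hnull : ∀ᵐ t ∂μT, t ∉ E := by
            rw [← h0, ENNReal.ofReal_zero] at hEm
            exact measure_eq_zero_iff_ae_notMem.1 hEm
          have h1 : Mx x ≤ ENNReal.ofReal l := (Mx_le_iff hl0).2 (by
            filter_upwards [hoff', hnull] with t h2 h3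
            exact (h2 h3).1)
          have h2 : Mx y ≤ ENNReal.ofReal l := (Mx_le_iff hl0).2 (by
            filter_upwards [hoff', hnull] with t h2 h3
            exact (h2 h3).2.1)
          refine (add_le_add h1 h2).trans ?_
          rw [← ENNReal.ofReal_add hl0 hl0]
          refine ENNReal.ofReal_le_ofReal ?_
          have := hlM M hM1
          linarith
        · have hEpos : μT E ≠ 0 := by
            rw [hEm]
            exact (ENNReal.ofReal_pos.2 h0).ne'
          have hx1 : ∀ᵐ t ∂μT, t ∈ E → x t ≤ M + ε * c ∧ y t ≤ M - ε * c := by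
            filter_upwards [hon', hM1, hM3] with t h1 h2 h3 htE
            obtain ⟨a1, a2, -⟩ := h1 htE
            have h4 : |ε * (k t * u t - c)| ≤ M - u t := by
              rw [abs_mul, abs_of_pos hε0]
              calc ε * |k t * u t - c| ≤ ε * (C * (M - u t)) :=
                    mul_le_mul_of_nonneg_left (h3 htE) hε0.le
                _ = ε * C * (M - u t) := by ring
                _ ≤ 1 * (M - u t) :=
                    mul_le_mul_of_nonneg_right hεC (by simp only [hu]; linarith)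
                _ = M - u t := one_mul _
            obtain ⟨c1, c2⟩ := abs_le.1 h4
            rw [a1, a2]
            constructor <;> nlinarith
          obtain ⟨t₀, ht₀, ht₁, ht₂⟩ : ∃ t, t ∈ E ∧ (t ∈ E → x t ≤ M + ε * c ∧ y t ≤ M - ε * c) ∧
              (t ∈ E → x t = u t + ε * (k t * u t) ∧ y t = u t - ε * (k t * u t) ∧
                l ≤ x t ∧ l ≤ y t ∧ l ≤ u t) := by
            by_contra hno
            apply hEpos
            exact measure_mono_null (fun t ht => fun hc => hno ⟨t, ht, hc.1, hc.2⟩) (hx1.and hon')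
          obtain ⟨b1, b2⟩ := ht₁ ht₀
          obtain ⟨-, -, b3, b4, -⟩ := ht₂ ht₀
          have hp1 : l ≤ M + ε * c := b3.trans b1
          have hp2 : l ≤ M - ε * c := b4.trans b2
          have h1 : Mx x ≤ ENNReal.ofReal (M + ε * c) := (Mx_le_iff (hl0.trans hp1)).2 (by
            filter_upwards [hoff', hx1] with t h2 h3
            by_cases h4 : t ∈ E
            · exact (h3 h4).1
            · exact (h2 h4).1.trans hp1)
          have h2 : Mx y ≤ ENNReal.ofReal (M - ε * c) := (Mx_le_iff (hl0.trans hp2)).2 (by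
            filter_upwards [hoff', hx1] with t h2 h3
            by_cases h4 : t ∈ E
            · exact (h3 h4).2
            · exact (h2 h4).2.1.trans hp2)
          refine (add_le_add h1 h2).trans ?_
          rw [← ENNReal.ofReal_add (hl0.trans hp1) (hl0.trans hp2)]
          exact ENNReal.ofReal_le_ofReal (by linarith)
      refine hsum.trans ?_
      by_contra hlt
      rw [not_le] at hlt
      have hfin : Mx (fun t => x t + y t) ≠ ∞ := ne_top_of_lt hlt
      have h4 : Mx (fun t => x t + y t) = ENNReal.ofReal (Mx (fun t => x t + y t)).toReal :=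
        (ENNReal.ofReal_toReal hfin).symm
      have h5 := (Mx_le_iff ENNReal.toReal_nonneg).1 h4.le
      have h6 := hM2 ((Mx (fun t => x t + y t)).toReal / 2) (by
        filter_upwards [h5] with t ht
        have := htri t
        simp only [hu] at this
        linarith)
      rw [h4] at hlt
      have h7 := (ENNReal.ofReal_lt_ofReal_iff_of_nonneg ENNReal.toReal_nonneg).1 hlt
      linarith
  -- the sum has norm at most two
  have hsum : lor Ψ (fun t => x t + y t) ≤ 2 := by
    have h1 : lor Ψ (fun t => 2 * u t) = 2 := by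
      rw [lor_smul (by norm_num), hnorm]
      norm_num
    rw [← h1]
    unfold lor
    refine setLIntegral_mono' measurableSet_Ioi fun τ hτ => ENNReal.ofReal_le_ofReal ?_
    have hτ0 : (0 : ℝ) < τ := hτ
    rcases le_or_gt (2 * l) τ with h2 | h2
    · refine h.mono (dis_toReal_mem _ _) (dis_toReal_mem _ _)
        (ENNReal.toReal_mono (μT_ne_top _) ?_)
      unfold dis
      refine measure_mono_ae ?_
      filter_upwards [hon', hoff'] with t h3 h4 h5
      have h5' : τ < x t + y t := h5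
      show τ < 2 * u t
      by_cases h6 : t ∈ E
      · obtain ⟨a1, a2, -⟩ := h3 h6
        rw [a1, a2] at h5'
        linarith
      · obtain ⟨b1, b2, -⟩ := h4 h6
        linarith
    · have h3 : ENNReal.ofReal (flat Ψ) ≤ dis (fun t => 2 * u t) τ := by
        rw [← hEm]
        unfold dis
        refine measure_mono_ae ?_
        filter_upwards [hon'] with t h4 h5
        obtain ⟨-, -, -, -, a1⟩ := h4 h5
        show τ < 2 * u t
        linarith
      have h4 : flat Ψ ≤ (dis (fun t => 2 * u t) τ).toReal := by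
        have h5 := ENNReal.toReal_mono (μT_ne_top _) h3
        rwa [ENNReal.toReal_ofReal (flat_mem Ψ).1] at h5
      have h5 : 0 < (dis (fun t => 2 * u t) τ).toReal := by
        refine ENNReal.toReal_pos ?_ (μT_ne_top _)
        intro h6
        have h7 : ∀ᵐ t ∂μT, ‖f t‖ ≤ τ / 2 := by
          have h8 : ∀ᵐ t ∂μT, ¬ (t ∈ {t | τ < 2 * u t}) := measure_eq_zero_iff_ae_notMem.1 h6
          filter_upwards [h8] with t ht
          by_contra hlt
          rw [not_le] at hlt
          exact ht (by show τ < 2 * u t; simp only [hu]; linarith)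
        have := hlM _ h7
        linarith
      rw [h.flat_eq (dis_toReal_mem _ _) h5 h4]
      exact h.le_top (dis_toReal_mem _ _)
  obtain ⟨c, hc⟩ := hf.mult h hpos hGH (hcommon.trans hsum)
  refine ⟨c / ε, ?_⟩
  filter_upwards [hc] with t ht
  rw [hGe] at ht
  have hε2 : (ε : ℂ) ≠ 0 := by exact_mod_cast hε0.ne'
  push_cast
  field_simp
  linear_combination ht

end Pool.Agent.H352R5.HL
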