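import Pool.Agent.H352R5.HL.Gen1

/-!
# Characterisation of the extreme points for general weights: the converse
-/

namespace Pool.Agent.H352R5.HL

open MeasureTheory Set Filter Topology
open scoped ENNReal NNReal Real

variable {Ψ : ℝ → ℝ}

/-- The midpoint structure. -/
theorem exists_adm (h : IsWt Ψ) (hpos : 0 < Ψ (2 * π)) {f g₁ g₂ : ℝ → ℂ} (hf : InH Ψ f)
    (hnorm : lor Ψ (fun t => ‖f t‖) = 1) (hg₁ : Ball Ψ g₁) (hg₂ : Ball Ψ g₂)
    (hmid : ∀ᵐ t ∂μT, f t = (g₁ t + g₂ t) / 2) :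
    ∃ (ρ : ℝ) (g : ℝ → ℂ), InH Ψ g ∧ Adm Ψ f g ∧
      ∀ᵐ t ∂μT, g t = ((g₁ t - g₂ t) / 2 - (ρ : ℂ) * f t) / 2 := by
  have hne := neBot_μT
  set u : ℝ → ℝ := fun t => ‖f t‖ with hu
  have hum : Measurable u := hf.meas.norm
  have hu0 : ∀ t, 0 ≤ u t := fun t => norm_nonneg _
  set x : ℝ → ℝ := fun t => ‖g₁ t‖ with hx
  set y : ℝ → ℝ := fun t => ‖g₂ t‖ with hy
  have hxm : Measurable x := hg₁.1.meas.norm
  have hym : Measurable y := hg₂.1.meas.norm
  have hx0 : ∀ t, 0 ≤ x t := fun t => norm_nonneg _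
  have hy0 : ∀ t, 0 ≤ y t := fun t => norm_nonneg _
  have hle : ∀ᵐ t ∂μT, 2 * u t ≤ x t + y t := by
    filter_upwards [hmid] with t ht
    have h1 : g₁ t + g₂ t = 2 * f t := by
      rw [ht]
      ring
    have h2 := norm_add_le (g₁ t) (g₂ t)
    rw [h1, norm_mul] at h2
    simpa using h2
  have hn2 : lor Ψ (fun t => 2 * u t) = 2 := by
    rw [lor_smul (by norm_num), hnorm]
    norm_num
  have hsum : lor Ψ x + lor Ψ y ≤ 2 := by
    have h1 := add_le_add hg₁.2 hg₂.2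
    refine h1.trans ?_
    norm_num
  have h2le : (2 : ℝ≥0∞) ≤ lor Ψ (fun t => x t + y t) := by
    rw [← hn2]
    exact h.lor_mono hle
  have hadd := h.lor_add_le hxm hym hx0 hy0
  obtain ⟨hcom, hMx⟩ := h.common_of_eq hpos hxm hym hx0 hy0 hg₁.1.fin hg₂.1.fin
    (hsum.trans h2le)
  have hpsi := h.psi_dis_ae hle (by rw [hn2]; norm_num) (by rw [hn2]; exact hadd.trans hsum)
  have hxi := h.int_fin hpos hxm hx0 hg₁.1.fin
  have hyi := h.int_fin hpos hym hy0 hg₂.1.fin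
  have hui : ∫⁻ t, ENNReal.ofReal (2 * u t) ∂μT ≠ ∞ :=
    h.int_fin hpos (hum.const_mul 2) (fun t => by have := hu0 t; positivity)
      (by rw [hn2]; norm_num)
  -- top sets of `u`
  have htop : ∀ s, s ≤ flat Ψ → ∀ E, MeasurableSet E → μT E = ENNReal.ofReal s → Top E u →
      (∀ᵐ t ∂μT, t ∈ E → 2 * u t = x t + y t) ∧ (Bend Ψ s → Top E x ∧ Top E y) := by
    intro s hs E hE hm hT
    have h1 := eq_on_top hum hxm hym hu0 hx0 hy0 hle hui (h.K_eq_of hle hpsi hs) hE hm hT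
    refine ⟨h1.1, fun hB => ?_⟩
    obtain ⟨E₀, a1, a2, a3, a4⟩ := hcom s hB
    exact top_of_top hxm hym hx0 hy0 hxi hyi (add_le_of_common hxm hym hx0 hy0 a1 a2 a3 a4) hE hm h1.2
  obtain ⟨E, hE, hET, hEm⟩ := exists_top hum hu0 (flat_mem Ψ).1 (flat_mem Ψ).2
  obtain ⟨hEeq, hEB⟩ := htop _ le_rfl E hE hEm hET
  -- the supremum when `κ > 0`
  have hMfacts : 0 < kap Ψ → ∃ a b : ℝ, 0 ≤ a ∧ 0 ≤ b ∧ (∀ᵐ t ∂μT, x t ≤ a) ∧
      (∀ᵐ t ∂μT, y t ≤ b) ∧ ∀ M', (∀ᵐ t ∂μT, u t ≤ M') → (a + b) / 2 ≤ M' := by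
    intro hk
    obtain ⟨h1, h2, h3⟩ := hMx hk
    have haeq : Mx x = ENNReal.ofReal (Mx x).toReal := (ENNReal.ofReal_toReal h2).symm
    have hbeq : Mx y = ENNReal.ofReal (Mx y).toReal := (ENNReal.ofReal_toReal h3).symm
    refine ⟨(Mx x).toReal, (Mx y).toReal, ENNReal.toReal_nonneg, ENNReal.toReal_nonneg,
      (Mx_le_iff ENNReal.toReal_nonneg).1 haeq.le, (Mx_le_iff ENNReal.toReal_nonneg).1 hbeq.le, ?_⟩
    intro M' hM'
    have h4 : ∀ᵐ t ∂μT, 2 * u t ≤ 2 * M' := by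
      filter_upwards [hM'] with t h5
      linarith
    have hM0 : 0 ≤ 2 * M' := by
      obtain ⟨t, ht⟩ := h4.exists
      have := hu0 t
      linarith
    have h5 := (h1.trans (h.Mx_eq_of hk hle hpsi)).trans ((Mx_le_iff hM0).2 h4)
    rw [haeq, hbeq, ← ENNReal.ofReal_add ENNReal.toReal_nonneg ENNReal.toReal_nonneg] at h5
    have h6 := (ENNReal.ofReal_le_ofReal_iff hM0).1 h5
    linarith
  -- the thresholds
  obtain ⟨p, q, hp0, hq0, honE, hoffE, hlM⟩ : ∃ p q : ℝ, 0 ≤ p ∧ 0 ≤ q ∧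
      (∀ᵐ t ∂μT, t ∈ E → p ≤ x t ∧ q ≤ y t) ∧ (∀ᵐ t ∂μT, t ∉ E → x t ≤ p ∧ y t ≤ q) ∧
      ∀ M', (∀ᵐ t ∂μT, u t ≤ M') → (p + q) / 2 ≤ M' := by
    rcases (flat_mem Ψ).1.eq_or_lt with h0 | h0
    · have hnull : ∀ᵐ t ∂μT, t ∉ E := by
        rw [← h0, ENNReal.ofReal_zero] at hEm
        exact measure_eq_zero_iff_ae_notMem.1 hEm
      obtain ⟨a, b, ha, hb, hxa, hyb, hM⟩ := hMfacts (h.kap_pos_of_flat hpos h0.symm)
      refine ⟨a, b, ha, hb, ?_, ?_, hM⟩
      · filter_upwards [hnull] with t ht htE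
        exact absurd htE ht
      · filter_upwards [hxa, hyb] with t h1 h2 _
        exact ⟨h1, h2⟩
    have hEpos : μT E ≠ 0 := by
      rw [hEm]
      exact (ENNReal.ofReal_pos.2 h0).ne'
    rcases (flat_mem Ψ).2.eq_or_lt with h1 | h1
    · have hnull : ∀ᵐ t ∂μT, t ∈ E := by
        have h2 : μT Eᶜ = 0 := by
          rw [measure_compl hE (μT_ne_top _), hEm, μT_univ, h1]
          exact tsub_self _
        have h3 := measure_eq_zero_iff_ae_notMem.1 h2
        filter_upwards [h3] with t ht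
        by_contra hc
        exact ht hc
      refine ⟨0, 0, le_rfl, le_rfl, ?_, ?_, ?_⟩
      · exact Filter.Eventually.of_forall fun t _ => ⟨hx0 t, hy0 t⟩
      · filter_upwards [hnull] with t ht htE
        exact absurd ht htE
      · intro M' hM'
        obtain ⟨t, ht⟩ := hM'.exists
        have := hu0 t
        linarith
    · obtain ⟨hTx, hTy⟩ := hEB (h.bend_flat h0 h1)
      obtain ⟨p, hp0, hp1, hp2⟩ := hTx.threshold hxm hx0 hE hEpos
      obtain ⟨q, hq0, hq1, hq2⟩ := hTy.threshold hym hy0 hE hEpos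
      refine ⟨p, q, hp0, hq0, ?_, ?_, ?_⟩
      · filter_upwards [hp1, hq1] with t h2 h3 h4
        exact ⟨h2 h4, h3 h4⟩
      · filter_upwards [hp2, hq2] with t h2 h3 h4
        exact ⟨h2 h4, h3 h4⟩
      · intro M' hM'
        obtain ⟨t, ht, ht1, ht2, ht3, ht4⟩ : ∃ t, t ∈ E ∧ (t ∈ E → 2 * u t = x t + y t) ∧
            (t ∈ E → p ≤ x t) ∧ (t ∈ E → q ≤ y t) ∧ u t ≤ M' := by
          by_contra hno
          apply hEpos
          exact measure_mono_null (fun t ht => fun hc => hno ⟨t, ht, hc.1, hc.2.1, hc.2.2.1, hc.2.2.2⟩)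
            (hEeq.and (hp1.and (hq1.and hM')))
        have a1 := ht1 ht
        have a2 := ht2 ht
        have a3 := ht3 ht
        linarith
  set l : ℝ := (p + q) / 2 with hl
  set c : ℝ := (p - q) / 2 with hc
  have hl0 : 0 ≤ l := by positivity
  obtain ⟨ρ, hρ1, hρ2⟩ : ∃ ρ : ℝ, |ρ| ≤ 1 ∧ ρ * l = c := by
    rcases hl0.eq_or_lt with h0 | h0
    · refine ⟨0, by simp, ?_⟩
      have h1 : p = 0 := by linarith
      have h2 : q = 0 := by linarith
      rw [hc, h1, h2]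
      simp
    · refine ⟨c / l, ?_, div_mul_cancel₀ _ h0.ne'⟩
      rw [abs_div, abs_of_pos h0, div_le_one h0, abs_le]
      constructor <;> linarith
  obtain ⟨hρa, hρb⟩ := abs_le.1 hρ1
  set k₀ : ℝ → ℝ := fun t => (x t - y t) / (x t + y t) with hk₀
  set k : ℝ → ℝ := fun t => (k₀ t - ρ) / 2 with hk
  have hk₀m : Measurable k₀ := (hxm.sub hym).div (hxm.add hym)
  have hkm : Measurable k := (hk₀m.sub_const ρ).div_const 2
  -- the perturbation
  set g : ℝ → ℂ := fun t => (((1 - ρ) / 4 : ℝ) : ℂ) * g₁ t + ((-(1 + ρ) / 4 : ℝ) : ℂ) * g₂ t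
    with hg
  have hgH : InH Ψ g := hg₁.1.lin h hpos hg₂.1 _ _
  have hgeq : ∀ᵐ t ∂μT, g t = ((g₁ t - g₂ t) / 2 - (ρ : ℂ) * f t) / 2 := by
    filter_upwards [hmid] with t ht
    rw [ht]
    simp only [hg]
    push_cast
    ring
  refine ⟨ρ, g, hgH, ?_, hgeq⟩
  -- facts on `E`
  have honE' : ∀ᵐ t ∂μT, t ∈ E → g t = (k t : ℂ) * f t ∧ l ≤ u t ∧ k₀ t * u t = (x t - y t) / 2 ∧
      u t = (x t + y t) / 2 ∧ p ≤ x t ∧ q ≤ y t := by
    filter_upwards [hEeq, honE, hmid, hgeq] with t h1 h2 h3 h4 htE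
    have h5 := h1 htE
    obtain ⟨h6, h7⟩ := h2 htE
    have h8 : g₁ t + g₂ t = 2 * f t := by
      rw [h3]
      ring
    have h9 : ‖g₁ t + g₂ t‖ = ‖g₁ t‖ + ‖g₂ t‖ := by
      rw [h8, norm_mul]
      simpa using h5
    have h10 : (k₀ t : ℂ) * f t = (g₁ t - g₂ t) / 2 := by
      rw [eq_smul_of_norm_add h9, h3]
    have h11 : u t = (x t + y t) / 2 := by linarith
    refine ⟨?_, ?_, ?_, h11, h6, h7⟩
    · rw [h4, ← h10]
      simp only [hk]
      push_cast
      ring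
    · rw [h11, hl]
      linarith
    · simp only [hk₀]
      rcases eq_or_ne (x t + y t) 0 with h12 | h12
      · have h13 : x t = 0 := by linarith [hx0 t, hy0 t]
        have h14 : y t = 0 := by linarith [hx0 t, hy0 t]
        rw [h13, h14]
        simp
      · rw [h11]
        field_simp
  refine ⟨E, k, l, 1, hE, hkm, hEm, hl0, zero_le_one, hlM, ?_, ?_, ?_, ?_⟩
  · -- on `E`
    filter_upwards [honE'] with t ht htE
    obtain ⟨h1, h2, h3, h4, h5, h6⟩ := ht htE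
    refine ⟨h1, h2, ?_⟩
    have h7 : |k₀ t * u t - c| ≤ u t - l := by
      rw [h3, h4, hc, hl, abs_le]
      constructor <;> linarith
    have h8 : k t * ‖f t‖ = ((k₀ t * u t - c) - ρ * (u t - l)) / 2 := by
      simp only [hk]
      rw [← hρ2]
      simp only [hu]
      ring
    rw [h8, one_mul]
    have h9 : |ρ * (u t - l)| ≤ u t - l := by
      rw [abs_mul, abs_of_nonneg (by linarith : (0 : ℝ) ≤ u t - l)]
      exact mul_le_of_le_one_left (by linarith) hρ1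
    obtain ⟨a1, a2⟩ := abs_le.1 h7
    obtain ⟨b1, b2⟩ := abs_le.1 h9
    rw [abs_le]
    simp only [hu] at *
    constructor <;> linarith
  · -- off `E`
    filter_upwards [hoffE, hmid, hgeq] with t h1 h2 h3 htE
    obtain ⟨h4, h5⟩ := h1 htE
    have e1 : f t + g t = (((3 - ρ) / 4 : ℝ) : ℂ) * g₁ t + (((1 - ρ) / 4 : ℝ) : ℂ) * g₂ t := by
      rw [h3, h2]
      push_cast
      ring
    have e2 : f t - g t = (((1 + ρ) / 4 : ℝ) : ℂ) * g₁ t + (((3 + ρ) / 4 : ℝ) : ℂ) * g₂ t := by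
      rw [h3, h2]
      push_cast
      ring
    have key : ∀ a b : ℝ, 0 ≤ a → 0 ≤ b →
        ‖(a : ℂ) * g₁ t + (b : ℂ) * g₂ t‖ ≤ a * p + b * q := by
      intro a b ha hb
      refine (norm_add_le _ _).trans ?_
      rw [norm_mul, norm_mul, Complex.norm_real, Complex.norm_real, Real.norm_eq_abs,
        Real.norm_eq_abs, abs_of_nonneg ha, abs_of_nonneg hb]
      exact add_le_add (mul_le_mul_of_nonneg_left h4 ha) (mul_le_mul_of_nonneg_left h5 hb)
    have hρl : ρ * ((p + q) / 2) = (p - q) / 2 := hρ2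
    constructor
    · rw [e1]
      refine (key _ _ (by linarith) (by linarith)).trans (le_of_eq ?_)
      rw [hl]
      linear_combination -(1 / 2 : ℝ) * hρl
    · rw [e2]
      refine (key _ _ (by linarith) (by linarith)).trans (le_of_eq ?_)
      rw [hl]
      linear_combination (1 / 2 : ℝ) * hρl
  · -- bending points
    intro s hsB hs
    obtain ⟨E', hE'E, hE'm, hE's, hE'T⟩ := Top.nested hum hu0 hE hET hEm (flat_mem Ψ).2 hsB.1.le hs
    obtain ⟨-, hT⟩ := htop s hs.le E' hE'm hE's hE'T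
    obtain ⟨hTx, hTy⟩ := hT hsB
    refine ⟨E', hE'E, hE'm, hE's, ?_⟩
    filter_upwards [hTx, hTy, honE'] with t h1 h2 h3 htE
    filter_upwards [h1 htE, h2 htE, honE'] with t' h4 h5 h6 htE'
    obtain ⟨-, -, a3, a4, -, -⟩ := h3 (hE'E htE)
    obtain ⟨-, -, b3, b4, -, -⟩ := h6 htE'.1
    have h7 := h4 htE'.2
    have h8 := h5 htE'.2
    have h9 : u t' ≤ u t := by linarith
    refine ⟨h9, ?_⟩
    have h10 : |k₀ t * u t - k₀ t' * u t'| ≤ u t - u t' := by
      rw [a3, b3, a4, b4, abs_le]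
      constructor <;> linarith
    have h11 : k t * ‖f t‖ - k t' * ‖f t'‖
        = ((k₀ t * u t - k₀ t' * u t') - ρ * (u t - u t')) / 2 := by
      simp only [hk, hu]
      ring
    rw [h11, one_mul]
    have h12 : |ρ * (u t - u t')| ≤ u t - u t' := by
      rw [abs_mul, abs_of_nonneg (by linarith : (0 : ℝ) ≤ u t - u t')]
      exact mul_le_of_le_one_left (by linarith) hρ1
    obtain ⟨c1, c2⟩ := abs_le.1 h10
    obtain ⟨d1, d2⟩ := abs_le.1 h12
    rw [abs_le]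
    simp only [hu] at *
    constructor <;> linarith
  · -- the supremum
    intro hkap
    obtain ⟨a, b, ha, hb, hxa, hyb, hM⟩ := hMfacts hkap
    refine ⟨(a + b) / 2, ((a - b) / 2 - ρ * ((a + b) / 2)) / 2, ?_, hM, ?_⟩
    · filter_upwards [hxa, hyb, hle] with t h1 h2 h3
      simp only [hu] at h3
      linarith
    · filter_upwards [hxa, hyb, honE'] with t h1 h2 h3 htE
      obtain ⟨-, -, a3, a4, -, -⟩ := h3 htE
      have h4 : |k₀ t * u t - (a - b) / 2| ≤ (a + b) / 2 - u t := by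
        rw [a3, a4, abs_le]
        constructor <;> linarith
      have hnn : 0 ≤ (a + b) / 2 - u t := by
        rw [a4]
        linarith
      have h5 : |ρ * (u t - (a + b) / 2)| ≤ (a + b) / 2 - u t := by
        rw [abs_mul, abs_sub_comm, abs_of_nonneg hnn]
        exact mul_le_of_le_one_left hnn hρ1
      have h6 : k t * ‖f t‖ - ((a - b) / 2 - ρ * ((a + b) / 2)) / 2
          = ((k₀ t * u t - (a - b) / 2) - ρ * (u t - (a + b) / 2)) / 2 := by
        simp only [hk, hu]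
        ring
      rw [h6, one_mul]
      obtain ⟨c1, c2⟩ := abs_le.1 h4
      obtain ⟨d1, d2⟩ := abs_le.1 h5
      rw [abs_le]
      simp only [hu] at *
      constructor <;> linarith

/-- **Characterisation of the extreme points**, for an arbitrary weight. -/
theorem extr_iff_adm (h : IsWt Ψ) (hpos : 0 < Ψ (2 * π)) (f : ℝ → ℂ) :
    Extr Ψ f ↔ InH Ψ f ∧ lor Ψ (fun t => ‖f t‖) = 1 ∧
      ∀ g : ℝ → ℂ, InH Ψ g → Adm Ψ f g → ∃ c : ℝ, ∀ᵐ t ∂μT, g t = (c : ℂ) * f t := by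
  constructor
  · intro hf
    exact ⟨hf.1.1, hf.norm_eq h hpos, fun g hg hA => hf.adm h hpos hg hA⟩
  · rintro ⟨hf, hnorm, hcrit⟩
    refine ⟨⟨hf, hnorm.le⟩, ?_⟩
    intro g₁ g₂ hg₁ hg₂ hmid
    obtain ⟨ρ, g, hgH, hgA, hgeq⟩ := exists_adm h hpos hf hnorm hg₁ hg₂ hmid
    obtain ⟨c', hc'⟩ := hcrit g hgH hgA
    set c : ℝ := 2 * c' + ρ with hc
    have hhalf : ∀ᵐ t ∂μT, (g₁ t - g₂ t) / 2 = (c : ℂ) * f t := by
      filter_upwards [hc', hgeq] with t h1 h2
      rw [h2] at h1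
      rw [hc]
      push_cast
      linear_combination 2 * h1
    have hg1 : ∀ᵐ t ∂μT, g₁ t = ((1 + c : ℝ) : ℂ) * f t := by
      filter_upwards [hhalf, hmid] with t h1 h3
      push_cast
      linear_combination h1 - h3
    have hg2 : ∀ᵐ t ∂μT, g₂ t = ((1 - c : ℝ) : ℂ) * f t := by
      filter_upwards [hhalf, hmid] with t h1 h3
      push_cast
      linear_combination -h1 - h3
    have hc0 : c = 0 := by
      have key : ∀ (g : ℝ → ℂ) (d : ℝ), Ball Ψ g → (∀ᵐ t ∂μT, g t = (d : ℂ) * f t) → d ≤ 1 := by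
        intro g d hgB hgd
        by_contra hlt
        rw [not_le] at hlt
        have h1 : lor Ψ (fun t => ‖g t‖) = lor Ψ (fun t => d * ‖f t‖) := by
          refine h.lor_congr ?_
          filter_upwards [hgd] with t ht
          rw [ht, norm_mul, Complex.norm_real, Real.norm_eq_abs, abs_of_pos (by linarith)]
        have h2 := hgB.2
        rw [h1, lor_smul (by linarith), hnorm, mul_one, ← ENNReal.ofReal_one] at h2
        have h3 := (ENNReal.ofReal_le_ofReal_iff (by norm_num)).1 h2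
        linarith
      have h1 := key g₁ (1 + c) hg₁ hg1
      have h2 := key g₂ (1 - c) hg₂ hg2
      linarith
    filter_upwards [hg1, hg2] with t h1 h2
    rw [h1, h2, hc0]
    simp

end Pool.Agent.H352R5.HL
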