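import Mathlib

/-!
# The functionals `K_s x = ∫_0^s x^*`, and top sets
-/

namespace Pool.Agent.H352R5.HL

open MeasureTheory Set Filter Topology
open scoped ENNReal NNReal Real

/-- Lebesgue measure on the circle, parametrised by `(0, 2π]`. -/
noncomputable def μT : Measure ℝ := volume.restrict (Ioc 0 (2 * π))

instance : IsFiniteMeasure μT := by
  unfold μT
  infer_instance

theorem μT_univ : μT univ = ENNReal.ofReal (2 * π) := by
  unfold μT
  rw [Measure.restrict_apply_univ, Real.volume_Ioc, sub_zero]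

theorem two_pi_pos : (0 : ℝ) < 2 * π := by positivity

theorem μT_le (A : Set ℝ) : μT A ≤ ENNReal.ofReal (2 * π) := by
  rw [← μT_univ]
  exact measure_mono (subset_univ _)

theorem μT_ne_top (A : Set ℝ) : μT A ≠ ∞ := measure_ne_top _ _

/-- The distribution function of `x`. -/
noncomputable def dis (x : ℝ → ℝ) (τ : ℝ) : ℝ≥0∞ := μT {t | τ < x t}

theorem dis_anti (x : ℝ → ℝ) : Antitone (dis x) := by
  intro a b hab
  exact measure_mono fun t ht => lt_of_le_of_lt hab ht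

theorem dis_le (x : ℝ → ℝ) (τ : ℝ) : dis x τ ≤ ENNReal.ofReal (2 * π) := μT_le _

theorem dis_meas (x : ℝ → ℝ) : Measurable (dis x) := (dis_anti x).measurable

/-- `K_s x`, the supremum of the integrals of `x` over the sets of measure `s`. -/
noncomputable def K (s : ℝ) (x : ℝ → ℝ) : ℝ≥0∞ :=
  ∫⁻ τ in Ioi (0 : ℝ), min (dis x τ) (ENNReal.ofReal s)

theorem K_meas_aux (s : ℝ) (x : ℝ → ℝ) :
    Measurable (fun τ => min (dis x τ) (ENNReal.ofReal s)) :=
  (dis_meas x).min measurable_const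

/-- Layer cake on a measurable set. -/
theorem setInt {x : ℝ → ℝ} (hx : Measurable x) (h0 : ∀ t, 0 ≤ x t) {E : Set ℝ}
    (_ : MeasurableSet E) :
    ∫⁻ t in E, ENNReal.ofReal (x t) ∂μT = ∫⁻ τ in Ioi (0 : ℝ), μT ({t | τ < x t} ∩ E) := by
  rw [lintegral_eq_lintegral_meas_lt _ (Filter.Eventually.of_forall h0) hx.aemeasurable]
  refine lintegral_congr fun τ => ?_
  exact Measure.restrict_apply (measurableSet_lt measurable_const hx)

theorem int_eq {x : ℝ → ℝ} (hx : Measurable x) (h0 : ∀ t, 0 ≤ x t) :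
    ∫⁻ t, ENNReal.ofReal (x t) ∂μT = ∫⁻ τ in Ioi (0 : ℝ), dis x τ :=
  lintegral_eq_lintegral_meas_lt _ (Filter.Eventually.of_forall h0) hx.aemeasurable

theorem K_le_int {x : ℝ → ℝ} (hx : Measurable x) (h0 : ∀ t, 0 ≤ x t) (s : ℝ) :
    K s x ≤ ∫⁻ t, ENNReal.ofReal (x t) ∂μT := by
  rw [int_eq hx h0]
  exact lintegral_mono fun τ => min_le_left _ _

theorem setInt_le_K {x : ℝ → ℝ} (hx : Measurable x) (h0 : ∀ t, 0 ≤ x t) {E : Set ℝ}
    (hE : MeasurableSet E) {s : ℝ} (hs : μT E ≤ ENNReal.ofReal s) :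
    ∫⁻ t in E, ENNReal.ofReal (x t) ∂μT ≤ K s x := by
  rw [setInt hx h0 hE]
  refine lintegral_mono fun τ => le_min ?_ ?_
  · exact measure_mono inter_subset_left
  · exact (measure_mono inter_subset_right).trans hs

/-- `E` is a top set of `x`: almost everywhere, the values of `x` on `E` are at least as large as
the values outside of `E`. -/
def Top (E : Set ℝ) (x : ℝ → ℝ) : Prop :=
  ∀ᵐ t ∂μT, t ∈ E → ∀ᵐ t' ∂μT, t' ∉ E → x t' ≤ x t

theorem Top.level {E : Set ℝ} {x : ℝ → ℝ} (h : Top E x) (τ : ℝ) :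
    μT (E \ {t | τ < x t}) = 0 ∨ μT ({t | τ < x t} \ E) = 0 := by
  by_contra hcon
  rw [not_or] at hcon
  obtain ⟨h1, h2⟩ := hcon
  have h3 : ∃ t, t ∈ E \ {t | τ < x t} ∧ (t ∈ E → ∀ᵐ t' ∂μT, t' ∉ E → x t' ≤ x t) := by
    by_contra hno
    apply h1
    have h4 : μT {t | ¬ (t ∈ E → ∀ᵐ t' ∂μT, t' ∉ E → x t' ≤ x t)} = 0 := h
    exact measure_mono_null (fun t ht hc => hno ⟨t, ht, hc⟩) h4
  obtain ⟨t, ⟨htE, htτ⟩, ht⟩ := h3
  apply h2
  have h4 : μT {t' | ¬ (t' ∉ E → x t' ≤ x t)} = 0 := ht htE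
  refine measure_mono_null (fun t' ht' => ?_) h4
  intro h6
  have h7 : x t ≤ τ := not_lt.1 htτ
  have h8 : τ < x t' := ht'.1
  exact absurd (h6 ht'.2) (not_le.2 (lt_of_le_of_lt h7 h8))

theorem Top.level_eq {E : Set ℝ} {x : ℝ → ℝ} (h : Top E x)
    {s : ℝ} (hs : μT E = ENNReal.ofReal s) (τ : ℝ) :
    μT ({t | τ < x t} ∩ E) = min (dis x τ) (ENNReal.ofReal s) := by
  refine le_antisymm (le_min (measure_mono inter_subset_left)
    ((measure_mono inter_subset_right).trans hs.le)) ?_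
  rcases h.level τ with h1 | h1
  · refine (min_le_right _ _).trans ?_
    rw [← hs]
    calc μT E ≤ μT ({t | τ < x t} ∩ E) + μT (E \ {t | τ < x t}) := by
          refine (measure_mono (fun t ht => ?_)).trans (measure_union_le _ _)
          by_cases h2 : τ < x t
          · exact Or.inl ⟨h2, ht⟩
          · exact Or.inr ⟨ht, h2⟩
      _ = μT ({t | τ < x t} ∩ E) := by rw [h1, add_zero]
  · refine (min_le_left _ _).trans ?_
    calc dis x τ ≤ μT ({t | τ < x t} ∩ E) + μT ({t | τ < x t} \ E) := by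
          refine (measure_mono (fun t ht => ?_)).trans (measure_union_le _ _)
          by_cases h2 : t ∈ E
          · exact Or.inl ⟨ht, h2⟩
          · exact Or.inr ⟨ht, h2⟩
      _ = μT ({t | τ < x t} ∩ E) := by rw [h1, add_zero]

theorem Top.setInt_eq {x : ℝ → ℝ} (hx : Measurable x) (h0 : ∀ t, 0 ≤ x t) {E : Set ℝ}
    (hE : MeasurableSet E) (h : Top E x) {s : ℝ} (hs : μT E = ENNReal.ofReal s) :
    ∫⁻ t in E, ENNReal.ofReal (x t) ∂μT = K s x := by
  rw [setInt hx h0 hE]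
  exact lintegral_congr fun τ => h.level_eq hs τ

/-- If the integral over `E` is the largest possible, then `E` is a top set. -/
theorem top_of_setInt {x : ℝ → ℝ} (hx : Measurable x) (h0 : ∀ t, 0 ≤ x t)
    (hfin : ∫⁻ t, ENNReal.ofReal (x t) ∂μT ≠ ∞) {E : Set ℝ}
    (hE : MeasurableSet E) {s : ℝ} (hs : μT E = ENNReal.ofReal s)
    (h : K s x ≤ ∫⁻ t in E, ENNReal.ofReal (x t) ∂μT) : Top E x := by
  have hm : Measurable (fun τ => μT ({t | τ < x t} ∩ E)) := by
    refine Antitone.measurable fun a b hab => measure_mono fun t ht => ⟨?_, ht.2⟩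
    exact lt_of_le_of_lt hab ht.1
  have hle : ∀ τ, μT ({t | τ < x t} ∩ E) ≤ min (dis x τ) (ENNReal.ofReal s) := fun τ =>
    le_min (measure_mono inter_subset_left) ((measure_mono inter_subset_right).trans hs.le)
  have hfin2 : ∫⁻ τ in Ioi (0 : ℝ), μT ({t | τ < x t} ∩ E) ≠ ∞ := by
    rw [← setInt hx h0 hE]
    exact ne_top_of_le_ne_top hfin (setLIntegral_le_lintegral _ _)
  have hae : (fun τ => μT ({t | τ < x t} ∩ E)) =ᵐ[volume.restrict (Ioi (0 : ℝ))]
      fun τ => min (dis x τ) (ENNReal.ofReal s) := by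
    refine ae_eq_of_ae_le_of_lintegral_le (Filter.Eventually.of_forall hle) hfin2
      (K_meas_aux s x).aemeasurable ?_
    rw [← setInt hx h0 hE]
    exact h
  -- good levels are dense
  have hgood : ∀ᵐ τ ∂(volume.restrict (Ioi (0 : ℝ))),
      μT (E \ {t | τ < x t}) = 0 ∨ μT ({t | τ < x t} \ E) = 0 := by
    filter_upwards [hae] with τ hτ
    have hmeas : MeasurableSet {t | τ < x t} := measurableSet_lt measurable_const hx
    rcases le_total (dis x τ) (ENNReal.ofReal s) with h1 | h1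
    · right
      rw [min_eq_left h1] at hτ
      have h2 : μT ({t | τ < x t} ∩ E) + μT ({t | τ < x t} \ E) = dis x τ :=
        measure_inter_add_sdiff _ hE
      rw [hτ] at h2
      exact (ENNReal.add_right_inj (μT_ne_top _)).1 (by rw [add_zero]; exact h2)
    · left
      rw [min_eq_right h1] at hτ
      have h2 : μT (E ∩ {t | τ < x t}) + μT (E \ {t | τ < x t}) = μT E :=
        measure_inter_add_sdiff _ hmeas
      rw [inter_comm, hτ, hs] at h2
      exact (ENNReal.add_right_inj ENNReal.ofReal_ne_top).1 (by rw [add_zero]; exact h2)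
  have hdense : ∀ a b : ℝ, 0 ≤ a → a < b → ∃ τ, a < τ ∧ τ < b ∧
      (μT (E \ {t | τ < x t}) = 0 ∨ μT ({t | τ < x t} \ E) = 0) := by
    intro a b ha hab
    by_contra hno
    push Not at hno
    have h1 : volume.restrict (Ioi (0 : ℝ)) (Ioo a b) = 0 := by
      refine measure_mono_null (fun τ hτ => ?_) hgood
      have h2 := hno τ hτ.1 hτ.2
      intro h3
      rcases h3 with h3 | h3
      · exact h2.1 h3
      · exact h2.2 h3
    rw [Measure.restrict_apply measurableSet_Ioo, Ioo_inter_Ioi, max_eq_left ha,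
      Real.volume_Ioo] at h1
    rw [ENNReal.ofReal_eq_zero] at h1
    linarith
  -- a countable dense set of good levels
  choose! g hg using fun (p : ℚ × ℚ) (hp : (0 : ℝ) ≤ p.1 ∧ (p.1 : ℝ) < p.2) =>
    hdense p.1 p.2 hp.1 hp.2
  have hnull : ∀ᵐ t ∂μT, ∀ p : ℚ × ℚ, ((0 : ℝ) ≤ p.1 ∧ (p.1 : ℝ) < p.2) →
      μT (E \ {t | g p < x t}) = 0 → ¬ (t ∈ E \ {t | g p < x t}) := by
    rw [ae_all_iff]
    intro p
    by_cases hp : ((0 : ℝ) ≤ p.1 ∧ (p.1 : ℝ) < p.2) ∧ μT (E \ {t | g p < x t}) = 0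
    · have h1 : ∀ᵐ t ∂μT, ¬ (t ∈ E \ {t | g p < x t}) := measure_eq_zero_iff_ae_notMem.1 hp.2
      filter_upwards [h1] with t ht _ _
      exact ht
    · refine Filter.Eventually.of_forall fun t h1 h2 => ?_
      exact absurd ⟨h1, h2⟩ hp
  have hnull' : ∀ᵐ t ∂μT, ∀ p : ℚ × ℚ, ((0 : ℝ) ≤ p.1 ∧ (p.1 : ℝ) < p.2) →
      μT ({t | g p < x t} \ E) = 0 → ¬ (t ∈ {t | g p < x t} \ E) := by
    rw [ae_all_iff]
    intro p
    by_cases hp : ((0 : ℝ) ≤ p.1 ∧ (p.1 : ℝ) < p.2) ∧ μT ({t | g p < x t} \ E) = 0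
    · have h1 : ∀ᵐ t ∂μT, ¬ (t ∈ {t | g p < x t} \ E) := measure_eq_zero_iff_ae_notMem.1 hp.2
      filter_upwards [h1] with t ht _ _
      exact ht
    · refine Filter.Eventually.of_forall fun t h1 h2 => ?_
      exact absurd ⟨h1, h2⟩ hp
  filter_upwards [hnull] with t ht htE
  filter_upwards [hnull'] with t' ht' htE'
  by_contra hlt
  rw [not_le] at hlt
  obtain ⟨q₁, hq₁, hq₁'⟩ := exists_rat_btwn hlt
  obtain ⟨q₂, hq₂, hq₂'⟩ := exists_rat_btwn hq₁'
  have hp : ((0 : ℝ) ≤ ((q₁, q₂) : ℚ × ℚ).1 ∧ ((((q₁, q₂) : ℚ × ℚ).1 : ℚ) : ℝ) < ((q₁, q₂) : ℚ × ℚ).2) :=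
    ⟨(h0 t).trans hq₁.le, hq₂⟩
  obtain ⟨h1, h2, h3⟩ := hg (q₁, q₂) hp
  rcases h3 with h3 | h3
  · refine ht (q₁, q₂) hp h3 ⟨htE, ?_⟩
    simp only [mem_setOf_eq, not_lt]
    exact hq₁.le.trans h1.le
  · refine ht' (q₁, q₂) hp h3 ⟨?_, htE'⟩
    simp only [mem_setOf_eq]
    exact h2.trans hq₂'

end Pool.Agent.H352R5.HL
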