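import Pool.Agent.H352R5.HL.Gen2
import Pool.Agent.H352R5.HL.Stubs

/-!
# The criterion in terms of the level sets of the modulus
-/

namespace Pool.Agent.H352R5.HL

open MeasureTheory Set Filter Topology
open scoped ENNReal NNReal Real

variable {Ψ : ℝ → ℝ}

/-- `E` is a superlevel set of `u` (open or closed). -/
def IsLevel (u : ℝ → ℝ) (E : Set ℝ) : Prop := ∃ τ : ℝ, E = {t | τ < u t} ∨ E = {t | τ ≤ u t}

theorem IsLevel.meas {u : ℝ → ℝ} (hu : Measurable u) {E : Set ℝ} (h : IsLevel u E) :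
    MeasurableSet E := by
  obtain ⟨τ, rfl | rfl⟩ := h
  · exact measurableSet_lt measurable_const hu
  · exact measurableSet_le measurable_const hu

theorem IsLevel.le {u : ℝ → ℝ} {E : Set ℝ} (h : IsLevel u E) {t t' : ℝ} (ht : t ∈ E)
    (ht' : t' ∉ E) : u t' ≤ u t := by
  obtain ⟨τ, rfl | rfl⟩ := h
  · have h1 : τ < u t := ht
    have h2 : ¬ τ < u t' := ht'
    exact (not_lt.1 h2).trans h1.le
  · have h1 : τ ≤ u t := ht
    have h2 : ¬ τ ≤ u t' := ht'
    exact (not_le.1 h2).le.trans h1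

theorem pick {A : Set ℝ} {P : ℝ → Prop} (hA : μT A ≠ 0) (hP : ∀ᵐ t ∂μT, P t) :
    ∃ t, t ∈ A ∧ P t := by
  by_contra hno
  exact hA (measure_mono_null (fun t ht => fun hc => hno ⟨t, ht, hc⟩) hP)

/-- A top set which does not cut a plateau is a superlevel set. -/
theorem level_of_top {E E' : Set ℝ} {u v : ℝ → ℝ} {l C : ℝ} (hu : Measurable u)
    (hu0 : ∀ t, 0 ≤ u t) (hEu : ∀ᵐ t ∂μT, t ∈ E → l < u t) (hEc : ∀ᵐ t ∂μT, t ∉ E → u t ≤ l)
    (hsub : E' ⊆ E) (hE'm : MeasurableSet E')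
    (h1 : μT E' ≠ 0) (h2 : μT (E \ E') ≠ 0)
    (hsep : ∀ᵐ t ∂μT, t ∈ E' → ∀ᵐ t' ∂μT, t' ∈ E \ E' →
      u t' ≤ u t ∧ |v t - v t'| ≤ C * (u t - u t'))
    (hpl : ∀ p c, l < p → μT {t | u t = p ∧ v t = c} = 0) :
    ∃ E'', IsLevel u E'' ∧ ∀ᵐ t ∂μT, t ∈ E'' ↔ t ∈ E' := by
  -- `E'` is a top set
  have hT : Top E' u := by
    filter_upwards [hsep, hEu] with t h3 h4 h5
    filter_upwards [h3 h5, hEc] with t' h6 h7 h8
    by_cases h9 : t' ∈ E
    · exact (h6 ⟨h9, h8⟩).1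
    · exact (h7 h9).trans (h4 (hsub h5)).le
  obtain ⟨p, -, hp1, hp2⟩ := hT.threshold hu hu0 hE'm h1
  -- the threshold is above `l`
  have hlp : l < p := by
    obtain ⟨t, ht, ht1, ht2⟩ := pick h2 (hEu.and hp2)
    exact (ht1 ht.1).trans_le (ht2 ht.2)
  by_cases hA : μT ({t | u t = p} ∩ E') = 0
  · refine ⟨{t | p < u t}, ⟨p, Or.inl rfl⟩, ?_⟩
    have hA' : ∀ᵐ t ∂μT, ¬ (t ∈ {t | u t = p} ∩ E') := measure_eq_zero_iff_ae_notMem.1 hA
    filter_upwards [hp1, hp2, hA'] with t h3 h4 h5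
    constructor
    · intro h6
      by_contra h7
      exact absurd (h4 h7) (not_le.2 h6)
    · intro h6
      show p < u t
      refine lt_of_le_of_ne (h3 h6) fun h7 => h5 ⟨h7.symm, h6⟩
  by_cases hB : μT ({t | u t = p} \ E') = 0
  · refine ⟨{t | p ≤ u t}, ⟨p, Or.inr rfl⟩, ?_⟩
    have hB' : ∀ᵐ t ∂μT, ¬ (t ∈ {t | u t = p} \ E') := measure_eq_zero_iff_ae_notMem.1 hB
    filter_upwards [hp1, hp2, hB'] with t h3 h4 h5
    constructor
    · intro h6
      by_contra h7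
      have h8 : p ≤ u t := h6
      exact h5 ⟨le_antisymm (h4 h7) h8, h7⟩
    · intro h6
      exact h3 h6
  · exfalso
    obtain ⟨t₀, ht₀, ht₁⟩ := pick hA hsep
    have h3 := ht₁ ht₀.2
    apply hB
    have h4 : ∀ᵐ t ∂μT, t ∈ {t | u t = p} \ E' → t ∈ {t | u t = p ∧ v t = v t₀} := by
      filter_upwards [h3, hEc] with t h5 h6 h7
      have h8 : u t = p := h7.1
      have h9 : t ∈ E := by
        by_contra h10
        have := h6 h10
        linarith
      obtain ⟨-, h10⟩ := h5 ⟨h9, h7.2⟩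
      have h11 : u t₀ = p := ht₀.1
      rw [h11, h8, sub_self, mul_zero] at h10
      have h12 : v t₀ - v t = 0 := abs_eq_zero.1 (le_antisymm h10 (abs_nonneg _))
      exact ⟨h8, by linarith⟩
    have h5 : μT ({t | u t = p} \ E') ≤ μT {t | u t = p ∧ v t = v t₀} := measure_mono_ae h4
    rw [hpl _ _ hlp] at h5
    exact le_antisymm h5 bot_le

/-- Admissible perturbations, described by the levels of `|f|`. -/
def Pert (Ψ : ℝ → ℝ) (f g : ℝ → ℂ) : Prop :=
  ∃ (k : ℝ → ℝ) (l C : ℝ), Measurable k ∧ 0 ≤ l ∧ 0 ≤ C ∧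
    (∀ M, (∀ᵐ t ∂μT, ‖f t‖ ≤ M) → l ≤ M) ∧
    μT {t | l < ‖f t‖} = ENNReal.ofReal (flat Ψ) ∧
    (∀ᵐ t ∂μT, l < ‖f t‖ → g t = (k t : ℂ) * f t ∧ |k t * ‖f t‖| ≤ C * (‖f t‖ - l)) ∧
    (∀ᵐ t ∂μT, ‖f t‖ ≤ l → ‖f t + g t‖ ≤ l ∧ ‖f t - g t‖ ≤ l) ∧
    (∀ s, Bend Ψ s → s < flat Ψ → ∃ E', IsLevel (fun t => ‖f t‖) E' ∧ μT E' = ENNReal.ofReal s ∧
      ∀ᵐ t ∂μT, t ∈ E' → ∀ᵐ t' ∂μT, t' ∉ E' → l < ‖f t'‖ →
        |k t * ‖f t‖ - k t' * ‖f t'‖| ≤ C * (‖f t‖ - ‖f t'‖)) ∧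
    (0 < kap Ψ → ∃ M c : ℝ, (∀ᵐ t ∂μT, ‖f t‖ ≤ M) ∧ (∀ M', (∀ᵐ t ∂μT, ‖f t‖ ≤ M') → M ≤ M') ∧
      ∀ᵐ t ∂μT, l < ‖f t‖ → |k t * ‖f t‖ - c| ≤ C * (M - ‖f t‖))

/-- Level sets of `u` of smaller measure are contained in one another. -/
theorem IsLevel.sub {u : ℝ → ℝ} {l : ℝ} {E' : Set ℝ} (h : IsLevel u E')
    (hlt : μT E' < μT {t | l < u t}) : E' ⊆ {t | l < u t} := by
  intro t ht
  by_contra hno
  have h1 : ¬ l < u t := hno
  have h2 : {t | l < u t} ⊆ E' := by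
    intro t' ht'
    have h3 : l < u t' := ht'
    by_contra h4
    have := h.le ht h4
    linarith [not_lt.1 h1]
  exact absurd (measure_mono h2) (not_le.2 hlt)

theorem Pert.adm {f g : ℝ → ℂ} (hf : Measurable f) (hP : Pert Ψ f g) : Adm Ψ f g := by
  obtain ⟨k, l, C, hk, hl0, hC0, hlM, hlm, hon, hoff, hbend, hkap⟩ := hP
  refine ⟨{t | l < ‖f t‖}, k, l, C, measurableSet_lt measurable_const hf.norm, hk, hlm, hl0, hC0,
    hlM, ?_, ?_, ?_, ?_⟩
  · filter_upwards [hon] with t h1 h2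
    have h3 : l < ‖f t‖ := h2
    exact ⟨(h1 h3).1, h3.le, (h1 h3).2⟩
  · filter_upwards [hoff] with t h1 h2
    exact h1 (not_lt.1 h2)
  · intro s hsB hs
    obtain ⟨E', h1, h2, h3⟩ := hbend s hsB hs
    have hlt : μT E' < μT {t | l < ‖f t‖} := by
      rw [h2, hlm]
      exact (ENNReal.ofReal_lt_ofReal_iff_of_nonneg hsB.1.le).2 hs
    refine ⟨E', h1.sub hlt, h1.meas hf.norm, h2, ?_⟩
    filter_upwards [h3] with t h4 h5
    filter_upwards [h4 h5] with t' h6 h7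
    exact ⟨h1.le h5 h7.2, h6 h7.2 h7.1⟩
  · intro hk'
    obtain ⟨M, c, h1, h2, h3⟩ := hkap hk'
    exact ⟨M, c, h1, h2, h3⟩

theorem InH.ne_zero (hU6 : S_U6) (h : IsWt Ψ) (hpos : 0 < Ψ (2 * π)) {f : ℝ → ℂ} (hf : InH Ψ f)
    (hnorm : lor Ψ (fun t => ‖f t‖) = 1) : ∀ᵐ t ∂μT, f t ≠ 0 := by
  by_contra hno
  have h1 : μT {t | f t = 0} ≠ 0 := by
    intro h2
    apply hno
    exact measure_eq_zero_iff_ae_notMem.1 h2
  have h2 := hU6 f hf.meas (hf.integrable h hpos) hf.four h1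
  have h3 : lor Ψ (fun t => ‖f t‖) = lor Ψ (fun _ => 0) := by
    refine h.lor_congr ?_
    filter_upwards [h2] with t ht
    rw [ht, norm_zero]
  rw [hnorm, lor_zero h] at h3
  exact one_ne_zero h3

/-- Either `g` is a real multiple of `f`, or the sets where `g = c f` are null. -/
theorem InH.mult_null (hU6 : S_U6) (h : IsWt Ψ) (hpos : 0 < Ψ (2 * π)) {f g : ℝ → ℂ}
    (hf : InH Ψ f) (hg : InH Ψ g) (hno : ¬ ∃ c : ℝ, ∀ᵐ t ∂μT, g t = (c : ℂ) * f t) (c : ℝ) :
    μT {t | g t = (c : ℂ) * f t} = 0 := by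
  by_contra hne
  apply hno
  have h1 : InH Ψ (fun t => ((1 : ℝ) : ℂ) * g t + ((-c : ℝ) : ℂ) * f t) := hg.lin h hpos hf 1 (-c)
  have h2 : {t | g t = (c : ℂ) * f t}
      = {t | (fun t => ((1 : ℝ) : ℂ) * g t + ((-c : ℝ) : ℂ) * f t) t = 0} := by
    ext t
    simp only [mem_ofPred_eq]
    push_cast
    constructor
    · intro h3
      rw [h3]
      ring
    · intro h3
      linear_combination h3
  rw [h2] at hne
  have h3 := hU6 _ h1.meas (h1.integrable h hpos) h1.four hne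
  refine ⟨c, ?_⟩
  filter_upwards [h3] with t ht
  push_cast at ht
  linear_combination ht

theorem adm_pert (hU6 : S_U6) (h : IsWt Ψ) (hpos : 0 < Ψ (2 * π)) {f g : ℝ → ℂ}
    (hf : InH Ψ f) (hnorm : lor Ψ (fun t => ‖f t‖) = 1) (hg : InH Ψ g)
    (hno : ¬ ∃ c : ℝ, ∀ᵐ t ∂μT, g t = (c : ℂ) * f t) (hA : Adm Ψ f g) : Pert Ψ f g := by
  obtain ⟨E, k, l, C, hE, hk, hEm, hl0, hC0, hlM, hon, hoff, hbend, hkap⟩ := hA
  have hmult := hf.mult_null hU6 h hpos hg hno
  have hfm := hf.meas.norm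
  -- the level `l` is null
  have hlevel : ∀ᵐ t ∂μT, ‖f t‖ ≠ l := by
    have h1 : μT {t | ‖f t‖ = l} ≤ μT {t | g t = ((0 : ℝ) : ℂ) * f t} := by
      refine measure_mono_ae ?_
      filter_upwards [hon, hoff] with t h2 h3 h4
      have h4' : ‖f t‖ = l := h4
      show g t = ((0 : ℝ) : ℂ) * f t
      rw [Complex.ofReal_zero, zero_mul]
      by_cases h5 : t ∈ E
      · obtain ⟨h6, -, h7⟩ := h2 h5
        rw [h4', sub_self, mul_zero] at h7
        have h8 : k t * l = 0 := abs_eq_zero.1 (le_antisymm h7 (abs_nonneg _))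
        have h9 : ‖g t‖ = |k t * l| := by
          rw [h6, norm_mul, Complex.norm_real, Real.norm_eq_abs, h4', abs_mul, abs_of_nonneg hl0]
        rw [← norm_eq_zero, h9, h8, abs_zero]
      · obtain ⟨h6, h7⟩ := h3 h5
        have h8 := parallelogram_law_with_norm ℝ (f t) (g t)
        have h9 : ‖f t + g t‖ * ‖f t + g t‖ ≤ l * l :=
          mul_self_le_mul_self (norm_nonneg _) h6
        have h10 : ‖f t - g t‖ * ‖f t - g t‖ ≤ l * l :=
          mul_self_le_mul_self (norm_nonneg _) h7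
        rw [h4'] at h8
        have h11 : ‖g t‖ * ‖g t‖ ≤ 0 := by nlinarith
        have h12 : ‖g t‖ = 0 := by
          have := mul_self_nonneg ‖g t‖
          exact mul_self_eq_zero.1 (le_antisymm h11 this)
        exact norm_eq_zero.1 h12
    rw [hmult 0] at h1
    exact measure_eq_zero_iff_ae_notMem.1 (le_antisymm h1 bot_le)
  have hfl : ∀ᵐ t ∂μT, t ∉ E → ‖f t‖ ≤ l := by
    filter_upwards [hoff] with t h1 h2
    obtain ⟨h3, h4⟩ := h1 h2
    have h5 : f t = (((1 / 2 : ℝ)) : ℂ) * ((f t + g t) + (f t - g t)) := by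
      push_cast
      ring
    rw [h5, norm_mul, Complex.norm_real, Real.norm_eq_abs, abs_of_pos (by norm_num)]
    have := norm_add_le (f t + g t) (f t - g t)
    linarith
  have hiff : ∀ᵐ t ∂μT, t ∈ E ↔ l < ‖f t‖ := by
    filter_upwards [hon, hfl, hlevel] with t h1 h2 h3
    constructor
    · intro h4
      exact lt_of_le_of_ne (h1 h4).2.1 h3.symm
    · intro h4
      by_contra h5
      exact absurd (h2 h5) (not_le.2 h4)
  have hEm2 : μT {t | l < ‖f t‖} = μT E := by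
    refine measure_congr ?_
    filter_upwards [hiff] with t ht
    exact (propext ht).symm
  refine ⟨k, l, C, hk, hl0, hC0, hlM, by rw [hEm2, hEm], ?_, ?_, ?_, ?_⟩
  · filter_upwards [hon, hiff] with t h1 h2 h3
    obtain ⟨h4, -, h5⟩ := h1 (h2.2 h3)
    exact ⟨h4, h5⟩
  · filter_upwards [hoff, hiff] with t h1 h2 h3
    refine h1 fun h4 => ?_
    exact absurd (h2.1 h4) (not_lt.2 h3)
  · intro s hsB hs
    obtain ⟨E', hE'E, hE'm, hE's, hsep⟩ := hbend s hsB hs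
    have h1 : μT E' ≠ 0 := by
      rw [hE's]
      exact (ENNReal.ofReal_pos.2 hsB.1).ne'
    have h2 : μT (E \ E') ≠ 0 := by
      intro h3
      have h4 : μT (E ∩ E') + μT (E \ E') = μT E := measure_inter_add_sdiff _ hE'm
      rw [h3, add_zero, inter_eq_right.2 hE'E, hE's, hEm] at h4
      have h5 := (ENNReal.ofReal_eq_ofReal_iff hsB.1.le (flat_mem Ψ).1).1 h4
      linarith
    have hpl : ∀ p c, l < p → μT {t | ‖f t‖ = p ∧ k t * ‖f t‖ = c} = 0 := by
      intro p c hlp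
      have hp0 : 0 < p := lt_of_le_of_lt hl0 hlp
      have h3 : μT {t | ‖f t‖ = p ∧ k t * ‖f t‖ = c} ≤ μT {t | g t = ((c / p : ℝ) : ℂ) * f t} := by
        refine measure_mono_ae ?_
        filter_upwards [hon, hiff] with t h4 h5 h6
        obtain ⟨h7, h8⟩ := h6
        obtain ⟨h9, -, -⟩ := h4 (h5.2 (by rw [h7]; exact hlp))
        show g t = ((c / p : ℝ) : ℂ) * f t
        have h10 : k t = c / p := by
          rw [h7] at h8
          rw [eq_div_iff hp0.ne']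
          exact h8
        rw [h9, h10]
      rw [hmult] at h3
      exact le_antisymm h3 bot_le
    obtain ⟨E'', hL, hLE⟩ := level_of_top (u := fun t => ‖f t‖) (v := fun t => k t * ‖f t‖) hfm
      (fun t => norm_nonneg _) (by filter_upwards [hiff] with t ht using ht.1) hfl hE'E hE'm h1 h2
      hsep hpl
    have hEE : μT E'' = μT E' := by
      refine measure_congr ?_
      filter_upwards [hLE] with t ht
      exact propext ht
    refine ⟨E'', hL, by rw [hEE, hE's], ?_⟩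
    filter_upwards [hsep, hLE] with t h3 h4 h5
    filter_upwards [h3 (h4.1 h5), hLE, hiff] with t' h6 h7 h8 h9 h10
    exact (h6 ⟨h8.2 h10, fun h11 => h9 (h7.2 h11)⟩).2
  · intro hkp
    obtain ⟨M, c, h1, h2, h3⟩ := hkap hkp
    refine ⟨M, c, h1, h2, ?_⟩
    filter_upwards [h3, hiff] with t h4 h5 h6
    exact h4 (h5.2 h6)

/-- **Characterisation of the extreme points**, for an arbitrary weight, by levels. -/
theorem extr_iff_pert (hU6 : S_U6) (h : IsWt Ψ) (hpos : 0 < Ψ (2 * π)) (f : ℝ → ℂ) :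
    Extr Ψ f ↔ InH Ψ f ∧ lor Ψ (fun t => ‖f t‖) = 1 ∧
      ∀ g : ℝ → ℂ, InH Ψ g → Pert Ψ f g → ∃ c : ℝ, ∀ᵐ t ∂μT, g t = (c : ℂ) * f t := by
  rw [extr_iff_adm h hpos]
  constructor
  · rintro ⟨h1, h2, h3⟩
    exact ⟨h1, h2, fun g hg hP => h3 g hg (hP.adm h1.meas)⟩
  · rintro ⟨h1, h2, h3⟩
    refine ⟨h1, h2, fun g hg hA => ?_⟩
    by_contra hno
    exact hno (h3 g hg (adm_pert hU6 h hpos h1 h2 hg hno hA))

/-! ### Strictly increasing weights -/

/-- `v` is Lipschitz with respect to `u` across the superlevel sets of `u` whose measures are the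
bending points of `Ψ`. -/
def Lev (Ψ : ℝ → ℝ) (C : ℝ) (u v : ℝ → ℝ) : Prop :=
  (∀ s, Bend Ψ s → ∃ E, IsLevel u E ∧ μT E = ENNReal.ofReal s ∧
    ∀ᵐ t ∂μT, t ∈ E → ∀ᵐ t' ∂μT, t' ∉ E → |v t - v t'| ≤ C * (u t - u t')) ∧
  (0 < kap Ψ → ∃ M c : ℝ, (∀ᵐ t ∂μT, u t ≤ M) ∧ (∀ M', (∀ᵐ t ∂μT, u t ≤ M') → M ≤ M') ∧
    ∀ᵐ t ∂μT, |v t - c| ≤ C * (M - u t))

/-- **Characterisation of the extreme points**, for strictly increasing weights, by levels. -/
theorem extr_iff_lev (hU6 : S_U6) (h : IsWt Ψ) (hs : StrictMonoOn Ψ (Icc 0 (2 * π)))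
    (f : ℝ → ℂ) :
    Extr Ψ f ↔ InH Ψ f ∧ lor Ψ (fun t => ‖f t‖) = 1 ∧
      ∀ k : ℝ → ℝ, Measurable k → (∃ B : ℝ, ∀ t, |k t| ≤ B) → Four (fun t => (k t : ℂ) * f t) →
        (∃ C : ℝ, Lev Ψ C (fun t => ‖f t‖) (fun t => k t * ‖f t‖)) →
        ∃ c : ℝ, ∀ᵐ t ∂μT, k t = c := by
  have hpos := h.pos_of_strict hs
  rw [extr_iff h hs]
  constructor
  · rintro ⟨h1, h2, h3⟩
    refine ⟨h1, h2, ?_⟩
    rintro k hk hB hF ⟨C, hL1, hL2⟩
    obtain ⟨c, hc⟩ := h3 k hk hB hF ⟨C, fun s hsB => by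
      obtain ⟨E, a1, a2, a3⟩ := hL1 s hsB
      refine ⟨E, a1.meas h1.meas.norm, a2, ?_⟩
      filter_upwards [a3] with t a4 a5
      filter_upwards [a4 a5] with t' a6 a7
      exact ⟨a1.le a5 a7, a6 a7⟩, hL2⟩
    refine ⟨c, ?_⟩
    filter_upwards [hc, h1.ne_zero hU6 h hpos h2] with t h4 h5
    have h6 := mul_right_cancel₀ h5 h4
    exact_mod_cast h6
  · rintro ⟨h1, h2, h3⟩
    refine ⟨h1, h2, ?_⟩
    rintro k hk hB hF ⟨C, hS1, hS2⟩
    by_contra hno
    have hne := h1.ne_zero hU6 h hpos h2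
    obtain ⟨B, hB'⟩ := hB
    have hB0 : 0 ≤ B := (abs_nonneg _).trans (hB' 0)
    have hkfH : InH Ψ (fun t => (k t : ℂ) * f t) := by
      refine ⟨(Complex.measurable_ofReal.comp hk).mul h1.meas, ?_, hF⟩
      have h4 : lor Ψ (fun t => ‖(k t : ℂ) * f t‖) ≤ lor Ψ (fun t => (B + 1) * ‖f t‖) := by
        refine h.lor_mono (Filter.Eventually.of_forall fun t => ?_)
        rw [norm_mul, Complex.norm_real, Real.norm_eq_abs]
        have h5 := hB' t
        have h6 := norm_nonneg (f t)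
        nlinarith
      rw [lor_smul (by linarith), h2] at h4
      exact ne_top_of_le_ne_top (ENNReal.mul_ne_top ENNReal.ofReal_ne_top ENNReal.one_ne_top) h4
    have hmult := h1.mult_null hU6 h hpos hkfH hno
    obtain ⟨c, hc⟩ := h3 k hk ⟨B, hB'⟩ hF ⟨C, fun s hsB => by
      obtain ⟨E, a1, a2, a3⟩ := hS1 s hsB
      have b1 : μT E ≠ 0 := by
        rw [a2]
        exact (ENNReal.ofReal_pos.2 hsB.1).ne'
      have b2 : μT (univ \ E) ≠ 0 := by
        intro h4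
        have h5 : μT (univ ∩ E) + μT (univ \ E) = μT univ := measure_inter_add_sdiff _ a1
        rw [h4, add_zero, univ_inter, a2, μT_univ] at h5
        have h6 := (ENNReal.ofReal_eq_ofReal_iff hsB.1.le two_pi_pos.le).1 h5
        exact absurd h6 hsB.2.1.ne
      have hpl : ∀ p c, -1 < p → μT {t | ‖f t‖ = p ∧ k t * ‖f t‖ = c} = 0 := by
        intro p c _
        rcases le_or_gt p 0 with hp | hp
        · refine measure_mono_null (fun t ht => ?_) hne
          intro h5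
          have h6 : ‖f t‖ = p := ht.1
          have h7 := norm_pos_iff.2 h5
          linarith
        · have h4 : μT {t | ‖f t‖ = p ∧ k t * ‖f t‖ = c}
              ≤ μT {t | (fun t => (k t : ℂ) * f t) t = ((c / p : ℝ) : ℂ) * f t} := by
            refine measure_mono fun t ht => ?_
            obtain ⟨h7, h8⟩ := ht
            show (k t : ℂ) * f t = ((c / p : ℝ) : ℂ) * f t
            have h10 : k t = c / p := by
              rw [h7] at h8
              rw [eq_div_iff hp.ne']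
              exact h8
            rw [h10]
          rw [hmult] at h4
          exact le_antisymm h4 bot_le
      obtain ⟨E'', hL, hLE⟩ := level_of_top (E := univ) (E' := E) (u := fun t => ‖f t‖)
        (v := fun t => k t * ‖f t‖) (l := -1) (C := C) h1.meas.norm (fun t => norm_nonneg _)
        (Filter.Eventually.of_forall fun t _ => by
          have := norm_nonneg (f t)
          show -1 < ‖f t‖
          linarith)
        (Filter.Eventually.of_forall fun t ht => absurd (mem_univ t) ht) (subset_univ _) a1 b1 b2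
        (by
          filter_upwards [a3] with t a4 a5
          filter_upwards [a4 a5] with t' a6 a7
          exact a6 a7.2) hpl
      have hEE : μT E'' = μT E := by
        refine measure_congr ?_
        filter_upwards [hLE] with t ht
        exact propext ht
      refine ⟨E'', hL, by rw [hEE, a2], ?_⟩
      filter_upwards [a3, hLE] with t h4 h5 h6
      filter_upwards [h4 (h5.1 h6), hLE] with t' h7 h8 h9
      exact (h7 fun h10 => h9 (h8.2 h10)).2, hS2⟩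
    apply hno
    refine ⟨c, ?_⟩
    filter_upwards [hc] with t ht
    rw [ht]

end Pool.Agent.H352R5.HL
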