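import Pool.Agent.H352R5.HL.Rep

/-!
# Properties of the Lorentz norm; the case of equality in the triangle inequality
-/

namespace Pool.Agent.H352R5.HL

open MeasureTheory Set Filter Topology
open scoped ENNReal NNReal Real

variable {Ψ : ℝ → ℝ}

theorem dis_toReal_mem (x : ℝ → ℝ) (τ : ℝ) : (dis x τ).toReal ∈ Icc 0 (2 * π) := by
  refine ⟨ENNReal.toReal_nonneg, ?_⟩
  have h2 := ENNReal.toReal_mono ENNReal.ofReal_ne_top (dis_le x τ)
  rwa [ENNReal.toReal_ofReal two_pi_pos.le] at h2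

theorem dis_mono {x y : ℝ → ℝ} (hxy : ∀ᵐ t ∂μT, x t ≤ y t) (τ : ℝ) : dis x τ ≤ dis y τ := by
  refine measure_mono_ae ?_
  filter_upwards [hxy] with t ht h
  exact lt_of_lt_of_le h ht

theorem IsWt.lor_mono (h : IsWt Ψ) {x y : ℝ → ℝ} (hxy : ∀ᵐ t ∂μT, x t ≤ y t) :
    lor Ψ x ≤ lor Ψ y := by
  refine lintegral_mono fun τ => ENNReal.ofReal_le_ofReal ?_
  exact h.mono (dis_toReal_mem x τ) (dis_toReal_mem y τ)
    (ENNReal.toReal_mono (μT_ne_top _) (dis_mono hxy τ))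

theorem IsWt.lor_congr (h : IsWt Ψ) {x y : ℝ → ℝ} (hxy : ∀ᵐ t ∂μT, x t = y t) :
    lor Ψ x = lor Ψ y :=
  le_antisymm (h.lor_mono (hxy.mono fun _ ht => ht.le)) (h.lor_mono (hxy.mono fun _ ht => ht.ge))

theorem Mx_congr {x y : ℝ → ℝ} (hxy : ∀ᵐ t ∂μT, x t = y t) : Mx x = Mx y := by
  have h1 : ∀ τ, dis x τ = dis y τ := fun τ =>
    le_antisymm (dis_mono (hxy.mono fun _ ht => ht.le) τ) (dis_mono (hxy.mono fun _ ht => ht.ge) τ)
  unfold Mx
  simp_rw [h1]

theorem K_congr {x y : ℝ → ℝ} (hxy : ∀ᵐ t ∂μT, x t = y t) (s : ℝ) : K s x = K s y := by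
  have h1 : ∀ τ, dis x τ = dis y τ := fun τ =>
    le_antisymm (dis_mono (hxy.mono fun _ ht => ht.le) τ) (dis_mono (hxy.mono fun _ ht => ht.ge) τ)
  unfold K
  simp_rw [h1]

theorem K_mono_s {x : ℝ → ℝ} {s s' : ℝ} (h : s ≤ s') : K s x ≤ K s' x :=
  lintegral_mono fun _ => min_le_min le_rfl (ENNReal.ofReal_le_ofReal h)

theorem lor_smul {c : ℝ} (hc : 0 < c) (x : ℝ → ℝ) :
    lor Ψ (fun t => c * x t) = ENNReal.ofReal c * lor Ψ x := by
  have h1 : ∀ τ, dis (fun t => c * x t) τ = dis x (c⁻¹ * τ) := by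
    intro τ
    unfold dis
    congr 1
    ext t
    simp only [mem_ofPred_eq]
    rw [inv_mul_lt_iff₀ hc]
  unfold lor
  simp_rw [h1]
  set g : ℝ → ℝ≥0∞ := fun τ => ENNReal.ofReal (Ψ (dis x τ).toReal) with hg
  have hemb : MeasurableEmbedding (fun τ : ℝ => c⁻¹ * τ) :=
    (Homeomorph.mulLeft₀ c⁻¹ (inv_ne_zero hc.ne')).measurableEmbedding
  have h2 : ∫⁻ τ in Ioi (0 : ℝ), g (c⁻¹ * τ)
      = ∫⁻ τ, (Ioi (0 : ℝ)).indicator g (c⁻¹ * τ) := by
    rw [← lintegral_indicator measurableSet_Ioi]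
    refine lintegral_congr fun τ => ?_
    by_cases hτ : 0 < τ
    · rw [indicator_of_mem (show τ ∈ Ioi (0 : ℝ) from hτ),
        indicator_of_mem (show c⁻¹ * τ ∈ Ioi (0 : ℝ) from mul_pos (inv_pos.2 hc) hτ)]
    · rw [indicator_of_notMem (show τ ∉ Ioi (0 : ℝ) from hτ), indicator_of_notMem]
      intro h3
      have h4 : 0 < c⁻¹ * τ := h3
      exact hτ (pos_of_mul_pos_right h4 (inv_pos.2 hc).le)
  change ∫⁻ τ in Ioi (0 : ℝ), g (c⁻¹ * τ) = ENNReal.ofReal c * ∫⁻ τ in Ioi (0 : ℝ), g τ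
  rw [h2, ← lintegral_indicator measurableSet_Ioi]
  have h3 := hemb.lintegral_map (μ := volume) ((Ioi (0 : ℝ)).indicator g)
  rw [← h3, Real.map_volume_mul_left (inv_ne_zero hc.ne'), lintegral_smul_measure, inv_inv,
    abs_of_pos hc]
  rfl

theorem lor_zero (h : IsWt Ψ) : lor Ψ (fun _ => 0) = 0 := by
  unfold lor
  rw [setLIntegral_congr_fun (g := fun _ => 0) measurableSet_Ioi]
  · simp
  · intro τ hτ
    have hτ' : (0 : ℝ) < τ := hτ
    have h1 : dis (fun _ => 0) τ = 0 := by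
      unfold dis
      have h2 : {_t : ℝ | τ < (0 : ℝ)} = ∅ := by
        ext t
        simp only [mem_ofPred_eq, mem_empty_iff_false, iff_false, not_lt]
        exact hτ'.le
      rw [h2, measure_empty]
    simp only [h1, ENNReal.toReal_zero, h.zero, ENNReal.ofReal_zero]

/-! ### The essential supremum -/

theorem Mx_le_iff {x : ℝ → ℝ} {a : ℝ} (ha : 0 ≤ a) :
    Mx x ≤ ENNReal.ofReal a ↔ ∀ᵐ t ∂μT, x t ≤ a := by
  constructor
  · intro h
    -- every level above `a` is null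
    have h1 : ∀ τ, a < τ → dis x τ = 0 := by
      intro τ hτ
      by_contra hne
      have h2 : Ioc 0 τ ⊆ {τ | dis x τ ≠ 0} ∩ Ioi 0 := by
        intro τ' hτ'
        refine ⟨?_, hτ'.1⟩
        have h3 : dis x τ ≤ dis x τ' := dis_anti x hτ'.2
        show dis x τ' ≠ 0
        intro h4
        rw [h4] at h3
        exact hne (le_antisymm h3 bot_le)
      have h3 := (measure_mono (μ := volume) h2).trans h
      rw [Real.volume_Ioc, sub_zero] at h3
      have h4 := (ENNReal.ofReal_le_ofReal_iff ha).1 h3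
      linarith
    have h2 : ∀ n : ℕ, ∀ᵐ t ∂μT, ¬ (a + 1 / ((n : ℝ) + 1) < x t) := by
      intro n
      have h3 := h1 (a + 1 / ((n : ℝ) + 1)) (by
        have : (0 : ℝ) < 1 / ((n : ℝ) + 1) := by positivity
        linarith)
      exact measure_eq_zero_iff_ae_notMem.1 h3
    filter_upwards [ae_all_iff.2 h2] with t ht
    by_contra hlt
    rw [not_le] at hlt
    obtain ⟨n, hn⟩ := exists_nat_one_div_lt (sub_pos.2 hlt)
    exact ht n (by linarith)
  · intro h
    have h1 : {τ | dis x τ ≠ 0} ∩ Ioi 0 ⊆ Ioo 0 a ∪ {a} := by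
      intro τ hτ
      have h2 : dis x τ ≠ 0 := hτ.1
      have h3 : (0 : ℝ) < τ := hτ.2
      by_cases h4 : τ < a
      · exact Or.inl ⟨h3, h4⟩
      · exfalso
        apply h2
        have h5 : ∀ᵐ t ∂μT, ¬ (τ < x t) := by
          filter_upwards [h] with t ht
          linarith [not_lt.1 h4]
        exact measure_eq_zero_iff_ae_notMem.2 h5
    refine (measure_mono h1).trans ((measure_union_le _ _).trans ?_)
    rw [Real.volume_Ioo, sub_zero, Real.volume_singleton, add_zero]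

theorem Mx_add_le (x y : ℝ → ℝ) : Mx (fun t => x t + y t) ≤ Mx x + Mx y := by
  by_cases hx : Mx x = ∞
  · rw [hx]
    simp
  by_cases hy : Mx y = ∞
  · rw [hy]
    simp
  have h1 : Mx x = ENNReal.ofReal (Mx x).toReal := (ENNReal.ofReal_toReal hx).symm
  have h2 : Mx y = ENNReal.ofReal (Mx y).toReal := (ENNReal.ofReal_toReal hy).symm
  have h3 := (Mx_le_iff ENNReal.toReal_nonneg).1 h1.le
  have h4 := (Mx_le_iff ENNReal.toReal_nonneg).1 h2.le
  rw [h1, h2, ← ENNReal.ofReal_add ENNReal.toReal_nonneg ENNReal.toReal_nonneg]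
  refine (Mx_le_iff (add_nonneg ENNReal.toReal_nonneg ENNReal.toReal_nonneg)).2 ?_
  filter_upwards [h3, h4] with t h5 h6
  exact add_le_add h5 h6

/-! ### Triangle inequality -/

theorem IsWt.lor_add_le (h : IsWt Ψ) {x y : ℝ → ℝ} (hx : Measurable x) (hy : Measurable y)
    (hx0 : ∀ t, 0 ≤ x t) (hy0 : ∀ t, 0 ≤ y t) :
    lor Ψ (fun t => x t + y t) ≤ lor Ψ x + lor Ψ y := by
  rw [h.lor_eq, h.lor_eq x, h.lor_eq y]
  have h1 : ∫⁻ η in Ioi (0 : ℝ), K (S Ψ η) (fun t => x t + y t)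
      ≤ (∫⁻ η in Ioi (0 : ℝ), K (S Ψ η) x) + ∫⁻ η in Ioi (0 : ℝ), K (S Ψ η) y := by
    rw [← lintegral_add_left']
    · refine setLIntegral_mono' measurableSet_Ioi fun η hη => ?_
      have hη' : (0 : ℝ) < η := hη
      exact K_add_le hx hy hx0 hy0 (S_nonneg η) (S_le hη'.le)
    · refine aemeasurable_restrict_of_antitoneOn measurableSet_Ioi ?_
      intro a ha b hb hab
      exact K_mono_s (S_anti ha hb hab)
  calc _ ≤ ENNReal.ofReal (kap Ψ) * (Mx x + Mx y) +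
        ((∫⁻ η in Ioi (0 : ℝ), K (S Ψ η) x) + ∫⁻ η in Ioi (0 : ℝ), K (S Ψ η) y) :=
      add_le_add (mul_le_mul_right (Mx_add_le x y) _) h1
    _ = _ := by ring

theorem IsWt.int_le_lor (h : IsWt Ψ) (hpos : 0 < Ψ (2 * π)) {x : ℝ → ℝ} (hx : Measurable x)
    (hx0 : ∀ t, 0 ≤ x t) :
    ∫⁻ t, ENNReal.ofReal (x t) ∂μT ≤ ENNReal.ofReal (2 * π / Ψ (2 * π)) * lor Ψ x := by
  rw [int_eq hx hx0]
  unfold lor
  rw [← lintegral_const_mul']
  · refine lintegral_mono fun τ => ?_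
    set d := (dis x τ).toReal with hd
    have hmem := dis_toReal_mem x τ
    have h1 : d / (2 * π) * Ψ (2 * π) ≤ Ψ d := by
      have h2 := h.conc.2 (left_mem_Icc.2 two_pi_pos.le) (right_mem_Icc.2 two_pi_pos.le)
        (show 0 ≤ 1 - d / (2 * π) by
          rw [sub_nonneg, div_le_one two_pi_pos]
          exact hmem.2)
        (show 0 ≤ d / (2 * π) from div_nonneg hmem.1 two_pi_pos.le)
        (by ring)
      simp only [smul_eq_mul, h.zero, mul_zero, zero_add] at h2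
      rw [div_mul_cancel₀ _ two_pi_pos.ne'] at h2
      exact h2
    rw [← ENNReal.ofReal_toReal (show dis x τ ≠ ∞ from μT_ne_top _), ← hd,
      ← ENNReal.ofReal_mul (by positivity)]
    refine ENNReal.ofReal_le_ofReal ?_
    have h3 : d = 2 * π / Ψ (2 * π) * (d / (2 * π) * Ψ (2 * π)) := by
      field_simp
    have h4 : (0 : ℝ) ≤ 2 * π / Ψ (2 * π) := by positivity
    have h5 := mul_le_mul_of_nonneg_left h1 h4
    exact h3.le.trans h5
  · exact ENNReal.ofReal_ne_top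

theorem IsWt.int_fin (h : IsWt Ψ) (hpos : 0 < Ψ (2 * π)) {x : ℝ → ℝ} (hx : Measurable x)
    (hx0 : ∀ t, 0 ≤ x t) (hfin : lor Ψ x ≠ ∞) : ∫⁻ t, ENNReal.ofReal (x t) ∂μT ≠ ∞ :=
  ne_top_of_le_ne_top (ENNReal.mul_ne_top ENNReal.ofReal_ne_top hfin) (h.int_le_lor hpos hx hx0)

/-- Strict monotonicity. -/
theorem IsWt.ae_eq_of_lor_le (h : IsWt Ψ) (hs : StrictMonoOn Ψ (Icc 0 (2 * π))) {x y : ℝ → ℝ}
    (hx : Measurable x) (hy : Measurable y) (hx0 : ∀ t, 0 ≤ x t) (hy0 : ∀ t, 0 ≤ y t)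
    (hxy : ∀ᵐ t ∂μT, x t ≤ y t) (hfin : lor Ψ x ≠ ∞) (hle : lor Ψ y ≤ lor Ψ x) :
    ∀ᵐ t ∂μT, x t = y t := by
  have hpos : 0 < Ψ (2 * π) := by
    have h1 := hs (left_mem_Icc.2 two_pi_pos.le) (right_mem_Icc.2 two_pi_pos.le) two_pi_pos
    rwa [h.zero] at h1
  have hm : ∀ x : ℝ → ℝ, Measurable fun τ => ENNReal.ofReal (Ψ (dis x τ).toReal) := by
    intro x
    refine Antitone.measurable fun a b hab => ENNReal.ofReal_le_ofReal ?_
    exact h.mono (dis_toReal_mem x b) (dis_toReal_mem x a)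
      (ENNReal.toReal_mono (μT_ne_top _) (dis_anti x hab))
  have h1 : (fun τ => ENNReal.ofReal (Ψ (dis x τ).toReal)) =ᵐ[volume.restrict (Ioi (0 : ℝ))]
      fun τ => ENNReal.ofReal (Ψ (dis y τ).toReal) := by
    refine ae_eq_of_ae_le_of_lintegral_le (Filter.Eventually.of_forall fun τ => ?_) hfin
      (hm y).aemeasurable hle
    refine ENNReal.ofReal_le_ofReal ?_
    exact h.mono (dis_toReal_mem x τ) (dis_toReal_mem y τ)
      (ENNReal.toReal_mono (μT_ne_top _) (dis_mono hxy τ))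
  have h2 : (fun τ => dis x τ) =ᵐ[volume.restrict (Ioi (0 : ℝ))] fun τ => dis y τ := by
    filter_upwards [h1] with τ hτ
    have h3 : Ψ (dis x τ).toReal = Ψ (dis y τ).toReal := by
      have h4 := congrArg ENNReal.toReal hτ
      rwa [ENNReal.toReal_ofReal (h.nonneg (dis_toReal_mem x τ)),
        ENNReal.toReal_ofReal (h.nonneg (dis_toReal_mem y τ))] at h4
    have h5 := hs.injOn (dis_toReal_mem x τ) (dis_toReal_mem y τ) h3
    exact (ENNReal.toReal_eq_toReal_iff' (μT_ne_top _) (μT_ne_top _)).1 h5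
  have h3 : ∫⁻ t, ENNReal.ofReal (y t) ∂μT ≤ ∫⁻ t, ENNReal.ofReal (x t) ∂μT := by
    rw [int_eq hx hx0, int_eq hy hy0, lintegral_congr_ae h2]
  have h4 : (fun t => ENNReal.ofReal (x t)) =ᵐ[μT] fun t => ENNReal.ofReal (y t) := by
    refine ae_eq_of_ae_le_of_lintegral_le ?_ (h.int_fin hpos hx hx0 hfin)
      hy.ennreal_ofReal.aemeasurable h3
    filter_upwards [hxy] with t ht
    exact ENNReal.ofReal_le_ofReal ht
  filter_upwards [h4] with t ht
  exact (ENNReal.ofReal_eq_ofReal_iff (hx0 t) (hy0 t)).1 ht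

/-- The case of equality in the triangle inequality: common top sets at all bending points. -/
theorem IsWt.common_of_eq (h : IsWt Ψ) (hpos : 0 < Ψ (2 * π)) {x y : ℝ → ℝ} (hx : Measurable x)
    (hy : Measurable y) (hx0 : ∀ t, 0 ≤ x t) (hy0 : ∀ t, 0 ≤ y t) (hxf : lor Ψ x ≠ ∞)
    (hyf : lor Ψ y ≠ ∞) (heq : lor Ψ x + lor Ψ y ≤ lor Ψ (fun t => x t + y t)) :
    (∀ s, Bend Ψ s → ∃ E, MeasurableSet E ∧ μT E = ENNReal.ofReal s ∧ Top E x ∧ Top E y) ∧
    (0 < kap Ψ → Mx x + Mx y ≤ Mx (fun t => x t + y t) ∧ Mx x ≠ ∞ ∧ Mx y ≠ ∞) := by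
  have hxi := h.int_fin hpos hx hx0 hxf
  have hyi := h.int_fin hpos hy hy0 hyf
  have hmeasK : ∀ x : ℝ → ℝ, AEMeasurable (fun η => K (S Ψ η) x) (volume.restrict (Ioi 0)) := by
    intro x
    refine aemeasurable_restrict_of_antitoneOn measurableSet_Ioi ?_
    intro a ha b hb hab
    exact K_mono_s (S_anti ha hb hab)
  have e := h.lor_eq (fun t => x t + y t)
  have ex := h.lor_eq x
  have ey := h.lor_eq y
  set I := ∫⁻ η in Ioi (0 : ℝ), K (S Ψ η) (fun t => x t + y t) with hI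
  set Ix := ∫⁻ η in Ioi (0 : ℝ), K (S Ψ η) x with hIx
  set Iy := ∫⁻ η in Ioi (0 : ℝ), K (S Ψ η) y with hIy
  have hadd : Ix + Iy = ∫⁻ η in Ioi (0 : ℝ), (K (S Ψ η) x + K (S Ψ η) y) :=
    (lintegral_add_left' (hmeasK x) _).symm
  have hIle : I ≤ Ix + Iy := by
    rw [hadd]
    refine setLIntegral_mono' measurableSet_Ioi fun η hη => ?_
    have hη' : (0 : ℝ) < η := hη
    exact K_add_le hx hy hx0 hy0 (S_nonneg η) (S_le hη'.le)
  have hMle := mul_le_mul_right (Mx_add_le x y) (ENNReal.ofReal (kap Ψ))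
  have hIx' : Ix ≠ ∞ := ne_top_of_le_ne_top hxf (by rw [ex]; exact le_add_self)
  have hIy' : Iy ≠ ∞ := ne_top_of_le_ne_top hyf (by rw [ey]; exact le_add_self)
  have hMx' : ENNReal.ofReal (kap Ψ) * Mx x ≠ ∞ :=
    ne_top_of_le_ne_top hxf (by rw [ex]; exact le_self_add)
  have hMy' : ENNReal.ofReal (kap Ψ) * Mx y ≠ ∞ :=
    ne_top_of_le_ne_top hyf (by rw [ey]; exact le_self_add)
  rw [e, ex, ey] at heq
  have hsum : ENNReal.ofReal (kap Ψ) * (Mx x + Mx y) + (Ix + Iy)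
      ≤ ENNReal.ofReal (kap Ψ) * Mx (fun t => x t + y t) + I := by
    refine le_trans (le_of_eq ?_) heq
    ring
  have hfinM : ENNReal.ofReal (kap Ψ) * (Mx x + Mx y) ≠ ∞ := by
    rw [mul_add]
    exact ENNReal.add_ne_top.2 ⟨hMx', hMy'⟩
  have hI2 : Ix + Iy ≤ I := by
    have h1 := hsum.trans (add_le_add hMle le_rfl)
    exact (ENNReal.add_le_add_iff_left hfinM).1 h1
  have hM2 : ENNReal.ofReal (kap Ψ) * (Mx x + Mx y)
      ≤ ENNReal.ofReal (kap Ψ) * Mx (fun t => x t + y t) := by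
    have h1 := hsum.trans (add_le_add le_rfl hIle)
    exact (ENNReal.add_le_add_iff_right (ENNReal.add_ne_top.2 ⟨hIx', hIy'⟩)).1 h1
  constructor
  · -- bending points
    have hae : (fun η => K (S Ψ η) (fun t => x t + y t)) =ᵐ[volume.restrict (Ioi (0 : ℝ))]
        fun η => K (S Ψ η) x + K (S Ψ η) y := by
      refine ae_eq_of_ae_le_of_lintegral_le ?_ ?_ ((hmeasK x).add (hmeasK y)) ?_
      · refine (ae_restrict_iff' measurableSet_Ioi).2 (Filter.Eventually.of_forall fun η hη => ?_)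
        have hη' : (0 : ℝ) < η := hη
        exact K_add_le hx hy hx0 hy0 (S_nonneg η) (S_le hη'.le)
      · exact ne_top_of_le_ne_top (ENNReal.add_ne_top.2 ⟨hIx', hIy'⟩) hIle
      · rw [← hadd]
        exact hI2
    intro s hs
    have hex : ∀ n : ℕ, ∃ η : ℝ, 0 < η ∧ |S Ψ η - s| < 1 / ((n : ℝ) + 1) ∧
        K (S Ψ η) x + K (S Ψ η) y ≤ K (S Ψ η) (fun t => x t + y t) := by
      intro n
      by_contra hno
      push Not at hno
      have h1 := h.bend_near hs (show (0 : ℝ) < 1 / ((n : ℝ) + 1) by positivity)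
      apply h1
      have h2 : (volume.restrict (Ioi (0 : ℝ))) {η | |S Ψ η - s| < 1 / ((n : ℝ) + 1)} = 0 := by
        refine measure_mono_null (fun η hη => ?_) ((ae_iff).1
          (hae.and (ae_restrict_mem (measurableSet_Ioi (a := (0 : ℝ))))))
        intro h3
        have h4 := hno η h3.2 hη
        exact absurd h3.1.symm.le (not_le.2 h4)
      refine le_antisymm ?_ bot_le
      refine (Measure.le_restrict_apply _ _).trans h2.le
    choose η hη0 hη1 hη2 using hex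
    have hlim : Tendsto (fun n => S Ψ (η n)) atTop (𝓝 s) := by
      rw [tendsto_iff_dist_tendsto_zero]
      refine squeeze_zero (fun n => dist_nonneg) (fun n => ?_)
        (tendsto_one_div_add_atTop_nhds_zero_nat (𝕜 := ℝ))
      rw [Real.dist_eq]
      exact (hη1 n).le
    have hxyi : ∫⁻ t, ENNReal.ofReal (x t + y t) ∂μT ≠ ∞ := by
      have h1 : ∫⁻ t, ENNReal.ofReal (x t + y t) ∂μT
          = ∫⁻ t, ENNReal.ofReal (x t) ∂μT + ∫⁻ t, ENNReal.ofReal (y t) ∂μT := by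
        rw [← lintegral_add_left (by fun_prop)]
        exact lintegral_congr fun t => ENNReal.ofReal_add (hx0 t) (hy0 t)
      rw [h1]
      exact ENNReal.add_ne_top.2 ⟨hxi, hyi⟩
    have h1 := (K_tendsto hx hx0 hxi hlim).add (K_tendsto hy hy0 hyi hlim)
    have h2 := K_tendsto (hx.add hy) (fun t => add_nonneg (hx0 t) (hy0 t)) hxyi hlim
    have h3 : K s x + K s y ≤ K s (fun t => x t + y t) := le_of_tendsto_of_tendsto' h1 h2 hη2
    exact common_top hx hy hx0 hy0 hxi hyi hs.1.le hs.2.1.le h3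
  · intro hk
    have hk' : ENNReal.ofReal (kap Ψ) ≠ 0 := by
      rw [Ne, ENNReal.ofReal_eq_zero, not_le]
      exact hk
    refine ⟨?_, ?_, ?_⟩
    · exact (ENNReal.mul_le_mul_iff_right hk' ENNReal.ofReal_ne_top).1 hM2
    · intro h1
      rw [h1, ENNReal.mul_top hk'] at hMx'
      exact hMx' rfl
    · intro h1
      rw [h1, ENNReal.mul_top hk'] at hMy'
      exact hMy' rfl

/-- Common top sets at all bending points give equality in the triangle inequality. -/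
theorem IsWt.eq_of_common (h : IsWt Ψ) {x y : ℝ → ℝ} (hx : Measurable x)
    (hy : Measurable y) (hx0 : ∀ t, 0 ≤ x t) (hy0 : ∀ t, 0 ≤ y t)
    (hE : ∀ s, Bend Ψ s → ∃ E, MeasurableSet E ∧ μT E = ENNReal.ofReal s ∧ Top E x ∧ Top E y)
    (hM : 0 < kap Ψ → Mx x + Mx y ≤ Mx (fun t => x t + y t)) :
    lor Ψ x + lor Ψ y ≤ lor Ψ (fun t => x t + y t) := by
  have hmeasK : ∀ x : ℝ → ℝ, AEMeasurable (fun η => K (S Ψ η) x) (volume.restrict (Ioi 0)) := by
    intro x
    refine aemeasurable_restrict_of_antitoneOn measurableSet_Ioi ?_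
    intro a ha b hb hab
    exact K_mono_s (S_anti ha hb hab)
  rw [h.lor_eq x, h.lor_eq y, h.lor_eq (fun t => x t + y t)]
  have h1 : (∫⁻ η in Ioi (0 : ℝ), K (S Ψ η) x) + ∫⁻ η in Ioi (0 : ℝ), K (S Ψ η) y
      ≤ ∫⁻ η in Ioi (0 : ℝ), K (S Ψ η) (fun t => x t + y t) := by
    rw [← lintegral_add_left' (hmeasK x)]
    refine setLIntegral_mono' measurableSet_Ioi fun η hη => ?_
    have hη' : (0 : ℝ) < η := hη
    rcases (S_nonneg (Ψ := Ψ) η).eq_or_lt with h2 | h2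
    · rw [← h2]
      unfold K
      simp
    rcases (S_le (Ψ := Ψ) hη'.le).eq_or_lt with h3 | h3
    · rw [h3]
      refine add_le_of_common hx hy hx0 hy0 MeasurableSet.univ μT_univ ?_ ?_
      · exact Filter.Eventually.of_forall fun t _ => Filter.Eventually.of_forall fun t' ht' =>
          (ht' (mem_univ _)).elim
      · exact Filter.Eventually.of_forall fun t _ => Filter.Eventually.of_forall fun t' ht' =>
          (ht' (mem_univ _)).elim
    · obtain ⟨E, hE1, hE2, hE3, hE4⟩ := hE _ (h.bend_S hη'.le h2 h3)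
      exact add_le_of_common hx hy hx0 hy0 hE1 hE2 hE3 hE4
  have h2 : ENNReal.ofReal (kap Ψ) * (Mx x + Mx y)
      ≤ ENNReal.ofReal (kap Ψ) * Mx (fun t => x t + y t) := by
    rcases h.kap_nonneg.eq_or_lt with h3 | h3
    · rw [← h3]
      simp
    · exact mul_le_mul_right (hM h3) _
  calc _ = ENNReal.ofReal (kap Ψ) * (Mx x + Mx y) +
        ((∫⁻ η in Ioi (0 : ℝ), K (S Ψ η) x) + ∫⁻ η in Ioi (0 : ℝ), K (S Ψ η) y) := by ring
    _ ≤ _ := add_le_add h2 h1

end Pool.Agent.H352R5.HL
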