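import Pool.Agent.H352R5.HL.Lor

/-!
# Extreme points of the ball of a space of functions with the Lorentz norm
-/

namespace Pool.Agent.H352R5.HL

open MeasureTheory Set Filter Topology
open scoped ENNReal NNReal Real

variable {Ψ : ℝ → ℝ}

/-- The negative Fourier coefficients of `f` vanish. -/
def Four (f : ℝ → ℂ) : Prop :=
  ∀ n : ℕ, ∫ t, f t * Complex.exp (Complex.I * ((n : ℂ) + 1) * t) ∂μT = 0

/-- Boundary functions of the functions of the Hardy–Lorentz space. -/
structure InH (Ψ : ℝ → ℝ) (f : ℝ → ℂ) : Prop where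
  meas : Measurable f
  fin : lor Ψ (fun t => ‖f t‖) ≠ ∞
  four : Four f

/-- The closed unit ball. -/
def Ball (Ψ : ℝ → ℝ) (f : ℝ → ℂ) : Prop := InH Ψ f ∧ lor Ψ (fun t => ‖f t‖) ≤ 1

/-- The extreme points of the closed unit ball (functions are identified if they are equal almost
everywhere). -/
def Extr (Ψ : ℝ → ℝ) (f : ℝ → ℂ) : Prop :=
  Ball Ψ f ∧ ∀ g₁ g₂ : ℝ → ℂ, Ball Ψ g₁ → Ball Ψ g₂ →
    (∀ᵐ t ∂μT, f t = (g₁ t + g₂ t) / 2) → ∀ᵐ t ∂μT, g₁ t = g₂ t

/-- `v` is Lipschitz with respect to `u` across all levels of `u` which correspond to the bending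
points of `Ψ`. -/
def Sep (Ψ : ℝ → ℝ) (C : ℝ) (u v : ℝ → ℝ) : Prop :=
  (∀ s, Bend Ψ s → ∃ E, MeasurableSet E ∧ μT E = ENNReal.ofReal s ∧
    ∀ᵐ t ∂μT, t ∈ E → ∀ᵐ t' ∂μT, t' ∉ E → u t' ≤ u t ∧ |v t - v t'| ≤ C * (u t - u t')) ∧
  (0 < kap Ψ → ∃ M c : ℝ, (∀ᵐ t ∂μT, u t ≤ M) ∧ (∀ M', (∀ᵐ t ∂μT, u t ≤ M') → M ≤ M') ∧
    ∀ᵐ t ∂μT, |v t - c| ≤ C * (M - u t))

theorem norm_exp_n (n : ℕ) (t : ℝ) : ‖Complex.exp (Complex.I * ((n : ℂ) + 1) * t)‖ = 1 := by
  rw [Complex.norm_exp]
  have h1 : (Complex.I * ((n : ℂ) + 1) * t).re = 0 := by simp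
  rw [h1, Real.exp_zero]

theorem meas_exp_n (n : ℕ) : Measurable fun t : ℝ => Complex.exp (Complex.I * ((n : ℂ) + 1) * t) := by
  fun_prop

theorem IsWt.pos_of_strict (h : IsWt Ψ) (hs : StrictMonoOn Ψ (Icc 0 (2 * π))) :
    0 < Ψ (2 * π) := by
  have h1 := hs (left_mem_Icc.2 two_pi_pos.le) (right_mem_Icc.2 two_pi_pos.le) two_pi_pos
  rwa [h.zero] at h1

theorem InH.integrable (h : IsWt Ψ) (hpos : 0 < Ψ (2 * π)) {f : ℝ → ℂ} (hf : InH Ψ f) :
    Integrable f μT := by
  refine ⟨hf.meas.aestronglyMeasurable, ?_⟩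
  have h1 := h.int_fin hpos hf.meas.norm (fun t => norm_nonneg _) hf.fin
  rw [hasFiniteIntegral_iff_norm]
  exact h1.lt_top

theorem integrable_mul_exp {f : ℝ → ℂ} (hf : Integrable f μT) (n : ℕ) :
    Integrable (fun t => f t * Complex.exp (Complex.I * ((n : ℂ) + 1) * t)) μT := by
  refine hf.mul_of_top_left ?_
  refine memLp_top_of_bound (meas_exp_n n).aestronglyMeasurable 1 ?_
  exact Filter.Eventually.of_forall fun t => (norm_exp_n n t).le

theorem Four.congr {f g : ℝ → ℂ} (hf : Four f) (h : ∀ᵐ t ∂μT, g t = f t) : Four g := by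
  intro n
  rw [← hf n]
  refine integral_congr_ae ?_
  filter_upwards [h] with t ht
  rw [ht]

theorem Four.lin {f g : ℝ → ℂ} (hf : Four f) (hg : Four g) (hfi : Integrable f μT)
    (hgi : Integrable g μT) (a b : ℝ) : Four (fun t => (a : ℂ) * f t + (b : ℂ) * g t) := by
  intro n
  have h1 : ∀ t : ℝ, ((a : ℂ) * f t + (b : ℂ) * g t) * Complex.exp (Complex.I * ((n : ℂ) + 1) * t)
      = (a : ℂ) * (f t * Complex.exp (Complex.I * ((n : ℂ) + 1) * t))
        + (b : ℂ) * (g t * Complex.exp (Complex.I * ((n : ℂ) + 1) * t)) := by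
    intro t
    ring
  simp_rw [h1]
  rw [integral_add ((integrable_mul_exp hfi n).const_mul _) ((integrable_mul_exp hgi n).const_mul _),
    integral_const_mul, integral_const_mul, hf n, hg n]
  simp

theorem four_const (c : ℂ) : Four (fun _ => c) := by
  intro n
  unfold μT
  rw [← intervalIntegral.integral_of_le two_pi_pos.le, intervalIntegral.integral_const_mul]
  have hne : Complex.I * ((n : ℂ) + 1) ≠ 0 := by
    refine mul_ne_zero Complex.I_ne_zero ?_
    exact_mod_cast Nat.succ_ne_zero n
  rw [integral_exp_mul_complex hne]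
  have h1 : Complex.exp (Complex.I * ((n : ℂ) + 1) * ((2 * π : ℝ) : ℂ)) = 1 := by
    rw [Complex.exp_eq_one_iff]
    refine ⟨(n : ℤ) + 1, ?_⟩
    push_cast
    ring
  rw [h1]
  simp

theorem Top.of_forall {E : Set ℝ} {x : ℝ → ℝ} {P : ℝ → ℝ → Prop}
    (h : ∀ᵐ t ∂μT, t ∈ E → ∀ᵐ t' ∂μT, t' ∉ E → P t t') (hP : ∀ t t', P t t' → x t' ≤ x t) :
    Top E x := by
  filter_upwards [h] with t ht htE
  filter_upwards [ht htE] with t' ht' htE'
  exact hP t t' (ht' htE')

/-- Finite linear combinations. -/
theorem InH.lin (h : IsWt Ψ) (hpos : 0 < Ψ (2 * π)) {f g : ℝ → ℂ} (hf : InH Ψ f)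
    (hg : InH Ψ g) (a b : ℝ) : InH Ψ (fun t => (a : ℂ) * f t + (b : ℂ) * g t) := by
  have hfi := hf.integrable h hpos
  have hgi := hg.integrable h hpos
  refine ⟨(hf.meas.const_mul _).add (hg.meas.const_mul _), ?_, hf.four.lin hg.four hfi hgi a b⟩
  have h1 : lor Ψ (fun t => ‖(a : ℂ) * f t + (b : ℂ) * g t‖)
      ≤ lor Ψ (fun t => (|a| + 1) * ‖f t‖ + (|b| + 1) * ‖g t‖) := by
    refine h.lor_mono (Filter.Eventually.of_forall fun t => ?_)
    refine (norm_add_le _ _).trans ?_
    rw [norm_mul, norm_mul, Complex.norm_real, Complex.norm_real, Real.norm_eq_abs,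
      Real.norm_eq_abs]
    have h2 := norm_nonneg (f t)
    have h3 := norm_nonneg (g t)
    nlinarith
  have h2 := h.lor_add_le (x := fun t => (|a| + 1) * ‖f t‖) (y := fun t => (|b| + 1) * ‖g t‖)
    (hf.meas.norm.const_mul _) (hg.meas.norm.const_mul _)
    (fun t => by positivity) (fun t => by positivity)
  rw [lor_smul (by positivity), lor_smul (by positivity)] at h2
  refine ne_top_of_le_ne_top ?_ (h1.trans h2)
  exact ENNReal.add_ne_top.2 ⟨ENNReal.mul_ne_top ENNReal.ofReal_ne_top hf.fin,
    ENNReal.mul_ne_top ENNReal.ofReal_ne_top hg.fin⟩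

/-- An extreme point has norm one. -/
theorem Extr.norm_eq (h : IsWt Ψ) (hpos : 0 < Ψ (2 * π)) {f : ℝ → ℂ} (hf : Extr Ψ f) :
    lor Ψ (fun t => ‖f t‖) = 1 := by
  by_contra hne
  have hlt : lor Ψ (fun t => ‖f t‖) < 1 := lt_of_le_of_ne hf.1.2 hne
  have hone : lor Ψ (fun _ => (1 : ℝ)) ≠ ∞ := by
    have h1 : lor Ψ (fun _ => (1 : ℝ)) ≤ ∫⁻ τ in Ioi (0 : ℝ),
        (Iio (1 : ℝ)).indicator (fun _ => ENNReal.ofReal (Ψ (2 * π))) τ := by
      refine lintegral_mono fun τ => ?_
      by_cases hτ : τ < 1
      · rw [indicator_of_mem (by exact hτ)]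
        refine ENNReal.ofReal_le_ofReal ?_
        exact h.mono (dis_toReal_mem _ _) (right_mem_Icc.2 two_pi_pos.le) (dis_toReal_mem _ _).2
      · have h2 : dis (fun _ => (1 : ℝ)) τ = 0 := by
          unfold dis
          have h3 : {_t : ℝ | τ < (1 : ℝ)} = ∅ := by
            ext t
            simp only [mem_ofPred_eq, mem_empty_iff_false, iff_false]
            exact hτ
          rw [h3, measure_empty]
        simp only [h2, ENNReal.toReal_zero, h.zero, ENNReal.ofReal_zero]
        exact bot_le
    refine ne_top_of_le_ne_top ?_ h1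
    rw [lintegral_indicator measurableSet_Iio, lintegral_const,
      Measure.restrict_restrict measurableSet_Iio, Measure.restrict_apply_univ]
    refine ENNReal.mul_ne_top ENNReal.ofReal_ne_top ?_
    have h2 : Iio (1 : ℝ) ∩ Ioi 0 = Ioo 0 1 := by
      ext t
      simp [and_comm]
    rw [h2, Real.volume_Ioo]
    exact ENNReal.ofReal_ne_top
  -- a small constant
  obtain ⟨δ, hδ, hδ'⟩ : ∃ δ : ℝ, 0 < δ ∧
      lor Ψ (fun t => ‖f t‖) + ENNReal.ofReal δ * lor Ψ (fun _ => (1 : ℝ)) ≤ 1 := by
    set L := (lor Ψ (fun t => ‖f t‖)).toReal with hL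
    set A := (lor Ψ (fun _ => (1 : ℝ))).toReal with hA
    have hLeq : lor Ψ (fun t => ‖f t‖) = ENNReal.ofReal L := (ENNReal.ofReal_toReal hf.1.1.fin).symm
    have hAeq : lor Ψ (fun _ => (1 : ℝ)) = ENNReal.ofReal A := (ENNReal.ofReal_toReal hone).symm
    have hL1 : L < 1 := by
      have h1 := (ENNReal.toReal_lt_toReal hf.1.1.fin ENNReal.one_ne_top).2 hlt
      simpa using h1
    have hL0 : 0 ≤ L := ENNReal.toReal_nonneg
    have hA0 : 0 ≤ A := ENNReal.toReal_nonneg
    refine ⟨(1 - L) / (A + 1), by apply div_pos <;> linarith, ?_⟩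
    rw [hLeq, hAeq, ← ENNReal.ofReal_mul (by apply div_nonneg <;> linarith),
      ← ENNReal.ofReal_add hL0 (by
        apply mul_nonneg _ hA0
        apply div_nonneg <;> linarith), ← ENNReal.ofReal_one]
    refine ENNReal.ofReal_le_ofReal ?_
    have h1 : (1 - L) / (A + 1) * A ≤ 1 - L := by
      rw [div_mul_eq_mul_div, div_le_iff₀ (by linarith)]
      nlinarith
    linarith
  have hconst : InH Ψ (fun _ => (δ : ℂ)) := by
    refine ⟨measurable_const, ?_, four_const _⟩
    have h1 : (fun _ : ℝ => ‖(δ : ℂ)‖) = fun _ => δ * (1 : ℝ) := by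
      ext t
      rw [Complex.norm_real, Real.norm_eq_abs, abs_of_pos hδ, mul_one]
    rw [h1, lor_smul hδ]
    exact ENNReal.mul_ne_top ENNReal.ofReal_ne_top hone
  have hball : ∀ σ : ℝ, |σ| = 1 → Ball Ψ (fun t => ((1 : ℝ) : ℂ) * f t + (σ : ℂ) * (δ : ℂ)) := by
    intro σ hσ
    refine ⟨hf.1.1.lin h hpos hconst 1 σ, ?_⟩
    have h1 : lor Ψ (fun t => ‖((1 : ℝ) : ℂ) * f t + (σ : ℂ) * (δ : ℂ)‖)
        ≤ lor Ψ (fun t => ‖f t‖ + δ * 1) := by
      refine h.lor_mono (Filter.Eventually.of_forall fun t => ?_)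
      refine (norm_add_le _ _).trans ?_
      rw [norm_mul, norm_mul, Complex.norm_real, Complex.norm_real, Complex.norm_real,
        Real.norm_eq_abs, Real.norm_eq_abs, Real.norm_eq_abs, hσ, abs_of_pos hδ]
      simp
    refine h1.trans ((h.lor_add_le hf.1.1.meas.norm measurable_const (fun t => norm_nonneg _)
      (fun t => by positivity)).trans ?_)
    rw [lor_smul hδ (fun _ => (1 : ℝ))]
    exact hδ'
  have h1 := hf.2 _ _ (hball 1 (by simp)) (hball (-1) (by simp))
    (Filter.Eventually.of_forall fun t => by push_cast; ring)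
  have h2 : ∀ᵐ _t ∂μT, False := by
    filter_upwards [h1] with t ht
    have h3 : (δ : ℂ) = 0 := by
      push_cast at ht
      linear_combination ht / 2
    exact hδ.ne' (by exact_mod_cast h3)
  have h3 : μT univ = 0 := by
    have h4 : μT {_t : ℝ | ¬ False} = 0 := h2
    simpa using h4
  rw [μT_univ, ENNReal.ofReal_eq_zero] at h3
  linarith [two_pi_pos]

theorem eq_smul_of_norm_add {a b : ℂ} (h : ‖a + b‖ = ‖a‖ + ‖b‖) :
    (a - b) / 2 = (((‖a‖ - ‖b‖) / (‖a‖ + ‖b‖) : ℝ) : ℂ) * ((a + b) / 2) := by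
  have hs : SameRay ℝ a b := (sameRay_iff_norm_add).2 h
  have h1 : ‖a‖ • b = ‖b‖ • a := hs.norm_smul_eq
  rcases eq_or_ne (‖a‖ + ‖b‖) 0 with h0 | h0
  · have ha : ‖a‖ = 0 := by linarith [norm_nonneg a, norm_nonneg b]
    have hb : ‖b‖ = 0 := by linarith [norm_nonneg a, norm_nonneg b]
    rw [norm_eq_zero] at ha hb
    simp [ha, hb]
  · have h2 : ((‖a‖ : ℝ) : ℂ) * b = ((‖b‖ : ℝ) : ℂ) * a := by
      simpa [Complex.real_smul] using h1
    have h3 : ((‖a‖ : ℂ) + (‖b‖ : ℂ)) ≠ 0 := by exact_mod_cast h0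
    push_cast
    field_simp
    linear_combination (-2 : ℂ) * h2

/-- **Characterisation of the extreme points**, for strictly increasing weights. -/
theorem extr_iff (h : IsWt Ψ) (hs : StrictMonoOn Ψ (Icc 0 (2 * π))) (f : ℝ → ℂ) :
    Extr Ψ f ↔ InH Ψ f ∧ lor Ψ (fun t => ‖f t‖) = 1 ∧
      ∀ k : ℝ → ℝ, Measurable k → (∃ B : ℝ, ∀ t, |k t| ≤ B) → Four (fun t => (k t : ℂ) * f t) →
        (∃ C : ℝ, Sep Ψ C (fun t => ‖f t‖) (fun t => k t * ‖f t‖)) →
        ∃ c : ℝ, ∀ᵐ t ∂μT, (k t : ℂ) * f t = (c : ℂ) * f t := by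
  have hpos := h.pos_of_strict hs
  constructor
  · intro hf
    refine ⟨hf.1.1, hf.norm_eq h hpos, ?_⟩
    rintro k hk ⟨B, hB⟩ hfour ⟨C, hsep⟩
    have hnorm := hf.norm_eq h hpos
    have hB0 : 0 ≤ B := (abs_nonneg _).trans (hB 0)
    have hC0 : 0 ≤ |C| := abs_nonneg C
    -- the small parameter
    set ε : ℝ := 1 / (2 * (B + |C| + 1)) with hε
    have hεpos : 0 < ε := by positivity
    have hεB : ε * B ≤ 1 / 2 := by
      rw [hε, div_mul_eq_mul_div, one_mul, div_le_div_iff₀ (by positivity) (by norm_num)]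
      nlinarith
    have hεC : ε * |C| ≤ 1 := by
      rw [hε, div_mul_eq_mul_div, one_mul, div_le_one (by positivity)]
      nlinarith
    have hkε : ∀ t, |ε * k t| ≤ 1 / 2 := by
      intro t
      rw [abs_mul, abs_of_pos hεpos]
      exact (mul_le_mul_of_nonneg_left (hB t) hεpos.le).trans hεB
    set u : ℝ → ℝ := fun t => ‖f t‖ with hu
    have hu0 : ∀ t, 0 ≤ u t := fun t => norm_nonneg _
    have hum : Measurable u := hf.1.1.meas.norm
    set x : ℝ → ℝ := fun t => u t * (1 + ε * k t) with hx
    set y : ℝ → ℝ := fun t => u t * (1 - ε * k t) with hy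
    have hxm : Measurable x := hum.mul ((hk.const_mul ε).const_add 1)
    have hym : Measurable y := hum.mul ((hk.const_mul ε).const_sub 1)
    have hx0 : ∀ t, 0 ≤ x t := fun t => mul_nonneg (hu0 t) (by linarith [(abs_le.1 (hkε t)).1])
    have hy0 : ∀ t, 0 ≤ y t := fun t => mul_nonneg (hu0 t) (by linarith [(abs_le.1 (hkε t)).2])
    have hxy : (fun t => x t + y t) = fun t => 2 * u t := by
      ext t
      simp only [hx, hy]
      ring
    -- equality in the triangle inequality
    have htri : lor Ψ x + lor Ψ y ≤ lor Ψ (fun t => x t + y t) := by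
      refine h.eq_of_common hxm hym hx0 hy0 ?_ ?_
      · intro s hsB
        obtain ⟨E, hE1, hE2, hE3⟩ := hsep.1 s hsB
        refine ⟨E, hE1, hE2, ?_, ?_⟩
        · refine Top.of_forall hE3 fun t t' hP => ?_
          obtain ⟨h1, h2⟩ := hP
          have h3 : C * (u t - u t') ≤ |C| * (u t - u t') :=
            mul_le_mul_of_nonneg_right (le_abs_self C) (by linarith)
          have h4 := (abs_le.1 (h2.trans h3)).1
          have h5 : ε * (|C| * (u t - u t')) ≤ u t - u t' := by
            rw [← mul_assoc]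
            have h6 := mul_le_mul_of_nonneg_right hεC (show 0 ≤ u t - u t' by linarith)
            linarith
          have h6 := mul_le_mul_of_nonneg_left h4 hεpos.le
          simp only [hx]
          have h7 : ε * -(|C| * (u t - u t')) = -(ε * (|C| * (u t - u t'))) := by ring
          rw [h7] at h6
          nlinarith
        · refine Top.of_forall hE3 fun t t' hP => ?_
          obtain ⟨h1, h2⟩ := hP
          have h3 : C * (u t - u t') ≤ |C| * (u t - u t') :=
            mul_le_mul_of_nonneg_right (le_abs_self C) (by linarith)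
          have h4 := (abs_le.1 (h2.trans h3)).2
          have h5 : ε * (|C| * (u t - u t')) ≤ u t - u t' := by
            rw [← mul_assoc]
            have h6 := mul_le_mul_of_nonneg_right hεC (show 0 ≤ u t - u t' by linarith)
            linarith
          have h6 := mul_le_mul_of_nonneg_left h4 hεpos.le
          simp only [hy]
          nlinarith
      · intro hkap
        obtain ⟨M, c, hM1, hM2, hM3⟩ := hsep.2 hkap
        have hM0 : 0 ≤ M := by
          have h1 : ∃ t, u t ≤ M := by
            have h2 : (ae μT).NeBot := by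
              rw [ae_neBot]
              intro h3
              have h4 := μT_univ
              rw [h3] at h4
              simp only [Measure.coe_zero, Pi.zero_apply] at h4
              have h5 := ENNReal.ofReal_pos.2 two_pi_pos
              rw [← h4] at h5
              exact lt_irrefl _ h5
            exact hM1.exists
          obtain ⟨t, ht⟩ := h1
          exact (hu0 t).trans ht
        have hb : ∀ᵐ t ∂μT, ε * |k t * u t - c| ≤ M - u t := by
          filter_upwards [hM1, hM3] with t h1 h2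
          have h3 : C * (M - u t) ≤ |C| * (M - u t) :=
            mul_le_mul_of_nonneg_right (le_abs_self C) (by linarith)
          have h4 := mul_le_mul_of_nonneg_left (h2.trans h3) hεpos.le
          have h5 := mul_le_mul_of_nonneg_right hεC (show 0 ≤ M - u t by linarith)
          calc ε * |k t * u t - c| ≤ ε * (|C| * (M - u t)) := h4
            _ = ε * |C| * (M - u t) := by ring
            _ ≤ 1 * (M - u t) := h5
            _ = M - u t := one_mul _
        have hx1 : ∀ᵐ t ∂μT, x t ≤ M + ε * c := by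
          filter_upwards [hb] with t h1
          have h2 := le_abs_self (k t * u t - c)
          have h3 := mul_le_mul_of_nonneg_left h2 hεpos.le
          simp only [hx]
          nlinarith
        have hy1 : ∀ᵐ t ∂μT, y t ≤ M - ε * c := by
          filter_upwards [hb] with t h1
          have h2 := neg_abs_le (k t * u t - c)
          have h3 := mul_le_mul_of_nonneg_left h2 hεpos.le
          simp only [hy]
          nlinarith
        have hne : (ae μT).NeBot := by
          rw [ae_neBot]
          intro h3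
          have h4 := μT_univ
          rw [h3] at h4
          simp only [Measure.coe_zero, Pi.zero_apply] at h4
          have h5 := ENNReal.ofReal_pos.2 two_pi_pos
          rw [← h4] at h5
          exact lt_irrefl _ h5
        have hp1 : 0 ≤ M + ε * c := by
          obtain ⟨t, ht⟩ := hx1.exists
          exact (hx0 t).trans ht
        have hp2 : 0 ≤ M - ε * c := by
          obtain ⟨t, ht⟩ := hy1.exists
          exact (hy0 t).trans ht
        have h1 := (Mx_le_iff hp1).2 hx1
        have h2 := (Mx_le_iff hp2).2 hy1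
        refine (add_le_add h1 h2).trans ?_
        rw [← ENNReal.ofReal_add hp1 hp2]
        have h3 : M + ε * c + (M - ε * c) = 2 * M := by ring
        rw [h3, hxy]
        by_contra hlt
        rw [not_le] at hlt
        have hfin : Mx (fun t => 2 * u t) ≠ ∞ := ne_top_of_lt hlt
        have h4 : Mx (fun t => 2 * u t) = ENNReal.ofReal (Mx (fun t => 2 * u t)).toReal :=
          (ENNReal.ofReal_toReal hfin).symm
        have h5 := (Mx_le_iff ENNReal.toReal_nonneg).1 h4.le
        have h6 := hM2 ((Mx (fun t => 2 * u t)).toReal / 2) (by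
          filter_upwards [h5] with t ht
          linarith)
        rw [h4] at hlt
        have h7 := (ENNReal.ofReal_lt_ofReal_iff_of_nonneg ENNReal.toReal_nonneg).1 hlt
        linarith
    have hnorm2 : lor Ψ (fun t => x t + y t) = 2 := by
      rw [hxy, lor_smul (by norm_num), hnorm]
      norm_num
    rw [hnorm2] at htri
    have htri' : (2 : ℝ≥0∞) ≤ lor Ψ x + lor Ψ y := by
      rw [← hnorm2]
      exact h.lor_add_le hxm hym hx0 hy0
    -- the two halves
    have hxfin : lor Ψ x ≠ ∞ := ne_top_of_le_ne_top (by norm_num) (le_self_add.trans htri)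
    have hyfin : lor Ψ y ≠ ∞ := ne_top_of_le_ne_top (by norm_num) (le_add_self.trans htri)
    set a := (lor Ψ x).toReal with ha
    set b := (lor Ψ y).toReal with hb
    have haeq : lor Ψ x = ENNReal.ofReal a := (ENNReal.ofReal_toReal hxfin).symm
    have hbeq : lor Ψ y = ENNReal.ofReal b := (ENNReal.ofReal_toReal hyfin).symm
    have ha0 : 0 ≤ a := ENNReal.toReal_nonneg
    have hb0 : 0 ≤ b := ENNReal.toReal_nonneg
    have hab : a + b = 2 := by
      have h1 : ENNReal.ofReal (a + b) = ENNReal.ofReal 2 := by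
        rw [ENNReal.ofReal_add ha0 hb0, ← haeq, ← hbeq]
        have h2 : ENNReal.ofReal 2 = 2 := by norm_num
        rw [h2]
        exact le_antisymm htri htri'
      have h2 := congrArg ENNReal.toReal h1
      rwa [ENNReal.toReal_ofReal (by linarith), ENNReal.toReal_ofReal (by norm_num)] at h2
    have hhalf : ENNReal.ofReal (1 / 2) = ENNReal.ofReal (1 / 2) * lor Ψ u := by
      rw [hnorm, mul_one]
    have ha1 : 1 / 2 ≤ a := by
      have h1 : lor Ψ (fun t => (1 / 2 : ℝ) * u t) ≤ lor Ψ x := by
        refine h.lor_mono (Filter.Eventually.of_forall fun t => ?_)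
        have h2 := (abs_le.1 (hkε t)).1
        have h3 := hu0 t
        simp only [hx]
        nlinarith
      rw [lor_smul (by norm_num), ← hhalf, haeq] at h1
      exact (ENNReal.ofReal_le_ofReal_iff ha0).1 h1
    have hb1 : 1 / 2 ≤ b := by
      have h1 : lor Ψ (fun t => (1 / 2 : ℝ) * u t) ≤ lor Ψ y := by
        refine h.lor_mono (Filter.Eventually.of_forall fun t => ?_)
        have h2 := (abs_le.1 (hkε t)).2
        have h3 := hu0 t
        simp only [hy]
        nlinarith
      rw [lor_smul (by norm_num), ← hhalf, hbeq] at h1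
      exact (ENNReal.ofReal_le_ofReal_iff hb0).1 h1
    set kf : ℝ → ℂ := fun t => (k t : ℂ) * f t with hkf
    have hkfH : InH Ψ kf := by
      refine ⟨(Complex.measurable_ofReal.comp hk).mul hf.1.1.meas, ?_, hfour⟩
      have h1 : lor Ψ (fun t => ‖kf t‖) ≤ lor Ψ (fun t => (B + 1) * u t) := by
        refine h.lor_mono (Filter.Eventually.of_forall fun t => ?_)
        simp only [hkf]
        rw [norm_mul, Complex.norm_real, Real.norm_eq_abs]
        have h2 := hB t
        have h3 := hu0 t
        simp only [hu] at h3 ⊢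
        nlinarith
      rw [lor_smul (by linarith), hnorm] at h1
      exact ne_top_of_le_ne_top (ENNReal.mul_ne_top ENNReal.ofReal_ne_top ENNReal.one_ne_top) h1
    set f₁ : ℝ → ℂ := fun t => ((1 : ℝ) : ℂ) * f t + (ε : ℂ) * kf t with hf₁
    set f₂ : ℝ → ℂ := fun t => ((1 : ℝ) : ℂ) * f t + ((-ε : ℝ) : ℂ) * kf t with hf₂
    have hf₁H : InH Ψ f₁ := hf.1.1.lin h hpos hkfH 1 ε
    have hf₂H : InH Ψ f₂ := hf.1.1.lin h hpos hkfH 1 (-ε)
    have hn₁ : ∀ t, ‖f₁ t‖ = x t := by
      intro t
      have h1 : f₁ t = ((1 + ε * k t : ℝ) : ℂ) * f t := by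
        simp only [hf₁, hkf]
        push_cast
        ring
      rw [h1, norm_mul, Complex.norm_real, Real.norm_eq_abs,
        abs_of_nonneg (by linarith [(abs_le.1 (hkε t)).1])]
      simp only [hx, hu]
      ring
    have hn₂ : ∀ t, ‖f₂ t‖ = y t := by
      intro t
      have h1 : f₂ t = ((1 - ε * k t : ℝ) : ℂ) * f t := by
        simp only [hf₂, hkf]
        push_cast
        ring
      rw [h1, norm_mul, Complex.norm_real, Real.norm_eq_abs,
        abs_of_nonneg (by linarith [(abs_le.1 (hkε t)).2])]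
      simp only [hy, hu]
      ring
    -- the general step: a norm at least one on the second half
    have step : ∀ (p q : ℝ → ℂ) (a b : ℝ), InH Ψ p → InH Ψ q → 0 < a → 1 ≤ b → a + b = 2 →
        lor Ψ (fun t => ‖p t‖) = ENNReal.ofReal a → lor Ψ (fun t => ‖q t‖) = ENNReal.ofReal b →
        (∀ t, f t = (p t + q t) / 2) → ∀ᵐ t ∂μT, q t = (b : ℂ) * f t := by
      intro p q a b hp hq ha0 hb1 hab hpn hqn hpq
      have hb0 : 0 < b := by linarith
      set g₂ : ℝ → ℂ := fun t => ((0 : ℝ) : ℂ) * p t + ((b⁻¹ : ℝ) : ℂ) * q t with hg₂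
      set g₃ : ℝ → ℂ := fun t => ((1 : ℝ) : ℂ) * p t + (((b - 1) * b⁻¹ : ℝ) : ℂ) * q t with hg₃
      have hB2 : Ball Ψ g₂ := by
        refine ⟨hp.lin h hpos hq 0 b⁻¹, ?_⟩
        have h1 : (fun t => ‖g₂ t‖) = fun t => b⁻¹ * ‖q t‖ := by
          ext t
          simp only [hg₂]
          rw [Complex.ofReal_zero, zero_mul, zero_add, norm_mul, Complex.norm_real,
            Real.norm_eq_abs, abs_of_pos (inv_pos.2 hb0)]
        rw [h1, lor_smul (inv_pos.2 hb0), hqn, ← ENNReal.ofReal_mul (inv_pos.2 hb0).le,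
          inv_mul_cancel₀ hb0.ne', ENNReal.ofReal_one]
      have hB3 : Ball Ψ g₃ := by
        refine ⟨hp.lin h hpos hq 1 ((b - 1) * b⁻¹), ?_⟩
        have hcoef : 0 ≤ (b - 1) * b⁻¹ := mul_nonneg (by linarith) (inv_pos.2 hb0).le
        have h1 : lor Ψ (fun t => ‖g₃ t‖) ≤ lor Ψ (fun t => ‖p t‖ + ((b - 1) * b⁻¹) * ‖q t‖) := by
          refine h.lor_mono (Filter.Eventually.of_forall fun t => ?_)
          refine (norm_add_le _ _).trans ?_
          rw [norm_mul, norm_mul, Complex.norm_real, Complex.norm_real, Real.norm_eq_abs,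
            Real.norm_eq_abs, abs_one, one_mul, abs_of_nonneg hcoef]
        have h2 := h.lor_add_le (x := fun t => ‖p t‖) (y := fun t => ((b - 1) * b⁻¹) * ‖q t‖)
          hp.meas.norm (hq.meas.norm.const_mul _) (fun t => norm_nonneg _)
          (fun t => mul_nonneg hcoef (norm_nonneg _))
        have h3 : lor Ψ (fun t => ((b - 1) * b⁻¹) * ‖q t‖) = ENNReal.ofReal (b - 1) := by
          rcases hcoef.eq_or_lt with h4 | h4
          · have h5 : b - 1 = 0 := by
              rcases mul_eq_zero.1 h4.symm with h6 | h6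
              · exact h6
              · exact absurd h6 (inv_pos.2 hb0).ne'
            simp only [← h4, zero_mul]
            rw [lor_zero h, h5, ENNReal.ofReal_zero]
          · rw [lor_smul h4, hqn, ← ENNReal.ofReal_mul h4.le]
            congr 1
            field_simp
        rw [h3, hpn, ← ENNReal.ofReal_add ha0.le (by linarith)] at h2
        refine h1.trans (h2.trans ?_)
        rw [← ENNReal.ofReal_one]
        refine ENNReal.ofReal_le_ofReal (by linarith)
      have h1 := hf.2 g₂ g₃ hB2 hB3 (Filter.Eventually.of_forall fun t => by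
        rw [hpq t]
        simp only [hg₂, hg₃]
        have hb2 : (b : ℂ) ≠ 0 := by exact_mod_cast hb0.ne'
        push_cast
        field_simp
        ring)
      filter_upwards [h1] with t ht
      have h2 : f t = (g₂ t + g₃ t) / 2 := by
        rw [hpq t]
        simp only [hg₂, hg₃]
        have hb2 : (b : ℂ) ≠ 0 := by exact_mod_cast hb0.ne'
        push_cast
        field_simp
        ring
      have h3 : f t = g₂ t := by
        rw [h2, ← ht]
        ring
      rw [h3]
      simp only [hg₂]
      have hb2 : (b : ℂ) ≠ 0 := by exact_mod_cast hb0.ne'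
      push_cast
      field_simp
      ring
    have hεne : (ε : ℂ) ≠ 0 := by exact_mod_cast hεpos.ne'
    rcases le_total 1 b with hb2 | hb2
    · have h1 := step f₁ f₂ a b hf₁H hf₂H (by linarith) hb2 hab
        (by rw [← haeq]; exact congrArg (lor Ψ) (funext hn₁))
        (by rw [← hbeq]; exact congrArg (lor Ψ) (funext hn₂))
        (fun t => by simp only [hf₁, hf₂]; push_cast; ring)
      refine ⟨(1 - b) / ε, ?_⟩
      filter_upwards [h1] with t ht
      simp only [hf₂, hkf] at ht
      push_cast at ht ⊢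
      field_simp
      linear_combination -ht
    · have h1 := step f₂ f₁ b a hf₂H hf₁H (by linarith) (by linarith) (by linarith)
        (by rw [← hbeq]; exact congrArg (lor Ψ) (funext hn₂))
        (by rw [← haeq]; exact congrArg (lor Ψ) (funext hn₁))
        (fun t => by simp only [hf₁, hf₂]; push_cast; ring)
      refine ⟨(a - 1) / ε, ?_⟩
      filter_upwards [h1] with t ht
      simp only [hf₁, hkf] at ht
      push_cast at ht ⊢
      field_simp
      linear_combination ht
  · rintro ⟨hf, hnorm, hcrit⟩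
    refine ⟨⟨hf, hnorm.le⟩, ?_⟩
    intro g₁ g₂ hg₁ hg₂ hmid
    set u : ℝ → ℝ := fun t => ‖f t‖ with hu
    have hum : Measurable u := hf.meas.norm
    have hu0 : ∀ t, 0 ≤ u t := fun t => norm_nonneg _
    set x : ℝ → ℝ := fun t => ‖g₁ t‖ with hx
    set y : ℝ → ℝ := fun t => ‖g₂ t‖ with hy
    have hxm : Measurable x := hg₁.1.meas.norm
    have hym : Measurable y := hg₂.1.meas.norm
    have hx0 : ∀ t, 0 ≤ x t := fun t => norm_nonneg _
    have hy0 : ∀ t, 0 ≤ y t := fun t => norm_nonneg _
    have hle : ∀ᵐ t ∂μT, 2 * u t ≤ x t + y t := by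
      filter_upwards [hmid] with t ht
      have h1 : g₁ t + g₂ t = 2 * f t := by
        rw [ht]
        ring
      have h2 := norm_add_le (g₁ t) (g₂ t)
      rw [h1, norm_mul] at h2
      simpa using h2
    have hn2 : lor Ψ (fun t => 2 * u t) = 2 := by
      rw [lor_smul (by norm_num), hnorm]
      norm_num
    have hsum : lor Ψ x + lor Ψ y ≤ 2 := by
      have h1 := add_le_add hg₁.2 hg₂.2
      refine h1.trans ?_
      norm_num
    have h2le : (2 : ℝ≥0∞) ≤ lor Ψ (fun t => x t + y t) := by
      rw [← hn2]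
      exact h.lor_mono hle
    have hadd := h.lor_add_le hxm hym hx0 hy0
    have heq : ∀ᵐ t ∂μT, 2 * u t = x t + y t := by
      refine h.ae_eq_of_lor_le hs (hum.const_mul 2) (hxm.add hym)
        (fun t => mul_nonneg (by norm_num) (hu0 t)) (fun t => add_nonneg (hx0 t) (hy0 t)) hle ?_ ?_
      · rw [hn2]
        norm_num
      · rw [hn2]
        exact hadd.trans hsum
    obtain ⟨hcom, hMx⟩ := h.common_of_eq hpos hxm hym hx0 hy0 hg₁.1.fin hg₂.1.fin
      (hsum.trans h2le)
    -- the real factor
    set k : ℝ → ℝ := fun t => (x t - y t) / (x t + y t) with hk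
    have hkm : Measurable k := (hxm.sub hym).div (hxm.add hym)
    have hkb : ∀ t, |k t| ≤ 1 := by
      intro t
      simp only [hk]
      rw [abs_div, abs_of_nonneg (add_nonneg (hx0 t) (hy0 t))]
      refine div_le_one_of_le₀ ?_ (add_nonneg (hx0 t) (hy0 t))
      rw [abs_le]
      constructor <;> linarith [hx0 t, hy0 t]
    have hg : ∀ᵐ t ∂μT, (k t : ℂ) * f t = (g₁ t - g₂ t) / 2 := by
      filter_upwards [hmid, heq] with t h1 h2
      have h3 : g₁ t + g₂ t = 2 * f t := by
        rw [h1]
        ring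
      have h4 : ‖g₁ t + g₂ t‖ = ‖g₁ t‖ + ‖g₂ t‖ := by
        rw [h3, norm_mul]
        simpa using h2
      rw [eq_smul_of_norm_add h4, h1]
    have hv : ∀ᵐ t ∂μT, k t * u t = (x t - y t) / 2 := by
      filter_upwards [heq] with t h2
      simp only [hk]
      rcases eq_or_ne (x t + y t) 0 with h3 | h3
      · have h4 : x t = 0 := by linarith [hx0 t, hy0 t]
        have h5 : y t = 0 := by linarith [hx0 t, hy0 t]
        rw [h4, h5]
        simp
      · have h4 : u t = (x t + y t) / 2 := by linarith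
        rw [h4]
        field_simp
    have hfour : Four (fun t => (k t : ℂ) * f t) := by
      have h1 := hg₁.1.four.lin hg₂.1.four (hg₁.1.integrable h hpos) (hg₂.1.integrable h hpos)
        (1 / 2) (-(1 / 2))
      refine h1.congr ?_
      filter_upwards [hg] with t ht
      rw [ht]
      push_cast
      ring
    have hsep : Sep Ψ 1 u (fun t => k t * u t) := by
      constructor
      · intro s hsB
        obtain ⟨E, hE1, hE2, hE3, hE4⟩ := hcom s hsB
        refine ⟨E, hE1, hE2, ?_⟩
        filter_upwards [hE3, hE4, heq, hv] with t h1 h2 h3 h4 htE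
        filter_upwards [h1 htE, h2 htE, heq, hv] with t' h1' h2' h3' h4' htE'
        have h5 := h1' htE'
        have h6 := h2' htE'
        constructor
        · linarith
        · rw [h4, h4', one_mul, abs_le]
          constructor <;> linarith
      · intro hkap
        obtain ⟨h1, h2, h3⟩ := hMx hkap
        set a := (Mx x).toReal with ha
        set b := (Mx y).toReal with hb
        have haeq : Mx x = ENNReal.ofReal a := (ENNReal.ofReal_toReal h2).symm
        have hbeq : Mx y = ENNReal.ofReal b := (ENNReal.ofReal_toReal h3).symm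
        have ha0 : 0 ≤ a := ENNReal.toReal_nonneg
        have hb0 : 0 ≤ b := ENNReal.toReal_nonneg
        have hxa := (Mx_le_iff ha0).1 haeq.le
        have hyb := (Mx_le_iff hb0).1 hbeq.le
        refine ⟨(a + b) / 2, (a - b) / 2, ?_, ?_, ?_⟩
        · filter_upwards [hxa, hyb, heq] with t h4 h5 h6
          linarith
        · intro M' hM'
          have h4 : ∀ᵐ t ∂μT, x t + y t ≤ 2 * M' := by
            filter_upwards [hM', heq] with t h5 h6
            linarith
          have hne : (ae μT).NeBot := by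
            rw [ae_neBot]
            intro h3
            have h4 := μT_univ
            rw [h3] at h4
            simp only [Measure.coe_zero, Pi.zero_apply] at h4
            have h5 := ENNReal.ofReal_pos.2 two_pi_pos
            rw [← h4] at h5
            exact lt_irrefl _ h5
          have hM0 : 0 ≤ 2 * M' := by
            obtain ⟨t, ht⟩ := h4.exists
            exact (add_nonneg (hx0 t) (hy0 t)).trans ht
          have h5 := h1.trans ((Mx_le_iff hM0).2 h4)
          rw [haeq, hbeq, ← ENNReal.ofReal_add ha0 hb0] at h5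
          have h6 := (ENNReal.ofReal_le_ofReal_iff hM0).1 h5
          linarith
        · filter_upwards [hxa, hyb, heq, hv] with t h4 h5 h6 h7
          rw [h7, one_mul, abs_le]
          constructor <;> linarith
    obtain ⟨c, hc⟩ := hcrit k hkm ⟨1, hkb⟩ hfour ⟨1, hsep⟩
    -- the constant vanishes
    have hg1 : ∀ᵐ t ∂μT, g₁ t = ((1 + c : ℝ) : ℂ) * f t := by
      filter_upwards [hc, hg, hmid] with t h1 h2 h3
      rw [h2] at h1
      push_cast
      linear_combination h1 - h3
    have hg2 : ∀ᵐ t ∂μT, g₂ t = ((1 - c : ℝ) : ℂ) * f t := by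
      filter_upwards [hc, hg, hmid] with t h1 h2 h3
      rw [h2] at h1
      push_cast
      linear_combination -h1 - h3
    have hc0 : c = 0 := by
      have key : ∀ (g : ℝ → ℂ) (d : ℝ), Ball Ψ g → (∀ᵐ t ∂μT, g t = (d : ℂ) * f t) → d ≤ 1 := by
        intro g d hgB hgd
        by_contra hlt
        rw [not_le] at hlt
        have h1 : lor Ψ (fun t => ‖g t‖) = lor Ψ (fun t => d * u t) := by
          refine h.lor_congr ?_
          filter_upwards [hgd] with t ht
          rw [ht, norm_mul, Complex.norm_real, Real.norm_eq_abs, abs_of_pos (by linarith)]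
        have h2 := hgB.2
        rw [h1, lor_smul (by linarith), hnorm, mul_one, ← ENNReal.ofReal_one] at h2
        have h3 := (ENNReal.ofReal_le_ofReal_iff (by norm_num)).1 h2
        linarith
      have h1 := key g₁ (1 + c) hg₁ hg1
      have h2 := key g₂ (1 - c) hg₂ hg2
      linarith
    filter_upwards [hg1, hg2] with t h1 h2
    rw [h1, h2, hc0]
    simp

end Pool.Agent.H352R5.HL
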