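import Pool.Agent.H352R5.HL.Sub

/-!
# Concave weights, and the representation of the Lorentz norm by the functionals `K_s`
-/

namespace Pool.Agent.H352R5.HL

open MeasureTheory Set Filter Topology
open scoped ENNReal NNReal Real

/-- A non-decreasing concave function on `[0, 2π]` which vanishes at `0`. -/
structure IsWt (Ψ : ℝ → ℝ) : Prop where
  zero : Ψ 0 = 0
  mono : MonotoneOn Ψ (Icc 0 (2 * π))
  conc : ConcaveOn ℝ (Icc 0 (2 * π)) Ψ

/-- `Ψ(0+)`. -/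
noncomputable def kap (Ψ : ℝ → ℝ) : ℝ := sInf (Ψ '' Ioc 0 (2 * π))

open Classical in
/-- The right derivative of `Ψ` on `(0, 2π)`, and `0` elsewhere. -/
noncomputable def wd (Ψ : ℝ → ℝ) (t : ℝ) : ℝ :=
  if t ∈ Ioo 0 (2 * π) then - derivWithin (fun t => - Ψ t) (Ioi t) t else 0

variable {Ψ : ℝ → ℝ}

theorem IsWt.nonneg (h : IsWt Ψ) {t : ℝ} (ht : t ∈ Icc 0 (2 * π)) : 0 ≤ Ψ t := by
  have h1 := h.mono (left_mem_Icc.2 two_pi_pos.le) ht ht.1
  rwa [h.zero] at h1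

theorem IsWt.neg_conv (h : IsWt Ψ) : ConvexOn ℝ (Icc 0 (2 * π)) (fun t => - Ψ t) := h.conc.neg

theorem int_Icc : interior (Icc (0 : ℝ) (2 * π)) = Ioo 0 (2 * π) := interior_Icc

theorem IsWt.hasDeriv (h : IsWt Ψ) {t : ℝ} (ht : t ∈ Ioo 0 (2 * π)) :
    HasDerivWithinAt Ψ (wd Ψ t) (Ioi t) t := by
  have h1 : t ∈ interior (Icc (0 : ℝ) (2 * π)) := by rwa [int_Icc]
  have h2 := h.neg_conv.hasDerivWithinAt_rightDeriv_of_mem_interior h1
  have h3 := h2.neg
  unfold wd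
  rw [if_pos ht]
  refine h3.congr_of_eventuallyEq ?_ ?_
  · exact Filter.Eventually.of_forall fun y => by simp
  · simp

theorem IsWt.wd_anti (h : IsWt Ψ) : AntitoneOn (wd Ψ) (Ioo 0 (2 * π)) := by
  intro a ha b hb hab
  have h1 := h.neg_conv.monotoneOn_rightDeriv (by rwa [int_Icc]) (by rwa [int_Icc]) hab
  unfold wd
  rw [if_pos ha, if_pos hb]
  simpa using h1

theorem IsWt.wd_nonneg (h : IsWt Ψ) (t : ℝ) : 0 ≤ wd Ψ t := by
  by_cases ht : t ∈ Ioo 0 (2 * π)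
  · have h1 := (hasDerivWithinAt_iff_tendsto_slope' (s := Ioi t) (by simp)).1 (h.hasDeriv ht)
    refine ge_of_tendsto h1 ?_
    filter_upwards [Ioo_mem_nhdsGT ht.2] with y hy
    rw [slope_def_field]
    apply div_nonneg
    · exact sub_nonneg.2 (h.mono ⟨ht.1.le, ht.2.le⟩ ⟨(ht.1.trans hy.1).le, hy.2.le⟩ hy.1.le)
    · exact sub_nonneg.2 hy.1.le
  · unfold wd
    rw [if_neg ht]

theorem IsWt.seg (h : IsWt Ψ) {η t a : ℝ} (hη : 0 ≤ η) (ha : η < wd Ψ a) (h0 : 0 < t)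
    (hta : t ≤ a) : η < wd Ψ t := by
  have ha' : a ∈ Ioo 0 (2 * π) := by
    by_contra hno
    unfold wd at ha
    rw [if_neg hno] at ha
    linarith
  exact lt_of_lt_of_le ha (h.wd_anti ⟨h0, lt_of_le_of_lt hta ha'.2⟩ ha' hta)

theorem mem_of_wd {η a : ℝ} (hη : 0 ≤ η) (ha : η < wd Ψ a) : a ∈ Ioo 0 (2 * π) := by
  by_contra hno
  unfold wd at ha
  rw [if_neg hno] at ha
  linarith

theorem IsWt.wd_meas (h : IsWt Ψ) : Measurable (wd Ψ) := by
  refine measurable_of_Ioi fun η => ?_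
  rcases lt_or_ge η 0 with hη | hη
  · have h1 : wd Ψ ⁻¹' Ioi η = univ := by
      ext t
      simp only [mem_preimage, mem_Ioi, mem_univ, iff_true]
      exact lt_of_lt_of_le hη (h.wd_nonneg t)
    rw [h1]
    exact MeasurableSet.univ
  · refine Set.OrdConnected.measurableSet ?_
    refine ⟨fun a ha b hb t ht => ?_⟩
    have h1 : η < wd Ψ a := ha
    have h2 : η < wd Ψ b := hb
    exact h.seg hη h2 (lt_of_lt_of_le (mem_of_wd hη h1).1 ht.1) ht.2

/-- `Ψ' > η` exactly on an interval `(0, S η)`. -/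
noncomputable def S (Ψ : ℝ → ℝ) (η : ℝ) : ℝ := (volume {t | η < wd Ψ t}).toReal

theorem vol_le {η : ℝ} (hη : 0 ≤ η) : volume {t | η < wd Ψ t} ≤ ENNReal.ofReal (2 * π) := by
  calc volume {t | η < wd Ψ t} ≤ volume (Ioo 0 (2 * π)) :=
        measure_mono fun t ht => mem_of_wd hη ht
    _ = _ := by rw [Real.volume_Ioo, sub_zero]

theorem S_eq {η : ℝ} (hη : 0 ≤ η) : ENNReal.ofReal (S Ψ η) = volume {t | η < wd Ψ t} :=
  ENNReal.ofReal_toReal (ne_top_of_le_ne_top ENNReal.ofReal_ne_top (vol_le hη))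

theorem S_nonneg (η : ℝ) : 0 ≤ S Ψ η := ENNReal.toReal_nonneg

theorem S_le {η : ℝ} (hη : 0 ≤ η) : S Ψ η ≤ 2 * π := by
  have h1 := ENNReal.toReal_mono ENNReal.ofReal_ne_top (vol_le (Ψ := Ψ) hη)
  rwa [ENNReal.toReal_ofReal two_pi_pos.le] at h1

theorem IsWt.below_S (h : IsWt Ψ) {η t : ℝ} (hη : 0 ≤ η) (ht : 0 < t) (hts : t < S Ψ η) :
    η < wd Ψ t := by
  by_contra hno
  have h1 : {t' | η < wd Ψ t'} ⊆ Ioo 0 t := by
    intro t' ht'
    refine ⟨(mem_of_wd hη ht').1, ?_⟩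
    by_contra hlt
    exact hno (h.seg hη ht' ht (not_lt.1 hlt))
  have h2 := measure_mono (μ := volume) h1
  rw [← S_eq hη, Real.volume_Ioo, sub_zero] at h2
  have h3 := (ENNReal.ofReal_le_ofReal_iff ht.le).1 h2
  linarith

theorem IsWt.above_S (h : IsWt Ψ) {η t : ℝ} (hη : 0 ≤ η) (hts : S Ψ η < t) :
    wd Ψ t ≤ η := by
  by_contra hno
  rw [not_le] at hno
  have h1 : Ioo 0 t ⊆ {t' | η < wd Ψ t'} := by
    intro t' ht'
    exact h.seg hη hno ht'.1 ht'.2.le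
  have h2 := measure_mono (μ := volume) h1
  rw [← S_eq hη, Real.volume_Ioo, sub_zero] at h2
  have h3 := (ENNReal.ofReal_le_ofReal_iff (S_nonneg η)).1 h2
  linarith

theorem IsWt.vol_cut (h : IsWt Ψ) {η d : ℝ} (hη : 0 ≤ η) :
    volume ({t | η < wd Ψ t} ∩ Ioo 0 d) = min (ENNReal.ofReal d) (ENNReal.ofReal (S Ψ η)) := by
  rw [S_eq hη]
  by_cases hc : ∃ a, η < wd Ψ a ∧ d ≤ a
  · obtain ⟨a, ha, hda⟩ := hc
    have h1 : Ioo 0 d ⊆ {t | η < wd Ψ t} := fun t ht => h.seg hη ha ht.1 (ht.2.le.trans hda)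
    have h2 := measure_mono (μ := volume) h1
    rw [inter_eq_right.2 h1, Real.volume_Ioo, sub_zero]
    rw [Real.volume_Ioo, sub_zero] at h2
    rw [min_eq_left h2]
  · push Not at hc
    have h1 : {t | η < wd Ψ t} ⊆ Ioo 0 d := fun t ht => ⟨(mem_of_wd hη ht).1, hc t ht⟩
    have h2 := measure_mono (μ := volume) h1
    rw [inter_eq_left.2 h1]
    rw [Real.volume_Ioo, sub_zero] at h2
    rw [min_eq_right h2]

theorem IsWt.sub_eq (h : IsWt Ψ) {a b : ℝ} (ha : 0 < a) (hab : a ≤ b) (hb : b < 2 * π) :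
    ∫ t in a..b, wd Ψ t = Ψ b - Ψ a := by
  have hsub : Icc a b ⊆ Ioo 0 (2 * π) := fun t ht => ⟨lt_of_lt_of_le ha ht.1, lt_of_le_of_lt ht.2 hb⟩
  apply intervalIntegral.integral_eq_sub_of_hasDeriv_right_of_le hab
  · have h1 := h.conc.continuousOn_interior
    rw [int_Icc] at h1
    exact h1.mono hsub
  · intro t ht
    exact h.hasDeriv (hsub ⟨ht.1.le, ht.2.le⟩)
  · apply AntitoneOn.intervalIntegrable
    rw [uIcc_of_le hab]
    exact h.wd_anti.mono hsub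

theorem IsWt.lint_eq (h : IsWt Ψ) {a b : ℝ} (ha : 0 < a) (hab : a ≤ b) (hb : b < 2 * π) :
    ∫⁻ t in Ioc a b, ENNReal.ofReal (wd Ψ t) = ENNReal.ofReal (Ψ b - Ψ a) := by
  rw [← h.sub_eq ha hab hb, intervalIntegral.integral_of_le hab]
  rw [ofReal_integral_eq_lintegral_ofReal]
  · have h1 : IntervalIntegrable (wd Ψ) volume a b := by
      apply AntitoneOn.intervalIntegrable
      rw [uIcc_of_le hab]
      exact h.wd_anti.mono fun t ht => ⟨lt_of_lt_of_le ha ht.1, lt_of_le_of_lt ht.2 hb⟩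
    exact (intervalIntegrable_iff_integrableOn_Ioc_of_le hab).1 h1
  · exact Filter.Eventually.of_forall fun t => h.wd_nonneg t

theorem IsWt.left_cont (h : IsWt Ψ) {d : ℝ} (hd : 0 < d) (hd' : d ≤ 2 * π) :
    Tendsto (fun n : ℕ => Ψ (d - d / (n + 2))) atTop (𝓝 (Ψ d)) := by
  have h1 : Tendsto (fun n : ℕ => 1 / ((n : ℝ) + 2)) atTop (𝓝 0) := by
    have h2 := tendsto_one_div_add_atTop_nhds_zero_nat (𝕜 := ℝ)
    have h3 := h2.comp (tendsto_add_atTop_nat 1)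
    refine h3.congr fun n => ?_
    simp only [Function.comp]
    push_cast
    ring_nf
  have h4 : Tendsto (fun n : ℕ => (1 - 1 / ((n : ℝ) + 2)) * Ψ d) atTop (𝓝 (Ψ d)) := by
    have h5 := (tendsto_const_nhds (x := (1 : ℝ)).sub h1).mul_const (Ψ d)
    simpa using h5
  have hdm : d ∈ Icc 0 (2 * π) := ⟨hd.le, hd'⟩
  have h0m : (0 : ℝ) ∈ Icc 0 (2 * π) := left_mem_Icc.2 two_pi_pos.le
  refine tendsto_of_tendsto_of_tendsto_of_le_of_le h4 tendsto_const_nhds ?_ ?_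
  · intro n
    have hn : (0 : ℝ) < (n : ℝ) + 2 := by positivity
    have hθ : 0 ≤ 1 - 1 / ((n : ℝ) + 2) := by
      rw [sub_nonneg, div_le_one hn]
      have : (0 : ℝ) ≤ n := Nat.cast_nonneg n
      linarith
    have h6 := h.conc.2 h0m hdm (show (0 : ℝ) ≤ 1 / ((n : ℝ) + 2) by positivity) hθ
      (show 1 / ((n : ℝ) + 2) + (1 - 1 / ((n : ℝ) + 2)) = 1 by ring)
    simp only [smul_eq_mul, h.zero, mul_zero, zero_add] at h6
    have h7 : (1 - 1 / ((n : ℝ) + 2)) * d = d - d / ((n : ℝ) + 2) := by ring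
    rw [h7] at h6
    exact h6
  · intro n
    have hn : (0 : ℝ) < (n : ℝ) + 2 := by positivity
    have h8 : d / ((n : ℝ) + 2) ≤ d := by
      apply div_le_self hd.le
      have : (0 : ℝ) ≤ n := Nat.cast_nonneg n
      linarith
    have h9 : 0 ≤ d / ((n : ℝ) + 2) := by positivity
    exact h.mono ⟨by linarith, by linarith⟩ hdm (by linarith)

theorem IsWt.right_lim (h : IsWt Ψ) {d : ℝ} (hd : 0 < d) (hd' : d ≤ 2 * π) :
    Tendsto (fun n : ℕ => Ψ (d / (n + 2))) atTop (𝓝 (kap Ψ)) := by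
  have hbdd : BddBelow (Ψ '' Ioc 0 (2 * π)) := by
    refine ⟨0, ?_⟩
    rintro y ⟨t, ht, rfl⟩
    exact h.nonneg ⟨ht.1.le, ht.2⟩
  have hne : (Ψ '' Ioc 0 (2 * π)).Nonempty := ⟨Ψ (2 * π), 2 * π, ⟨two_pi_pos, le_rfl⟩, rfl⟩
  have hmem : ∀ n : ℕ, d / ((n : ℝ) + 2) ∈ Ioc 0 (2 * π) := by
    intro n
    have hn : (0 : ℝ) < (n : ℝ) + 2 := by positivity
    refine ⟨by positivity, le_trans ?_ hd'⟩
    apply div_le_self hd.le
    have : (0 : ℝ) ≤ n := Nat.cast_nonneg n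
    linarith
  rw [Metric.tendsto_atTop]
  intro ε hε
  obtain ⟨y, ⟨t, ht, rfl⟩, hy⟩ := exists_lt_of_csInf_lt hne
    (show sInf (Ψ '' Ioc 0 (2 * π)) < kap Ψ + ε by unfold kap; linarith)
  obtain ⟨N, hN⟩ := exists_nat_gt (d / t)
  refine ⟨N, fun n hn => ?_⟩
  have h1 : kap Ψ ≤ Ψ (d / ((n : ℝ) + 2)) := csInf_le hbdd ⟨_, hmem n, rfl⟩
  have h2 : d / ((n : ℝ) + 2) ≤ t := by
    have hn' : (N : ℝ) ≤ n := Nat.cast_le.2 hn
    rw [div_le_iff₀ (by positivity)]
    rw [div_lt_iff₀ ht.1] at hN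
    nlinarith [ht.1]
  have h3 := h.mono ⟨(hmem n).1.le, (hmem n).2⟩ ⟨ht.1.le, ht.2⟩ h2
  rw [Real.dist_eq, abs_lt]
  constructor <;> linarith

/-- The fundamental formula `Ψ(d) = Ψ(0+) + ∫_0^d Ψ'`. -/
theorem IsWt.ftc (h : IsWt Ψ) {d : ℝ} (hd : 0 < d) (hd' : d ≤ 2 * π) :
    ENNReal.ofReal (Ψ d - kap Ψ) = ∫⁻ t in Ioo 0 d, ENNReal.ofReal (wd Ψ t) := by
  set μw : Measure ℝ := volume.withDensity fun t => ENNReal.ofReal (wd Ψ t) with hμw
  have h1 : Tendsto (fun n : ℕ => μw (Ioc (d / ((n : ℝ) + 2)) (d - d / ((n : ℝ) + 2)))) atTop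
      (𝓝 (μw (⋃ n : ℕ, Ioc (d / ((n : ℝ) + 2)) (d - d / ((n : ℝ) + 2))))) := by
    refine tendsto_measure_iUnion_atTop ?_
    intro m n hmn
    have h2 : d / ((n : ℝ) + 2) ≤ d / ((m : ℝ) + 2) := by
      apply div_le_div_of_nonneg_left hd.le
      · positivity
      · have : (m : ℝ) ≤ n := Nat.cast_le.2 hmn
        linarith
    exact Ioc_subset_Ioc h2 (by linarith)
  have h3 : (⋃ n : ℕ, Ioc (d / ((n : ℝ) + 2)) (d - d / ((n : ℝ) + 2))) = Ioo 0 d := by
    ext t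
    simp only [mem_iUnion, mem_Ioc, mem_Ioo]
    constructor
    · rintro ⟨n, h4, h5⟩
      have : (0 : ℝ) < d / ((n : ℝ) + 2) := by positivity
      constructor <;> linarith
    · rintro ⟨h4, h5⟩
      obtain ⟨n, hn⟩ := exists_nat_gt (d / min t (d - t))
      have hmin : 0 < min t (d - t) := lt_min h4 (by linarith)
      rw [div_lt_iff₀ hmin] at hn
      have h6 : d / ((n : ℝ) + 2) < min t (d - t) := by
        rw [div_lt_iff₀ (by positivity)]
        nlinarith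
      have h7 := lt_of_lt_of_le h6 (min_le_left _ _)
      have h8 := lt_of_lt_of_le h6 (min_le_right _ _)
      exact ⟨n, h7, by linarith⟩
  rw [h3] at h1
  have h4 : ∀ n : ℕ, μw (Ioc (d / ((n : ℝ) + 2)) (d - d / ((n : ℝ) + 2)))
      = ENNReal.ofReal (Ψ (d - d / (n + 2)) - Ψ (d / (n + 2))) := by
    intro n
    have hn : (0 : ℝ) < (n : ℝ) + 2 := by positivity
    have hpos : 0 < d / ((n : ℝ) + 2) := by positivity
    have hle : d / ((n : ℝ) + 2) ≤ d / 2 := by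
      apply div_le_div_of_nonneg_left hd.le (by norm_num)
      have : (0 : ℝ) ≤ n := Nat.cast_nonneg n
      linarith
    rw [hμw, withDensity_apply _ measurableSet_Ioc]
    exact h.lint_eq hpos (by linarith) (by linarith)
  have h5 : Tendsto (fun n : ℕ => μw (Ioc (d / ((n : ℝ) + 2)) (d - d / ((n : ℝ) + 2)))) atTop
      (𝓝 (ENNReal.ofReal (Ψ d - kap Ψ))) := by
    simp_rw [h4]
    exact ENNReal.tendsto_ofReal ((h.left_cont hd hd').sub (h.right_lim hd hd'))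
  rw [tendsto_nhds_unique h5 h1, hμw, withDensity_apply _ measurableSet_Ioo]

theorem IsWt.kap_nonneg (h : IsWt Ψ) : 0 ≤ kap Ψ := by
  unfold kap
  refine le_csInf ⟨Ψ (2 * π), 2 * π, ⟨two_pi_pos, le_rfl⟩, rfl⟩ ?_
  rintro y ⟨t, ht, rfl⟩
  exact h.nonneg ⟨ht.1.le, ht.2⟩

theorem IsWt.kap_le (h : IsWt Ψ) {d : ℝ} (hd : 0 < d) (hd' : d ≤ 2 * π) : kap Ψ ≤ Ψ d := by
  refine csInf_le ?_ ⟨d, ⟨hd, hd'⟩, rfl⟩
  refine ⟨0, ?_⟩
  rintro y ⟨t, ht, rfl⟩
  exact h.nonneg ⟨ht.1.le, ht.2⟩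

theorem IsWt.layer (h : IsWt Ψ) (d : ℝ) :
    ∫⁻ t in Ioo 0 d, ENNReal.ofReal (wd Ψ t)
      = ∫⁻ η in Ioi (0 : ℝ), min (ENNReal.ofReal d) (ENNReal.ofReal (S Ψ η)) := by
  rw [lintegral_eq_lintegral_meas_lt _ (Filter.Eventually.of_forall fun t => h.wd_nonneg t)
    h.wd_meas.aemeasurable]
  refine setLIntegral_congr_fun measurableSet_Ioi fun η hη => ?_
  have hη' : (0 : ℝ) < η := hη
  rw [Measure.restrict_apply (measurableSet_lt measurable_const h.wd_meas)]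
  exact h.vol_cut hη'.le

theorem IsWt.psi_eq (h : IsWt Ψ) {d : ℝ} (hd : 0 < d) (hd' : d ≤ 2 * π) :
    ENNReal.ofReal (Ψ d) = ENNReal.ofReal (kap Ψ)
      + ∫⁻ η in Ioi (0 : ℝ), min (ENNReal.ofReal d) (ENNReal.ofReal (S Ψ η)) := by
  rw [← h.layer, ← h.ftc hd hd', ← ENNReal.ofReal_add h.kap_nonneg (sub_nonneg.2 (h.kap_le hd hd'))]
  congr 1
  ring

/-- The Lorentz norm of `x`, as `∫_0^∞ Ψ(|{x > τ}|) dτ`. -/
noncomputable def lor (Ψ : ℝ → ℝ) (x : ℝ → ℝ) : ℝ≥0∞ :=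
  ∫⁻ τ in Ioi (0 : ℝ), ENNReal.ofReal (Ψ (dis x τ).toReal)

/-- The length of `{τ > 0 : |{x > τ}| > 0}`, the essential supremum. -/
noncomputable def Mx (x : ℝ → ℝ) : ℝ≥0∞ := volume ({τ | dis x τ ≠ 0} ∩ Ioi 0)

theorem S_anti : AntitoneOn (S Ψ) (Ioi 0) := by
  intro a ha b hb hab
  have ha' : (0 : ℝ) < a := ha
  refine ENNReal.toReal_mono (ne_top_of_le_ne_top ENNReal.ofReal_ne_top (vol_le ha'.le)) ?_
  exact measure_mono fun t ht => lt_of_le_of_lt hab ht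

theorem S_meas : AEMeasurable (S Ψ) (volume.restrict (Ioi 0)) :=
  aemeasurable_restrict_of_antitoneOn measurableSet_Ioi S_anti

theorem IsWt.lor_eq (h : IsWt Ψ) (x : ℝ → ℝ) :
    lor Ψ x = ENNReal.ofReal (kap Ψ) * Mx x + ∫⁻ η in Ioi (0 : ℝ), K (S Ψ η) x := by
  have hm0 : MeasurableSet {τ | dis x τ ≠ 0} := by
    have h1 := (dis_meas x) (measurableSet_singleton (0 : ℝ≥0∞))
    have h2 : {τ | dis x τ ≠ 0} = (dis x ⁻¹' {0})ᶜ := rfl
    rw [h2]
    exact h1.compl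
  have h1 : lor Ψ x = ∫⁻ τ in Ioi (0 : ℝ), (({τ | dis x τ ≠ 0}.indicator
      (fun _ => ENNReal.ofReal (kap Ψ)) τ)
      + ∫⁻ η in Ioi (0 : ℝ), min (dis x τ) (ENNReal.ofReal (S Ψ η))) := by
    unfold lor
    refine lintegral_congr fun τ => ?_
    by_cases hτ : dis x τ = 0
    · rw [indicator_of_notMem (by simp [hτ]), hτ]
      simp [h.zero]
    · have hpos : 0 < (dis x τ).toReal := ENNReal.toReal_pos hτ (μT_ne_top _)
      have hle : (dis x τ).toReal ≤ 2 * π := by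
        have h2 := ENNReal.toReal_mono ENNReal.ofReal_ne_top (dis_le x τ)
        rwa [ENNReal.toReal_ofReal two_pi_pos.le] at h2
      rw [indicator_of_mem (by exact hτ), h.psi_eq hpos hle,
        ENNReal.ofReal_toReal (show dis x τ ≠ ∞ from μT_ne_top _)]
  rw [h1, lintegral_add_left (measurable_const.indicator hm0)]
  congr 1
  · rw [lintegral_indicator hm0, lintegral_const, Measure.restrict_restrict hm0,
      Measure.restrict_apply_univ]
    rfl
  · rw [lintegral_lintegral_swap]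
    · rfl
    · have h2 : AEMeasurable (fun p : ℝ × ℝ => ENNReal.ofReal (S Ψ p.2))
          ((volume.restrict (Ioi (0 : ℝ))).prod (volume.restrict (Ioi (0 : ℝ)))) := by
        exact (S_meas.ennreal_ofReal).comp_snd
      have h3 : AEMeasurable (fun p : ℝ × ℝ => dis x p.1)
          ((volume.restrict (Ioi (0 : ℝ))).prod (volume.restrict (Ioi (0 : ℝ)))) :=
        ((dis_meas x).comp measurable_fst).aemeasurable
      exact h3.min h2

/-- `s` is a bending point of `Ψ`: `Ψ` is not affine in any neighbourhood of `s`. -/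
def Bend (Ψ : ℝ → ℝ) (s : ℝ) : Prop :=
  0 < s ∧ s < 2 * π ∧ ∀ ε > 0, ¬ ∃ a b : ℝ, ∀ t ∈ Icc 0 (2 * π), |t - s| < ε → Ψ t = a * t + b

theorem IsWt.bend_S (h : IsWt Ψ) {η : ℝ} (hη : 0 ≤ η) (h0 : 0 < S Ψ η) (h1 : S Ψ η < 2 * π) :
    Bend Ψ (S Ψ η) := by
  refine ⟨h0, h1, fun ε hε => ?_⟩
  rintro ⟨a, b, hab⟩
  set s := S Ψ η with hs
  -- the derivative is `a` near `s`
  have hder : ∀ t ∈ Ioo 0 (2 * π), |t - s| < ε → wd Ψ t = a := by
    intro t ht hts
    have h2 : HasDerivWithinAt Ψ a (Ioi t) t := by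
      have h3 : HasDerivWithinAt (fun t => a * t + b) a (Ioi t) t := by
        have h4 := ((hasDerivAt_id t).const_mul a).add_const b
        simpa using h4.hasDerivWithinAt
      refine h3.congr_of_eventuallyEq ?_ (hab t ⟨ht.1.le, ht.2.le⟩ hts)
      have h5 : Ioo t (min (2 * π) (s + ε)) ∈ 𝓝[>] t := by
        refine Ioo_mem_nhdsGT (lt_min ht.2 ?_)
        have := (abs_lt.1 hts).2
        linarith
      filter_upwards [h5] with y hy
      refine hab y ⟨(ht.1.trans hy.1).le, (hy.2.trans_le (min_le_left _ _)).le⟩ ?_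
      rw [abs_lt]
      have h6 := hy.2.trans_le (min_le_right _ _)
      have h7 := (abs_lt.1 hts).1
      constructor <;> linarith [hy.1]
    exact (uniqueDiffWithinAt_Ioi t).eq_deriv _ (h.hasDeriv ht) h2
  -- a point below
  have h2 : η < a := by
    have h3 : max 0 (s - ε) < s := max_lt h0 (by linarith)
    obtain ⟨t, ht1, ht2⟩ := exists_between h3
    have ht0 : 0 < t := lt_of_le_of_lt (le_max_left _ _) ht1
    have ht3 : s - ε < t := lt_of_le_of_lt (le_max_right _ _) ht1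
    have h4 := h.below_S hη ht0 ht2
    rwa [hder t ⟨ht0, ht2.trans h1⟩ (by rw [abs_lt]; constructor <;> linarith)] at h4
  have h3 : a ≤ η := by
    have h4 : s < min (2 * π) (s + ε) := lt_min h1 (by linarith)
    obtain ⟨t, ht1, ht2⟩ := exists_between h4
    have ht3 := ht2.trans_le (min_le_left _ _)
    have ht4 := ht2.trans_le (min_le_right _ _)
    have h5 := h.above_S hη ht1
    rwa [hder t ⟨h0.trans ht1, ht3⟩ (by rw [abs_lt]; constructor <;> linarith)] at h5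
  linarith

/-- Near a bending point there are many values of `S`. -/
theorem IsWt.bend_near (h : IsWt Ψ) {s : ℝ} (hs : Bend Ψ s) {ε : ℝ} (hε : 0 < ε) :
    volume ({η | |S Ψ η - s| < ε} ∩ Ioi 0) ≠ 0 := by
  obtain ⟨hs0, hs1, hs2⟩ := hs
  set ε' := min (ε / 2) (min s (2 * π - s)) with hε'
  have hε'pos : 0 < ε' := lt_min (by linarith) (lt_min hs0 (by linarith))
  have e1 : ε' ≤ ε / 2 := min_le_left _ _
  have e2 : ε' ≤ s := (min_le_right _ _).trans (min_le_left _ _)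
  have e3 : ε' ≤ 2 * π - s := (min_le_right _ _).trans (min_le_right _ _)
  have hJ : ∀ t, |t - s| < ε' → t ∈ Ioo 0 (2 * π) := by
    intro t ht
    obtain ⟨h1, h2⟩ := abs_lt.1 ht
    constructor <;> linarith
  -- two points with different slopes
  have hex : ∃ p q, |p - s| < ε' ∧ |q - s| < ε' ∧ p < q ∧ wd Ψ q < wd Ψ p := by
    by_contra hno
    push Not at hno
    have hconst : ∀ t, |t - s| < ε' → wd Ψ t = wd Ψ s := by
      intro t ht
      have hss : |s - s| < ε' := by simpa using hε'pos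
      rcases lt_trichotomy t s with h1 | h1 | h1
      · exact le_antisymm (hno t s ht hss h1) (h.wd_anti (hJ t ht) (hJ s hss) h1.le)
      · rw [h1]
      · exact le_antisymm (h.wd_anti (hJ s hss) (hJ t ht) h1.le) (hno s t hss ht h1)
    apply hs2 ε' hε'pos
    refine ⟨wd Ψ s, Ψ s - wd Ψ s * s, fun t _ ht => ?_⟩
    have hss : |s - s| < ε' := by simpa using hε'pos
    have key : ∀ a b, |a - s| < ε' → |b - s| < ε' → a ≤ b → Ψ b - Ψ a = wd Ψ s * (b - a) := by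
      intro a b ha hb hab
      rw [← h.sub_eq (hJ a ha).1 hab (hJ b hb).2]
      have h1 : ∫ t in a..b, wd Ψ t = ∫ _t in a..b, wd Ψ s := by
        apply intervalIntegral.integral_congr
        intro t ht'
        rw [uIcc_of_le hab] at ht'
        refine hconst t ?_
        rw [abs_lt] at ha hb ⊢
        constructor <;> linarith [ht'.1, ht'.2]
      rw [h1, intervalIntegral.integral_const, smul_eq_mul]
      ring
    rcases le_total t s with h1 | h1
    · have h2 := key t s ht hss h1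
      linarith
    · have h2 := key s t hss ht h1
      linarith
  obtain ⟨p, q, hp, hq, hpq, hw⟩ := hex
  have hsub : Ioo (wd Ψ q) (wd Ψ p) ⊆ {η | |S Ψ η - s| < ε} ∩ Ioi 0 := by
    intro η hη
    have hη0 : 0 < η := lt_of_le_of_lt (h.wd_nonneg q) hη.1
    refine ⟨?_, hη0⟩
    have h1 : p ≤ S Ψ η := by
      by_contra hlt
      rw [not_le] at hlt
      have := h.above_S hη0.le hlt
      linarith [hη.2]
    have h2 : S Ψ η ≤ q := by
      by_contra hlt
      rw [not_le] at hlt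
      have := h.below_S hη0.le (hJ q hq).1 hlt
      linarith [hη.1]
    show |S Ψ η - s| < ε
    rw [abs_lt] at hp hq ⊢
    constructor <;> linarith
  intro h0
  have h1 := measure_mono_null hsub h0
  rw [Real.volume_Ioo, ENNReal.ofReal_eq_zero] at h1
  linarith

end Pool.Agent.H352R5.HL
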