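import Pool.Agent.H352R5.HL.Stubs

/-!
# More statements: strictly concave weights, inner and outer functions
-/

namespace Pool.Agent.H352R5.HL

open MeasureTheory Set Filter Topology
open scoped ENNReal NNReal Real

/-- SCG -/
def S_SCG : Prop := ∀ (a C : ℝ) (E : Set ℝ) (u v : ℝ → ℝ), 0 ≤ a → 0 ≤ C → MeasurableSet E →
  μT E = ENNReal.ofReal a → Measurable u → Measurable v →
  (∀ s, 0 < s → s < a → ∃ E' ⊆ E, MeasurableSet E' ∧ μT E' = ENNReal.ofReal s ∧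
    ∀ᵐ t ∂μT, t ∈ E' → ∀ᵐ t' ∂μT, t' ∈ E \ E' → u t' ≤ u t ∧ |v t - v t'| ≤ C * (u t - u t')) →
  ∃ φ : ℝ → ℝ, (∀ p q, |φ p - φ q| ≤ C * |p - q|) ∧ ∀ᵐ t ∂μT, t ∈ E → v t = φ (u t)

/-- BEU (from U4) -/
def S_BEU : Prop := ∀ F : ℝ → ℂ, Outer F → ∀ g : ℝ → ℂ, Measurable g → (∃ B : ℝ, ∀ t, ‖g t‖ ≤ B) →
  Four (fun t => g t * F t) → Four g

/-- PROD (from B2a, B2b) -/
def S_PROD : Prop := ∀ g F : ℝ → ℂ, Measurable g → (∃ B : ℝ, ∀ t, ‖g t‖ ≤ B) → Four g →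
  Integrable F μT → Four F → Four (fun t => g t * F t)

/-- POLY (from U5) -/
def S_POLY : Prop := ∀ (k : ℝ → ℝ) (n : ℕ), Measurable k → (∃ B : ℝ, ∀ t, |k t| ≤ B) →
  Four (fun t => (k t : ℂ) * Complex.exp (Complex.I * (n : ℂ) * t)) →
  ∃ a b : ℕ → ℝ, ∀ᵐ t ∂μT,
    k t = a 0 + ∑ m ∈ Finset.Icc 1 n, (a m * Real.cos (m * t) + b m * Real.sin (m * t))

end Pool.Agent.H352R5.HL
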