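import Pool.Agent.H352R5.HL.K

/-!
# Existence of top sets; subadditivity of `K_s` and its case of equality
-/

namespace Pool.Agent.H352R5.HL

open MeasureTheory Set Filter Topology
open scoped ENNReal NNReal Real

theorem top_of_sandwich {x : ℝ → ℝ} {E : Set ℝ} {c : ℝ} (h1 : {t | c < x t} ⊆ E)
    (h2 : E ⊆ {t | c ≤ x t}) : Top E x := by
  refine Filter.Eventually.of_forall fun t ht => Filter.Eventually.of_forall fun t' ht' => ?_
  have h3 : c ≤ x t := h2 ht
  have h4 : ¬ c < x t' := fun h => ht' (h1 h)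
  exact (not_lt.1 h4).trans h3

/-- The measure of the part of a set below `θ` is continuous in `θ`. -/
theorem cont_cut (A B : Set ℝ) : Continuous fun θ : ℝ => (μT (A ∪ (B ∩ Iic θ))).toReal := by
  have hlip : LipschitzWith 1 fun θ : ℝ => (μT (A ∪ (B ∩ Iic θ))).toReal := by
    refine LipschitzWith.of_le_add fun a b => ?_
    rw [Real.dist_eq]
    have h1 : μT (A ∪ (B ∩ Iic a)) ≤ μT (A ∪ (B ∩ Iic b)) + ENNReal.ofReal |a - b| := by
      have h2 : A ∪ (B ∩ Iic a) ⊆ (A ∪ (B ∩ Iic b)) ∪ Ioc b a := by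
        rintro t (ht | ht)
        · exact Or.inl (Or.inl ht)
        · rcases le_or_gt t b with h | h
          · exact Or.inl (Or.inr ⟨ht.1, h⟩)
          · exact Or.inr ⟨h, ht.2⟩
      refine (measure_mono h2).trans ((measure_union_le _ _).trans ?_)
      refine add_le_add le_rfl ?_
      refine (Measure.restrict_apply_le _ _).trans ?_
      rw [Real.volume_Ioc]
      exact ENNReal.ofReal_le_ofReal (le_abs_self _)
    have h3 := ENNReal.toReal_mono (by finiteness) h1
    rw [ENNReal.toReal_add (μT_ne_top _) ENNReal.ofReal_ne_top,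
      ENNReal.toReal_ofReal (abs_nonneg _)] at h3
    exact h3
  exact hlip.continuous

/-- Existence of a top set of given measure. -/
theorem exists_top {x : ℝ → ℝ} (hx : Measurable x) (h0 : ∀ t, 0 ≤ x t) {s : ℝ} (hs : 0 ≤ s)
    (hs' : s ≤ 2 * π) : ∃ E, MeasurableSet E ∧ Top E x ∧ μT E = ENNReal.ofReal s := by
  classical
  -- the level
  set S : Set ℝ := {τ | 0 ≤ τ ∧ dis x τ ≤ ENNReal.ofReal s} with hS
  rcases hs.eq_or_lt with rfl | hspos
  · exact ⟨∅, MeasurableSet.empty, Filter.Eventually.of_forall fun t ht => ht.elim, by simp⟩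
  have hSne : S.Nonempty := by
    -- the distribution function tends to zero
    have h1 : Tendsto (fun n : ℕ => dis x n) atTop (𝓝 (μT (⋂ n : ℕ, {t | (n : ℝ) < x t}))) := by
      refine tendsto_measure_iInter_atTop (fun n => (measurableSet_lt measurable_const hx).nullMeasurableSet)
        ?_ ⟨0, μT_ne_top _⟩
      intro m n hmn t ht
      have ht' : (n : ℝ) < x t := ht
      show (m : ℝ) < x t
      exact lt_of_le_of_lt (Nat.cast_le.2 hmn) ht'
    have h2 : (⋂ n : ℕ, {t | (n : ℝ) < x t}) = ∅ := by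
      rw [eq_empty_iff_forall_notMem]
      intro t ht
      obtain ⟨n, hn⟩ := exists_nat_ge (x t)
      exact absurd (mem_iInter.1 ht n) (not_lt.2 hn)
    rw [h2, measure_empty] at h1
    have h3 : (0 : ℝ≥0∞) < ENNReal.ofReal s := ENNReal.ofReal_pos.2 hspos
    obtain ⟨n, hn⟩ := (h1.eventually (gt_mem_nhds h3)).exists
    exact ⟨n, Nat.cast_nonneg n, hn.le⟩
  set c : ℝ := sInf S with hc
  have hcnn : 0 ≤ c := le_csInf hSne fun τ hτ => hτ.1
  have hbdd : BddBelow S := ⟨0, fun τ hτ => hτ.1⟩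
  -- above the level
  have hup : dis x c ≤ ENNReal.ofReal s := by
    have h1 : Tendsto (fun n : ℕ => dis x (c + 1 / (n + 1))) atTop
        (𝓝 (μT (⋃ n : ℕ, {t | c + 1 / ((n : ℝ) + 1) < x t}))) := by
      refine tendsto_measure_iUnion_atTop ?_
      intro m n hmn t ht
      have ht' : c + 1 / ((m : ℝ) + 1) < x t := ht
      show c + 1 / ((n : ℝ) + 1) < x t
      refine lt_of_le_of_lt ?_ ht'
      have h2 : 1 / ((n : ℝ) + 1) ≤ 1 / ((m : ℝ) + 1) := by
        apply one_div_le_one_div_of_le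
        · positivity
        · have : (m : ℝ) ≤ n := Nat.cast_le.2 hmn
          linarith
      linarith
    have h2 : (⋃ n : ℕ, {t | c + 1 / ((n : ℝ) + 1) < x t}) = {t | c < x t} := by
      ext t
      simp only [mem_iUnion, mem_ofPred_eq]
      constructor
      · rintro ⟨n, hn⟩
        have : (0 : ℝ) < 1 / ((n : ℝ) + 1) := by positivity
        linarith
      · intro h
        obtain ⟨n, hn⟩ := exists_nat_one_div_lt (sub_pos.2 h)
        exact ⟨n, by linarith⟩
    rw [h2] at h1
    refine le_of_tendsto h1 (Filter.Eventually.of_forall fun n => ?_)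
    obtain ⟨τ, hτ, hτ'⟩ := exists_lt_of_csInf_lt hSne
      (show sInf S < c + 1 / ((n : ℝ) + 1) by
        have : (0 : ℝ) < 1 / ((n : ℝ) + 1) := by positivity
        linarith)
    exact (dis_anti x hτ'.le).trans hτ.2
  have hlow : ENNReal.ofReal s ≤ μT {t | c ≤ x t} := by
    rcases hcnn.eq_or_lt with h | hcpos
    · have h1 : {t | c ≤ x t} = univ := by
        ext t
        simp only [mem_ofPred_eq, mem_univ, iff_true]
        rw [← h]
        exact h0 t
      rw [h1, μT_univ]
      exact ENNReal.ofReal_le_ofReal hs'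
    · have h1 : Tendsto (fun n : ℕ => dis x (c - c / (n + 1))) atTop
          (𝓝 (μT (⋂ n : ℕ, {t | c - c / ((n : ℝ) + 1) < x t}))) := by
        refine tendsto_measure_iInter_atTop (fun n => (measurableSet_lt measurable_const hx).nullMeasurableSet)
          ?_ ⟨0, μT_ne_top _⟩
        intro m n hmn t ht
        have ht' : c - c / ((n : ℝ) + 1) < x t := ht
        show c - c / ((m : ℝ) + 1) < x t
        refine lt_of_le_of_lt ?_ ht'
        have h2 : c / ((n : ℝ) + 1) ≤ c / ((m : ℝ) + 1) := by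
          apply div_le_div_of_nonneg_left hcpos.le
          · positivity
          · have : (m : ℝ) ≤ n := Nat.cast_le.2 hmn
            linarith
        linarith
      have h2 : (⋂ n : ℕ, {t | c - c / ((n : ℝ) + 1) < x t}) = {t | c ≤ x t} := by
        ext t
        simp only [mem_iInter, mem_ofPred_eq]
        constructor
        · intro h
          by_contra hlt
          rw [not_le] at hlt
          obtain ⟨n, hn⟩ := exists_nat_one_div_lt (div_pos (sub_pos.2 hlt) hcpos)
          have h3 := h n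
          have h4 : c / ((n : ℝ) + 1) < c - x t := by
            have h5 := mul_lt_mul_of_pos_right hn hcpos
            rw [div_mul_cancel₀ _ hcpos.ne'] at h5
            calc c / ((n : ℝ) + 1) = 1 / ((n : ℝ) + 1) * c := by ring
              _ < _ := h5
          linarith
        · intro h n
          have : (0 : ℝ) < c / ((n : ℝ) + 1) := by positivity
          linarith
      rw [h2] at h1
      refine ge_of_tendsto h1 (Filter.Eventually.of_forall fun n => ?_)
      by_contra hlt
      rw [not_le] at hlt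
      have hle1 : c / ((n : ℝ) + 1) ≤ c := by
        apply div_le_self hcpos.le
        have : (0 : ℝ) ≤ n := Nat.cast_nonneg n
        linarith
      have hmem : c - c / ((n : ℝ) + 1) ∈ S := ⟨by linarith, hlt.le⟩
      have h3 := csInf_le hbdd hmem
      have h4 : (0 : ℝ) < c / ((n : ℝ) + 1) := by positivity
      linarith
  -- cut the plateau
  set f : ℝ → ℝ := fun θ => (μT ({t | c < x t} ∪ ({t | c ≤ x t} ∩ Iic θ))).toReal with hf
  have hfc : ContinuousOn f (Icc 0 (2 * π)) := (cont_cut _ _).continuousOn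
  have hf0 : f 0 ≤ s := by
    have h1 : μT ({t | c < x t} ∪ ({t | c ≤ x t} ∩ Iic 0)) ≤ ENNReal.ofReal s := by
      refine (measure_union_le _ _).trans ?_
      have h2 : μT ({t | c ≤ x t} ∩ Iic 0) = 0 := by
        refine measure_mono_null inter_subset_right ?_
        unfold μT
        rw [Measure.restrict_apply measurableSet_Iic]
        have h3 : Iic (0 : ℝ) ∩ Ioc 0 (2 * π) = ∅ := by
          ext t
          simp only [mem_inter_iff, mem_Iic, mem_Ioc, mem_empty_iff_false, iff_false]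
          rintro ⟨h4, h5, _⟩
          linarith
        rw [h3, measure_empty]
      rw [h2, add_zero]
      exact hup
    have h3 := ENNReal.toReal_mono ENNReal.ofReal_ne_top h1
    rwa [ENNReal.toReal_ofReal hs] at h3
  have hf1 : s ≤ f (2 * π) := by
    have h1 : ENNReal.ofReal s ≤ μT ({t | c < x t} ∪ ({t | c ≤ x t} ∩ Iic (2 * π))) := by
      refine hlow.trans ?_
      have h2 : μT {t | c ≤ x t} = μT ({t | c ≤ x t} ∩ Iic (2 * π)) := by
        refine measure_congr ?_
        have h3 : ∀ᵐ t ∂μT, t ∈ Ioc (0 : ℝ) (2 * π) := ae_restrict_mem measurableSet_Ioc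
        filter_upwards [h3] with t ht
        apply propext
        constructor
        · intro h
          exact ⟨h, ht.2⟩
        · intro h
          exact h.1
      rw [h2]
      exact measure_mono subset_union_right
    have h3 := ENNReal.toReal_mono (μT_ne_top _) h1
    rwa [ENNReal.toReal_ofReal hs] at h3
  obtain ⟨θ, -, hθ⟩ := intermediate_value_Icc two_pi_pos.le hfc ⟨hf0, hf1⟩
  refine ⟨{t | c < x t} ∪ ({t | c ≤ x t} ∩ Iic θ), ?_, ?_, ?_⟩
  · exact (measurableSet_lt measurable_const hx).union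
      ((measurableSet_le measurable_const hx).inter measurableSet_Iic)
  · refine top_of_sandwich (c := c) subset_union_left ?_
    rintro t (ht | ht)
    · have ht' : c < x t := ht
      show c ≤ x t
      exact ht'.le
    · exact ht.1
  · rw [← hθ, hf, ENNReal.ofReal_toReal (μT_ne_top _)]

theorem K_add_le {x y : ℝ → ℝ} (hx : Measurable x) (hy : Measurable y) (hx0 : ∀ t, 0 ≤ x t)
    (hy0 : ∀ t, 0 ≤ y t) {s : ℝ} (hs : 0 ≤ s) (hs' : s ≤ 2 * π) :
    K s (fun t => x t + y t) ≤ K s x + K s y := by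
  obtain ⟨E, hE, hT, hm⟩ := exists_top (hx.add hy) (fun t => add_nonneg (hx0 t) (hy0 t)) hs hs'
  have h1 := hT.setInt_eq (hx.add hy) (fun t => add_nonneg (hx0 t) (hy0 t)) hE hm
  have h2 : K s (fun t => x t + y t) = ∫⁻ t in E, ENNReal.ofReal (x t + y t) ∂μT := h1.symm
  rw [h2]
  have h3 : ∫⁻ t in E, ENNReal.ofReal (x t + y t) ∂μT
      = ∫⁻ t in E, ENNReal.ofReal (x t) ∂μT + ∫⁻ t in E, ENNReal.ofReal (y t) ∂μT := by
    rw [← lintegral_add_left (by fun_prop)]
    refine lintegral_congr fun t => ENNReal.ofReal_add (hx0 t) (hy0 t)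
  rw [h3]
  exact add_le_add (setInt_le_K hx hx0 hE hm.le) (setInt_le_K hy hy0 hE hm.le)

/-- The case of equality. -/
theorem common_top {x y : ℝ → ℝ} (hx : Measurable x) (hy : Measurable y) (hx0 : ∀ t, 0 ≤ x t)
    (hy0 : ∀ t, 0 ≤ y t) (hxf : ∫⁻ t, ENNReal.ofReal (x t) ∂μT ≠ ∞)
    (hyf : ∫⁻ t, ENNReal.ofReal (y t) ∂μT ≠ ∞) {s : ℝ} (hs : 0 ≤ s) (hs' : s ≤ 2 * π)
    (h : K s x + K s y ≤ K s (fun t => x t + y t)) :
    ∃ E, MeasurableSet E ∧ μT E = ENNReal.ofReal s ∧ Top E x ∧ Top E y := by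
  obtain ⟨E, hE, hT, hm⟩ := exists_top (hx.add hy) (fun t => add_nonneg (hx0 t) (hy0 t)) hs hs'
  have h1 := hT.setInt_eq (hx.add hy) (fun t => add_nonneg (hx0 t) (hy0 t)) hE hm
  have h3 : ∫⁻ t in E, ENNReal.ofReal ((x + y) t) ∂μT
      = ∫⁻ t in E, ENNReal.ofReal (x t) ∂μT + ∫⁻ t in E, ENNReal.ofReal (y t) ∂μT := by
    rw [← lintegral_add_left (by fun_prop)]
    refine lintegral_congr fun t => ENNReal.ofReal_add (hx0 t) (hy0 t)
  have h4 : K s x + K s y ≤ ∫⁻ t in E, ENNReal.ofReal (x t) ∂μT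
      + ∫⁻ t in E, ENNReal.ofReal (y t) ∂μT := by
    rw [← h3, h1]
    exact h
  have hKx : K s x ≠ ∞ := ne_top_of_le_ne_top hxf (K_le_int hx hx0 s)
  have hKy : K s y ≠ ∞ := ne_top_of_le_ne_top hyf (K_le_int hy hy0 s)
  have ha := setInt_le_K hx hx0 hE hm.le
  have hb := setInt_le_K hy hy0 hE hm.le
  refine ⟨E, hE, hm, ?_, ?_⟩
  · refine top_of_setInt hx hx0 hxf hE hm ?_
    have h5 : K s x + K s y ≤ ∫⁻ t in E, ENNReal.ofReal (x t) ∂μT + K s y :=
      h4.trans (add_le_add le_rfl hb)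
    exact (ENNReal.add_le_add_iff_right hKy).1 h5
  · refine top_of_setInt hy hy0 hyf hE hm ?_
    have h5 : K s x + K s y ≤ K s x + ∫⁻ t in E, ENNReal.ofReal (y t) ∂μT :=
      h4.trans (add_le_add ha le_rfl)
    exact (ENNReal.add_le_add_iff_left hKx).1 h5

/-- A common top set gives equality. -/
theorem add_le_of_common {x y : ℝ → ℝ} (hx : Measurable x) (hy : Measurable y)
    (hx0 : ∀ t, 0 ≤ x t) (hy0 : ∀ t, 0 ≤ y t) {s : ℝ} {E : Set ℝ} (hE : MeasurableSet E)
    (hm : μT E = ENNReal.ofReal s) (hTx : Top E x) (hTy : Top E y) :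
    K s x + K s y ≤ K s (fun t => x t + y t) := by
  rw [← hTx.setInt_eq hx hx0 hE hm, ← hTy.setInt_eq hy hy0 hE hm]
  rw [← lintegral_add_left (by fun_prop)]
  have h3 : ∫⁻ t in E, (ENNReal.ofReal (x t) + ENNReal.ofReal (y t)) ∂μT
      = ∫⁻ t in E, ENNReal.ofReal ((fun t => x t + y t) t) ∂μT :=
    lintegral_congr fun t => (ENNReal.ofReal_add (hx0 t) (hy0 t)).symm
  rw [h3]
  exact setInt_le_K (hx.add hy) (fun t => add_nonneg (hx0 t) (hy0 t)) hE hm.le

/-- `K_s x` is continuous in `s`. -/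
theorem K_tendsto {x : ℝ → ℝ} (hx : Measurable x) (hx0 : ∀ t, 0 ≤ x t)
    (hxf : ∫⁻ t, ENNReal.ofReal (x t) ∂μT ≠ ∞) {σ : ℕ → ℝ} {s : ℝ}
    (h : Tendsto σ atTop (𝓝 s)) : Tendsto (fun n => K (σ n) x) atTop (𝓝 (K s x)) := by
  unfold K
  refine tendsto_lintegral_of_dominated_convergence (dis x) (fun n => K_meas_aux _ _)
    (fun n => Filter.Eventually.of_forall fun τ => min_le_left _ _) ?_ ?_
  · rw [← int_eq hx hx0]
    exact hxf
  · refine Filter.Eventually.of_forall fun τ => ?_
    exact Tendsto.min tendsto_const_nhds (ENNReal.tendsto_ofReal h)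

end Pool.Agent.H352R5.HL
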