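import Pool.Agent.H352R5.HL.Stubs

set_option autoImplicit false

open MeasureTheory
open scoped ENNReal

namespace Pool.Agent.H352R5.HL

theorem tP3a : S_P3a := by
  intro k hk hk0 h1 h2 x y hx hy hx0 hxy τ hτ
  have hmk : ∀ t, Measurable (fun θ => ENNReal.ofReal (k t θ)) := fun t =>
    (hk.comp (measurable_const.prodMk measurable_id)).ennreal_ofReal
  have hmk' : ∀ θ, Measurable (fun t => ENNReal.ofReal (k t θ)) := fun θ =>
    (hk.comp (measurable_id.prodMk measurable_const)).ennreal_ofReal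
  have hmx : Measurable (fun θ => ENNReal.ofReal (x θ - τ)) := (hx.sub_const τ).ennreal_ofReal
  have key : ∀ t, ENNReal.ofReal (y t - τ) ≤
      ∫⁻ θ, ENNReal.ofReal (k t θ) * ENNReal.ofReal (x θ - τ) ∂μT := by
    intro t
    have h3 : ENNReal.ofReal (y t) ≤
        (∫⁻ θ, ENNReal.ofReal (k t θ) * ENNReal.ofReal (x θ - τ) ∂μT) + ENNReal.ofReal τ := by
      calc ENNReal.ofReal (y t) ≤ ∫⁻ θ, ENNReal.ofReal (k t θ) * ENNReal.ofReal (x θ) ∂μT := hxy t
        _ ≤ ∫⁻ θ, (ENNReal.ofReal (k t θ) * ENNReal.ofReal (x θ - τ) +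
            ENNReal.ofReal (k t θ) * ENNReal.ofReal τ) ∂μT := by
          apply lintegral_mono
          intro θ
          dsimp only
          rw [← mul_add]
          gcongr
          calc ENNReal.ofReal (x θ) = ENNReal.ofReal ((x θ - τ) + τ) := by rw [sub_add_cancel]
            _ ≤ _ := ENNReal.ofReal_add_le
        _ = _ := by
          have e := lintegral_add_left (μ := μT)
            (f := fun θ => ENNReal.ofReal (k t θ) * ENNReal.ofReal (x θ - τ)) ((hmk t).mul hmx)
            (fun θ => ENNReal.ofReal (k t θ) * ENNReal.ofReal τ)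
          rw [e, lintegral_mul_const _ (hmk t), h1, one_mul]
    rw [ENNReal.ofReal_sub _ hτ]
    exact tsub_le_iff_right.2 h3
  calc ∫⁻ t, ENNReal.ofReal (y t - τ) ∂μT
      ≤ ∫⁻ t, ∫⁻ θ, ENNReal.ofReal (k t θ) * ENNReal.ofReal (x θ - τ) ∂μT ∂μT :=
        lintegral_mono key
    _ = ∫⁻ θ, ∫⁻ t, ENNReal.ofReal (k t θ) * ENNReal.ofReal (x θ - τ) ∂μT ∂μT := by
        apply lintegral_lintegral_swap
        apply Measurable.aemeasurable
        exact hk.ennreal_ofReal.mul (hmx.comp measurable_snd)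
    _ = ∫⁻ θ, ENNReal.ofReal (x θ - τ) ∂μT := by
        apply lintegral_congr
        intro θ
        rw [lintegral_mul_const _ (hmk' θ), h2, one_mul]

end Pool.Agent.H352R5.HL
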