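import Pool.Agent.H352R5.HL.Stubs

/-!
# U4: Jensen's inequality
-/

namespace Pool.Agent.H352R5.HL

open MeasureTheory Set Filter Topology
open scoped ENNReal NNReal Real

namespace U4

theorem real_univ : (μT : Measure ℝ).real univ = 2 * π := by
  rw [μT, Measure.real, Measure.restrict_apply_univ, Real.volume_Ioc, sub_zero,
    ENNReal.toReal_ofReal two_pi_pos.le]

/-- bounds for `log (min x N + ε)` -/
theorem log_bounds {x N ε : ℝ} (hx : 0 ≤ x) (hN : 0 ≤ N) (hε : 0 < ε) :
    Real.log ε ≤ Real.log (min x N + ε) ∧ Real.log (min x N + ε) ≤ Real.log (N + ε) := by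
  have h0 : 0 ≤ min x N := le_min hx hN
  have h1 : min x N ≤ N := min_le_right _ _
  exact ⟨Real.log_le_log hε (by linarith), Real.log_le_log (by linarith) (by linarith)⟩

theorem frac_le {x N ε : ℝ} (hx : 0 ≤ x) (hN : 0 < N) (hε : 0 < ε) :
    x / (min x N + ε) ≤ 1 + x / N := by
  have h3 : 0 ≤ x / N := div_nonneg hx hN.le
  rcases le_total x N with h | h
  · rw [min_eq_left h]
    have : x / (x + ε) ≤ 1 := by
      rw [div_le_one (by linarith)]
      linarith
    linarith
  · rw [min_eq_right h]
    have : x / (N + ε) ≤ x / N := div_le_div_of_nonneg_left hx hN (by linarith)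
    linarith

theorem meas_w {f : ℝ → ℂ} (hf : Measurable f) (N ε : ℝ) :
    Measurable (fun t => Real.log (min ‖f t‖ N + ε)) :=
  Real.measurable_log.comp ((hf.norm.min measurable_const).add_const ε)

theorem int_w {f : ℝ → ℂ} (hf : Measurable f) {N ε : ℝ} (hN : 0 ≤ N) (hε : 0 < ε) :
    Integrable (fun t => Real.log (min ‖f t‖ N + ε)) μT := by
  refine Integrable.of_bound (meas_w hf N ε).aestronglyMeasurable
    (max |Real.log ε| |Real.log (N + ε)|) (Eventually.of_forall fun t => ?_)
  obtain ⟨h1, h2⟩ := log_bounds (norm_nonneg (f t)) hN hε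
  rw [Real.norm_eq_abs, abs_le]
  constructor
  · have := neg_abs_le (Real.log ε)
    have h3 := le_max_left |Real.log ε| |Real.log (N + ε)|
    linarith
  · have := le_abs_self (Real.log (N + ε))
    have h3 := le_max_right |Real.log ε| |Real.log (N + ε)|
    linarith

theorem int_log {f : ℝ → ℂ} (hf : Measurable f) (hi : Integrable f μT) {ε : ℝ} (hε : 0 < ε) :
    Integrable (fun t => Real.log (‖f t‖ + ε)) μT := by
  refine Integrable.mono' (g := fun t => |Real.log ε| + (‖f t‖ + ε))
    ((integrable_const _).add (hi.norm.add (integrable_const _)))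
    (Real.measurable_log.comp (hf.norm.add_const ε)).aestronglyMeasurable
    (Eventually.of_forall fun t => ?_)
  have h0 := norm_nonneg (f t)
  have h1 : Real.log ε ≤ Real.log (‖f t‖ + ε) := Real.log_le_log hε (by linarith)
  have h2 : Real.log (‖f t‖ + ε) ≤ ‖f t‖ + ε - 1 := Real.log_le_sub_one_of_pos (by linarith)
  have h3 := neg_abs_le (Real.log ε)
  have h4 := abs_nonneg (Real.log ε)
  rw [Real.norm_eq_abs, abs_le]
  constructor <;> linarith

end U4

open U4 in
theorem tU4 (h3 : S_U3) : S_U4 := by
  intro f hf hi hF ε hε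
  have hpi : (0 : ℝ) < 2 * π := two_pi_pos
  set m : ℝ := (1 / (2 * π)) * ∫ t, Real.log (‖f t‖ + ε) ∂μT with hm
  -- the inequality for the truncation at `N`
  have key : ∀ N : ℝ, 0 < N →
      ‖∫ t, f t ∂μT‖ ≤ Real.exp m * (2 * π + (∫ t, ‖f t‖ ∂μT) / N) := by
    intro N hN
    set w : ℝ → ℝ := fun t => Real.log (min ‖f t‖ N + ε) with hw
    set mN : ℝ := (1 / (2 * π)) * ∫ t, w t ∂μT with hmN
    have hwi : Integrable w μT := int_w hf hN.le hε
    have hmle : mN ≤ m := by
      refine mul_le_mul_of_nonneg_left ?_ (by positivity)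
      refine integral_mono hwi (int_log hf hi hε) fun t => ?_
      have h0 : 0 ≤ min ‖f t‖ N := le_min (norm_nonneg _) hN.le
      have h1 : min ‖f t‖ N ≤ ‖f t‖ := min_le_left _ _
      exact Real.log_le_log (by linarith) (by linarith)
    have hv0 : ∫ t, (mN - w t) ∂μT = 0 := by
      rw [integral_sub (integrable_const _) hwi, integral_const, real_univ, hmN, smul_eq_mul]
      field_simp
      ring
    have hvB : ∃ B : ℝ, ∀ t, |mN - w t| ≤ B := by
      refine ⟨|mN| + max |Real.log ε| |Real.log (N + ε)|, fun t => ?_⟩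
      obtain ⟨h1, h2⟩ := log_bounds (norm_nonneg (f t)) hN.le hε
      have h3 := le_max_left |Real.log ε| |Real.log (N + ε)|
      have h4 := le_max_right |Real.log ε| |Real.log (N + ε)|
      have h5 := neg_abs_le (Real.log ε)
      have h6 := le_abs_self (Real.log (N + ε))
      have h7 := neg_abs_le mN
      have h8 := le_abs_self mN
      rw [abs_le]
      constructor
      · simp only [hw]
        linarith
      · simp only [hw]
        linarith
    have h := h3 f hi hF (fun t => mN - w t) ((meas_w hf N ε).const_sub mN) hvB hv0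
    refine h.trans ?_
    have hle : ∀ t, ‖f t‖ * Real.exp (mN - w t) ≤ Real.exp m * (1 + ‖f t‖ / N) := by
      intro t
      have h0 : 0 ≤ min ‖f t‖ N := le_min (norm_nonneg _) hN.le
      have he : Real.exp (mN - w t) = Real.exp mN / (min ‖f t‖ N + ε) := by
        rw [Real.exp_sub, hw, Real.exp_log (by linarith)]
      rw [he]
      have h1 : ‖f t‖ * (Real.exp mN / (min ‖f t‖ N + ε)) =
          Real.exp mN * (‖f t‖ / (min ‖f t‖ N + ε)) := by ring
      rw [h1]
      refine mul_le_mul (Real.exp_le_exp.2 hmle) (frac_le (norm_nonneg _) hN hε)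
        (div_nonneg (norm_nonneg _) (by linarith)) (Real.exp_pos _).le
    have hint : Integrable (fun t => Real.exp m * (1 + ‖f t‖ / N)) μT :=
      ((integrable_const (1 : ℝ)).add (hi.norm.div_const N)).const_mul _
    have hint0 : Integrable (fun t => ‖f t‖ * Real.exp (mN - w t)) μT := by
      refine Integrable.mono' hint ?_ (Eventually.of_forall fun t => ?_)
      · exact (hf.norm.mul (Real.measurable_exp.comp
          ((meas_w hf N ε).const_sub mN))).aestronglyMeasurable
      · rw [Real.norm_eq_abs, abs_of_nonneg (mul_nonneg (norm_nonneg _) (Real.exp_pos _).le)]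
        exact hle t
    calc ∫ t, ‖f t‖ * Real.exp (mN - w t) ∂μT
        ≤ ∫ t, Real.exp m * (1 + ‖f t‖ / N) ∂μT := integral_mono hint0 hint hle
      _ = Real.exp m * (2 * π + (∫ t, ‖f t‖ ∂μT) / N) := by
          rw [integral_const_mul, integral_add (integrable_const _) (hi.norm.div_const N),
            integral_const, real_univ, integral_div, smul_eq_mul, mul_one]
  have hlim : Tendsto (fun n : ℕ => Real.exp m * (2 * π + (∫ t, ‖f t‖ ∂μT) / ((n : ℝ) + 1)))
      atTop (𝓝 (Real.exp m * (2 * π + 0))) := by
    refine Tendsto.const_mul _ (Tendsto.const_add _ ?_)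
    exact tendsto_const_nhds.div_atTop
      (tendsto_atTop_add_const_right _ _ tendsto_natCast_atTop_atTop)
  have h := ge_of_tendsto' hlim fun n => key ((n : ℝ) + 1) (by positivity)
  rw [add_zero] at h
  linarith

end Pool.Agent.H352R5.HL
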